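import Pool.Agent.Mg.F1a2790.G74a675

section

/-! Normalised factorisations, compactness, small factors. -/

open Complex Set Filter Topology Metric Function
open scoped ComplexConjugate

namespace Pool.Agent.MP_1a2790_an

lemma image_comp_of_surj {ψ m : ℂ → ℂ} (hm : MapsTo m H H) (hs : H ⊆ m '' H) :
    (fun z => ψ (m z)) '' H = ψ '' H := by
  apply Subset.antisymm
  · rintro _ ⟨z, hz, rfl⟩; exact ⟨m z, hm hz, rfl⟩
  · rintro _ ⟨z, hz, rfl⟩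
    obtain ⟨w, hw, rfl⟩ := hs hz
    exact ⟨w, hw, rfl⟩

lemma surj_affine {a : ℝ} (ha : 0 < a) (b : ℝ) : H ⊆ (fun z => (a : ℂ) * z + b) '' H := by
  intro z hz
  refine ⟨((a⁻¹ : ℝ) : ℂ) * z + ((-(b / a) : ℝ) : ℂ), (univ_affine (inv_pos.2 ha) _).maps hz, ?_⟩
  have : (a : ℂ) ≠ 0 := by exact_mod_cast ha.ne'
  push_cast
  field_simp
  ring

lemma factor_norm_aux {g ψ h : ℂ → ℂ} (hψ : Univ ψ) (hh : Univ h) (e : ∀ z ∈ H, ψ (h z) = g z)
    (hc : 0 < cInf h) : ∃ ψ' h', Univ ψ' ∧ Univ h' ∧ ψ' '' H = ψ '' H ∧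
      (∀ z ∈ H, ψ' (h' z) = g z) ∧ Low h' 1 ∧ Low ψ' (cInf g) := by
  set κ := cInf h
  have hκ : (κ : ℂ) ≠ 0 := by exact_mod_cast hc.ne'
  refine ⟨fun w => ψ (κ * w + (0 : ℝ)), fun z => (κ⁻¹ : ℝ) * h z + (0 : ℝ),
    hψ.comp (univ_affine hc 0), (univ_affine (inv_pos.2 hc) 0).comp hh,
    image_comp_of_surj (univ_affine hc 0).maps (surj_affine hc 0), fun z hz => ?_, fun z hz => ?_,
    fun z hz => ?_⟩
  · rw [← e z hz]; beta_reduce; congr 1; push_cast; field_simp; ring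
  · have := hh.toHol.low_cInf z hz
    simp only [add_im, mul_im, ofReal_re, ofReal_im, zero_mul, add_zero, one_mul]
    rw [← div_eq_inv_mul, le_div_iff₀ hc]
    linarith
  · have h1 := hψ.toHol.low_cInf _ ((univ_affine hc 0).maps hz)
    have h2 : cInf g = cInf ψ * κ := by
      rw [← cInf_comp hψ.toHol hh.toHol hc]
      exact cInf_congr fun z hz => (e z hz).symm
    rw [h2]
    simpa [mul_assoc] using h1

lemma factor_norm₀ {g ψ : ℂ → ℂ} (hg : Univ g) (hc : 0 < cInf g) (hψ : Univ ψ)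
    (hsub : g '' H ⊆ ψ '' H) : ∃ ψ' h', Univ ψ' ∧ Univ h' ∧ ψ' '' H = ψ '' H ∧
      (∀ z ∈ H, ψ' (h' z) = g z) ∧ Low h' 1 ∧ Low ψ' (cInf g) := by
  obtain ⟨h, hh, e⟩ := exists_factor hg hψ hsub
  rcases normalize_contact hψ.toHol hh.toHol (by rwa [cInf_congr e]) with h1 | ⟨ξ, h1⟩
  · exact factor_norm_aux hψ hh e h1
  · obtain ⟨ψ', h', a1, a2, a3, a4⟩ := factor_norm_aux (g := g) (hψ.comp (univ_bom ξ))
      ((univ_mob ξ).comp hh) (fun z hz => by simp only [bom_mob]; exact e z hz) h1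
    refine ⟨ψ', h', a1, a2, ?_, a4⟩
    rw [a3]
    exact image_comp_of_surj (univ_bom ξ).maps fun z hz => ⟨mob ξ z, mob_mem_H ξ hz, bom_mob ξ z⟩

lemma univ_translate (b : ℝ) : Univ (fun z => z + b) :=
  (univ_affine one_pos b).congr fun z _ => by simp

lemma surj_translate (b : ℝ) : H ⊆ (fun z => z + b) '' H := fun z hz =>
  ⟨z + ((-b : ℝ) : ℂ), (univ_translate _).maps hz, by simp⟩

lemma low_translate (b : ℝ) : Low (fun z => z + b) 1 := fun z _ => by simp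

lemma Low.add_real {h : ℂ → ℂ} {c : ℝ} (hl : Low h c) (b : ℝ) : Low (fun z => h z + b) c :=
  fun z hz => by simpa using hl z hz

lemma Low.comp_add_real {h : ℂ → ℂ} {c : ℝ} (hl : Low h c) (b : ℝ) :
    Low (fun z => h (z + b)) c := fun z hz => by
  simpa using hl _ ((univ_translate b).maps hz)

lemma Julia.add_real {h : ℂ → ℂ} {s t Λ : ℝ} (hj : Julia h s t Λ) (b : ℝ) :
    Julia (fun z => h z + b) s (t + b) Λ := fun z hz => by
  simpa using hj z hz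

lemma cInf_le_one_of_factor {g ψ h : ℂ → ℂ} (hψ : Hol ψ) (hh : Hol h) (hc : 0 < cInf g)
    (e : ∀ z ∈ H, ψ (h z) = g z) (l1 : Low h 1) (l2 : Low ψ (cInf g)) : cInf h ≤ 1 := by
  have h1 : 0 < cInf h := lt_of_lt_of_le one_pos l1.le_cInf
  have h2 : cInf g = cInf ψ * cInf h := by
    rw [← cInf_comp hψ hh h1]
    exact cInf_congr fun z hz => (e z hz).symm
  have h3 := l2.le_cInf
  by_contra hh
  push Not at hh
  nlinarith

lemma factor_norm {g ψ : ℂ → ℂ} (hg : Univ g) (hc : 0 < cInf g) (hψ : Univ ψ)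
    (hsub : g '' H ⊆ ψ '' H) {s σ Λ : ℝ} (hj : Julia g s σ Λ) :
    ∃ ψ' h', Univ ψ' ∧ Univ h' ∧ ψ' '' H = ψ '' H ∧
      (∀ z ∈ H, ψ' (h' z) = g z) ∧ Low h' 1 ∧ Low ψ' (cInf g) ∧ Julia h' s s (Λ / cInf g) := by
  obtain ⟨ψ', h', a1, a2, a3, a4, a5, a6⟩ := factor_norm₀ hg hc hψ hsub
  obtain ⟨t, ht, -⟩ := contact_split a1.toHol a2.toHol hc one_pos a6 a5 (hj.congr a4)
  refine ⟨fun w => ψ' (w + ((t - s : ℝ) : ℂ)), fun z => h' z + ((s - t : ℝ) : ℂ),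
    a1.comp (univ_translate _), (univ_translate _).comp a2, ?_, fun z hz => ?_, a5.add_real _,
    a6.comp_add_real _, ?_⟩
  · rw [← a3]
    exact image_comp_of_surj (univ_translate _).maps (surj_translate _)
  · rw [← a4 z hz]; beta_reduce; congr 1; push_cast; ring
  · simpa using ht.add_real (s - t)

lemma exists_limit {ι : Type*} (𝒰 : Ultrafilter ι) {F : ι → ℂ → ℂ} (hF : ∀ i, Univ (F i))
    {c : ℝ} (hc : 0 < c) (hl : ∀ i, Low (F i) c) {w : ι → ℂ} {δ M : ℝ} (hδ : 0 < δ)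
    (h1 : ∀ i, δ ≤ (w i).im ∧ ‖w i‖ ≤ M ∧ ‖F i (w i)‖ ≤ M) :
    ∃ f, Univ f ∧ Low f c ∧ TendstoLocallyUniformlyOn F f 𝒰 H := by
  obtain ⟨f, hf⟩ := montel 𝒰 (U := H) (F := F) (fun i => (hF i).diff) (fun z hz => by
    have hz' : 0 < z.im := hz
    have hb : ∀ u ∈ ball z (z.im / 2), z.im / 2 ≤ u.im ∧ ‖u‖ ≤ ‖z‖ + z.im / 2 := by
      intro u hu
      rw [mem_ball, dist_eq_norm] at hu
      have a1 := Complex.abs_im_le_norm (u - z)
      rw [sub_im] at a1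
      have a2 := norm_sub_norm_le u z
      constructor <;> linarith [neg_abs_le (u.im - z.im)]
    refine ⟨z.im / 2, by positivity, M + (‖z‖ + z.im / 2 + M) ^ 2 * M / (z.im / 2 * δ),
      fun u hu => lt_of_lt_of_le (by positivity) (hb u hu).1,
      Eventually.of_forall fun i u hu => ?_⟩
    obtain ⟨b1, b2, b3⟩ := h1 i
    obtain ⟨b4, b5⟩ := hb u hu
    have hu' : u ∈ H := lt_of_lt_of_le (by positivity) b4
    have hw : w i ∈ H := hδ.trans_le b1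
    have a1 := norm_sub_conj_le (hF i).diff (fun z hz => le_of_lt ((hF i).maps hz)) hu' hw
    have a2 : ‖u - conj (w i)‖ ≤ ‖z‖ + z.im / 2 + M := by
      have := norm_sub_le u (conj (w i))
      rw [Complex.norm_conj] at this
      linarith
    have a3 : (F i (w i)).im ≤ M := (Complex.im_le_norm _).trans b3
    have a4 : 0 < (F i (w i)).im := (hF i).maps hw
    have a4' : 0 < u.im := hu'
    have a5 : ‖F i u - conj (F i (w i))‖ * (z.im / 2 * δ) ≤ (‖z‖ + z.im / 2 + M) ^ 2 * M :=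
      le_trans (by gcongr) (a1.trans (by gcongr))
    rw [← le_div_iff₀ (by positivity)] at a5
    have a6 := norm_add_le (F i u - conj (F i (w i))) (conj (F i (w i)))
    rw [sub_add_cancel, Complex.norm_conj] at a6
    linarith)
  have hfd : DifferentiableOn ℂ f H :=
    hf.differentiableOn (Eventually.of_forall fun i => (hF i).diff) isOpen_H
  have hfl : Low f c := fun z hz =>
    ge_of_tendsto' ((Complex.continuous_im.tendsto _).comp (hf.tendsto_at hz)) fun i => hl i z hz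
  have hfm : MapsTo f H H := fun z hz => lt_of_lt_of_le (mul_pos hc hz) (hfl z hz)
  refine ⟨f, ⟨⟨hfd, hfm⟩, ?_⟩, hfl, hf⟩
  apply limit_injOn isOpen_H (fun i => (hF i).diff) hf _ fun i => (hF i).inj
  intro z₀ hz₀
  have hI : 0 < (f I).im := hfm I_mem_H
  have hy : 0 < ((f I).im + 1) / c := by positivity
  apply not_eventually_const isOpen_H isPreconnected_H hfd (mul_I_mem_H hy) I_mem_H _ hz₀
  intro e
  have := hfl _ (mul_I_mem_H hy)
  rw [e] at this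
  simp only [mul_im, ofReal_re, I_im, mul_one, ofReal_im, I_re, mul_zero, add_zero] at this
  rw [mul_div_cancel₀ _ hc.ne'] at this
  linarith

lemma tendsto_comp_H {ι : Type*} {l : Filter ι} [l.NeBot] {F : ι → ℂ → ℂ} {f : ℂ → ℂ}
    (hf : Hol f) (hF : TendstoLocallyUniformlyOn F f l H) {w : ι → ℂ} {w₀ : ℂ} (hw₀ : w₀ ∈ H)
    (hw : Tendsto w l (𝓝 w₀)) : Tendsto (fun i => F i (w i)) l (𝓝 (f w₀)) :=
  hF.tendsto_comp (hf.cont w₀ hw₀) hw₀ (by rwa [isOpen_H.nhdsWithin_eq hw₀])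

lemma exists_limit_pair {ι : Type*} (𝒰 : Ultrafilter ι) {φ : ℂ → ℂ} {ψ χ : ι → ℂ → ℂ}
    (hψ : ∀ i, Univ (ψ i)) (hχ : ∀ i, Univ (χ i)) (e : ∀ i, ∀ z ∈ H, ψ i (χ i z) = φ z)
    {a b M : ℝ} (ha : 0 < a) (hb : 0 < b) (la : ∀ i, Low (ψ i) a) (lb : ∀ i, Low (χ i) b)
    (hM : ∀ i, ‖χ i I‖ ≤ M) :
    ∃ ψ₀ χ₀, Univ ψ₀ ∧ Univ χ₀ ∧ (∀ z ∈ H, ψ₀ (χ₀ z) = φ z) ∧ Low ψ₀ a ∧ Low χ₀ b ∧
      TendstoLocallyUniformlyOn ψ ψ₀ 𝒰 H ∧ TendstoLocallyUniformlyOn χ χ₀ 𝒰 H := by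
  obtain ⟨χ₀, h1, h2, h3⟩ := exists_limit 𝒰 hχ hb lb (w := fun _ => I) (M := max 1 M) one_pos
    fun i => ⟨by simp, by simp, (hM i).trans (le_max_right _ _)⟩
  obtain ⟨ψ₀, k1, k2, k3⟩ := exists_limit 𝒰 hψ ha la (w := fun i => χ i I) (M := max ‖φ I‖ M) hb
    fun i => ⟨by simpa using lb i I I_mem_H, (hM i).trans (le_max_right _ _), by
      rw [e i I I_mem_H]; exact le_max_left _ _⟩
  refine ⟨ψ₀, χ₀, k1, h1, fun z hz => ?_, k2, h2, k3, h3⟩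
  have := tendsto_comp_H k1.toHol k3 (h1.maps hz) (h3.tendsto_at hz)
  simp only [e _ z hz] at this
  exact tendsto_nhds_unique this tendsto_const_nhds

lemma julia_limit {ι : Type*} {l : Filter ι} [l.NeBot] {F : ι → ℂ → ℂ} {f : ℂ → ℂ}
    (hF : ∀ z ∈ H, Tendsto (fun i => F i z) l (𝓝 (f z))) {s σ Λ : ι → ℝ} {s₀ σ₀ Λ₀ : ℝ}
    (hs : Tendsto s l (𝓝 s₀)) (hσ : Tendsto σ l (𝓝 σ₀)) (hΛ : Tendsto Λ l (𝓝 Λ₀))
    (hj : ∀ᶠ i in l, Julia (F i) (s i) (σ i) (Λ i)) : Julia f s₀ σ₀ Λ₀ := by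
  intro z hz
  have t1 : Tendsto (fun i => z.im * ‖F i z - σ i‖ ^ 2) l (𝓝 (z.im * ‖f z - σ₀‖ ^ 2)) :=
    ((((hF z hz).sub ((Complex.continuous_ofReal.tendsto _).comp hσ)).norm).pow 2).const_mul _
  have t2 : Tendsto (fun i => Λ i * ‖z - s i‖ ^ 2 * (F i z).im) l
      (𝓝 (Λ₀ * ‖z - s₀‖ ^ 2 * (f z).im)) :=
    (hΛ.mul (((tendsto_const_nhds.sub
      ((Complex.continuous_ofReal.tendsto _).comp hs)).norm).pow 2)).mul
      ((Complex.continuous_im.tendsto _).comp (hF z hz))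
  exact le_of_tendsto_of_tendsto t1 t2 (hj.mono fun i hi => hi z hz)

lemma Julia.norm_I_le {f : ℂ → ℂ} (hf : Hol f) {s σ Λ : ℝ} (h : Julia f s σ Λ) :
    ‖f I - σ‖ ≤ Λ * ‖I - s‖ ^ 2 := by simpa using h.norm_le hf I_mem_H

lemma Julia.norm_I_le' {f : ℂ → ℂ} (hf : Hol f) {s σ Λ : ℝ} (h : Julia f s σ Λ) :
    ‖f I‖ ≤ Λ * ‖I - s‖ ^ 2 + |σ| := by
  have h1 := h.norm_I_le hf
  have h2 := norm_add_le (f I - σ) σ
  rw [sub_add_cancel, Complex.norm_real, Real.norm_eq_abs] at h2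
  linarith

lemma Julia.abs_le {f : ℂ → ℂ} (hf : Hol f) {s σ Λ : ℝ} (h : Julia f s σ Λ) :
    |σ| ≤ Λ * ‖I - s‖ ^ 2 + ‖f I‖ := by
  have h1 := h.norm_I_le hf
  have h2 := norm_sub_le (f I) (f I - σ)
  rw [sub_sub_cancel, Complex.norm_real, Real.norm_eq_abs] at h2
  linarith

/-- Limits of contact values. -/
lemma exists_contact_limit {ι : Type*} (𝒰 : Ultrafilter ι) {F : ι → ℂ → ℂ} {f : ℂ → ℂ}
    (hH : ∀ i, Hol (F i)) (hF : ∀ z ∈ H, Tendsto (fun i => F i z) 𝒰 (𝓝 (f z))) {s Λ : ℝ}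
    {t : ι → ℝ} (hj : ∀ i, Julia (F i) s (t i) Λ) :
    ∃ t₀, Tendsto t 𝒰 (𝓝 t₀) ∧ Julia f s t₀ Λ := by
  obtain ⟨t₀, ht₀⟩ := exists_tendsto_of_bounded_real 𝒰 (a := t)
    (M := Λ * ‖I - s‖ ^ 2 + (‖f I‖ + 1)) (by
      filter_upwards [(hF I I_mem_H).norm.eventually_lt_const (lt_add_one ‖f I‖)] with i hi
      linarith [(hj i).abs_le (hH i)])
  exact ⟨t₀, ht₀, julia_limit hF tendsto_const_nhds ht₀ tendsto_const_nhds
    (Eventually.of_forall hj)⟩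

lemma translation_of_im_le {h : ℂ → ℂ} (hh : Hol h) (hl : Low h 1) {w : ℂ} (hw : w ∈ H)
    (hle : (h w).im ≤ w.im) : ∃ b : ℝ, ∀ z ∈ H, h z = z + b := by
  have hp0 : ∀ z ∈ H, 0 ≤ (h z - z).im := fun z hz => by
    have := hl z hz
    rw [sub_im]; linarith
  have h0 : (h w - w).im = 0 := le_antisymm (by rw [sub_im]; linarith) (hp0 w hw)
  refine ⟨(h w - w).re, fun z hz => ?_⟩
  have := const_of_im_eq_zero (p := fun z => h z - z) (hh.diff.sub differentiableOn_id) hp0 hw h0 hz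
  have e : (((h w - w).re : ℝ) : ℂ) = h w - w := Complex.ext (by simp) (by simp [h0.symm])
  rw [e]
  linear_combination this

lemma im_lt_of_not_surj {h : ℂ → ℂ} (hh : Hol h) (hl : Low h 1) (hs : ¬ H ⊆ h '' H) {w : ℂ}
    (hw : w ∈ H) : w.im < (h w).im := by
  by_contra hle
  obtain ⟨b, hb⟩ := translation_of_im_le hh hl hw (not_lt.1 hle)
  apply hs
  rw [image_congr hb]
  exact surj_translate b

lemma eq_id_of_im_le {h : ℂ → ℂ} (hh : Hol h) (hl : Low h 1) {s Λ : ℝ} (hj : Julia h s s Λ)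
    {w : ℂ} (hw : w ∈ H) (hle : (h w).im ≤ w.im) : ∀ z ∈ H, h z = z := by
  obtain ⟨b, hb⟩ := translation_of_im_le hh hl hw hle
  have h1 : Julia h s (s + b) 1 := ((julia_id s).add_real b).congr hb
  have h2 : b = 0 := by linarith [hj.unique hh h1]
  simpa [h2] using hb

lemma low_inverse_of_surj {h : ℂ → ℂ} (hh : Univ h) (hc : 0 < cInf h) (hs : H ⊆ h '' H) {w : ℂ}
    (hw : w ∈ H) : (h w).im ≤ cInf h * w.im := by
  obtain ⟨g, hg, e⟩ := exists_factor univ_id hh (by simpa using hs)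
  have e' : ∀ z ∈ H, g (h z) = z := fun z hz => hh.inj (hg.maps (hh.maps hz)) hz (e _ (hh.maps hz))
  have h1 : cInf g * cInf h = 1 := by
    rw [← cInf_comp hg.toHol hh.toHol hc, cInf_congr e']
    simpa using cInf_affine 0 one_pos
  have h2 := hg.toHol.low_cInf _ (hh.maps hw)
  rw [e' w hw] at h2
  calc (h w).im = cInf h * (cInf g * (h w).im) := by rw [← mul_assoc, mul_comm (cInf h), h1, one_mul]
    _ ≤ _ := by gcongr

lemma exists_enlarge {g : ℂ → ℂ} (hg : Univ g) {U : Set ℂ} (hU : IsOpen U) (hC : PropC U)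
    (h1 : g '' H ⊆ U) (h2 : U ⊆ H) {a : ℂ} (haU : a ∈ U) (ha : a ∈ closure (g '' H)) :
    ∃ ψ, Univ ψ ∧ g '' H ⊆ ψ '' H ∧ ψ '' H ⊆ U ∧ a ∈ ψ '' H := by
  have hD : IsPreconnected (g '' H) := isPreconnected_H.image _ hg.toHol.cont
  have h0 : g I ∈ g '' H := ⟨I, I_mem_H, rfl⟩
  obtain ⟨ψ, hψ, e⟩ := exists_univ_image_eq hU.connectedComponentIn
    isPreconnected_connectedComponentIn (hC.component hU (g I))
    ((connectedComponentIn_subset _ _).trans h2) (mem_connectedComponentIn (h1 h0))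
  refine ⟨ψ, hψ, ?_, ?_, ?_⟩ <;> rw [e]
  · exact hD.subset_connectedComponentIn h0 h1
  · exact connectedComponentIn_subset _ _
  · exact mem_component_of_closure hD h1 h0 haU ha

lemma Univ.isOpen_image {g : ℂ → ℂ} (hg : Univ g) : IsOpen (g '' H) :=
  isOpen_image_of_injOn isOpen_H hg.diff hg.inj

lemma Univ.propC {g : ℂ → ℂ} (hg : Univ g) : PropC (g '' H) := propC_image hg.diff hg.inj

/-- A proper simply connected subdomain has a strictly intermediate one. -/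
lemma exists_refine {h : ℂ → ℂ} (hh : Univ h) (hs : ¬ H ⊆ h '' H) :
    ∃ ψ, Univ ψ ∧ h '' H ⊆ ψ '' H ∧ ¬ ψ '' H ⊆ h '' H ∧ ¬ H ⊆ ψ '' H := by
  obtain ⟨a, ha1, ha2, ha3⟩ : ∃ a, a ∈ closure (h '' H) ∧ a ∈ H ∧ a ∉ h '' H := by
    by_contra hh'
    push Not at hh'
    exact hs (isPreconnected_H.subset_of_closure_inter_subset hh.isOpen_image
      ⟨h I, hh.maps I_mem_H, I, I_mem_H, rfl⟩ fun a ha => hh' a ha.1 ha.2)
  obtain ⟨ε, hε, hsub⟩ := Metric.nhds_basis_closedBall.mem_iff.1 (H_mem_nhds ha2)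
  have hU := hh.isOpen_image.union (isOpen_ball (x := a) (ε := ε))
  obtain ⟨ψ, hψ, b1, b2, b3⟩ := exists_enlarge hh (isOpen_fill hU) (propC_fill hU)
    (subset_union_left.trans subset_union_left)
    (fill_subset_H (union_subset hh.maps.image_subset (ball_subset_closedBall.trans hsub)))
    (Or.inl (Or.inr (mem_ball_self hε))) ha1
  exact ⟨ψ, hψ, b1, fun h' => ha3 (h' b3), fun h' =>
    not_subset_fill hh.isOpen_image hh.propC ha3 hε (hsub.trans (h'.trans b2))⟩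

lemma not_surj_of_factor {g ψ h : ℂ → ℂ} (e : ∀ z ∈ H, ψ (h z) = g z)
    (hn : ¬ ψ '' H ⊆ g '' H) : ¬ H ⊆ h '' H := by
  intro hs
  apply hn
  rintro _ ⟨w, hw, rfl⟩
  obtain ⟨z, hz, rfl⟩ := hs hw
  exact ⟨z, hz, (e z hz).symm⟩

lemma refine_factor {h : ℂ → ℂ} (hh : Univ h) (hl : Low h 1) (hs : ¬ H ⊆ h '' H) {s σ Λ : ℝ}
    (hj : Julia h s σ Λ) : ∃ hb ha, Univ hb ∧ Univ ha ∧ (∀ z ∈ H, hb (ha z) = h z) ∧ Low ha 1 ∧
      Low hb 1 ∧ Julia ha s s Λ ∧ ¬ H ⊆ ha '' H ∧ ¬ H ⊆ hb '' H := by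
  obtain ⟨ψ, hψ, b1, b2, b3⟩ := exists_refine hh hs
  have hc : 1 ≤ cInf h := hl.le_cInf
  obtain ⟨hb, ha, a1, a2, a3, a4, a5, a6, a7⟩ := factor_norm hh (by linarith) hψ b1 hj
  refine ⟨hb, ha, a1, a2, a4, a5, a6.mono hc, a7.mono a2.toHol ?_,
    not_surj_of_factor a4 (a3 ▸ b2), a3 ▸ b3⟩
  exact div_le_self (hj.pos hh.toHol).le hc

/-- Arbitrarily small nontrivial inner factors. -/
lemma small_factor {h : ℂ → ℂ} (hh : Univ h) (hl : Low h 1) (hc : cInf h ≤ 1)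
    (hs : ¬ H ⊆ h '' H) {s Λ : ℝ} (hj : Julia h s s Λ) :
    ∃ (𝒰 : Ultrafilter ℕ) (hb ha : ℕ → ℂ → ℂ), (∀ n, Univ (hb n) ∧ Univ (ha n) ∧
      (∀ z ∈ H, hb n (ha n z) = h z) ∧ Low (ha n) 1 ∧ Low (hb n) 1 ∧ Julia (ha n) s s Λ ∧
      ¬ H ⊆ ha n '' H) ∧ ∀ z ∈ H, Tendsto (fun n => ha n z) 𝒰 (𝓝 z) := by
  let P : (ℂ → ℂ) → (ℂ → ℂ) → Prop := fun hb ha => Univ hb ∧ Univ ha ∧
      (∀ z ∈ H, hb (ha z) = h z) ∧ Low ha 1 ∧ Low hb 1 ∧ Julia ha s s Λ ∧ ¬ H ⊆ ha '' H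
  let S : Set ℝ := {r | ∃ hb ha, P hb ha ∧ (ha I).im = r}
  have hSne : S.Nonempty := ⟨_, fun z => z, h, ⟨univ_id, hh, fun _ _ => rfl, hl, low_id, hj, hs⟩, rfl⟩
  have hSb : BddBelow S := ⟨1, by
    rintro _ ⟨hb, ha, hP, rfl⟩
    simpa using hP.2.2.2.1 I I_mem_H⟩
  obtain ⟨u, -, hu, huS⟩ := exists_seq_tendsto_sInf hSne hSb
  choose hb ha hP hau using huS
  let 𝒰 : Ultrafilter ℕ := Ultrafilter.of atTop
  have h𝒰 : (𝒰 : Filter ℕ) ≤ atTop := Ultrafilter.of_le _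
  obtain ⟨b₀, a₀, c1, c2, c3, c4, c5, c6, c7⟩ := exists_limit_pair 𝒰 (fun n => (hP n).1)
    (fun n => (hP n).2.1) (fun n => (hP n).2.2.1) one_pos one_pos (fun n => (hP n).2.2.2.2.1)
    (fun n => (hP n).2.2.2.1) (fun n => (hP n).2.2.2.2.2.1.norm_I_le' (hP n).2.1.toHol)
  have hja : Julia a₀ s s Λ := julia_limit (fun z hz => c7.tendsto_at hz) tendsto_const_nhds
    tendsto_const_nhds tendsto_const_nhds (Eventually.of_forall fun n => (hP n).2.2.2.2.2.1)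
  have hm : (a₀ I).im = sInf S := by
    have := (Complex.continuous_im.tendsto _).comp (c7.tendsto_at I_mem_H)
    simp only [comp_def, hau] at this
    exact tendsto_nhds_unique this (hu.mono_left h𝒰)
  have hsurj : H ⊆ a₀ '' H := by
    by_contra hns
    obtain ⟨b', a', d1, d2, d3, d4, d5, d6, d7, d8⟩ := refine_factor c2 c5 hns hja
    have hmem : (a' I).im ∈ S := ⟨fun z => b₀ (b' z), a', ⟨c1.comp d1, d2, fun z hz => by
      simp only [d3 z hz, c3 z hz], d4, by simpa using c4.comp d5 zero_le_one d1.maps, d6, d7⟩, rfl⟩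
    have h1 := csInf_le hSb hmem
    have h2 := im_lt_of_not_surj d1.toHol d5 d8 (d2.maps I_mem_H)
    rw [d3 I I_mem_H] at h2
    linarith
  have hca : cInf a₀ ≤ 1 := by
    have h0 : 0 < cInf h := lt_of_lt_of_le one_pos hl.le_cInf
    exact cInf_le_one_of_factor c1.toHol c2.toHol h0 c3 c5 (c4.mono hc)
  have hid := eq_id_of_im_le c2.toHol c5 hja I_mem_H (by
    have := low_inverse_of_surj c2 (lt_of_lt_of_le one_pos c5.le_cInf) hsurj I_mem_H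
    simp only [I_im, mul_one] at this ⊢
    linarith)
  exact ⟨𝒰, hb, ha, hP, fun z hz => by simpa [hid z hz] using c7.tendsto_at hz⟩

end Pool.Agent.MP_1a2790_an

end

section

/-! Arcs between two boundary points and the regions they cut off. -/

open Complex Set Filter Topology Metric Function

namespace Pool.Agent.MP_1a2790_an

/-- A path in the half-plane joining two real points non-tangentially. -/
structure StolzPath (Q : UI → ℂ) (s s' K : ℝ) : Prop where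
  cont : Continuous Q
  zero : Q 0 = s
  one : Q 1 = s'
  pos : 0 < K
  mem : ∀ t, t ≠ 0 → t ≠ 1 → Q t ∈ H
  stolz : ∀ t, t ≠ 0 → t ≠ 1 → ‖Q t - s‖ ≤ K * (Q t).im ∨ ‖Q t - s'‖ ≤ K * (Q t).im

lemma StolzPath.im_nonneg {Q : UI → ℂ} {s s' K : ℝ} (h : StolzPath Q s s' K) (t : UI) :
    0 ≤ (Q t).im := by
  by_cases h0 : t = 0
  · simp [h0, h.zero]
  by_cases h1 : t = 1
  · simp [h1, h.one]
  exact le_of_lt (h.mem t h0 h1)

lemma StolzPath.ne_of_mem {Q : UI → ℂ} {s s' K : ℝ} (h : StolzPath Q s s' K) {t : UI}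
    (ht : Q t ∈ H) : t ≠ 0 ∧ t ≠ 1 := by
  constructor <;> rintro rfl
  · simp [h.zero, mem_H] at ht
  · simp [h.one, mem_H] at ht

lemma exists_stolzPath {s s' : ℝ} (h : s < s') : ∃ Q, StolzPath Q s s' 4 := by
  have hL : 0 < s' - s := sub_pos.2 h
  refine ⟨fun t => (⟨s + t * (s' - s), t * (1 - t) * (s' - s)⟩ : ℂ), ?_, ?_, ?_, by norm_num,
    fun t h0 h1 => ?_, fun t h0 h1 => ?_⟩
  · have : (fun t : UI => (⟨s + t * (s' - s), t * (1 - t) * (s' - s)⟩ : ℂ)) = fun t : UI =>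
        ((s + t * (s' - s) : ℝ) : ℂ) + ((t * (1 - t) * (s' - s) : ℝ) : ℂ) * I :=
      funext fun t => Complex.mk_eq_add_mul_I _ _
    rw [this]
    fun_prop
  · apply Complex.ext <;> simp
  · apply Complex.ext <;> simp
  · have a0 : (0 : ℝ) < t := unitInterval.pos_iff_ne_zero.2 h0
    have a1 : (t : ℝ) < 1 := unitInterval.lt_one_iff_ne_one.2 h1
    have : 0 < 1 - (t : ℝ) := by linarith
    simp only [mem_H]
    positivity
  · have a0 : (0 : ℝ) < t := unitInterval.pos_iff_ne_zero.2 h0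
    have a1 : (t : ℝ) < 1 := unitInterval.lt_one_iff_ne_one.2 h1
    have a2 : 0 < 1 - (t : ℝ) := by linarith
    rcases le_total (t : ℝ) (1 / 2) with h2 | h2
    · left
      refine (Complex.norm_le_abs_re_add_abs_im _).trans ?_
      simp only [sub_re, ofReal_re, sub_im, ofReal_im, sub_zero, add_sub_cancel_left]
      rw [abs_of_pos (by positivity), abs_of_pos (by positivity)]
      nlinarith [mul_pos a0 hL]
    · right
      refine (Complex.norm_le_abs_re_add_abs_im _).trans ?_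
      simp only [sub_re, ofReal_re, sub_im, ofReal_im, sub_zero]
      rw [abs_of_neg (by nlinarith), abs_of_pos (by positivity)]
      nlinarith [mul_pos a2 hL]

lemma tendsto_endpoint {f : ℂ → ℂ} (hf : Hol f) {Q : UI → ℂ} (hQ : Continuous Q) {t₀ : UI}
    {s s' σ K Λ : ℝ} (hs : s ≠ s') (h0 : Q t₀ = s) (hj : Julia f s σ Λ) {Γ : UI → ℂ}
    (hΓ0 : Γ t₀ = σ) (hev : ∀ᶠ t in 𝓝 t₀, t ≠ t₀ → Γ t = f (Q t) ∧ Q t ∈ H ∧
      (‖Q t - s‖ ≤ K * (Q t).im ∨ ‖Q t - s'‖ ≤ K * (Q t).im)) : ContinuousAt Γ t₀ := by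
  have h1 : ∀ᶠ t in 𝓝 t₀, K * (Q t).im < ‖Q t - s'‖ := by
    apply ContinuousAt.eventually_lt (by fun_prop) (by fun_prop)
    simp only [h0, ofReal_im, mul_zero, norm_pos_iff, sub_ne_zero]
    exact_mod_cast hs
  rw [ContinuousAt, hΓ0, tendsto_iff_norm_sub_tendsto_zero]
  have h2 : Tendsto (fun t => Λ * K * ‖Q t - s‖) (𝓝 t₀) (𝓝 0) := by
    have : Continuous fun t => Λ * K * ‖Q t - s‖ := by fun_prop
    simpa [h0] using this.tendsto t₀
  refine squeeze_zero' (Eventually.of_forall fun _ => norm_nonneg _) ?_ h2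
  filter_upwards [h1, hev] with t a1 a2
  by_cases e : t = t₀
  · simp [e, hΓ0, h0]
  · obtain ⟨b1, b2, b3⟩ := a2 e
    rw [b1]
    exact hj.stolz hf b2 (b3.resolve_right (not_le.2 a1))

lemma Julia.stolz_image {f : ℂ → ℂ} (hf : Hol f) {c s σ Λ K : ℝ} (hc : 0 < c) (hl : Low f c)
    (hj : Julia f s σ Λ) (hK : 0 < K) {z : ℂ} (hz : z ∈ H) (h : ‖z - s‖ ≤ K * z.im) :
    ‖f z - σ‖ ≤ Λ * K * K / c * (f z).im := by
  have h1 := hj.stolz hf hz h
  have h2 := hl z hz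
  have h3 := hj.pos hf
  calc ‖f z - σ‖ ≤ Λ * K * ‖z - s‖ := h1
    _ ≤ Λ * K * (K * z.im) := by gcongr
    _ = Λ * K * K / c * (c * z.im) := by field_simp
    _ ≤ _ := by gcongr

lemma StolzPath.image {Q : UI → ℂ} {s s' K : ℝ} (hQ : StolzPath Q s s' K) (hs : s ≠ s')
    {f : ℂ → ℂ} (hf : Hol f) {c σ σ' Λ Λ' : ℝ} (hc : 0 < c) (hl : Low f c) (hj : Julia f s σ Λ)
    (hj' : Julia f s' σ' Λ') :
    ∃ Γ K', StolzPath Γ σ σ' K' ∧ ∀ t, t ≠ 0 → t ≠ 1 → Γ t = f (Q t) := by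
  classical
  set Γ : UI → ℂ := fun t => if t = 0 then σ else if t = 1 then σ' else f (Q t) with hΓ
  have e : ∀ t, t ≠ 0 → t ≠ 1 → Γ t = f (Q t) := fun t h0 h1 => by simp [hΓ, h0, h1]
  have e0 : Γ 0 = σ := by simp [hΓ]
  have e1 : Γ 1 = σ' := by simp [hΓ]
  have hΛ : 0 < max Λ Λ' := lt_max_of_lt_left (hj.pos hf)
  have hK := hQ.pos
  refine ⟨Γ, max Λ Λ' * K * K / c, ⟨?_, e0, e1, by positivity, fun t h0 h1 => ?_,
    fun t h0 h1 => ?_⟩, e⟩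
  · rw [continuous_iff_continuousAt]
    intro t
    by_cases h0 : t = 0
    · subst h0
      apply tendsto_endpoint hf hQ.cont hs hQ.zero hj e0 (K := K)
      filter_upwards [isOpen_ne.mem_nhds (zero_ne_one : (0 : UI) ≠ 1)] with t h1 h0
      exact ⟨e t h0 h1, hQ.mem t h0 h1, hQ.stolz t h0 h1⟩
    by_cases h1 : t = 1
    · subst h1
      apply tendsto_endpoint hf hQ.cont hs.symm hQ.one hj' e1 (K := K)
      filter_upwards [isOpen_ne.mem_nhds (one_ne_zero : (1 : UI) ≠ 0)] with t h0 h1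
      exact ⟨e t h0 h1, hQ.mem t h0 h1, (hQ.stolz t h0 h1).symm⟩
    have : ContinuousAt (fun t => f (Q t)) t :=
      (hf.contAt (hQ.mem t h0 h1)).comp hQ.cont.continuousAt
    apply this.congr
    filter_upwards [isOpen_ne.mem_nhds h0, isOpen_ne.mem_nhds h1] with t h0 h1
    exact (e t h0 h1).symm
  · rw [e t h0 h1]; exact hf.maps (hQ.mem t h0 h1)
  · rw [e t h0 h1]
    exact (hQ.stolz t h0 h1).imp
      ((hj.mono hf (le_max_left _ _)).stolz_image hf hc hl hK (hQ.mem t h0 h1))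
      ((hj'.mono hf (le_max_right _ _)).stolz_image hf hc hl hK (hQ.mem t h0 h1))

/-- The straight segment. -/
noncomputable def seg (s s' : ℝ) (t : UI) : ℂ := ((s + t * (s' - s) : ℝ) : ℂ)

lemma continuous_seg (s s' : ℝ) : Continuous (seg s s') := by unfold seg; fun_prop

lemma seg_zero (s s' : ℝ) : seg s s' 0 = s := by simp [seg]

lemma seg_one (s s' : ℝ) : seg s s' 1 = s' := by simp [seg]

lemma notMem_range_seg (s s' : ℝ) {a : ℂ} (ha : a ∈ H) : a ∉ range (seg s s') := by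
  rintro ⟨t, rfl⟩
  rw [mem_H, seg, ofReal_im] at ha
  exact lt_irrefl _ ha

lemma I_mul_mem_slitPlane (x : ℝ) {a : ℂ} (ha : a ∈ H) : I * (x - a) ∈ slitPlane :=
  Or.inl (by simpa [mem_H] using ha)

lemma inc_seg (s s' : ℝ) {a : ℂ} (ha : a ∈ H) :
    inc (fun t => seg s s' t - a) = log (I * (s' - a)) - log (I * (s - a)) := by
  rw [inc_of_slit (u := fun t => seg s s' t - a) ((continuous_seg s s').sub continuous_const)
    (c := I) fun t => I_mul_mem_slitPlane _ ha]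
  simp only [seg_zero, seg_one]

/-- Region enclosed by the arc and the segment. -/
def Rin (Γ : UI → ℂ) (s s' : ℝ) : Set ℂ := {a | a ∈ H ∧ a ∉ range Γ ∧ idx Γ (seg s s') a ≠ 0}

/-- Region outside the arc. -/
def Rout (Γ : UI → ℂ) (s s' : ℝ) : Set ℂ := {a | a ∈ H ∧ a ∉ range Γ ∧ idx Γ (seg s s') a = 0}

lemma StolzPath.isOpen_aux {Γ : UI → ℂ} {s s' K : ℝ} (h : StolzPath Γ s s' K) (P : ℂ → Prop) :
    IsOpen {a | a ∈ H ∧ a ∉ range Γ ∧ P (idx Γ (seg s s') a)} := by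
  have := isOpen_H.inter (isOpen_idx h.cont (continuous_seg s s') (h.zero.trans (seg_zero _ _).symm)
    (h.one.trans (seg_one _ _).symm) P)
  convert this using 1
  ext a
  exact ⟨fun ha => ⟨ha.1, fun hh => hh.elim ha.2.1 (notMem_range_seg s s' ha.1), ha.2.2⟩,
    fun ha => ⟨ha.1, fun hh => ha.2.1 (Or.inl hh), ha.2.2⟩⟩

lemma StolzPath.isOpen_Rin {Γ : UI → ℂ} {s s' K : ℝ} (h : StolzPath Γ s s' K) :
    IsOpen (Rin Γ s s') := h.isOpen_aux (· ≠ 0)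

lemma StolzPath.isOpen_Rout {Γ : UI → ℂ} {s s' K : ℝ} (h : StolzPath Γ s s' K) :
    IsOpen (Rout Γ s s') := h.isOpen_aux (· = 0)

lemma disjoint_Rin_Rout (Γ : UI → ℂ) (s s' : ℝ) : Disjoint (Rin Γ s s') (Rout Γ s s') :=
  disjoint_left.2 fun _ h h' => h.2.2 h'.2.2

lemma mem_Rin_or_Rout {Γ : UI → ℂ} (s s' : ℝ) {a : ℂ} (ha : a ∈ H) (h : a ∉ range Γ) :
    a ∈ Rin Γ s s' ∨ a ∈ Rout Γ s s' := by
  by_cases e : idx Γ (seg s s') a = 0
  · exact Or.inr ⟨ha, h, e⟩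
  · exact Or.inl ⟨ha, h, e⟩

lemma StolzPath.exists_large {Γ : UI → ℂ} {s s' K : ℝ} (h : StolzPath Γ s s' K) :
    ∃ R : ℝ, ∀ a ∈ H, R < ‖a‖ → a ∈ Rout Γ s s' := by
  obtain ⟨R, hR⟩ := exists_idx_large h.cont (continuous_seg s s')
    (h.zero.trans (seg_zero _ _).symm) (h.one.trans (seg_one _ _).symm)
  exact ⟨R, fun a ha h' => ⟨ha, fun hh => (hR a h').1 (Or.inl hh), (hR a h').2⟩⟩

/-- No point of the path lies at or below `z`. -/
def NotAbove (Q : UI → ℂ) (z : ℂ) : Prop := ∀ t, (Q t).re = z.re → z.im < (Q t).im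

lemma NotAbove.notMem {Q : UI → ℂ} {z : ℂ} (h : NotAbove Q z) : z ∉ range Q := by
  rintro ⟨t, rfl⟩
  exact lt_irrefl _ (h t rfl)

lemma StolzPath.idx_of_notAbove {Q : UI → ℂ} {s s' K : ℝ} (h : StolzPath Q s s' K) {z : ℂ}
    (hz : z ∈ H) (hn : NotAbove Q z) :
    idx Q (seg s s') z = (log (-(I * (s' - z))) - log (I * (s' - z))) -
      (log (-(I * (s - z))) - log (I * (s - z))) := by
  rw [idx, inc_seg s s' hz, inc_of_slit (u := fun t => Q t - z) (h.cont.sub continuous_const)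
    (c := -I)]
  · simp only [h.zero, h.one, neg_mul]
    ring
  · intro t
    by_cases e : (Q t).re = z.re
    · left
      simpa using hn t e
    · right
      simpa [sub_eq_zero] using Ne.symm e

lemma log_neg_sub_of_im_pos {w : ℂ} (h : 0 < w.im) : log (-w) - log w = -(Real.pi * I) := by
  apply Complex.ext
  · simp [log_re]
  · simp [log_im, arg_neg_eq_arg_sub_pi_of_im_pos h]

lemma log_neg_sub_of_im_neg {w : ℂ} (h : w.im < 0) : log (-w) - log w = Real.pi * I := by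
  apply Complex.ext
  · simp [log_re]
  · simp [log_im, arg_neg_eq_arg_add_pi_of_im_neg h]

lemma StolzPath.mem_Rin {Q : UI → ℂ} {s s' K : ℝ} (h : StolzPath Q s s' K) {z : ℂ}
    (hz : z ∈ H) (hn : NotAbove Q z) (h1 : s < z.re) (h2 : z.re < s') : z ∈ Rin Q s s' := by
  refine ⟨hz, hn.notMem, ?_⟩
  rw [h.idx_of_notAbove hz hn, log_neg_sub_of_im_pos (by simpa using h2),
    log_neg_sub_of_im_neg (by simpa using h1)]
  intro e
  have := congrArg Complex.im e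
  simp at this
  linarith [Real.pi_pos]

lemma StolzPath.mem_Rout {Q : UI → ℂ} {s s' K : ℝ} (h : StolzPath Q s s' K) (hs : s < s') {z : ℂ}
    (hz : z ∈ H) (hn : NotAbove Q z) (h1 : z.re < s ∨ s' < z.re) : z ∈ Rout Q s s' := by
  refine ⟨hz, hn.notMem, ?_⟩
  rw [h.idx_of_notAbove hz hn]
  rcases h1 with h1 | h1
  · rw [log_neg_sub_of_im_pos (by simpa using h1.trans hs),
      log_neg_sub_of_im_pos (by simpa using h1), sub_self]
  · rw [log_neg_sub_of_im_neg (by simpa using h1),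
      log_neg_sub_of_im_neg (by simpa using hs.trans h1), sub_self]

lemma StolzPath.eventually_notAbove {Q : UI → ℂ} {s s' K : ℝ} (h : StolzPath Q s s' K) {x : ℝ}
    (h1 : x ≠ s) (h2 : x ≠ s') : ∀ᶠ y : ℝ in 𝓝[>] 0, NotAbove Q (x + y * I) := by
  have hx : (x : ℂ) ∈ (range Q)ᶜ := by
    rintro ⟨t, e⟩
    by_cases h0 : t = 0
    · rw [h0, h.zero] at e; exact h1 (by exact_mod_cast e.symm)
    by_cases h1 : t = 1
    · rw [h1, h.one] at e; exact h2 (by exact_mod_cast e.symm)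
    have := h.mem t h0 h1
    rw [e] at this
    simp [mem_H] at this
  obtain ⟨r, hr, hsub⟩ := Metric.isOpen_iff.1 (isCompact_range h.cont).isClosed.isOpen_compl _ hx
  filter_upwards [Ioo_mem_nhdsGT hr] with y hy t e
  by_contra hh
  apply hsub (a := Q t) _ ⟨t, rfl⟩
  have e' : (Q t).re = x := by simpa using e
  have hh' : (Q t).im ≤ y := by simpa using hh
  rw [mem_ball, dist_eq_norm]
  refine lt_of_le_of_lt (Complex.norm_le_abs_re_add_abs_im _) ?_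
  simp only [sub_re, e', ofReal_re, sub_self, abs_zero, sub_im, ofReal_im, sub_zero, zero_add]
  rw [abs_of_nonneg (h.im_nonneg t)]
  linarith [hy.2]

section image
variable {Q Γ : UI → ℂ} {s s' K σ σ' K' c : ℝ} {f : ℂ → ℂ} (hQ : StolzPath Q s s' K)
  (hΓ : StolzPath Γ σ σ' K') (hf : Univ f) (hc : 0 < c) (hl : Low f c)
  (e : ∀ t, t ≠ 0 → t ≠ 1 → Γ t = f (Q t))
include hQ hΓ hf e

lemma notMem_range_image {z : ℂ} (hz : z ∈ H) (hzQ : z ∉ range Q) : f z ∉ range Γ := by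
  rintro ⟨t, ht⟩
  obtain ⟨h0, h1⟩ := hΓ.ne_of_mem (ht ▸ hf.maps hz : Γ t ∈ H)
  rw [e t h0 h1] at ht
  exact hzQ ⟨t, hf.inj (hQ.mem t h0 h1) hz ht⟩

omit hf in
lemma range_inter_subset_image : range Γ ∩ H ⊆ f '' H := by
  rintro _ ⟨⟨t, rfl⟩, ht⟩
  obtain ⟨h0, h1⟩ := hΓ.ne_of_mem ht
  exact ⟨Q t, hQ.mem t h0 h1, (e t h0 h1).symm⟩

include hc hl

lemma idx_image {z : ℂ} (hz : z ∈ H) (hzQ : z ∉ range Q) :
    idx Γ (seg σ σ') (f z) = idx Q (seg s s') z := by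
  have p1 : ∀ t, Q t ∈ H → Γ t = f (Q t) := fun t ht =>
    e t (hQ.ne_of_mem ht).1 (hQ.ne_of_mem ht).2
  have p2 : ∀ t, Q t ∉ H → Γ t ∉ f '' H := fun t ht hh => by
    obtain ⟨h0, h1⟩ := hΓ.ne_of_mem (hf.maps.image_subset hh)
    exact ht (hQ.mem t h0 h1)
  set E : ℂ → ℂ := fun z => inc (Phi f Q Γ z) - (log (I * (σ' - f z)) - log (I * (σ - f z))) +
    (log (I * (s' - z)) - log (I * (s - z))) with hE
  have key : ∀ z ∈ H, z ∉ range Q → idx Γ (seg σ σ') (f z) = idx Q (seg s s') z + E z := by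
    intro z hz hzQ
    simp only [idx, hE]
    rw [inc_image isOpen_H hf.diff hf.inj hQ.cont hΓ.cont p1 p2 hz hzQ, inc_seg _ _ hz,
      inc_seg _ _ (hf.maps hz)]
    ring
  have cl : ∀ x : ℝ, ContinuousOn (fun z => log (I * (x - z))) H := fun x =>
    ContinuousOn.clog (by fun_prop) fun z hz => I_mul_mem_slitPlane x hz
  have Ec : ContinuousOn E H :=
    ((continuousOn_inc_Phi isOpen_H hf.diff hf.inj hQ.cont hΓ.cont p1 p2).sub
      (((cl σ').comp hf.toHol.cont hf.maps).sub ((cl σ).comp hf.toHol.cont hf.maps))).add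
      ((cl s').sub (cl s))
  have Ee : ∀ z ∈ H, exp (E z) = 1 := by
    intro z hz
    have n : ∀ (x : ℝ) (w : ℂ), w ∈ H → (x : ℂ) - w ≠ 0 := fun x w hw h =>
      sub_real_ne_zero hw x (by linear_combination -h)
    have b := exp_inc (continuous_Phi isOpen_H hf.diff hQ.cont hΓ.cont p1 hz)
      (Phi_ne_zero isOpen_H hf.diff hf.inj p1 p2 hz)
    simp only [Phi, hQ.zero, hQ.one, hΓ.zero, hΓ.one, if_neg (sub_ne_zero.1 (n s z hz)),
      if_neg (sub_ne_zero.1 (n s' z hz))] at b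
    have n1 := n s z hz
    have n2 := n s' z hz
    have n3 := n σ _ (hf.maps hz)
    have n4 := n σ' _ (hf.maps hz)
    simp only [hE, exp_add, exp_sub]
    rw [exp_log (mul_ne_zero I_ne_zero n1), exp_log (mul_ne_zero I_ne_zero n2),
      exp_log (mul_ne_zero I_ne_zero n3), exp_log (mul_ne_zero I_ne_zero n4)]
    field_simp at b ⊢
    linear_combination b
  obtain ⟨R, hR⟩ := hQ.exists_large
  obtain ⟨R', hR'⟩ := hΓ.exists_large
  set y := max (|R| + 1) ((|R'| + 1) / c) with hy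
  have hy0 : 0 < y := lt_max_of_lt_left (by positivity)
  have hw := mul_I_mem_H hy0
  have a1 := hR _ hw (by
    rw [norm_mul_I hy0]; linarith [le_abs_self R, le_max_left (|R| + 1) ((|R'| + 1) / c)])
  have a2 := hR' _ (hf.maps hw) (by
    have b1 := hl _ hw
    have b2 : (|R'| + 1) / c ≤ y := le_max_right _ _
    rw [div_le_iff₀ hc] at b2
    have b3 := Complex.im_le_norm (f (y * I))
    simp only [mul_im, ofReal_re, I_im, mul_one, ofReal_im, I_re, mul_zero, add_zero] at b1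
    linarith [le_abs_self R'])
  have a3 := key _ hw a1.2.1
  rw [a1.2.2, a2.2.2, zero_add] at a3
  rw [key z hz hzQ, eq_of_exp_eq_one isPreconnected_H Ec Ee hz hw, ← a3, add_zero]

lemma image_mem_Rin {z : ℂ} (hz : z ∈ Rin Q s s') : f z ∈ Rin Γ σ σ' :=
  ⟨hf.maps hz.1, notMem_range_image hQ hΓ hf e hz.1 hz.2.1, by
    rw [idx_image hQ hΓ hf hc hl e hz.1 hz.2.1]; exact hz.2.2⟩

lemma image_mem_Rout {z : ℂ} (hz : z ∈ Rout Q s s') : f z ∈ Rout Γ σ σ' :=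
  ⟨hf.maps hz.1, notMem_range_image hQ hΓ hf e hz.1 hz.2.1, by
    rw [idx_image hQ hΓ hf hc hl e hz.1 hz.2.1]; exact hz.2.2⟩

lemma eventually_image_mem_Rin {x : ℝ} (hx : x ∈ Ioo s s') :
    ∀ᶠ y : ℝ in 𝓝[>] 0, f (x + y * I) ∈ Rin Γ σ σ' := by
  filter_upwards [hQ.eventually_notAbove hx.1.ne' hx.2.ne, self_mem_nhdsWithin] with y hy hy0
  exact image_mem_Rin hQ hΓ hf hc hl e
    (hQ.mem_Rin (add_mul_I_mem_H x hy0) hy (by simpa using hx.1) (by simpa using hx.2))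

lemma eventually_image_mem_Rout (hs : s < s') {x : ℝ} (hx : x < s ∨ s' < x) :
    ∀ᶠ y : ℝ in 𝓝[>] 0, f (x + y * I) ∈ Rout Γ σ σ' := by
  filter_upwards [hQ.eventually_notAbove (x := x)
    (hx.elim ne_of_lt fun h => (hs.trans h).ne') (hx.elim (fun h => (h.trans hs).ne) ne_of_gt),
    self_mem_nhdsWithin] with y hy hy0
  exact image_mem_Rout hQ hΓ hf hc hl e
    (hQ.mem_Rout hs (add_mul_I_mem_H x hy0) hy (by simpa using hx))

end image

/-- A univalent map is bounded between two contact points. -/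
lemma bounded_between {f : ℂ → ℂ} (hf : Univ f) {c s s' σ σ' Λ Λ' : ℝ} (hc : 0 < c) (hl : Low f c)
    (hs : s < s') (hj : Julia f s σ Λ) (hj' : Julia f s' σ' Λ') :
    ∃ M : ℝ, ∀ x ∈ Icc s s', ∀ y ∈ Ioc (0 : ℝ) 1, ‖f (x + y * I)‖ ≤ M := by
  obtain ⟨Q, hQ⟩ := exists_stolzPath hs
  obtain ⟨Γ, K', hΓ, e⟩ := hQ.image hs.ne hf.toHol hc hl hj hj'
  obtain ⟨R, hR⟩ := hΓ.exists_large
  have near : ∀ {s σ Λ : ℝ}, Julia f s σ Λ → ∀ z ∈ H, z.im ≤ 1 → ‖z - s‖ ≤ 5 * z.im →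
      ‖f z‖ ≤ 25 * Λ + |σ| := by
    intro s σ Λ hj z hz h1 h2
    have a1 := hj.stolz hf.toHol hz h2
    have a2 := norm_add_le (f z - σ) σ
    rw [sub_add_cancel, Complex.norm_real, Real.norm_eq_abs] at a2
    have a3 := hj.pos hf.toHol
    nlinarith
  refine ⟨max R (max (25 * Λ + |σ|) (25 * Λ' + |σ'|)), fun x hx y hy => ?_⟩
  have hz := add_mul_I_mem_H x hy.1
  set z : ℂ := x + y * I with hzdef
  have zre : z.re = x := by simp [hzdef]
  have zim : z.im = y := by simp [hzdef]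
  by_cases hn : NotAbove Q z
  · have h1 : s < z.re := by
      rw [zre]
      refine lt_of_le_of_ne hx.1 fun h => ?_
      have := hn 0 (by simp [hQ.zero, zre, h])
      simp [hQ.zero, zim] at this
      linarith [hy.1]
    have h2 : z.re < s' := by
      rw [zre]
      refine lt_of_le_of_ne hx.2 fun h => ?_
      have := hn 1 (by simp [hQ.one, zre, h])
      simp [hQ.one, zim] at this
      linarith [hy.1]
    have h3 := image_mem_Rin hQ hΓ hf hc hl e (hQ.mem_Rin hz hn h1 h2)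
    refine le_trans ?_ (le_max_left _ _)
    by_contra hh
    exact disjoint_left.1 (disjoint_Rin_Rout Γ σ σ') h3 (hR _ h3.1 (not_le.1 hh))
  · simp only [NotAbove, not_forall, not_lt] at hn
    obtain ⟨t, ht1, ht2⟩ := hn
    have hd : ‖z - Q t‖ ≤ z.im := by
      refine (Complex.norm_le_abs_re_add_abs_im _).trans ?_
      simp only [sub_re, ht1, sub_self, abs_zero, sub_im, zero_add]
      rw [abs_of_nonneg (by linarith)]
      linarith [hQ.im_nonneg t]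
    have hst : ‖Q t - s‖ ≤ 4 * (Q t).im ∨ ‖Q t - s'‖ ≤ 4 * (Q t).im := by
      by_cases h0 : t = 0
      · left; simp [h0, hQ.zero]
      by_cases h1 : t = 1
      · right; simp [h1, hQ.one]
      exact hQ.stolz t h0 h1
    refine le_trans ?_ (le_max_right _ _)
    rcases hst with h | h
    · refine le_trans (near hj z hz (zim ▸ hy.2) ?_) (le_max_left _ _)
      have := norm_sub_le_norm_sub_add_norm_sub z (Q t) s
      linarith
    · refine le_trans (near hj' z hz (zim ▸ hy.2) ?_) (le_max_right _ _)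
      have := norm_sub_le_norm_sub_add_norm_sub z (Q t) s'
      linarith

/-- The imaginary part tends to zero along verticals over an interval. -/
def RealOn (f : ℂ → ℂ) (x₁ x₂ : ℝ) : Prop :=
  ∀ x ∈ Ioo x₁ x₂, Tendsto (fun y : ℝ => (f (x + y * I)).im) (𝓝[>] 0) (𝓝 0)

lemma RealOn.of_le {f g : ℂ → ℂ} {x₁ x₂ : ℝ} (h : RealOn f x₁ x₂) (hg : Hol g)
    (hle : ∀ z ∈ H, (g z).im ≤ (f z).im) : RealOn g x₁ x₂ := fun x hx =>
  squeeze_zero' (eventually_nhdsWithin_of_forall fun _ hy =>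
    le_of_lt (hg.maps (add_mul_I_mem_H x hy)))
    (eventually_nhdsWithin_of_forall fun _ hy => hle _ (add_mul_I_mem_H x hy)) (h x hx)

/-- Gap inequality. -/
lemma gap_le {f : ℂ → ℂ} (hf : Univ f) {c s s' σ σ' Λ Λ' : ℝ} (hc : 0 < c) (hl : Low f c)
    (hs : s < s') (hj : Julia f s σ Λ) (hj' : Julia f s' σ' Λ') (hr : RealOn f s s') :
    c * (s' - s) ≤ σ' - σ := by
  obtain ⟨M, hM⟩ := bounded_between hf hc hl hs hj hj'
  have hΛ := hj.pos hf.toHol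
  have hΛ' := hj'.pos hf.toHol
  have key : ∀ δ ∈ Ioc (0 : ℝ) 1, c * (s' - s) ≤ σ' - σ + (Λ + Λ') * δ := by
    intro δ hδ
    have h1 := rect_ineq hf.diff hs.le hδ.1 (M := M) (η := σ' - σ + (Λ + Λ') * δ)
      (fun x hx y hy => (Complex.abs_im_le_norm _).trans (hM x hx y ⟨hy.1, hy.2.trans hδ.2⟩)) hr
      (fun y hy => by
        have a1 := (Complex.abs_re_le_norm _).trans (hj.vertical hf.toHol hy.1)
        have a2 := (Complex.abs_re_le_norm _).trans (hj'.vertical hf.toHol hy.1)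
        rw [sub_re, ofReal_re, abs_le] at a1 a2
        nlinarith [hy.2, a1.1, a2.2])
    have h2 := intervalIntegral.integral_mono_on hs.le (intervalIntegrable_const (c := c * δ))
      ((Complex.continuous_im.comp (continuous_horizontal hf.toHol.cont hδ.1)).intervalIntegrable
        (μ := MeasureTheory.volume) s s')
      fun x _ => by simpa using hl _ (add_mul_I_mem_H x hδ.1)
    simp only [intervalIntegral.integral_const, smul_eq_mul, comp_def] at h2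
    have h3 : (c * (s' - s)) * δ ≤ (σ' - σ + (Λ + Λ') * δ) * δ := by linarith
    exact le_of_mul_le_mul_right h3 hδ.1
  have t : Tendsto (fun δ : ℝ => σ' - σ + (Λ + Λ') * δ) (𝓝[>] 0) (𝓝 (σ' - σ + (Λ + Λ') * 0)) :=
    Tendsto.mono_left (Continuous.tendsto (by fun_prop) 0) nhdsWithin_le_nhds
  simp only [mul_zero, add_zero] at t
  exact ge_of_tendsto t (mem_of_superset (Ioc_mem_nhdsGT one_pos) key)

lemma tendsto_vertical_real (x : ℝ) :
    Tendsto (fun y : ℝ => (x : ℂ) + y * I) (𝓝[>] 0) (𝓝 (x : ℂ)) := by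
  apply Tendsto.mono_left _ nhdsWithin_le_nhds
  have : Continuous fun y : ℝ => (x : ℂ) + y * I := by fun_prop
  simpa using this.tendsto 0

/-- A bounded vertical on which the imaginary part does not tend to zero has a limit point
in the half-plane. -/
lemma exists_cluster {f : ℂ → ℂ} (hf : Hol f) {x M : ℝ}
    (hM : ∀ y ∈ Ioc (0 : ℝ) 1, ‖f (x + y * I)‖ ≤ M)
    (hn : ¬ Tendsto (fun y : ℝ => (f (x + y * I)).im) (𝓝[>] 0) (𝓝 0)) :
    ∃ (𝒰 : Ultrafilter ℝ) (a : ℂ), (𝒰 : Filter ℝ) ≤ 𝓝[>] 0 ∧ a ∈ H ∧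
      Tendsto (fun y : ℝ => f (x + y * I)) 𝒰 (𝓝 a) := by
  rw [tendsto_iff_ultrafilter] at hn
  push Not at hn
  obtain ⟨𝒰, h𝒰, hn⟩ := hn
  obtain ⟨a, ha⟩ := exists_tendsto_of_bounded 𝒰 (a := fun y : ℝ => f (x + y * I)) (M := M)
    (h𝒰 (mem_of_superset (Ioc_mem_nhdsGT one_pos) hM))
  have h1 := (Complex.continuous_im.tendsto _).comp ha
  refine ⟨𝒰, a, h𝒰, mem_H.2 (lt_of_le_of_ne ?_ fun e => hn ?_), ha⟩
  · exact ge_of_tendsto h1 (h𝒰 (eventually_nhdsWithin_of_forall fun y hy =>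
      le_of_lt (hf.maps (add_mul_I_mem_H x hy))))
  · rw [e]; exact h1

lemma limit_notMem_image {f : ℂ → ℂ} (hf : Univ f) {x : ℝ} {𝒰 : Ultrafilter ℝ} {a : ℂ}
    (h𝒰 : (𝒰 : Filter ℝ) ≤ 𝓝[>] 0) (ha : Tendsto (fun y : ℝ => f (x + y * I)) 𝒰 (𝓝 a)) :
    a ∉ f '' H ∧ a ∈ closure (f '' H) := by
  have hev : ∀ᶠ y : ℝ in 𝒰, (x : ℂ) + y * I ∈ H :=
    h𝒰 (eventually_nhdsWithin_of_forall fun y hy => add_mul_I_mem_H x hy)
  refine ⟨?_, mem_closure_of_tendsto ha (hev.mono fun y hy => ⟨_, hy, rfl⟩)⟩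
  rintro ⟨z, hz, rfl⟩
  have h1 := tendsto_of_tendsto_image isOpen_H hf.diff hf.inj hev hz ha
  have h2 := tendsto_nhds_unique h1 ((tendsto_vertical_real x).mono_left h𝒰)
  rw [h2] at hz
  simp [mem_H] at hz

/-- The inner factor of an enlargement inside `R` is real away from `R`. -/
lemma tendsto_im_factor {g ψ h : ℂ → ℂ} (hg : Univ g) (hψ : Univ ψ) (hh : Univ h)
    (e : ∀ z ∈ H, ψ (h z) = g z) {R : Set ℂ} (hR : IsOpen R) (hsub : ψ '' H ⊆ g '' H ∪ R)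
    {x M : ℝ} (hM : ∀ y ∈ Ioc (0 : ℝ) 1, ‖h (x + y * I)‖ ≤ M)
    (hev : ∀ᶠ y : ℝ in 𝓝[>] 0, g (x + y * I) ∉ R) :
    Tendsto (fun y : ℝ => (h (x + y * I)).im) (𝓝[>] 0) (𝓝 0) := by
  by_contra hn
  obtain ⟨𝒰, w, h𝒰, hw, ht⟩ := exists_cluster hh.toHol hM hn
  have h1 : Tendsto (fun y : ℝ => g (x + y * I)) 𝒰 (𝓝 (ψ w)) := by
    apply ((hψ.toHol.contAt hw).tendsto.comp ht).congr'
    exact h𝒰 (eventually_nhdsWithin_of_forall fun y hy => e _ (add_mul_I_mem_H x hy))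
  have h2 := (hsub ⟨w, hw, rfl⟩).resolve_left (limit_notMem_image hg h𝒰 h1).1
  obtain ⟨y, hy1, hy2⟩ := ((h1.eventually (hR.mem_nhds h2)).and (h𝒰 hev)).exists
  exact hy2 hy1

end Pool.Agent.MP_1a2790_an

end

section

/-! The extremal problem producing a factorisation that keeps all fixed points. -/

open Complex Set Filter Topology Metric Function

namespace Pool.Agent.MP_1a2790_an

/-- The fixed data: a univalent map with ordered boundary fixed points and arcs. -/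
structure Dat (φ : ℂ → ℂ) (σ : ℕ → ℝ) (n : ℕ) (Λ : ℝ) (P Γ : ℕ → UI → ℂ) (K : ℕ → ℝ) : Prop where
  uφ : Univ φ
  lt : ∀ k < n, σ k < σ (k + 1)
  jφ : ∀ k ≤ n, Julia φ (σ k) (σ k) Λ
  hP : ∀ k < n, StolzPath (P k) (σ k) (σ (k + 1)) 4
  hΓ : ∀ k < n, StolzPath (Γ k) (σ k) (σ (k + 1)) (K k)
  eΓ : ∀ k < n, ∀ t, t ≠ 0 → t ≠ 1 → Γ k t = φ (P k t)

/-- Admissible factorisations. -/
structure St (φ : ℂ → ℂ) (σ : ℕ → ℝ) (n : ℕ) (Λ a b : ℝ) (A : Set ℂ) (ψ χ : ℂ → ℂ)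
    (s : ℕ → ℝ) : Prop where
  uψ : Univ ψ
  uχ : Univ χ
  fac : ∀ z ∈ H, ψ (χ z) = φ z
  lψ : Low ψ a
  lχ : Low χ b
  jχ : ∀ k ≤ n, Julia χ (σ k) (s k) (Λ / a)
  s0 : s 0 = σ 0
  gap : ∀ k < n, σ (k + 1) - σ k ≤ s (k + 1) - s k
  avoid : ∀ w ∈ A, w ∉ ψ '' H

lemma le_of_steps {s : ℕ → ℝ} {n : ℕ} (h : ∀ k < n, s k < s (k + 1)) {i j : ℕ} (hij : i ≤ j)
    (hj : j ≤ n) : s i ≤ s j := by
  induction j, hij using Nat.le_induction with
  | base => exact le_rfl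
  | succ j _ ih => exact (ih (by omega)).trans (h j (by omega)).le

variable {φ : ℂ → ℂ} {σ : ℕ → ℝ} {n : ℕ} {Λ a b : ℝ} {P Γ : ℕ → UI → ℂ} {K : ℕ → ℝ} {A : Set ℂ}

lemma St.jψ (D : Dat φ σ n Λ P Γ K) (ha : 0 < a) (hb : 0 < b) {ψ χ : ℂ → ℂ} {s : ℕ → ℝ}
    (S : St φ σ n Λ a b A ψ χ s) {k : ℕ} (hk : k ≤ n) : Julia ψ (s k) (σ k) (Λ / b) := by
  obtain ⟨t, h1, h2⟩ := contact_split S.uψ.toHol S.uχ.toHol ha hb S.lψ S.lχ
    ((D.jφ k hk).congr S.fac)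
  rwa [← h1.unique S.uχ.toHol (S.jχ k hk)]

lemma exists_max_state (ha : 0 < a) (hb : 0 < b) {ψ₀ χ₀ : ℂ → ℂ} {s₀ : ℕ → ℝ}
    (S₀ : St φ σ n Λ a b A ψ₀ χ₀ s₀) : ∃ ψ χ s, St φ σ n Λ a b A ψ χ s ∧
      ∀ ψ' χ' s', St φ σ n Λ a b A ψ' χ' s' → (χ' I).im ≤ (χ I).im := by
  let T : Set ℝ := {r | ∃ ψ χ s, St φ σ n Λ a b A ψ χ s ∧ (χ I).im = r}
  have hTne : T.Nonempty := ⟨_, ψ₀, χ₀, s₀, S₀, rfl⟩
  have hTb : BddAbove T := ⟨(φ I).im / a, by
    rintro _ ⟨ψ, χ, s, S, rfl⟩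
    rw [le_div_iff₀ ha, ← S.fac I I_mem_H, mul_comm]
    exact S.lψ _ (S.uχ.maps I_mem_H)⟩
  obtain ⟨u, -, hu, huT⟩ := exists_seq_tendsto_sSup hTne hTb
  choose ψ χ s S hχu using huT
  let 𝒰 : Ultrafilter ℕ := Ultrafilter.of atTop
  have h𝒰 : (𝒰 : Filter ℕ) ≤ atTop := Ultrafilter.of_le _
  obtain ⟨ψ₁, χ₁, c1, c2, c3, c4, c5, c6, c7⟩ := exists_limit_pair 𝒰 (fun i => (S i).uψ)
    (fun i => (S i).uχ) (fun i => (S i).fac) ha hb (fun i => (S i).lψ) (fun i => (S i).lχ)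
    (M := Λ / a * ‖I - σ 0‖ ^ 2 + |σ 0|) (fun i => by
      have := ((S i).jχ 0 (Nat.zero_le _)).norm_I_le' (S i).uχ.toHol
      rwa [(S i).s0] at this)
  have hs : ∀ k, ∃ t, k ≤ n → Tendsto (fun i => s i k) 𝒰 (𝓝 t) ∧ Julia χ₁ (σ k) t (Λ / a) := by
    intro k
    by_cases hk : k ≤ n
    · obtain ⟨t, ht⟩ := exists_contact_limit 𝒰 (fun i => (S i).uχ.toHol)
        (fun z hz => c7.tendsto_at hz) (fun i => (S i).jχ k hk)
      exact ⟨t, fun _ => ht⟩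
    · exact ⟨0, fun h => absurd h hk⟩
  choose t ht using hs
  refine ⟨ψ₁, χ₁, t, ⟨c1, c2, c3, c4, c5, fun k hk => (ht k hk).2, ?_, fun k hk => ?_,
    fun w hw => ?_⟩, fun ψ' χ' s' S' => ?_⟩
  · have := (ht 0 (Nat.zero_le _)).1
    simp only [(S _).s0] at this
    exact tendsto_nhds_unique this tendsto_const_nhds
  · exact ge_of_tendsto' ((ht (k + 1) hk).1.sub (ht k hk.le).1) fun i => (S i).gap k hk
  · rintro ⟨z, hz, e⟩
    exact limit_ne isOpen_H (fun i => (S i).uψ.diff) c6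
      (fun z hz => not_eventually_const_of_injOn isOpen_H c1.inj hz) (a := w)
      (fun i z hz e => (S i).avoid w hw ⟨z, hz, e⟩) z hz e
  · have := (Complex.continuous_im.tendsto _).comp (c7.tendsto_at I_mem_H)
    simp only [comp_def, hχu] at this
    rw [tendsto_nhds_unique this (hu.mono_left h𝒰)]
    exact le_csSup hTb ⟨ψ', χ', s', S', rfl⟩

lemma exists_better_state (D : Dat φ σ n Λ P Γ K) (ha : 1 ≤ a) (hb : 0 < b)
    (hA : ∀ w ∈ A, ∀ k < n, w ∈ Rout (Γ k) (σ k) (σ (k + 1)))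
    {ψ χ : ℂ → ℂ} {s : ℕ → ℝ} (S : St φ σ n Λ a b A ψ χ s) {k : ℕ} (hk : k < n)
    (hlt : σ (k + 1) - σ k < s (k + 1) - s k) :
    ∃ ψ' χ' s', St φ σ n Λ a b A ψ' χ' s' ∧ (χ I).im < (χ' I).im := by
  have ha0 : 0 < a := by linarith
  have hslt : ∀ j < n, s j < s (j + 1) := fun j hj => by linarith [S.gap j hj, D.lt j hj]
  have jψ : ∀ j ≤ n, Julia ψ (s j) (σ j) (Λ / b) := fun j hj => S.jψ D ha0 hb hj
  have hcψ : a ≤ cInf ψ := S.lψ.le_cInf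
  have hcψ0 : 0 < cInf ψ := by linarith
  obtain ⟨Q, KQ, hQ, eQ⟩ := (D.hP k hk).image (D.lt k hk).ne S.uχ.toHol hb S.lχ (S.jχ k hk.le)
    (S.jχ (k + 1) hk)
  have hΓ := D.hΓ k hk
  have eΓ : ∀ t, t ≠ 0 → t ≠ 1 → Γ k t = ψ (Q t) := fun t h0 h1 => by
    rw [D.eΓ k hk t h0 h1, eQ t h0 h1, S.fac _ ((D.hP k hk).mem t h0 h1)]
  have hnr : ¬ RealOn ψ (s k) (s (k + 1)) := fun hr => by
    have := gap_le S.uψ ha0 S.lψ (hslt k hk) (jψ k hk.le) (jψ (k + 1) hk) hr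
    nlinarith [hslt k hk]
  simp only [RealOn, not_forall] at hnr
  obtain ⟨x, hx, hnx⟩ := hnr
  obtain ⟨M, hM⟩ := bounded_between S.uψ ha0 S.lψ (hslt k hk) (jψ k hk.le) (jψ (k + 1) hk)
  obtain ⟨𝒱, w, h𝒱, hw, hwt⟩ := exists_cluster S.uψ.toHol (hM x (Ioo_subset_Icc_self hx)) hnx
  obtain ⟨hw1, hw2⟩ := limit_notMem_image S.uψ h𝒱 hwt
  have hri := range_inter_subset_image hQ hΓ eΓ
  set R := Rin (Γ k) (σ k) (σ (k + 1)) with hR
  have hwR : w ∈ R := by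
    refine (mem_Rin_or_Rout _ _ hw fun h => hw1 (hri ⟨h, hw⟩)).resolve_right fun h => ?_
    obtain ⟨y, hy1, hy2⟩ := ((hwt.eventually (hΓ.isOpen_Rout.mem_nhds h)).and
      (h𝒱 (eventually_image_mem_Rin hQ hΓ S.uψ ha0 S.lψ eΓ hx))).exists
    exact disjoint_left.1 (disjoint_Rin_Rout _ _ _) hy2 hy1
  obtain ⟨ψ₁, u₁, i1, i2, i3⟩ := exists_enlarge S.uψ (S.uψ.isOpen_image.union hΓ.isOpen_Rin)
    (S.uψ.propC.union S.uψ.maps.image_subset (fun _ h => h.1) hΓ.isOpen_Rout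
      (disjoint_Rin_Rout _ _ _) fun z hz => mem_Rin_or_Rout _ _ hz.1 fun h => hz.2 (hri ⟨h, hz.1⟩))
    subset_union_left (union_subset S.uψ.maps.image_subset fun _ h => h.1) (Or.inr hwR) hw2
  obtain ⟨ψ₂, h₁, u₂, uh, im₂, f₂, lh, l₂, jh⟩ := factor_norm S.uψ hcψ0 u₁ i1
    (jψ 0 (Nat.zero_le _))
  have hns : ¬ H ⊆ h₁ '' H := not_surj_of_factor f₂ fun h => hw1 (h (im₂ ▸ i3))
  have hreal : ∀ j < n, j ≠ k → RealOn h₁ (s j) (s (j + 1)) := by
    intro j hj hjk x hx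
    obtain ⟨t₁, j1, -⟩ := contact_split u₂.toHol uh.toHol hcψ0 one_pos l₂ lh
      ((jψ j hj.le).congr f₂)
    obtain ⟨t₂, j2, -⟩ := contact_split u₂.toHol uh.toHol hcψ0 one_pos l₂ lh
      ((jψ (j + 1) hj).congr f₂)
    obtain ⟨M, hM⟩ := bounded_between uh one_pos lh (hslt j hj) j1 j2
    apply tendsto_im_factor S.uψ u₂ uh f₂ hΓ.isOpen_Rin (im₂ ▸ i2) (hM x (Ioo_subset_Icc_self hx))
    have hx' : x < s k ∨ s (k + 1) < x := by
      rcases lt_or_gt_of_ne hjk with h | h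
      · exact Or.inl (hx.2.trans_le (le_of_steps hslt h hk.le))
      · exact Or.inr ((le_of_steps hslt h hj.le).trans_lt hx.1)
    filter_upwards [eventually_image_mem_Rout hQ hΓ S.uψ ha0 S.lψ eΓ (hslt k hk) hx'] with y hy h
    exact disjoint_left.1 (disjoint_Rin_Rout _ _ _) h hy
  obtain ⟨𝒰, gb, ga, hg, hlim⟩ := small_factor uh lh
    (cInf_le_one_of_factor u₂.toHol uh.toHol hcψ0 f₂ lh l₂) hns jh
  have uψ' : ∀ m, Univ (fun z => ψ₂ (gb m z)) := fun m => u₂.comp (hg m).1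
  have lψ' : ∀ m, Low (fun z => ψ₂ (gb m z)) a := fun m => by
    simpa using (l₂.mono hcψ).comp (hg m).2.2.2.2.1 ha0.le (hg m).1.maps
  have fψ' : ∀ m, ∀ z ∈ H, ψ₂ (gb m (ga m z)) = ψ z := fun m z hz => by
    rw [(hg m).2.2.1 z hz, f₂ z hz]
  have ht : ∀ m j, ∃ t, j ≤ n → Julia (ga m) (s j) t (Λ / b / a) := by
    intro m j
    by_cases hj : j ≤ n
    · obtain ⟨t, h1, -⟩ := contact_split (uψ' m).toHol (hg m).2.1.toHol ha0 one_pos (lψ' m)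
        (hg m).2.2.2.1 ((jψ j hj).congr (fψ' m))
      exact ⟨t, fun _ => h1⟩
    · exact ⟨0, fun h => absurd h hj⟩
  choose t ht using ht
  have htl : ∀ j ≤ n, Tendsto (fun m => t m j) 𝒰 (𝓝 (s j)) := by
    intro j hj
    obtain ⟨t₀, h1, h2⟩ := exists_contact_limit 𝒰 (fun m => (hg m).2.1.toHol) hlim
      (fun m => ht m j hj)
    rwa [h2.unique univ_id.toHol (julia_id _)] at h1
  obtain ⟨m, hm⟩ := (((htl (k + 1) hk).sub (htl k hk.le)).eventually_const_lt hlt).exists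
  obtain ⟨ub, ua, fb, la, lb, ja, nsa⟩ := hg m
  have uχ' : Univ (fun z => ga m (χ z)) := ua.comp S.uχ
  have lχ' : Low (fun z => ga m (χ z)) b := by
    simpa using la.comp S.lχ zero_le_one S.uχ.maps
  have fac' : ∀ z ∈ H, ψ₂ (gb m (ga m (χ z))) = φ z := fun z hz => by
    rw [fψ' m _ (S.uχ.maps hz), S.fac z hz]
  refine ⟨fun z => ψ₂ (gb m z), fun z => ga m (χ z), t m, ⟨uψ' m, uχ', fac', lψ' m, lχ',
    fun j hj => ?_, ?_, fun j hj => ?_, fun v hv h => ?_⟩,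
    im_lt_of_not_surj ua.toHol la nsa (S.uχ.maps I_mem_H)⟩
  · obtain ⟨t', h1, -⟩ := contact_split (uψ' m).toHol uχ'.toHol ha0 hb (lψ' m) lχ'
      ((D.jφ j hj).congr fac')
    rwa [h1.unique uχ'.toHol ((ht m j hj).comp ua.toHol S.uχ.toHol (S.jχ j hj))] at h1
  · rw [← S.s0]
    exact (ht m 0 (Nat.zero_le _)).unique ua.toHol ja
  · by_cases e : j = k
    · rw [e]; exact hm.le
    · have := gap_le ua one_pos la (hslt j hj) (ht m j hj.le) (ht m (j + 1) hj)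
        ((hreal j hj e).of_le ua.toHol fun z hz => by
          simpa [fb z hz] using lb _ (ua.maps hz))
      linarith [S.gap j hj]
  · obtain ⟨z, hz, rfl⟩ := h
    rcases i2 (im₂ ▸ ⟨gb m z, ub.maps hz, rfl⟩ : ψ₂ (gb m z) ∈ ψ₁ '' H) with h | h
    · exact S.avoid _ hv h
    · exact disjoint_left.1 (disjoint_Rin_Rout _ _ _) h (hA _ hv k hk)

lemma exists_fixed_state (D : Dat φ σ n Λ P Γ K) (ha : 1 ≤ a) (hb : 0 < b)
    (hA : ∀ w ∈ A, ∀ k < n, w ∈ Rout (Γ k) (σ k) (σ (k + 1)))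
    {ψ₀ χ₀ : ℂ → ℂ} {s₀ : ℕ → ℝ} (S₀ : St φ σ n Λ a b A ψ₀ χ₀ s₀) :
    ∃ ψ χ, Univ ψ ∧ Univ χ ∧ (∀ z ∈ H, ψ (χ z) = φ z) ∧ Low ψ a ∧ Low χ b ∧
      (∀ k ≤ n, Julia ψ (σ k) (σ k) (Λ / b) ∧ Julia χ (σ k) (σ k) (Λ / a)) ∧
      (∀ w ∈ A, w ∉ ψ '' H) ∧ (χ₀ I).im ≤ (χ I).im := by
  have ha0 : 0 < a := by linarith
  obtain ⟨ψ, χ, s, S, hmax⟩ := exists_max_state ha0 hb S₀
  have h1 : ∀ k < n, s (k + 1) - s k = σ (k + 1) - σ k := fun k hk => by
    by_contra h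
    obtain ⟨ψ', χ', s', S', hlt⟩ := exists_better_state D ha hb hA S hk
      (lt_of_le_of_ne (S.gap k hk) (Ne.symm h))
    exact absurd (hmax _ _ _ S') (not_le.2 hlt)
  have h2 : ∀ k ≤ n, s k = σ k := by
    intro k hk
    induction k with
    | zero => exact S.s0
    | succ k ih => linarith [h1 k hk, ih (by omega)]
  refine ⟨ψ, χ, S.uψ, S.uχ, S.fac, S.lψ, S.lχ, fun k hk => ⟨?_, ?_⟩, S.avoid, hmax _ _ _ S₀⟩
  · simpa [h2 k hk] using S.jψ D ha0 hb hk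
  · simpa [h2 k hk] using S.jχ k hk

end Pool.Agent.MP_1a2790_an

end

section

/-! Rigidity: a map which is real outside the hull of its fixed points and has
angular derivative one at infinity is the identity. -/

open Complex Set Filter Topology Metric Function
open scoped ComplexConjugate

namespace Pool.Agent.MP_1a2790_an

/-- The exterior of a half-disc. -/
def Gr (ρ : ℝ) : Set ℂ := {w | w ∈ H ∧ ρ < ‖w‖}

lemma isOpen_Gr (ρ : ℝ) : IsOpen (Gr ρ) :=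
  isOpen_H.inter (isOpen_lt continuous_const continuous_norm)

lemma isPreconnected_Gr {ρ : ℝ} (hρ : 0 < ρ) : IsPreconnected (Gr ρ) := by
  have h : Gr ρ = bom 0 '' (H ∩ ball 0 ρ⁻¹) := by
    ext w
    constructor
    · rintro ⟨h1, h2⟩
      refine ⟨mob 0 w, ⟨mob_mem_H 0 h1, ?_⟩, bom_mob 0 w⟩
      simp only [mob, ofReal_zero, sub_zero, mem_ball_zero_iff, norm_neg, norm_inv]
      exact inv_strictAnti₀ hρ h2
    · rintro ⟨u, ⟨h1, h2⟩, rfl⟩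
      refine ⟨bom_mem_H 0 h1, ?_⟩
      simp only [bom, ofReal_zero, zero_sub, norm_neg, norm_inv]
      rw [mem_ball_zero_iff] at h2
      rwa [lt_inv_comm₀ hρ (norm_pos_iff.2 (ne_zero_of_mem_H h1))]
  rw [h]
  exact ((convex_H.inter (convex_ball 0 _)).isPreconnected).image _
    ((univ_bom 0).toHol.cont.mono inter_subset_left)

lemma mul_I_mem_Gr {ρ y : ℝ} (hy : 0 < y) (h : ρ < y) : (y : ℂ) * I ∈ Gr ρ :=
  ⟨mul_I_mem_H hy, by rwa [norm_mul_I hy]⟩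

lemma Low.le_norm_vertical {φ : ℂ → ℂ} (hl : Low φ 1) {y : ℝ} (hy : 0 < y) :
    y ≤ ‖φ (y * I)‖ := by
  have := hl _ (mul_I_mem_H hy)
  simp only [mul_im, ofReal_re, I_im, mul_one, ofReal_im, I_re, mul_zero, add_zero, one_mul] at this
  exact this.trans (Complex.im_le_norm _)

lemma Gr_subset_image {φ : ℂ → ℂ} (hφ : Univ φ) (hl : Low φ 1) {ρ : ℝ} (hρ : 0 < ρ)
    (h : ∀ a ∈ Gr ρ, a ∈ closure (φ '' H) → a ∈ φ '' H) : Gr ρ ⊆ φ '' H := by
  apply (isPreconnected_Gr hρ).subset_of_closure_inter_subset hφ.isOpen_image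
  · have h1 : 0 < ρ + 1 := by linarith
    exact ⟨φ ((ρ + 1 : ℝ) * I), ⟨hφ.maps (mul_I_mem_H h1),
      lt_of_lt_of_le (by linarith) (hl.le_norm_vertical h1)⟩, _, mul_I_mem_H h1, rfl⟩
  · exact fun a ha => h a ha.2 ha.1

/-- The Joukowski map. -/
noncomputable def jk (ρ : ℝ) (w : ℂ) : ℂ := w + ρ ^ 2 / w

lemma im_jk (ρ : ℝ) (w : ℂ) : (jk ρ w).im = w.im - ρ ^ 2 * w.im / ‖w‖ ^ 2 := by
  have : ((ρ : ℂ) ^ 2 / w).im = -(ρ ^ 2 * w.im / ‖w‖ ^ 2) := by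
    rw [← ofReal_pow, div_eq_mul_inv, im_ofReal_mul, inv_im, Complex.sq_norm]
    ring
  rw [jk, add_im, this]
  ring

lemma jk_mem_H {ρ : ℝ} (hρ : 0 < ρ) {w : ℂ} (hw : w ∈ Gr ρ) : jk ρ w ∈ H := by
  rw [mem_H, im_jk]
  have h1 : 0 < w.im := hw.1
  have h2 := hw.2
  have h3 : 0 < ‖w‖ ^ 2 := by have := hρ.trans h2; positivity
  rw [sub_pos, div_lt_iff₀ h3]
  have : ρ ^ 2 < ‖w‖ ^ 2 := by nlinarith
  nlinarith

lemma injOn_jk {ρ : ℝ} (hρ : 0 < ρ) : InjOn (jk ρ) (Gr ρ) := by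
  intro a ha b hb e
  have ha0 := ne_zero_of_mem_H ha.1
  have hb0 := ne_zero_of_mem_H hb.1
  have h1 : (a - b) * (a * b - ρ ^ 2) = 0 := by
    simp only [jk] at e
    field_simp at e
    linear_combination e
  rcases mul_eq_zero.1 h1 with h | h
  · exact sub_eq_zero.1 h
  · have h2 : ‖a * b‖ = ‖(ρ : ℂ) ^ 2‖ := by rw [sub_eq_zero.1 h]
    rw [norm_mul, norm_pow, norm_real, Real.norm_of_nonneg hρ.le] at h2
    have := ha.2
    have := hb.2
    nlinarith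

lemma surj_jk {ρ : ℝ} (hρ : 0 < ρ) {ζ : ℂ} (hζ : ζ ∈ H) : ∃ w ∈ Gr ρ, jk ρ w = ζ := by
  have key : ∀ a : ℂ, a ≠ 0 → jk ρ a = ζ → ρ ≤ ‖a‖ → a ∈ Gr ρ := by
    intro a ha e h
    have h0 : 0 < (jk ρ a).im := by rw [e]; exact hζ
    rw [im_jk] at h0
    have h3 : 0 < ‖a‖ ^ 2 := by positivity
    rw [sub_pos, div_lt_iff₀ h3] at h0
    have h4 : ρ ^ 2 ≤ ‖a‖ ^ 2 := by nlinarith
    have h5 : 0 < a.im * (‖a‖ ^ 2 - ρ ^ 2) := by nlinarith
    have h6 : 0 < a.im := by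
      by_contra h6
      push Not at h6
      nlinarith
    refine ⟨h6, lt_of_le_of_ne h fun e' => ?_⟩
    rw [← e'] at h5
    simp at h5
  obtain ⟨s, hs⟩ : ∃ s : ℂ, s ^ 2 = ζ ^ 2 - 4 * ρ ^ 2 := IsAlgClosed.exists_pow_nat_eq _ two_pos
  set a := (ζ + s) / 2 with ha
  set b := (ζ - s) / 2 with hb
  have hab : a * b = ρ ^ 2 := by rw [ha, hb]; linear_combination (-1 / 4 : ℂ) * hs
  have hsum : a + b = ζ := by rw [ha, hb]; ring
  have hρ' : (ρ : ℂ) ^ 2 ≠ 0 := by exact_mod_cast (pow_pos hρ 2).ne'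
  have ha0 : a ≠ 0 := left_ne_zero_of_mul (hab ▸ hρ')
  have hb0 : b ≠ 0 := right_ne_zero_of_mul (hab ▸ hρ')
  have ja : jk ρ a = ζ := by rw [jk, ← hab, ← hsum]; field_simp
  have jb : jk ρ b = ζ := by rw [jk, ← hab, ← hsum]; field_simp; ring
  have hn : ‖a‖ * ‖b‖ = ρ ^ 2 := by
    rw [← norm_mul, hab, norm_pow, norm_real, Real.norm_of_nonneg hρ.le]
  by_cases h : ρ ≤ ‖a‖
  · exact ⟨a, key a ha0 ja h, ja⟩
  · push Not at h
    refine ⟨b, key b hb0 jb ?_, jb⟩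
    by_contra h'
    push Not at h'
    nlinarith [norm_nonneg a, norm_nonneg b]

lemma differentiableOn_jk (ρ : ℝ) : DifferentiableOn ℂ (jk ρ) H := by
  unfold jk
  exact differentiableOn_id.add (DifferentiableOn.div (by fun_prop) differentiableOn_id
    fun z hz => ne_zero_of_mem_H hz)

lemma tendsto_ofReal_mul_I_inv : Tendsto (fun y : ℝ => ((y : ℂ) * I)⁻¹) atTop (𝓝 0) := by
  rw [tendsto_zero_iff_norm_tendsto_zero]
  apply tendsto_inv_atTop_zero.congr'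
  filter_upwards [eventually_gt_atTop 0] with y hy
  rw [norm_inv, norm_mul_I hy]

/-- A family asymptotic to the imaginary axis computes the angular derivative. -/
lemma Hol.jwc_of_asymp {f : ℂ → ℂ} (hf : Hol f) {w : ℝ → ℂ}
    (hw : Tendsto (fun y : ℝ => w y / (y * I)) atTop (𝓝 1)) :
    Tendsto (fun y => f (w y) / w y) atTop (𝓝 (cInf f : ℂ)) := by
  have h1 : ∀ᶠ y : ℝ in atTop, ‖w y - y * I‖ ≤ y / 2 := by
    have := (tendsto_iff_norm_sub_tendsto_zero.1 hw).eventually (ge_mem_nhds one_half_pos)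
    filter_upwards [this, eventually_gt_atTop 0] with y h hy
    have h0 : (y : ℂ) * I ≠ 0 := ne_zero_of_mem_H (mul_I_mem_H hy)
    rw [div_sub_one h0, norm_div, norm_mul_I hy, div_le_iff₀ hy] at h
    linarith
  have h2 : ∀ᶠ y : ℝ in atTop, y / 2 ≤ (w y).im ∧ ‖w y‖ ≤ 3 * (y / 2) := by
    filter_upwards [h1, eventually_gt_atTop 0] with y h hy
    have a1 := (Complex.abs_im_le_norm _).trans h
    simp only [sub_im, mul_im, ofReal_re, I_im, mul_one, ofReal_im, I_re, mul_zero, add_zero,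
      abs_le] at a1
    have a2 := norm_add_le (w y - y * I) (y * I)
    rw [sub_add_cancel, norm_mul_I hy] at a2
    exact ⟨by linarith [a1.1], by linarith⟩
  apply hf.jwc_tendsto (K := 3) three_pos
  · filter_upwards [h2, eventually_gt_atTop 0] with y h hy
    exact ⟨mem_H.2 (by linarith [h.1]), by linarith [h.1, h.2]⟩
  · apply tendsto_atTop_mono' _ _ (tendsto_id.atTop_div_const two_pos)
    filter_upwards [h2] with y h
    exact h.1.trans (Complex.im_le_norm _)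

lemma osc_bound {φ : ℂ → ℂ} (hφ : Univ φ) (hl : Low φ 1) (hc : cInf φ ≤ 1) {ρ : ℝ} (hρ : 0 < ρ)
    (hG : Gr ρ ⊆ φ '' H) {r : ℝ} (hr : 2 * ρ ≤ r) {z₁ z₂ : ℂ} (h₁ : z₁ ∈ H) (h₂ : z₂ ∈ H)
    (r₁ : r ≤ ‖φ z₁‖) (r₂ : r ≤ ‖φ z₂‖) : ‖(φ z₁ - z₁) - (φ z₂ - z₂)‖ ≤ 8 * ρ ^ 2 / r := by
  have hc1 : cInf φ = 1 := le_antisymm hc hl.le_cInf
  set V : Set ℂ := H ∩ φ ⁻¹' Gr ρ with hV
  have hVo : IsOpen V := hφ.toHol.cont.isOpen_inter_preimage isOpen_H (isOpen_Gr ρ)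
  set T : ℂ → ℂ := fun z => jk ρ (φ z) with hT
  have hTd : DifferentiableOn ℂ T V :=
    ((differentiableOn_jk ρ).comp hφ.diff hφ.maps).mono inter_subset_left
  have hTi : InjOn T V := fun a ha b hb e => hφ.inj ha.1 hb.1 (injOn_jk hρ ha.2 hb.2 e)
  have hTH : T '' V = H := by
    apply Subset.antisymm
    · rintro _ ⟨z, hz, rfl⟩
      exact jk_mem_H hρ hz.2
    · intro ζ hζ
      obtain ⟨w, hw, rfl⟩ := surj_jk hρ hζ
      obtain ⟨z, hz, rfl⟩ := hG hw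
      exact ⟨z, ⟨hz, hw⟩, rfl⟩
  obtain ⟨g, hgd, hg⟩ := exists_inverse hVo hTd hTi
  rw [hTH] at hgd
  have hgH : Hol g := ⟨hgd, fun ζ hζ => by
    rw [← hTH] at hζ
    obtain ⟨z, hz, rfl⟩ := hζ
    rw [hg z hz]
    exact hz.1⟩
  have hlim := hφ.toHol.jwc_vertical
  rw [hc1, ofReal_one] at hlim
  have hlimT : Tendsto (fun y : ℝ => T (y * I) / (y * I)) atTop (𝓝 1) := by
    have a1 : Tendsto (fun y : ℝ => φ (y * I) / (y * I) + ρ ^ 2 * (((y : ℂ) * I)⁻¹ * ((y : ℂ) * I)⁻¹ *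
        (φ (y * I) / (y * I))⁻¹)) atTop (𝓝 (1 + ρ ^ 2 * (0 * 0 * 1⁻¹))) :=
      hlim.add (((tendsto_ofReal_mul_I_inv.mul tendsto_ofReal_mul_I_inv).mul
        (hlim.inv₀ one_ne_zero)).const_mul _)
    simp only [mul_zero, zero_mul, add_zero] at a1
    apply a1.congr'
    filter_upwards [eventually_gt_atTop 0] with y hy
    have h0 : (y : ℂ) * I ≠ 0 := ne_zero_of_mem_H (mul_I_mem_H hy)
    have h1 : φ (y * I) ≠ 0 := ne_zero_of_mem_H (hφ.maps (mul_I_mem_H hy))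
    simp only [hT, jk]
    generalize (y : ℂ) * I = u at h0 h1 ⊢
    field_simp
  have hcg : cInf g = 1 := by
    have a1 := hgH.jwc_of_asymp hlimT
    have a2 : Tendsto (fun y : ℝ => g (T (y * I)) / T (y * I)) atTop (𝓝 1) := by
      have := hlimT.inv₀ one_ne_zero
      rw [inv_one] at this
      apply this.congr'
      filter_upwards [eventually_gt_atTop 0, eventually_gt_atTop ρ] with y hy hy'
      rw [hg _ ⟨mul_I_mem_H hy, hφ.maps (mul_I_mem_H hy), hy'.trans_le (hl.le_norm_vertical hy)⟩,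
        inv_div]
    exact_mod_cast tendsto_nhds_unique a1 a2
  have hlg : Low g 1 := hgH.low_of_le hcg.ge
  set Q : ℂ → ℂ := fun ζ => φ (g ζ) - g ζ with hQ
  have hQd : DifferentiableOn ℂ Q H := (hφ.toHol.comp hgH).diff.sub hgd
  have hQ0 : ∀ ζ ∈ H, 0 ≤ (Q ζ).im := fun ζ hζ => by
    have := hl _ (hgH.maps hζ)
    simp only [hQ, sub_im]
    linarith
  have hr0 : 0 < r := by linarith
  have main : ∀ z ∈ H, r ≤ ‖φ z‖ → T z ∈ H ∧ Q (T z) = φ z - z ∧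
      (Q (T z)).im * ‖φ z‖ ^ 2 ≤ 2 * ρ ^ 2 * (T z).im ∧ ‖T z‖ ≤ 2 * ‖φ z‖ := by
    intro z hz hzr
    have hzV : z ∈ V := ⟨hz, hφ.maps hz, by show ρ < ‖φ z‖; linarith⟩
    have hTz : T z ∈ H := jk_mem_H hρ hzV.2
    have e1 : Q (T z) = φ z - z := by simp only [hQ, hg z hzV]
    have hn : 0 < ‖φ z‖ := by linarith
    refine ⟨hTz, e1, ?_, ?_⟩
    · have a1 := hlg _ hTz
      rw [hg z hzV, one_mul] at a1
      have a2 : (T z).im = (φ z).im - ρ ^ 2 * (φ z).im / ‖φ z‖ ^ 2 := im_jk ρ _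
      have a3 : 0 < (φ z).im := hφ.maps hz
      have a4 : ρ ^ 2 * (φ z).im / ‖φ z‖ ^ 2 ≤ (φ z).im / 2 := by
        rw [div_le_div_iff₀ (by positivity) two_pos]
        have : 4 * ρ ^ 2 ≤ ‖φ z‖ ^ 2 := by nlinarith
        nlinarith
      have a5 : (Q (T z)).im ≤ ρ ^ 2 * (φ z).im / ‖φ z‖ ^ 2 := by
        rw [e1, sub_im]; linarith
      rw [le_div_iff₀ (by positivity)] at a5
      have : (φ z).im ≤ 2 * (T z).im := by linarith
      nlinarith [sq_nonneg ρ]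
    · have a1 : ‖T z‖ ≤ ‖φ z‖ + ‖(ρ : ℂ) ^ 2 / φ z‖ := norm_add_le _ _
      rw [norm_div, norm_pow, norm_real, Real.norm_of_nonneg hρ.le] at a1
      have : ρ ^ 2 / ‖φ z‖ ≤ ‖φ z‖ := by
        rw [div_le_iff₀ hn]; nlinarith
      linarith
  obtain ⟨m1, e1, q1, n1⟩ := main z₁ h₁ r₁
  obtain ⟨m2, e2, q2, n2⟩ := main z₂ h₂ r₂
  have sp := schwarzPick_closed hQd hQ0 m1 m2
  have p1 := hQ0 _ m1
  have p2 := hQ0 _ m2
  rw [← e1, ← e2]
  have i1 : 0 < (T z₁).im := m1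
  have i2 : 0 < (T z₂).im := m2
  have d1 : ‖T z₁ - T z₂‖ ≤ 2 * (‖φ z₁‖ + ‖φ z₂‖) := (norm_sub_le _ _).trans (by linarith)
  generalize ‖Q (T z₁) - Q (T z₂)‖ = N at sp ⊢
  generalize (Q (T z₁)).im = A at *
  generalize (Q (T z₂)).im = B at *
  generalize (T z₁).im = a at *
  generalize (T z₂).im = b at *
  generalize ‖φ z₁‖ = u at *
  generalize ‖φ z₂‖ = v at *
  have d0 := norm_nonneg (T z₁ - T z₂)
  generalize ‖T z₁ - T z₂‖ = d at *
  have hu : 0 < u := by linarith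
  have hv : 0 < v := by linarith
  have k1 : A * B * (u * v) ^ 2 ≤ (2 * ρ ^ 2) ^ 2 * (a * b) := by
    have := mul_le_mul q1 q2 (by positivity) (by positivity)
    nlinarith
  have k2 : (N * (u * v)) ^ 2 * (a * b) ≤ (d * (2 * ρ ^ 2)) ^ 2 * (a * b) := by
    calc (N * (u * v)) ^ 2 * (a * b) = N ^ 2 * (a * b) * (u * v) ^ 2 := by ring
      _ ≤ d ^ 2 * (A * B) * (u * v) ^ 2 := by gcongr
      _ = d ^ 2 * (A * B * (u * v) ^ 2) := by ring
      _ ≤ d ^ 2 * ((2 * ρ ^ 2) ^ 2 * (a * b)) := by gcongr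
      _ = _ := by ring
  have k3 := le_of_mul_le_mul_right k2 (mul_pos i1 i2)
  have k4 : N * (u * v) ≤ d * (2 * ρ ^ 2) :=
    (le_abs_self _).trans (abs_le_of_sq_le_sq k3 (by positivity))
  have k5 : N * (u * v) ≤ 4 * ρ ^ 2 * (u + v) := by nlinarith [sq_nonneg ρ]
  rw [le_div_iff₀ hr0]
  have k6 : (u + v) * r ≤ 2 * (u * v) := by nlinarith
  have k7 : N * r * (u * v) ≤ 8 * ρ ^ 2 * (u * v) := by
    calc N * r * (u * v) = N * (u * v) * r := by ring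
      _ ≤ 4 * ρ ^ 2 * (u + v) * r := by gcongr
      _ = 4 * ρ ^ 2 * ((u + v) * r) := by ring
      _ ≤ 4 * ρ ^ 2 * (2 * (u * v)) := by gcongr
      _ = _ := by ring
  exact le_of_mul_le_mul_right k7 (mul_pos hu hv)

lemma exists_shift_bound {φ : ℂ → ℂ} (hφ : Univ φ) (hl : Low φ 1) (hc : cInf φ ≤ 1) {ρ : ℝ}
    (hρ : 0 < ρ) (hG : Gr ρ ⊆ φ '' H) :
    ∃ M : ℝ, 0 ≤ M ∧ ∀ z ∈ H, 2 * ρ ≤ ‖φ z‖ → ‖φ z - z‖ ≤ M := by
  have h2 : 0 < 2 * ρ := by linarith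
  refine ⟨8 * ρ ^ 2 / (2 * ρ) + ‖φ ((2 * ρ : ℝ) * I) - (2 * ρ : ℝ) * I‖, by positivity,
    fun z hz h => ?_⟩
  have := osc_bound hφ hl hc hρ hG le_rfl hz (mul_I_mem_H h2) h (hl.le_norm_vertical h2)
  have h3 := norm_add_le (φ z - z - (φ ((2 * ρ : ℝ) * I) - (2 * ρ : ℝ) * I))
    (φ ((2 * ρ : ℝ) * I) - (2 * ρ : ℝ) * I)
  rw [sub_add_cancel] at h3
  linarith

lemma proper_of_shift {φ : ℂ → ℂ} (hφ : Hol φ) (hl : Low φ 1) {ρ M r : ℝ} (hρ : 0 < ρ)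
    (hM0 : 0 ≤ M) (hM : ∀ z ∈ H, 2 * ρ ≤ ‖φ z‖ → ‖φ z - z‖ ≤ M) (hr : 2 * ρ ≤ r) {z : ℂ}
    (hz : z ∈ Gr (r + M)) : r ≤ ‖φ z‖ := by
  by_contra hn
  push Not at hn
  have h0 : 0 < r + M + 1 := by linarith
  have hy := mul_I_mem_Gr h0 (show r + M < r + M + 1 by linarith)
  have hcont : ContinuousOn (fun z => ‖φ z‖) (Gr (r + M)) :=
    (hφ.cont.mono fun _ h => h.1).norm
  obtain ⟨w, hw, e⟩ := (isPreconnected_Gr (by linarith : 0 < r + M)).intermediate_value hz hy hcont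
    (show r ∈ Icc _ _ from ⟨hn.le, le_trans (by linarith) (hl.le_norm_vertical h0)⟩)
  have e' : ‖φ w‖ = r := e
  have h1 := hM w hw.1 (by rw [e']; exact hr)
  have h2 := norm_sub_le (φ w) (φ w - w)
  rw [sub_sub_cancel] at h2
  have := hw.2
  linarith

lemma rigid {φ : ℂ → ℂ} (hφ : Univ φ) (hl : Low φ 1) (hc : cInf φ ≤ 1) {ρ : ℝ}
    (hρ : 0 < ρ) (hG : Gr ρ ⊆ φ '' H) {s s' Λ : ℝ} (hj : Julia φ s s Λ)
    (hj' : Julia φ s' s' Λ) (hreal : ∀ x : ℝ, x < s ∨ s' < x → ∀ M : ℝ,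
      (∀ y ∈ Ioc (0 : ℝ) 1, ‖φ (x + y * I)‖ ≤ M) →
      Tendsto (fun y : ℝ => (φ (x + y * I)).im) (𝓝[>] 0) (𝓝 0)) : ∀ z ∈ H, φ z = z := by
  obtain ⟨M, hM0, hM⟩ := exists_shift_bound hφ hl hc hρ hG
  have hbd : ∀ z ∈ H, ‖φ z‖ ≤ 2 * ρ + ‖z‖ + M := fun z hz => by
    by_cases h : 2 * ρ ≤ ‖φ z‖
    · have h1 := hM z hz h
      have h2 := norm_add_le (φ z - z) z
      rw [sub_add_cancel] at h2
      linarith
    · push Not at h
      linarith [norm_nonneg z]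
  set p : ℂ → ℂ := fun z => φ z - z with hp
  have hpd : DifferentiableOn ℂ p H := hφ.diff.sub differentiableOn_id
  have hp0 : ∀ z ∈ H, 0 ≤ (p z).im := fun z hz => by
    have := hl z hz
    simp only [hp, sub_im]
    linarith
  have hnorm : ∀ x y : ℝ, y ∈ Ioc (0 : ℝ) 1 → ‖(x : ℂ) + y * I‖ ≤ |x| + 1 := fun x y hy => by
    have := norm_add_le (x : ℂ) (y * I)
    rw [norm_mul_I hy.1, norm_real, Real.norm_eq_abs] at this
    linarith [hy.2]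
  have hpim : ∀ x y : ℝ, y ∈ Ioc (0 : ℝ) 1 → |(p (x + y * I)).im| ≤ 2 * ρ + 2 * (|x| + 1) + M :=
    fun x y hy => by
      have h1 := hbd _ (add_mul_I_mem_H x hy.1)
      have h2 := hnorm x y hy
      have h3 : ‖p (x + y * I)‖ ≤ _ := norm_sub_le _ _
      linarith [Complex.abs_im_le_norm (p (x + y * I))]
  have hp_real : ∀ x : ℝ, x < s ∨ s' < x →
      Tendsto (fun y : ℝ => (p (x + y * I)).im) (𝓝[>] 0) (𝓝 0) := fun x hx => by
    have h1 := hreal x hx (2 * ρ + (|x| + 1) + M) fun y hy => by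
      have h1 := hbd _ (add_mul_I_mem_H x hy.1)
      have h2 := hnorm x y hy
      linarith
    refine squeeze_zero' (eventually_nhdsWithin_of_forall fun y hy =>
      hp0 _ (add_mul_I_mem_H x hy)) (eventually_nhdsWithin_of_forall fun y hy => ?_) h1
    have : (0 : ℝ) < y := hy
    simp only [hp, sub_im, add_im, ofReal_im, mul_im, ofReal_re, I_im, I_re]
    linarith
  have hΛ := hj.pos hφ.toHol
  have hvert : ∀ t : ℝ, Julia φ t t Λ → ∀ y : ℝ, 0 < y → |(p (t + y * I)).re| ≤ Λ * y :=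
    fun t ht y hy => by
      have a1 := (Complex.abs_re_le_norm _).trans (ht.vertical hφ.toHol hy)
      simpa [hp] using a1
  set C : ℝ := (|s'| + 3) ^ 2 with hC
  have hC0 : 0 < C := by positivity
  have key : ∀ δ ∈ Ioc (0 : ℝ) 1, ∀ r, 2 * ρ ≤ r →
      (p I).im / C ≤ 2 * (8 * ρ ^ 2 / r) + 2 * Λ * δ := by
    intro δ hδ r hr
    set X : ℝ := r + M + |s| + |s'| + 1 with hX
    have hs1 := neg_abs_le s
    have hs2 := le_abs_self s'
    have hs3 := abs_nonneg s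
    have hs4 := abs_nonneg s'
    have hfar : ∀ x y : ℝ, |x| = X → 0 < y → r ≤ ‖φ (x + y * I)‖ := fun x y hx hy => by
      apply proper_of_shift hφ.toHol hl hρ hM0 hM hr
      refine ⟨add_mul_I_mem_H x hy, ?_⟩
      have := Complex.abs_re_le_norm ((x : ℂ) + y * I)
      simp only [add_re, ofReal_re, mul_re, I_re, mul_zero, ofReal_im, I_im, mul_one, sub_self,
        add_zero] at this
      linarith
    have hX0 : 0 < X := by linarith
    set b : ℝ := (p (X + (1 : ℝ) * I)).re with hb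
    have hosc : ∀ x y : ℝ, |x| = X → 0 < y → |(p (x + y * I)).re - b| ≤ 8 * ρ ^ 2 / r :=
      fun x y hx hy => by
        have := osc_bound hφ hl hc hρ hG hr (add_mul_I_mem_H x hy) (add_mul_I_mem_H X one_pos)
          (hfar x y hx hy) (hfar X 1 (abs_of_pos hX0) one_pos)
        exact (Complex.abs_re_le_norm (p (x + y * I) - p (X + (1 : ℝ) * I))).trans this
    have hbound : ∀ x y : ℝ, |x| ≤ X → y ∈ Ioc (0 : ℝ) δ →
        |(p (x + y * I)).im| ≤ 2 * ρ + 2 * (X + 1) + M := fun x y hx hy =>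
      (hpim x y ⟨hy.1, hy.2.trans hδ.2⟩).trans (by linarith)
    have h1 := rect_ineq hpd (x₁ := s') (x₂ := X) (by linarith) hδ.1
      (M := 2 * ρ + 2 * (X + 1) + M) (η := b + 8 * ρ ^ 2 / r + Λ * δ)
      (fun x hx y hy => hbound x y (abs_le.2 ⟨by linarith [hx.1, neg_abs_le s'], hx.2⟩) hy)
      (fun x hx => hp_real x (Or.inr hx.1)) (fun y hy => by
        have a1 := (abs_le.1 (hosc X y (abs_of_pos hX0) hy.1)).2
        have a2 := (abs_le.1 (hvert s' hj' y hy.1)).1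
        nlinarith [hy.2])
    have h2 := rect_ineq hpd (x₁ := -X) (x₂ := s) (by linarith) hδ.1
      (M := 2 * ρ + 2 * (X + 1) + M) (η := -b + 8 * ρ ^ 2 / r + Λ * δ)
      (fun x hx y hy => hbound x y (abs_le.2 ⟨hx.1, by linarith [hx.2, le_abs_self s]⟩) hy)
      (fun x hx => hp_real x (Or.inl hx.2)) (fun y hy => by
        have a1 := (abs_le.1 (hosc (-X) y (by rw [abs_neg, abs_of_pos hX0]) hy.1)).1
        have a2 := (abs_le.1 (hvert s hj y hy.1)).2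
        nlinarith [hy.2])
    have hcont : Continuous fun x : ℝ => (p (x + δ * I)).im :=
      Complex.continuous_im.comp (continuous_horizontal hpd.continuousOn hδ.1)
    have hnn : ∀ x : ℝ, 0 ≤ (p (x + δ * I)).im := fun x => hp0 _ (add_mul_I_mem_H x hδ.1)
    have h3 : 0 ≤ ∫ x in (-X)..s, (p (x + δ * I)).im :=
      intervalIntegral.integral_nonneg (by linarith) fun x _ => hnn x
    have h4 : ∫ x in s'..(s' + 1), (p (x + δ * I)).im ≤ ∫ x in s'..X, (p (x + δ * I)).im :=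
      intervalIntegral.integral_mono_interval le_rfl (by linarith) (by linarith)
        (Eventually.of_forall fun x => hnn x) (hcont.intervalIntegrable _ _)
    have h5 := intervalIntegral.integral_mono_on (show s' ≤ s' + 1 by linarith)
      (intervalIntegrable_const (c := (p I).im / C * δ))
      (hcont.intervalIntegrable (μ := MeasureTheory.volume) s' (s' + 1)) fun x hx => by
        have a1 := harnack_lower hpd hp0 (add_mul_I_mem_H x hδ.1) I_mem_H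
        have a2 : ‖(x : ℂ) + δ * I - conj I‖ ≤ |s'| + 3 := by
          have b1 := norm_sub_le ((x : ℂ) + δ * I) (conj I)
          have b2 := hnorm x δ hδ
          have b3 : |x| ≤ |s'| + 1 := abs_le.2 ⟨by linarith [hx.1, neg_abs_le s'], by linarith [hx.2]⟩
          simp only [RCLike.norm_conj, norm_I] at b1
          linarith
        have a3 : ‖(x : ℂ) + δ * I - conj I‖ ^ 2 ≤ C := by rw [hC]; gcongr
        simp only [add_im, ofReal_im, mul_im, ofReal_re, I_im, mul_one, I_re, mul_zero, add_zero,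
          zero_add] at a1
        rw [div_mul_eq_mul_div, div_le_iff₀ hC0]
        nlinarith [hnn x]
    simp only [intervalIntegral.integral_const, smul_eq_mul, add_sub_cancel_left, one_mul] at h5
    have h6 : (p I).im / C * δ ≤ (2 * (8 * ρ ^ 2 / r) + 2 * Λ * δ) * δ := by linarith
    exact le_of_mul_le_mul_right h6 hδ.1
  have key2 : ∀ δ ∈ Ioc (0 : ℝ) 1, (p I).im / C ≤ 2 * Λ * δ := fun δ hδ => by
    have t : Tendsto (fun r : ℝ => 2 * (8 * ρ ^ 2 / r) + 2 * Λ * δ) atTop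
        (𝓝 (2 * 0 + 2 * Λ * δ)) :=
      ((tendsto_id.const_div_atTop _).const_mul _).add_const _
    rw [mul_zero, zero_add] at t
    exact ge_of_tendsto t ((eventually_ge_atTop _).mono (key δ hδ))
  have t : Tendsto (fun δ : ℝ => 2 * Λ * δ) (𝓝[>] 0) (𝓝 (2 * Λ * 0)) :=
    Tendsto.mono_left (Continuous.tendsto (by fun_prop) 0) nhdsWithin_le_nhds
  rw [mul_zero] at t
  have key3 := ge_of_tendsto t (mem_of_superset (Ioc_mem_nhdsGT one_pos) key2)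
  rw [div_le_iff₀ hC0, zero_mul] at key3
  refine eq_id_of_im_le hφ.toHol hl hj I_mem_H ?_
  simp only [hp, sub_im] at key3
  linarith

end Pool.Agent.MP_1a2790_an

end

section

/-! The factorisation lemma. -/

open Complex Set Filter Topology Metric Function

namespace Pool.Agent.MP_1a2790_an

variable {φ : ℂ → ℂ} {σ : ℕ → ℝ} {n : ℕ} {Λ : ℝ} {P Γ : ℕ → UI → ℂ} {K : ℕ → ℝ}

lemma low_affine {a : ℝ} (b : ℝ) : Low (fun z => (a : ℂ) * z + b) a := fun z _ => by simp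

lemma not_id_of_low {f : ℂ → ℂ} {β : ℝ} (h : Low f β) (hβ : 1 < β) : ¬ ∀ z ∈ H, f z = z := by
  intro e
  have := h I I_mem_H
  rw [e I I_mem_H] at this
  simp at this
  linarith

lemma split_dat_hyp (D : Dat φ σ n Λ P Γ K) (hc : 1 < cInf φ) :
    ∃ ψ χ, Univ ψ ∧ Univ χ ∧ (∀ z ∈ H, ψ (χ z) = φ z) ∧ Low ψ 1 ∧ Low χ 1 ∧
      (∀ k ≤ n, (∃ L, Julia ψ (σ k) (σ k) L) ∧ ∃ L, Julia χ (σ k) (σ k) L) ∧
      (¬ ∀ z ∈ H, ψ z = z) ∧ ¬ ∀ z ∈ H, χ z = z := by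
  set β := √(cInf φ) with hβ
  have hβ1 : 1 < β := Real.lt_sqrt_of_sq_lt (by simpa using hc)
  have hβ0 : 0 < β := by linarith
  have hββ : β * β = cInf φ := Real.mul_self_sqrt (by linarith)
  have hβc : (β : ℂ) ≠ 0 := by exact_mod_cast hβ0.ne'
  have hl := D.uφ.toHol.low_cInf
  have S₀ : St φ σ n Λ β β ∅ (fun w => φ ((β⁻¹ : ℝ) * w + (σ 0 - β⁻¹ * σ 0 : ℝ)))
      (fun z => (β : ℂ) * z + (σ 0 - β * σ 0 : ℝ)) (fun k => β * σ k + (σ 0 - β * σ 0)) := by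
    refine ⟨D.uφ.comp (univ_affine (inv_pos.2 hβ0) _), univ_affine hβ0 _, fun z _ => ?_, ?_,
      low_affine _, fun k hk => ?_, by ring, fun k hk => ?_, fun _ h => h.elim⟩
    · congr 1
      push_cast
      field_simp
      ring
    · have := hl.comp (low_affine (a := β⁻¹) (σ 0 - β⁻¹ * σ 0)) (by linarith)
        (univ_affine (inv_pos.2 hβ0) _).maps
      rwa [← hββ, mul_assoc, mul_inv_cancel₀ hβ0.ne', mul_one] at this
    · refine (julia_affine _ _).mono (univ_affine hβ0 _).toHol ?_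
      rw [le_div_iff₀ hβ0, hββ]
      exact hl.le_julia D.uφ.toHol (D.jφ k hk)
    · have := D.lt k hk
      nlinarith
  obtain ⟨ψ, χ, h1, h2, h3, h4, h5, h6, -, -⟩ :=
    exists_fixed_state D hβ1.le hβ0 (fun _ h => h.elim) S₀
  exact ⟨ψ, χ, h1, h2, h3, h4.mono hβ1.le, h5.mono hβ1.le,
    fun k hk => ⟨⟨_, (h6 k hk).1⟩, _, (h6 k hk).2⟩, not_id_of_low h4 hβ1, not_id_of_low h5 hβ1⟩

/-- The region outside all arcs. -/
def Uout (σ : ℕ → ℝ) (n : ℕ) (Γ : ℕ → UI → ℂ) : Set ℂ :=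
  H ∩ ⋂ k ∈ Iio n, Rout (Γ k) (σ k) (σ (k + 1))

lemma mem_Uout {a : ℂ} : a ∈ Uout σ n Γ ↔ a ∈ H ∧ ∀ k < n, a ∈ Rout (Γ k) (σ k) (σ (k + 1)) := by
  simp [Uout]

lemma Dat.isOpen_Uout (D : Dat φ σ n Λ P Γ K) : IsOpen (Uout σ n Γ) :=
  isOpen_H.inter ((finite_Iio n).isOpen_biInter fun k hk => (D.hΓ k hk).isOpen_Rout)

lemma Dat.notMem_range (D : Dat φ σ n Λ P Γ K) {a : ℂ} (ha : a ∈ H)
    (h : a ∉ φ '' H) {k : ℕ} (hk : k < n) : a ∉ range (Γ k) := fun h' =>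
  h (range_inter_subset_image (D.hP k hk) (D.hΓ k hk) (D.eΓ k hk) ⟨h', ha⟩)

lemma Dat.propC_union (D : Dat φ σ n Λ P Γ K) : PropC (φ '' H ∪ Uout σ n Γ) := by
  refine D.uφ.propC.union (image_subset_iff.2 D.uφ.maps) inter_subset_left
    (R₀ := ⋃ k ∈ Iio n, Rin (Γ k) (σ k) (σ (k + 1)))
    (isOpen_biUnion fun k hk => (D.hΓ k hk).isOpen_Rin) ?_ ?_
  · rw [Set.disjoint_left]
    intro a ha hb
    obtain ⟨k, hk, hb⟩ := mem_iUnion₂.1 hb
    exact Set.disjoint_left.1 (disjoint_Rin_Rout _ _ _) hb ((mem_Uout.1 ha).2 k hk)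
  · intro a ha
    by_cases h : ∃ k < n, a ∈ Rin (Γ k) (σ k) (σ (k + 1))
    · obtain ⟨k, hk, h⟩ := h
      exact Or.inr (mem_iUnion₂.2 ⟨k, hk, h⟩)
    · push Not at h
      exact Or.inl (mem_Uout.2 ⟨ha.1, fun k hk =>
        (mem_Rin_or_Rout _ _ ha.1 (D.notMem_range ha.1 ha.2 hk)).resolve_left (h k hk)⟩)

lemma split_dat_par (D : Dat φ σ n Λ P Γ K) (hl : Low φ 1) {a : ℂ} (haU : a ∈ Uout σ n Γ)
    (hac : a ∈ closure (φ '' H)) (han : a ∉ φ '' H) :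
    ∃ ψ χ, Univ ψ ∧ Univ χ ∧ (∀ z ∈ H, ψ (χ z) = φ z) ∧ Low ψ 1 ∧ Low χ 1 ∧
      (∀ k ≤ n, (∃ L, Julia ψ (σ k) (σ k) L) ∧ ∃ L, Julia χ (σ k) (σ k) L) ∧
      (¬ ∀ z ∈ H, ψ z = z) ∧ ¬ ∀ z ∈ H, χ z = z := by
  have hφ := D.uφ
  have hc1 := hl.le_cInf
  obtain ⟨ψ₁, u1, s1, s2, s3⟩ := exists_enlarge hφ (hφ.isOpen_image.union D.isOpen_Uout)
    D.propC_union subset_union_left
    (union_subset (image_subset_iff.2 hφ.maps) inter_subset_left) (Or.inr haU) hac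
  obtain ⟨ψ', h₁, u2, u3, e1, e2, l1, l2, j1⟩ :=
    factor_norm hφ (by linarith) u1 s1 (D.jφ 0 (Nat.zero_le _))
  have ns : ¬ H ⊆ h₁ '' H := not_surj_of_factor e2 (by rw [e1]; exact fun h => han (h s3))
  obtain ⟨hb, ha, ub, ua, e3, la, lb, ja, nsa, nsb⟩ := refine_factor u3 l1 ns j1
  obtain ⟨w₀, hw₀, hw₀'⟩ := not_subset.1 nsb
  have uψ₀ := u2.comp ub
  have fac₀ : ∀ z ∈ H, ψ' (hb (ha z)) = φ z := fun z hz => by rw [e3 z hz, e2 z hz]
  have lψ₀ : Low (fun z => ψ' (hb z)) 1 := (l2.comp lb (by linarith) ub.maps).mono (by linarith)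
  have hav : ψ' w₀ ∉ (fun z => ψ' (hb z)) '' H := by
    rintro ⟨z, hz, e⟩
    exact hw₀' ⟨z, hz, u2.inj (ub.maps hz) hw₀ e⟩
  have hsub' : ψ' '' H ⊆ φ '' H ∪ Uout σ n Γ := by rw [e1]; exact s2
  have hU : ψ' w₀ ∈ Uout σ n Γ := by
    refine (hsub' ⟨w₀, hw₀, rfl⟩).resolve_left ?_
    rintro ⟨z, hz, e⟩
    exact hav ⟨ha z, ua.maps hz, (fac₀ z hz).trans e⟩
  have hs : ∀ k, ∃ t : ℝ, k ≤ n → Julia ha (σ k) t (Λ / 1) := fun k => by
    by_cases hk : k ≤ n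
    · obtain ⟨t, h1, -⟩ := contact_split uψ₀.toHol ua.toHol one_pos one_pos lψ₀ la
        ((D.jφ k hk).congr fac₀)
      exact ⟨t, fun _ => h1⟩
    · exact ⟨0, fun h => (hk h).elim⟩
  choose s hs using hs
  have S₀ : St φ σ n Λ 1 1 {ψ' w₀} (fun z => ψ' (hb z)) ha s := by
    refine ⟨uψ₀, ua, fac₀, lψ₀, la, hs, (hs 0 (Nat.zero_le _)).unique ua.toHol ja, fun k hk => ?_,
      fun w hw => by rw [hw]; exact hav⟩
    have hj1 := hs k hk.le
    have hj2 := hs (k + 1) hk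
    obtain ⟨M, hM⟩ := bounded_between ua one_pos la (D.lt k hk) hj1 hj2
    have := gap_le ua one_pos la (D.lt k hk) hj1 hj2 fun x hx =>
      tendsto_im_factor hφ uψ₀ ua fac₀ D.isOpen_Uout
        (fun w ⟨z, hz, e⟩ => hsub' ⟨hb z, ub.maps hz, e⟩) (hM x (Ioo_subset_Icc_self hx))
        ((eventually_image_mem_Rin (D.hP k hk) (D.hΓ k hk) hφ one_pos hl (D.eΓ k hk) hx).mono
          fun y hy h => Set.disjoint_left.1 (disjoint_Rin_Rout _ _ _) hy ((mem_Uout.1 h).2 k hk))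
    linarith
  obtain ⟨ψ, χ, h1, h2, h3, h4, h5, h6, h7, h8⟩ :=
    exists_fixed_state D le_rfl one_pos (fun w hw => by rw [hw]; exact (mem_Uout.1 hU).2) S₀
  refine ⟨ψ, χ, h1, h2, h3, h4, h5, fun k hk => ⟨⟨_, (h6 k hk).1⟩, _, (h6 k hk).2⟩, fun e => ?_,
    fun e => ?_⟩
  · exact h7 _ rfl ⟨_, hU.1, e _ hU.1⟩
  · have := im_lt_of_not_surj ua.toHol la nsa I_mem_H
    rw [e I I_mem_H] at h8
    linarith

lemma Dat.exists_Gr (D : Dat φ σ n Λ P Γ K) : ∃ ρ > 0, Gr ρ ⊆ Uout σ n Γ := by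
  have h : ∀ k, ∃ R : ℝ, k < n → ∀ a ∈ H, R < ‖a‖ → a ∈ Rout (Γ k) (σ k) (σ (k + 1)) :=
    fun k => by
      by_cases hk : k < n
      · obtain ⟨R, hR⟩ := (D.hΓ k hk).exists_large
        exact ⟨R, fun _ => hR⟩
      · exact ⟨0, fun h => (hk h).elim⟩
  choose R hR using h
  obtain ⟨B, hB⟩ := ((finite_Iio n).image R).bddAbove
  refine ⟨max B 1, by positivity, fun a ha => mem_Uout.2 ⟨ha.1, fun k hk => hR k hk a ha.1 ?_⟩⟩
  exact ((hB ⟨k, hk, rfl⟩).trans (le_max_left _ _)).trans_lt ha.2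

lemma Dat.eq_id (D : Dat φ σ n Λ P Γ K) (hl : Low φ 1) (hc : cInf φ ≤ 1)
    (h : ∀ a ∈ Uout σ n Γ, a ∈ closure (φ '' H) → a ∈ φ '' H) : ∀ z ∈ H, φ z = z := by
  obtain ⟨ρ, hρ, hG⟩ := D.exists_Gr
  refine rigid D.uφ hl hc hρ (Gr_subset_image D.uφ hl hρ fun a ha => h a (hG ha))
    (D.jφ 0 (Nat.zero_le _)) (D.jφ n le_rfl) fun x hx M hM => ?_
  by_contra hn
  obtain ⟨𝒰, a, h𝒰, haH, ha⟩ := exists_cluster D.uφ.toHol hM hn
  obtain ⟨n1, n2⟩ := limit_notMem_image D.uφ h𝒰 ha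
  refine n1 (h a (mem_Uout.2 ⟨haH, fun k hk => ?_⟩) n2)
  refine (mem_Rin_or_Rout _ _ haH (D.notMem_range haH n1 hk)).resolve_left fun hin => ?_
  have hx' : x < σ k ∨ σ (k + 1) < x :=
    hx.imp (fun h => h.trans_le (le_of_steps D.lt (Nat.zero_le _) hk.le))
      fun h => (le_of_steps D.lt hk le_rfl).trans_lt h
  obtain ⟨y, hy1, hy2⟩ := ((ha.eventually ((D.hΓ k hk).isOpen_Rin.mem_nhds hin)).and
    (h𝒰 (eventually_image_mem_Rout (D.hP k hk) (D.hΓ k hk) D.uφ one_pos hl (D.eΓ k hk)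
      (D.lt k hk) hx'))).exists
  exact Set.disjoint_left.1 (disjoint_Rin_Rout _ _ _) hy1 hy2

lemma split_dat (D : Dat φ σ n Λ P Γ K) (hl : Low φ 1) (hne : ¬ ∀ z ∈ H, φ z = z) :
    ∃ ψ χ, Univ ψ ∧ Univ χ ∧ (∀ z ∈ H, ψ (χ z) = φ z) ∧ Low ψ 1 ∧ Low χ 1 ∧
      (∀ k ≤ n, (∃ L, Julia ψ (σ k) (σ k) L) ∧ ∃ L, Julia χ (σ k) (σ k) L) ∧
      (¬ ∀ z ∈ H, ψ z = z) ∧ ¬ ∀ z ∈ H, χ z = z := by
  rcases lt_or_ge 1 (cInf φ) with hc | hc
  · exact split_dat_hyp D hc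
  · by_cases h : ∀ a ∈ Uout σ n Γ, a ∈ closure (φ '' H) → a ∈ φ '' H
    · exact (hne (D.eq_id hl hc h)).elim
    · push Not at h
      obtain ⟨a, h1, h2, h3⟩ := h
      exact split_dat_par D hl h1 h2 h3

/-- The semigroup, in the half-plane model. -/
structure SF (F : Set ℝ) (f : ℂ → ℂ) : Prop where
  univ : Univ f
  low : Low f 1
  jul : ∀ x ∈ F, ∃ Λ, Julia f x x Λ

lemma exists_enum {F : Set ℝ} (hF : F.Finite) (hne : F.Nonempty) :
    ∃ (σ : ℕ → ℝ) (n : ℕ), (∀ k < n, σ k < σ (k + 1)) ∧ (∀ k ≤ n, σ k ∈ F) ∧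
      ∀ x ∈ F, ∃ k ≤ n, σ k = x := by
  classical
  obtain ⟨m, hm⟩ : ∃ m, hF.toFinset.card = m + 1 :=
    Nat.exists_eq_succ_of_ne_zero (Finset.card_pos.2 (by simpa using hne)).ne'
  let e := hF.toFinset.orderEmbOfFin hm
  refine ⟨fun k => if h : k < m + 1 then e ⟨k, h⟩ else 0, m, fun k hk => ?_, fun k hk => ?_,
    fun x hx => ?_⟩
  · simp only [dif_pos (show k < m + 1 by omega), dif_pos (show k + 1 < m + 1 by omega)]
    exact e.strictMono (by simp)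
  · simp only [dif_pos (show k < m + 1 by omega)]
    exact hF.mem_toFinset.1 (hF.toFinset.orderEmbOfFin_mem hm _)
  · have : x ∈ range e := by rw [Finset.range_orderEmbOfFin]; simpa using hx
    obtain ⟨k, rfl⟩ := this
    exact ⟨k, by omega, by simp only [dif_pos k.2]⟩

lemma SF.exists_unif {F : Set ℝ} (hF : F.Finite) {f : ℂ → ℂ} (h : SF F f) :
    ∃ Λ, ∀ x ∈ F, Julia f x x Λ := by
  have h1 : ∀ x, ∃ Λ, x ∈ F → Julia f x x Λ := fun x => by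
    by_cases hx : x ∈ F
    · obtain ⟨Λ, hΛ⟩ := h.jul x hx
      exact ⟨Λ, fun _ => hΛ⟩
    · exact ⟨0, fun h => (hx h).elim⟩
  choose L hL using h1
  obtain ⟨B, hB⟩ := (hF.image L).bddAbove
  exact ⟨B, fun x hx => (hL x hx).mono h.univ.toHol (hB ⟨x, hx, rfl⟩)⟩

/-- The factorisation lemma. -/
theorem SF.split {F : Set ℝ} (hF : F.Finite) (hne : F.Nonempty) {φ : ℂ → ℂ} (h : SF F φ)
    (hid : ¬ ∀ z ∈ H, φ z = z) : ∃ ψ χ, SF F ψ ∧ SF F χ ∧ (∀ z ∈ H, ψ (χ z) = φ z) ∧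
      (¬ ∀ z ∈ H, ψ z = z) ∧ ¬ ∀ z ∈ H, χ z = z := by
  obtain ⟨σ, n, h1, h2, h3⟩ := exists_enum hF hne
  obtain ⟨Λ, hΛ⟩ := h.exists_unif hF
  have hP : ∀ k, ∃ (P Γ : UI → ℂ) (K : ℝ), k < n → StolzPath P (σ k) (σ (k + 1)) 4 ∧
      StolzPath Γ (σ k) (σ (k + 1)) K ∧ ∀ t, t ≠ 0 → t ≠ 1 → Γ t = φ (P t) := fun k => by
    by_cases hk : k < n
    · obtain ⟨P, hP⟩ := exists_stolzPath (h1 k hk)
      obtain ⟨Γ, K, hΓ⟩ := hP.image (h1 k hk).ne h.univ.toHol one_pos h.low (hΛ _ (h2 k hk.le))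
        (hΛ _ (h2 (k + 1) hk))
      exact ⟨P, Γ, K, fun _ => ⟨hP, hΓ⟩⟩
    · exact ⟨0, 0, 0, fun h => (hk h).elim⟩
  choose P Γ K hP using hP
  have D : Dat φ σ n Λ P Γ K := ⟨h.univ, h1, fun k hk => hΛ _ (h2 k hk), fun k hk => (hP k hk).1,
    fun k hk => (hP k hk).2.1, fun k hk => (hP k hk).2.2⟩
  obtain ⟨ψ, χ, a1, a2, a3, a4, a5, a6, a7, a8⟩ := split_dat D h.low hid
  refine ⟨ψ, χ, ⟨a1, a4, fun x hx => ?_⟩, ⟨a2, a5, fun x hx => ?_⟩, a3, a7, a8⟩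
  · obtain ⟨k, hk, rfl⟩ := h3 x hx
    exact (a6 k hk).1
  · obtain ⟨k, hk, rfl⟩ := h3 x hx
    exact (a6 k hk).2

end Pool.Agent.MP_1a2790_an

end
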