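import Mathlib
import Pool.Agent.Mg.F1a2790.G449c1d
import Pool.Agent.MP_1a2790_an.Defs

section

/-! Maximal chains of a dense and closed preorder can be parametrised by an interval. -/

open Set Filter Topology

namespace Pool.Agent.MP_1a2790_an

theorem exists_param {X : Type*} (r : X → X → Prop) (T : X → ℝ) (bot top : X)
    (refl : ∀ x, r x x) (trans : ∀ x y z, r x y → r y z → r x z) (hb : ∀ x, r bot x)
    (ht : ∀ x, r x top) (rig : ∀ x y, r x y → T y ≤ T x → r y x)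
    (dense : ∀ x y, r x y → T x < T y → ∃ z, r x z ∧ r z y ∧ T x < T z ∧ T z < T y)
    (closed : ∀ (𝒰 : Ultrafilter ℕ) (x : ℕ → X), ∃ x₀, Tendsto (fun n => T (x n)) 𝒰 (𝓝 (T x₀)) ∧
      (∀ y, (∀ᶠ n in 𝒰, r y (x n)) → r y x₀) ∧ ∀ y, (∀ᶠ n in 𝒰, r (x n) y) → r x₀ y) :
    ∃ γ : ℝ → X, (∀ t ∈ Icc (T bot) (T top), T (γ t) = t) ∧
      ∀ s ∈ Icc (T bot) (T top), ∀ t ∈ Icc (T bot) (T top), s ≤ t → r (γ s) (γ t) := by
  have hmax := maxChain_spec (r := r)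
  set C := maxChain r with hC
  have hcomp : ∀ x ∈ C, ∀ y ∈ C, r x y ∨ r y x := fun x hx y hy => by
    by_cases e : x = y
    · exact Or.inl (e ▸ refl x)
    · exact hmax.isChain hx hy e
  have hins : ∀ z, (∀ x ∈ C, r z x ∨ r x z) → z ∈ C := fun z hz => by
    have := hmax.2 (hmax.isChain.insert fun b hb _ => hz b hb) (subset_insert z C)
    rw [this]
    exact mem_insert _ _
  have hle : ∀ x ∈ C, ∀ y ∈ C, T x ≤ T y → r x y := fun x hx y hy h =>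
    (hcomp x hx y hy).elim id fun h' => rig y x h' h
  have hbC : bot ∈ C := hins _ fun x _ => Or.inl (hb x)
  have htC : top ∈ C := hins _ fun x _ => Or.inr (ht x)
  have hcl : IsClosed (T '' C) := by
    refine isClosed_of_closure_subset fun t htc => ?_
    obtain ⟨u, hu, hut⟩ := mem_closure_iff_seq_limit.1 htc
    choose x hx hxu using hu
    let 𝒰 : Ultrafilter ℕ := Ultrafilter.of atTop
    have h𝒰 : (𝒰 : Filter ℕ) ≤ atTop := Ultrafilter.of_le _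
    obtain ⟨x₀, h1, h2, h3⟩ := closed 𝒰 x
    refine ⟨x₀, hins _ fun y hy => ?_, tendsto_nhds_unique h1 ?_⟩
    · have : ∀ᶠ n in 𝒰, r (x n) y ∨ r y (x n) := Eventually.of_forall fun n => hcomp _ (hx n) _ hy
      exact (Ultrafilter.eventually_or.1 this).imp (h3 y) (h2 y)
    · simp only [hxu]
      exact hut.mono_left h𝒰
  have hsurj : ∀ t ∈ Icc (T bot) (T top), t ∈ T '' C := fun t htI => by
    by_contra hn
    have hA : IsClosed (T '' C ∩ Iic t) := hcl.inter isClosed_Iic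
    have hB : IsClosed (T '' C ∩ Ici t) := hcl.inter isClosed_Ici
    obtain ⟨⟨x, hx, ex⟩, hxt⟩ := hA.csSup_mem ⟨_, ⟨bot, hbC, rfl⟩, htI.1⟩ ⟨t, fun _ h => h.2⟩
    obtain ⟨⟨y, hy, ey⟩, hyt⟩ := hB.csInf_mem ⟨_, ⟨top, htC, rfl⟩, htI.2⟩ ⟨t, fun _ h => h.2⟩
    have hxmax : ∀ w ∈ C, T w ≤ t → T w ≤ T x := fun w hw h => by
      rw [ex]
      exact le_csSup ⟨t, fun _ h => h.2⟩ ⟨⟨w, hw, rfl⟩, h⟩
    have hymin : ∀ w ∈ C, t ≤ T w → T y ≤ T w := fun w hw h => by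
      rw [ey]
      exact csInf_le ⟨t, fun _ h => h.2⟩ ⟨⟨w, hw, rfl⟩, h⟩
    rw [← ex] at hxt
    rw [← ey] at hyt
    have h1 : T x < t := lt_of_le_of_ne hxt fun e => hn ⟨x, hx, e⟩
    have h2 : t < T y := lt_of_le_of_ne hyt fun e => hn ⟨y, hy, e.symm⟩
    obtain ⟨z, z1, z2, z3, z4⟩ := dense x y (hle x hx y hy (by linarith)) (by linarith)
    have hz : z ∈ C := hins z fun w hw => by
      rcases le_total (T w) t with h | h
      · exact Or.inr (trans _ _ _ (hle w hw x hx (hxmax w hw h)) z1)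
      · exact Or.inl (trans _ _ _ z2 (hle y hy w hw (hymin w hw h)))
    rcases le_total (T z) t with h | h
    · linarith [hxmax z hz h]
    · linarith [hymin z hz h]
  have : ∀ t, ∃ x, t ∈ Icc (T bot) (T top) → x ∈ C ∧ T x = t := fun t => by
    by_cases h : t ∈ Icc (T bot) (T top)
    · obtain ⟨x, hx⟩ := hsurj t h
      exact ⟨x, fun _ => hx⟩
    · exact ⟨bot, fun h' => (h h').elim⟩
  choose γ hγ using this
  exact ⟨γ, fun t h => (hγ t h).2, fun s hs t ht hst =>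
    hle _ (hγ s hs).1 _ (hγ t ht).1 (by rw [(hγ s hs).2, (hγ t ht).2]; exact hst)⟩

end Pool.Agent.MP_1a2790_an

end

section

/-! Evolution families in the half-plane model. -/

open Complex Set Filter Topology Metric Function
open scoped ComplexConjugate

namespace Pool.Agent.MP_1a2790_an

/-- Lipschitz evolution family in the half-plane, inside `S`, ending at `φ`. -/
structure EvH (S : (ℂ → ℂ) → Prop) (φ : ℂ → ℂ) (Ψ : ℝ → ℝ → ℂ → ℂ) : Prop where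
  mem : ∀ s t, 0 ≤ s → s ≤ t → S (Ψ s t)
  id : ∀ s, 0 ≤ s → ∀ z ∈ H, Ψ s s z = z
  comp : ∀ s u t, 0 ≤ s → s ≤ u → u ≤ t → ∀ z ∈ H, Ψ s t z = Ψ u t (Ψ s u z)
  lip : ∀ z ∈ H, ∃ C, 0 ≤ C ∧ ∀ s u t, 0 ≤ s → s ≤ u → u ≤ t → ‖Ψ s u z - Ψ s t z‖ ≤ C * (t - u)
  fin : ∀ z ∈ H, Ψ 0 1 z = φ z

lemma eq_of_comp {f g χ : ℂ → ℂ} (hf : Hol f) (hg : Hol g) (hχ : Univ χ)
    (e : ∀ z ∈ H, f (χ z) = g (χ z)) : ∀ z ∈ H, f z = g z := by
  refine (hf.diff.analyticOnNhd isOpen_H).eqOn_of_preconnected_of_eventuallyEq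
    (hg.diff.analyticOnNhd isOpen_H) isPreconnected_H (hχ.maps I_mem_H) ?_
  filter_upwards [hχ.isOpen_image.mem_nhds ⟨I, I_mem_H, rfl⟩]
  rintro _ ⟨z, hz, rfl⟩
  exact e z hz

lemma evH_of_chain {S : (ℂ → ℂ) → Prop} (hS : ∀ f, S f → Univ f) {φ : ℂ → ℂ} {χ : ℝ → ℂ → ℂ}
    (hχ : ∀ t ∈ Icc (0 : ℝ) 1, Univ (χ t)) (h0 : ∀ z ∈ H, χ 0 z = z) (h1 : ∀ z ∈ H, χ 1 z = φ z)
    (hle : ∀ s ∈ Icc (0 : ℝ) 1, ∀ t ∈ Icc (0 : ℝ) 1, s ≤ t → ∃ h, S h ∧ ∀ z ∈ H, χ t z = h (χ s z))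
    (lip : ∀ z ∈ H, ∃ C, 0 ≤ C ∧ ∀ s u t, 0 ≤ s → s ≤ u → u ≤ t → t ≤ 1 → ∀ g h, S g → S h →
      (∀ z ∈ H, χ u z = g (χ s z)) → (∀ z ∈ H, χ t z = h (χ u z)) → ‖g z - h (g z)‖ ≤ C * (t - u)) :
    ∃ Ψ, EvH S φ Ψ := by
  have hm : ∀ s : ℝ, 0 ≤ s → min s 1 ∈ Icc (0 : ℝ) 1 := fun s hs =>
    ⟨le_min hs zero_le_one, min_le_right _ _⟩
  have : ∀ s t : ℝ, ∃ h, 0 ≤ s → s ≤ t → S h ∧ ∀ z ∈ H, χ (min t 1) z = h (χ (min s 1) z) :=
    fun s t => by
      by_cases h : 0 ≤ s ∧ s ≤ t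
      · obtain ⟨g, hg⟩ := hle _ (hm s h.1) _ (hm t (h.1.trans h.2)) (min_le_min_right _ h.2)
        exact ⟨g, fun _ _ => hg⟩
      · exact ⟨0, fun a b => (h ⟨a, b⟩).elim⟩
  choose Ψ hΨ using this
  have hcomp : ∀ s u t, 0 ≤ s → s ≤ u → u ≤ t → ∀ z ∈ H, Ψ s t z = Ψ u t (Ψ s u z) :=
    fun s u t hs hu ht => by
      have a := hΨ s t hs (hu.trans ht)
      have b := hΨ s u hs hu
      have c := hΨ u t (hs.trans hu) ht
      refine eq_of_comp (hS _ a.1).toHol ((hS _ c.1).comp (hS _ b.1)).toHol (hχ _ (hm s hs))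
        fun z hz => ?_
      rw [← a.2 z hz, ← b.2 z hz, ← c.2 z hz]
  refine ⟨Ψ, fun s t hs ht => (hΨ s t hs ht).1, fun s hs => ?_, hcomp, fun z hz => ?_,
    fun z hz => ?_⟩
  · exact eq_of_comp (hS _ (hΨ s s hs le_rfl).1).toHol univ_id.toHol (hχ _ (hm s hs))
      fun z hz => ((hΨ s s hs le_rfl).2 z hz).symm
  · obtain ⟨C, hC, h⟩ := lip z hz
    refine ⟨C, hC, fun s u t hs hu ht => ?_⟩
    rw [hcomp s u t hs hu ht z hz]
    refine (h _ _ _ (hm s hs).1 (min_le_min_right _ hu) (min_le_min_right _ ht) (min_le_right _ _)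
      _ _ (hΨ s u hs hu).1 (hΨ u t (hs.trans hu) ht).1 (hΨ s u hs hu).2
      (hΨ u t (hs.trans hu) ht).2).trans (mul_le_mul_of_nonneg_left ?_ hC)
    rcases le_total u 1 with a | a
    · rw [min_eq_left a]
      linarith [min_le_left t 1]
    · rw [min_eq_right a, min_eq_right (a.trans ht)]
      linarith
  · have := (hΨ 0 1 le_rfl zero_le_one).2 z hz
    rw [min_self, min_eq_left zero_le_one, h0 z hz, h1 z hz] at this
    exact this.symm

variable {F : Set ℝ}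

lemma SF.id (F : Set ℝ) : SF F (fun z => z) := ⟨univ_id, low_id, fun x _ => ⟨1, julia_id x⟩⟩

lemma SF.comp {f g : ℂ → ℂ} (hf : SF F f) (hg : SF F g) : SF F (fun z => f (g z)) :=
  ⟨hf.univ.comp hg.univ, by simpa using hf.low.comp hg.low zero_le_one hg.univ.maps, fun x hx => by
    obtain ⟨a, ha⟩ := hf.jul x hx
    obtain ⟨b, hb⟩ := hg.jul x hx
    exact ⟨_, ha.comp hf.univ.toHol hg.univ.toHol hb⟩⟩

lemma SF.julia_factor {φ ψ χ : ℂ → ℂ} (hψ : SF F ψ) (hχ : SF F χ) (e : ∀ z ∈ H, φ z = ψ (χ z))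
    {x Λ : ℝ} (hx : x ∈ F) (hj : Julia φ x x Λ) : Julia ψ x x Λ ∧ Julia χ x x Λ := by
  obtain ⟨t, h1, h2⟩ := contact_split hψ.univ.toHol hχ.univ.toHol one_pos one_pos hψ.low hχ.low
    (hj.congr fun z hz => (e z hz).symm)
  obtain ⟨L, hL⟩ := hχ.jul x hx
  rw [h1.unique hχ.univ.toHol hL, div_one] at *
  exact ⟨h2, h1⟩

lemma SF.limit {ι : Type*} (𝒰 : Ultrafilter ι) {f : ι → ℂ → ℂ} (hf : ∀ i, SF F (f i)) {Λ σ : ℝ}
    (hσ : σ ∈ F) (hj : ∀ i, ∀ x ∈ F, Julia (f i) x x Λ) :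
    ∃ g, SF F g ∧ TendstoLocallyUniformlyOn f g 𝒰 H := by
  obtain ⟨g, h1, h2, h3⟩ := exists_limit 𝒰 (fun i => (hf i).univ) one_pos (fun i => (hf i).low)
    (w := fun _ => I) (M := max 1 (Λ * ‖I - σ‖ ^ 2 + |σ|)) one_pos fun i =>
      ⟨by simp, by simp, ((hj i σ hσ).norm_I_le' (hf i).univ.toHol).trans (le_max_right _ _)⟩
  exact ⟨g, ⟨h1, h2, fun x hx => ⟨Λ, julia_limit (fun z hz => h3.tendsto_at hz) tendsto_const_nhds
    tendsto_const_nhds tendsto_const_nhds (Eventually.of_forall fun i => hj i x hx)⟩⟩, h3⟩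

/-- The angular derivative at a fixed point. -/
noncomputable def lam (σ : ℝ) (f : ℂ → ℂ) : ℝ := (kap f σ σ)⁻¹

lemma SF.kap_pos {f : ℂ → ℂ} (hf : SF F f) {σ : ℝ} (hσ : σ ∈ F) : 0 < kap f σ σ := by
  obtain ⟨L, hL⟩ := hf.jul σ hσ
  exact hL.kap_pos hf.univ.toHol

lemma SF.julia_lam {f : ℂ → ℂ} (hf : SF F f) {σ : ℝ} (hσ : σ ∈ F) : Julia f σ σ (lam σ f) :=
  hf.univ.toHol.julia_kap (hf.kap_pos hσ)

lemma SF.one_le_lam {f : ℂ → ℂ} (hf : SF F f) {σ : ℝ} (hσ : σ ∈ F) : 1 ≤ lam σ f :=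
  hf.low.le_julia hf.univ.toHol (hf.julia_lam hσ)

lemma Julia.lam_le {f : ℂ → ℂ} (hf : Hol f) {σ Λ : ℝ} (h : Julia f σ σ Λ) : lam σ f ≤ Λ :=
  inv_le_of_inv_le₀ (h.pos hf) (h.le_kap hf)

lemma SF.lam_comp {φ ψ χ : ℂ → ℂ} (hψ : SF F ψ) (hχ : SF F χ) (e : ∀ z ∈ H, φ z = ψ (χ z))
    {σ : ℝ} (hσ : σ ∈ F) : lam σ φ = lam σ ψ * lam σ χ := by
  rw [lam, kap_congr e, kap_comp hψ.univ.toHol hχ.univ.toHol (hχ.kap_pos hσ), mul_inv]
  rfl

lemma SF.eq_id_of_lam_le {f : ℂ → ℂ} (hf : SF F f) {σ : ℝ} (hσ : σ ∈ F) (h : lam σ f ≤ 1) :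
    ∀ z ∈ H, f z = z := fun z hz => by
  have h1 := ((hf.julia_lam hσ).mono hf.univ.toHol h).norm_sub_id_le hf.univ.toHol hf.low hz
  have h2 : 0 < z.im := hz
  rw [sub_self, zero_mul] at h1
  have h3 : ‖f z - z‖ ≤ 0 := by
    by_contra h3
    push Not at h3
    nlinarith
  exact sub_eq_zero.1 (norm_le_zero_iff.1 h3)

lemma SF.one_lt_lam {f : ℂ → ℂ} (hf : SF F f) {σ : ℝ} (hσ : σ ∈ F) (h : ¬ ∀ z ∈ H, f z = z) :
    1 < lam σ f := lt_of_not_ge fun h' => h (hf.eq_id_of_lam_le hσ h')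

lemma lam_id (σ : ℝ) : lam σ (fun z => z) = 1 :=
  le_antisymm ((julia_id σ).lam_le univ_id.toHol) ((SF.id {σ}).one_le_lam rfl)

theorem exists_evH_nonempty (hF : F.Finite) (hne : F.Nonempty) {φ : ℂ → ℂ} (hφ : SF F φ) :
    ∃ Ψ, EvH (SF F) φ Ψ := by
  obtain ⟨σ, hσ⟩ := id hne
  obtain ⟨Λ, hΛ⟩ := hφ.exists_unif hF
  have hΛ1 : 1 ≤ Λ := hφ.low.le_julia hφ.univ.toHol (hΛ σ hσ)
  let X := {χ : ℂ → ℂ // SF F χ ∧ ∃ ψ, SF F ψ ∧ ∀ z ∈ H, φ z = ψ (χ z)}
  let r : X → X → Prop := fun a b => ∃ h, SF F h ∧ ∀ z ∈ H, b.1 z = h (a.1 z)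
  let T : X → ℝ := fun a => lam σ a.1
  let bot : X := ⟨fun z => z, SF.id F, φ, hφ, fun _ _ => rfl⟩
  let top : X := ⟨φ, hφ, fun z => z, SF.id F, fun _ _ => rfl⟩
  have hX : ∀ a : X, ∀ x ∈ F, Julia a.1 x x Λ := fun a x hx => by
    obtain ⟨ψ, h1, h2⟩ := a.2.2
    exact (h1.julia_factor a.2.1 h2 hx (hΛ x hx)).2
  have rig : ∀ a b, r a b → T b ≤ T a → r b a := by
    rintro a b ⟨h, h1, h2⟩ hT
    have e := h1.lam_comp a.2.1 h2 hσ
    have h3 := a.2.1.one_le_lam hσ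
    have h4 : lam σ h ≤ 1 := by
      by_contra h4
      push Not at h4
      simp only [T] at hT
      nlinarith
    refine ⟨fun z => z, SF.id F, fun z hz => ?_⟩
    rw [h2 z hz, h1.eq_id_of_lam_le hσ h4 _ (a.2.1.univ.maps hz)]
  obtain ⟨γ, hγ1, hγ2⟩ := exists_param r T bot top (fun a => ⟨fun z => z, SF.id F, fun _ _ => rfl⟩)
    (by
      rintro a b c ⟨h, h1, h2⟩ ⟨g, g1, g2⟩
      exact ⟨_, g1.comp h1, fun z hz => by rw [g2 z hz, h2 z hz]⟩)
    (fun a => ⟨a.1, a.2.1, fun _ _ => rfl⟩) (fun a => a.2.2) rig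
    (by
      rintro a b ⟨h, h1, h2⟩ hT
      have e := h1.lam_comp a.2.1 h2 hσ
      have h3 := a.2.1.one_le_lam hσ
      have hid : ¬ ∀ z ∈ H, h z = z := fun hid => by
        have : lam σ b.1 = lam σ a.1 := by
          rw [lam, kap_congr (f := a.1) fun z hz => by rw [h2 z hz, hid _ (a.2.1.univ.maps hz)]]
          rfl
        exact hT.ne' this
      obtain ⟨p, q, hp, hq, e1, n1, n2⟩ := h1.split hF hne hid
      obtain ⟨ψ, g1, g2⟩ := b.2.2
      have e2 : ∀ z ∈ H, b.1 z = p (q (a.1 z)) := fun z hz => by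
        rw [h2 z hz, e1 _ (a.2.1.univ.maps hz)]
      have l1 := hp.one_lt_lam hσ n1
      have l2 := hq.one_lt_lam hσ n2
      have l3 := hq.lam_comp a.2.1 (fun _ _ => rfl) hσ
      have l4 := hp.lam_comp (hq.comp a.2.1) e2 hσ
      refine ⟨⟨fun z => q (a.1 z), hq.comp a.2.1, _, g1.comp hp, fun z hz => by
        rw [g2 z hz, e2 z hz]⟩, ⟨q, hq, fun _ _ => rfl⟩, ⟨p, hp, e2⟩, ?_, ?_⟩
      · simp only [T]
        nlinarith
      · simp only [T]
        nlinarith)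
    (by
      intro 𝒰 a
      choose ψ hψ eψ using fun n => (a n).2.2
      have jψ : ∀ n, ∀ x ∈ F, Julia (ψ n) x x Λ := fun n x hx =>
        ((hψ n).julia_factor (a n).2.1 (eψ n) hx (hΛ x hx)).1
      obtain ⟨χ₀, c1, c2⟩ := SF.limit 𝒰 (fun n => (a n).2.1) hσ fun n => hX (a n)
      obtain ⟨ψ₀, d1, d2⟩ := SF.limit 𝒰 hψ hσ jψ
      have e0 : ∀ z ∈ H, φ z = ψ₀ (χ₀ z) := fun z hz =>
        tendsto_nhds_unique (tendsto_const_nhds.congr fun n => eψ n z hz)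
          (tendsto_comp_H d1.univ.toHol d2 (c1.univ.maps hz) (c2.tendsto_at hz))
      have hlim : ∀ (b : ℕ → X) (c : ℕ → X), (∀ᶠ n in 𝒰, r (b n) (c n)) →
          ∃ (h : ℕ → ℂ → ℂ) (h₀ : ℂ → ℂ), SF F h₀ ∧ TendstoLocallyUniformlyOn h h₀ 𝒰 H ∧
            ∀ᶠ n in 𝒰, ∀ z ∈ H, (c n).1 z = h n ((b n).1 z) := fun b c hbc => by
        have : ∀ n, ∃ h, SF F h ∧ (∀ x ∈ F, Julia h x x Λ) ∧
            (r (b n) (c n) → ∀ z ∈ H, (c n).1 z = h ((b n).1 z)) := fun n => by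
          by_cases hr : r (b n) (c n)
          · obtain ⟨h, h1, h2⟩ := hr
            exact ⟨h, h1, fun x hx => (h1.julia_factor (b n).2.1 h2 hx (hX _ x hx)).1, fun _ => h2⟩
          · exact ⟨fun z => z, SF.id F, fun x _ => (julia_id x).mono univ_id.toHol hΛ1,
              fun h => (hr h).elim⟩
        choose h h1 h2 h3 using this
        obtain ⟨h₀, g1, g2⟩ := SF.limit 𝒰 h1 hσ h2
        exact ⟨h, h₀, g1, g2, hbc.mono h3⟩
      refine ⟨⟨χ₀, c1, ψ₀, d1, e0⟩, ?_, fun y hy => ?_, fun y hy => ?_⟩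
      · obtain ⟨α, hα⟩ := exists_tendsto_of_bounded_real 𝒰 (a := fun n => lam σ (a n).1) (M := Λ)
          (Eventually.of_forall fun n => abs_le.2 ⟨by linarith [(a n).2.1.one_le_lam hσ],
            (hX _ σ hσ).lam_le (a n).2.1.univ.toHol⟩)
        obtain ⟨β, hβ⟩ := exists_tendsto_of_bounded_real 𝒰 (a := fun n => lam σ (ψ n)) (M := Λ)
          (Eventually.of_forall fun n => abs_le.2 ⟨by linarith [(hψ n).one_le_lam hσ],
            (jψ n σ hσ).lam_le (hψ n).univ.toHol⟩)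
        have e1 : lam σ φ = β * α := tendsto_nhds_unique
          (tendsto_const_nhds.congr fun n => (hψ n).lam_comp (a n).2.1 (eψ n) hσ) (hβ.mul hα)
        have e2 := d1.lam_comp c1 e0 hσ
        have l1 : lam σ χ₀ ≤ α := (julia_limit (fun z hz => c2.tendsto_at hz) tendsto_const_nhds
          tendsto_const_nhds hα (Eventually.of_forall fun n => (a n).2.1.julia_lam hσ)).lam_le
          c1.univ.toHol
        have l2 : lam σ ψ₀ ≤ β := (julia_limit (fun z hz => d2.tendsto_at hz) tendsto_const_nhds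
          tendsto_const_nhds hβ (Eventually.of_forall fun n => (hψ n).julia_lam hσ)).lam_le
          d1.univ.toHol
        have l3 := c1.one_le_lam hσ
        have l4 := d1.one_le_lam hσ
        have : lam σ χ₀ = α := le_antisymm l1 (by nlinarith)
        simp only [T]
        rw [this]
        exact hα
      · obtain ⟨h, h₀, g1, g2, g3⟩ := hlim (fun _ => y) a hy
        refine ⟨h₀, g1, fun z hz => tendsto_nhds_unique (c2.tendsto_at hz) ?_⟩
        exact (g2.tendsto_at (y.2.1.univ.maps hz)).congr' (g3.mono fun n hn => (hn z hz).symm)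
      · obtain ⟨h, h₀, g1, g2, g3⟩ := hlim a (fun _ => y) hy
        exact ⟨h₀, g1, fun z hz => tendsto_nhds_unique
          (tendsto_const_nhds.congr' (g3.mono fun n hn => hn z hz))
          (tendsto_comp_H g1.univ.toHol g2 (c1.univ.maps hz) (c2.tendsto_at hz))⟩)
  have hTb : T bot = 1 := lam_id σ
  set L := T top with hL
  have hL1 : 1 ≤ L := hφ.one_le_lam hσ
  rw [hTb] at hγ1 hγ2
  have hm : ∀ t ∈ Icc (0 : ℝ) 1, 1 + t * (L - 1) ∈ Icc 1 L := fun t ht =>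
    ⟨by nlinarith [ht.1], by nlinarith [ht.2]⟩
  refine evH_of_chain (fun f hf => hf.univ) (χ := fun t => (γ (1 + t * (L - 1))).1)
    (fun t _ => (γ _).2.1.univ) ?_ (fun z hz => ?_)
    (fun s hs t ht hst => hγ2 _ (hm s hs) _ (hm t ht) (by nlinarith)) fun z hz => ?_
  · exact (γ _).2.1.eq_id_of_lam_le hσ (by simpa using (hγ1 _ (hm 0 (by simp))).le)
  · obtain ⟨h, h1, h2⟩ := (γ (1 + 1 * (L - 1))).2.2
    have e := h1.lam_comp (γ _).2.1 h2 hσ
    have e2 : lam σ (γ (1 + 1 * (L - 1))).1 = 1 + 1 * (L - 1) := hγ1 _ (hm 1 (by simp))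
    have e3 : lam σ φ = L := rfl
    rw [h2 z hz, h1.eq_id_of_lam_le hσ (by nlinarith [h1.one_le_lam hσ]) _ ((γ _).2.1.univ.maps hz)]
  · have hz' : 0 < z.im := hz
    refine ⟨(L - 1) * L * ‖z - σ‖ ^ 2 / z.im, by have := sub_nonneg.2 hL1; positivity,
      fun s u t hs hu ht ht1 g h hg hh eg eh => ?_⟩
    have ms := hm s ⟨hs, by linarith⟩
    have mu := hm u ⟨by linarith, by linarith⟩
    have mt := hm t ⟨by linarith, ht1⟩
    have es : lam σ (γ _).1 = _ := hγ1 _ ms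
    have eu : lam σ (γ _).1 = _ := hγ1 _ mu
    have et : lam σ (γ _).1 = _ := hγ1 _ mt
    have e1 := hg.lam_comp (γ _).2.1 eg hσ
    have e2 := hh.lam_comp (γ _).2.1 eh hσ
    rw [es, eu] at e1
    rw [eu, et] at e2
    have g1 := hg.one_le_lam hσ
    have h1 := hh.one_le_lam hσ
    have g2 : lam σ g ≤ L := by nlinarith [ms.1, mu.2]
    have h2 : lam σ h - 1 ≤ (L - 1) * (t - u) := by nlinarith [mu.1]
    have hw := hg.univ.maps hz
    have hw' : 0 < (g z).im := hw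
    have a1 := (hh.julia_lam hσ).norm_sub_id_le hh.univ.toHol hh.low hw
    have a2 := ((hg.julia_lam hσ).mono hg.univ.toHol g2) z hz
    rw [norm_sub_rev, div_mul_eq_mul_div, le_div_iff₀ hz']
    have h3 : 0 ≤ (L - 1) * (t - u) := by linarith
    have a3 : ‖h (g z) - g z‖ * z.im * (g z).im ≤
        (L - 1) * L * ‖z - σ‖ ^ 2 * (t - u) * (g z).im := by
      calc ‖h (g z) - g z‖ * z.im * (g z).im = ‖h (g z) - g z‖ * (g z).im * z.im := by ring
        _ ≤ (lam σ h - 1) * ‖g z - σ‖ ^ 2 * z.im := by gcongr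
        _ ≤ (L - 1) * (t - u) * ‖g z - σ‖ ^ 2 * z.im := by gcongr
        _ = (L - 1) * (t - u) * (z.im * ‖g z - σ‖ ^ 2) := by ring
        _ ≤ (L - 1) * (t - u) * (L * ‖z - σ‖ ^ 2 * (g z).im) := by gcongr
        _ = _ := by ring
    exact le_of_mul_le_mul_right a3 hw'

end Pool.Agent.MP_1a2790_an

end

section

/-! The case without prescribed repelling fixed points. -/

open Complex Set Filter Topology Metric Function
open scoped ComplexConjugate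

namespace Pool.Agent.MP_1a2790_an

lemma SF.of_empty {f : ℂ → ℂ} (h1 : Univ f) (h2 : Low f 1) : SF ∅ f := ⟨h1, h2, fun _ h => h.elim⟩

lemma sf_translate (b : ℝ) : SF ∅ (fun z => z + b) := SF.of_empty (univ_translate b) (low_translate b)

lemma split_empty {h : ℂ → ℂ} (hh : SF ∅ h) {w : ℂ} (hw : w ∈ H) (hlt : w.im < (h w).im) :
    ∃ p q, SF ∅ p ∧ SF ∅ q ∧ (∀ z ∈ H, h z = p (q z)) ∧ w.im < (q w).im ∧ (q w).im < (h w).im := by
  have hc1 := hh.low.le_cInf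
  have hw' : 0 < w.im := hw
  by_cases hs : H ⊆ h '' H
  · have h1 := low_inverse_of_surj hh.univ (by linarith) hs hw
    have hc : 1 < cInf h := by
      by_contra hc
      push Not at hc
      nlinarith
    set β := √(cInf h) with hβ
    have hβ1 : 1 < β := Real.lt_sqrt_of_sq_lt (by simpa using hc)
    have hβ0 : 0 < β := by linarith
    have hββ : β * β = cInf h := Real.mul_self_sqrt (by linarith)
    have hβc : (β : ℂ) ≠ 0 := by exact_mod_cast hβ0.ne'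
    have hl := hh.univ.toHol.low_cInf
    refine ⟨fun w => h ((β⁻¹ : ℝ) * w + (0 : ℝ)), fun z => (β : ℂ) * z + (0 : ℝ),
      SF.of_empty (hh.univ.comp (univ_affine (inv_pos.2 hβ0) _)) ?_,
      SF.of_empty (univ_affine hβ0 _) ((low_affine _).mono hβ1.le), fun z _ => ?_, ?_, ?_⟩
    · have := hl.comp (low_affine (a := β⁻¹) 0) (by linarith) (univ_affine (inv_pos.2 hβ0) _).maps
      rw [← hββ, mul_assoc, mul_inv_cancel₀ hβ0.ne', mul_one] at this
      exact this.mono hβ1.le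
    · congr 1
      push_cast
      field_simp
      ring
    · simp only [add_im, mul_im, ofReal_re, ofReal_im]
      nlinarith
    · have := hl w hw
      rw [← hββ] at this
      simp only [add_im, mul_im, ofReal_re, ofReal_im]
      nlinarith [mul_pos hβ0 hw']
  · obtain ⟨ψ, u1, s1, s2, s3⟩ := exists_refine hh.univ hs
    obtain ⟨p, q, up, uq, e1, e2, lq, lp⟩ := factor_norm₀ hh.univ (by linarith) u1 s1
    have n1 : ¬ H ⊆ q '' H := not_surj_of_factor e2 (by rwa [e1])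
    refine ⟨p, q, SF.of_empty up (lp.mono hc1), SF.of_empty uq lq, fun z hz => (e2 z hz).symm,
      im_lt_of_not_surj uq.toHol lq n1 hw, ?_⟩
    rw [← e2 w hw]
    exact im_lt_of_not_surj up.toHol (lp.mono hc1) (by rwa [e1]) (uq.maps hw)

lemma norm_of_re_eq_zero {w : ℂ} (hw : w ∈ H) (h : w.re = 0) : ‖w‖ = w.im := by
  have : w = (w.im : ℂ) * I := by apply Complex.ext <;> simp [h]
  rw [this, norm_mul_I hw]
  simp

lemma lip_empty {g h : ℂ → ℂ} (hg : SF ∅ g) (hh : SF ∅ h) {z z₀ : ℂ} (hz : z ∈ H)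
    (hz₀ : 1 ≤ z₀.im) {B η : ℝ} (hB : ‖z₀‖ ≤ B) (hη : ‖h (g z₀) - g z₀‖ ≤ η) :
    ‖g z - h (g z)‖ ≤ (1 + (‖z‖ + B) ^ 2 / z.im) * η := by
  have hz₀' : z₀ ∈ H := mem_H.2 (by linarith)
  have hz' : 0 < z.im := hz
  have hw := hg.univ.maps hz
  have hw₀ := hg.univ.maps hz₀'
  have hpd : DifferentiableOn ℂ (fun z => h z - z) H := hh.univ.diff.sub differentiableOn_id
  have hp0 : ∀ z ∈ H, 0 ≤ (h z - z).im := fun z hz => by
    have := hh.low z hz
    simp only [sub_im]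
    linarith
  have a1 := norm_sub_conj_le hpd hp0 hw hw₀
  have a2 := schwarzPick_closed_conj hg.univ.diff (fun z hz => le_of_lt (hg.univ.maps hz)) hz hz₀'
  have a3 : ‖z - conj z₀‖ ≤ ‖z‖ + B := (norm_sub_le _ _).trans (by rw [RCLike.norm_conj]; linarith)
  have a4 : (h (g z₀) - g z₀).im ≤ η := (Complex.im_le_norm _).trans hη
  have a5 := norm_add_le (h (g z) - g z - conj (h (g z₀) - g z₀)) (conj (h (g z₀) - g z₀))
  rw [sub_add_cancel, RCLike.norm_conj] at a5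
  have hη0 : 0 ≤ η := (norm_nonneg _).trans hη
  have i1 : 0 < (g z).im := hw
  have i2 : 0 < (g z₀).im := hw₀
  have a6 : ‖h (g z) - g z - conj (h (g z₀) - g z₀)‖ ≤ (‖z‖ + B) ^ 2 / z.im * η := by
    rw [div_mul_eq_mul_div, le_div_iff₀ hz']
    apply le_of_mul_le_mul_right _ (mul_pos i1 i2)
    generalize ‖h (g z) - g z - conj (h (g z₀) - g z₀)‖ = N at *
    calc N * z.im * ((g z).im * (g z₀).im) = N * ((g z).im * (g z₀).im) * z.im := by ring
      _ ≤ ‖g z - conj (g z₀)‖ ^ 2 * (h (g z₀) - g z₀).im * z.im := by gcongr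
      _ ≤ ‖g z - conj (g z₀)‖ ^ 2 * η * (z.im * z₀.im) := by
        gcongr
        nlinarith
      _ = ‖g z - conj (g z₀)‖ ^ 2 * (z.im * z₀.im) * η := by ring
      _ ≤ ‖z - conj z₀‖ ^ 2 * ((g z).im * (g z₀).im) * η := by gcongr
      _ ≤ (‖z‖ + B) ^ 2 * ((g z).im * (g z₀).im) * η := by gcongr
      _ = _ := by ring
  rw [norm_sub_rev]
  linarith

lemma exists_chain_empty {φ : ℂ → ℂ} (hφ : SF ∅ φ) (hre : (φ I).re = 0) :
    ∃ χ : ℝ → ℂ → ℂ, (∀ t ∈ Icc (0 : ℝ) 1, Univ (χ t) ∧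
      χ t I = ((1 + t * ((φ I).im - 1) : ℝ) : ℂ) * I) ∧ (∀ z ∈ H, χ 0 z = z) ∧
      (∀ z ∈ H, χ 1 z = φ z) ∧ ∀ s ∈ Icc (0 : ℝ) 1, ∀ t ∈ Icc (0 : ℝ) 1, s ≤ t →
      ∃ h, SF ∅ h ∧ ∀ z ∈ H, χ t z = h (χ s z) := by
  let X := {χ : ℂ → ℂ // SF ∅ χ ∧ (χ I).re = 0 ∧ ∃ ψ, SF ∅ ψ ∧ ∀ z ∈ H, φ z = ψ (χ z)}
  let r : X → X → Prop := fun a b => ∃ h, SF ∅ h ∧ ∀ z ∈ H, b.1 z = h (a.1 z)
  let T : X → ℝ := fun a => (a.1 I).im
  let bot : X := ⟨fun z => z, SF.id ∅, by simp, φ, hφ, fun _ _ => rfl⟩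
  let top : X := ⟨φ, hφ, hre, fun z => z, SF.id ∅, fun _ _ => rfl⟩
  have hX : ∀ a : X, 1 ≤ (a.1 I).im ∧ ‖a.1 I‖ ≤ (φ I).im := fun a => by
    obtain ⟨ψ, h1, h2⟩ := a.2.2.2
    have hI := a.2.1.univ.maps I_mem_H
    refine ⟨by simpa using a.2.1.low I I_mem_H, ?_⟩
    rw [norm_of_re_eq_zero hI a.2.2.1, h2 I I_mem_H]
    simpa using h1.low _ hI
  have rig0 : ∀ a b : X, r a b → T b ≤ T a → ∀ z ∈ H, b.1 z = a.1 z := by
    rintro a b ⟨h, h1, h2⟩ hT z hz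
    have hI := a.2.1.univ.maps I_mem_H
    obtain ⟨c, hc⟩ := translation_of_im_le h1.univ.toHol h1.low hI (by rw [← h2 I I_mem_H]; exact hT)
    have e := congrArg Complex.re ((h2 I I_mem_H).trans (hc _ hI))
    simp only [add_re, ofReal_re, a.2.2.1, b.2.2.1, zero_add] at e
    rw [h2 z hz, hc _ (a.2.1.univ.maps hz), ← e]
    simp
  obtain ⟨γ, hγ1, hγ2⟩ := exists_param r T bot top (fun a => ⟨fun z => z, SF.id ∅, fun _ _ => rfl⟩)
    (by
      rintro a b c ⟨h, h1, h2⟩ ⟨g, g1, g2⟩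
      exact ⟨_, g1.comp h1, fun z hz => by rw [g2 z hz, h2 z hz]⟩)
    (fun a => ⟨a.1, a.2.1, fun _ _ => rfl⟩) (fun a => a.2.2.2)
    (fun a b h hT => ⟨fun z => z, SF.id ∅, fun z hz => (rig0 a b h hT z hz).symm⟩)
    (by
      rintro a b ⟨h, h1, h2⟩ hT
      have hI := a.2.1.univ.maps I_mem_H
      obtain ⟨p, q, hp, hq, e1, n1, n2⟩ := split_empty h1 hI (by rw [← h2 I I_mem_H]; exact hT)
      obtain ⟨ψ, g1, g2⟩ := b.2.2.2
      set c := (q (a.1 I)).re with hc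
      have hq' := (sf_translate (-c)).comp hq
      have hp' := hp.comp (sf_translate c)
      have e2 : ∀ z ∈ H, b.1 z = p (q (a.1 z) + (-c : ℝ) + c) := fun z hz => by
        rw [h2 z hz, e1 _ (a.2.1.univ.maps hz)]
        simp
      refine ⟨⟨fun z => q (a.1 z) + (-c : ℝ), hq'.comp a.2.1, by simp [hc], _, g1.comp hp',
        fun z hz => by rw [g2 z hz, e2 z hz]⟩, ⟨_, hq', fun _ _ => rfl⟩, ⟨_, hp', e2⟩, ?_, ?_⟩
      · simpa [T] using n1
      · rw [← h2 I I_mem_H] at n2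
        simpa [T] using n2)
    (by
      intro 𝒰 a
      choose ψ hψ eψ using fun n => (a n).2.2.2
      obtain ⟨ψ₀, χ₀, d1, c1, e0, d2, c2, d3, c3⟩ := exists_limit_pair 𝒰 (fun n => (hψ n).univ)
        (fun n => (a n).2.1.univ) (fun n z hz => (eψ n z hz).symm) one_pos one_pos
        (fun n => (hψ n).low) (fun n => (a n).2.1.low) fun n => (hX (a n)).2
      have hlim : ∀ (b : ℕ → X) (c : ℕ → X), (∀ᶠ n in 𝒰, r (b n) (c n)) →
          ∃ (h : ℕ → ℂ → ℂ) (h₀ : ℂ → ℂ), SF ∅ h₀ ∧ TendstoLocallyUniformlyOn h h₀ 𝒰 H ∧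
            ∀ᶠ n in 𝒰, ∀ z ∈ H, (c n).1 z = h n ((b n).1 z) := fun b c hbc => by
        have : ∀ n, ∃ h, SF ∅ h ∧ ‖h ((b n).1 I)‖ ≤ (φ I).im ∧
            (r (b n) (c n) → ∀ z ∈ H, (c n).1 z = h ((b n).1 z)) := fun n => by
          by_cases hr : r (b n) (c n)
          · obtain ⟨h, h1, h2⟩ := hr
            exact ⟨h, h1, by rw [← h2 I I_mem_H]; exact (hX _).2, fun _ => h2⟩
          · exact ⟨fun z => z, SF.id ∅, (hX _).2, fun h => (hr h).elim⟩
        choose h h1 h2 h3 using this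
        obtain ⟨h₀, g1, g2, g3⟩ := exists_limit 𝒰 (fun n => (h1 n).univ) one_pos
          (fun n => (h1 n).low) one_pos fun n => ⟨(hX (b n)).1, (hX (b n)).2, h2 n⟩
        exact ⟨h, h₀, SF.of_empty g1 g2, g3, hbc.mono h3⟩
      have hI := c3.tendsto_at I_mem_H
      refine ⟨⟨χ₀, SF.of_empty c1 c2, ?_, ψ₀, SF.of_empty d1 d2, fun z hz => (e0 z hz).symm⟩,
        (Complex.continuous_im.tendsto _).comp hI, fun y hy => ?_, fun y hy => ?_⟩
      · exact tendsto_nhds_unique ((Complex.continuous_re.tendsto _).comp hI)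
          (tendsto_const_nhds.congr fun n => (a n).2.2.1.symm)
      · obtain ⟨h, h₀, g1, g2, g3⟩ := hlim (fun _ => y) a hy
        refine ⟨h₀, g1, fun z hz => tendsto_nhds_unique (c3.tendsto_at hz) ?_⟩
        exact (g2.tendsto_at (y.2.1.univ.maps hz)).congr' (g3.mono fun n hn => (hn z hz).symm)
      · obtain ⟨h, h₀, g1, g2, g3⟩ := hlim a (fun _ => y) hy
        exact ⟨h₀, g1, fun z hz => tendsto_nhds_unique
          (tendsto_const_nhds.congr' (g3.mono fun n hn => hn z hz))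
          (tendsto_comp_H g1.univ.toHol g2 (c1.maps hz) (c3.tendsto_at hz))⟩)
  have hTb : T bot = 1 := by simp [T, bot]
  have hL : T top = (φ I).im := rfl
  have hL1 : 1 ≤ (φ I).im := (hX top).1
  rw [hTb, hL] at hγ1 hγ2
  have hm : ∀ t ∈ Icc (0 : ℝ) 1, 1 + t * ((φ I).im - 1) ∈ Icc 1 (φ I).im := fun t ht =>
    ⟨by nlinarith [ht.1], by nlinarith [ht.2]⟩
  refine ⟨fun t => (γ (1 + t * ((φ I).im - 1))).1, fun t ht => ⟨(γ _).2.1.univ, ?_⟩, ?_, ?_,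
    fun s hs t ht hst => hγ2 _ (hm s hs) _ (hm t ht) (by nlinarith)⟩
  · have e : ((γ _).1 I).im = _ := hγ1 _ (hm t ht)
    apply Complex.ext
    · simpa using (γ _).2.2.1
    · rw [e]
      simp
  · refine rig0 bot _ ⟨_, (γ _).2.1, fun _ _ => rfl⟩ ?_
    rw [hγ1 _ (hm 0 (by simp)), hTb]
    simp
  · refine fun z hz => (rig0 _ top (γ _).2.2.2 ?_ z hz).symm
    rw [hγ1 _ (hm 1 (by simp)), hL]
    simp

theorem exists_evH_empty {φ : ℂ → ℂ} (hφ : SF ∅ φ) : ∃ Ψ, EvH (SF ∅) φ Ψ := by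
  set b := (φ I).re with hb
  obtain ⟨χ, h1, h2, h3, h4⟩ := exists_chain_empty ((sf_translate (-b)).comp hφ) (by simp [hb])
  set L := (φ I + (-b : ℝ)).im with hL
  have hL1 : 1 ≤ L := by simpa [hL] using hφ.low I I_mem_H
  refine evH_of_chain (fun f hf => hf.univ) (χ := fun t z => χ t z + (t * b : ℝ))
    (fun t ht => (univ_translate _).comp (h1 t ht).1) (fun z hz => by simp [h2 z hz])
    (fun z hz => by simp [h3 z hz]) (fun s hs t ht hst => ?_) fun z hz => ?_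
  · obtain ⟨h, a1, a2⟩ := h4 s hs t ht hst
    exact ⟨_, (sf_translate (t * b)).comp (a1.comp (sf_translate (-(s * b)))),
      fun z hz => by simp [a2 z hz]⟩
  · have hz' : 0 < z.im := hz
    refine ⟨(1 + (‖z‖ + (L + |b|)) ^ 2 / z.im) * (L - 1 + |b|),
      by have := sub_nonneg.2 hL1; positivity, fun s u t hs hu ht ht1 g h hg hh eg eh => ?_⟩
    have es := (h1 s ⟨hs, by linarith⟩).2
    have eu := (h1 u ⟨by linarith, by linarith⟩).2
    have et := (h1 t ⟨by linarith, ht1⟩).2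
    rw [mul_assoc]
    refine lip_empty hg hh hz (z₀ := χ s I + (s * b : ℝ)) ?_ ?_ ?_
    · rw [es]
      simp only [add_im, mul_im, ofReal_re, I_im, mul_one, ofReal_im, I_re, mul_zero, add_zero]
      nlinarith
    · refine (norm_add_le _ _).trans (add_le_add ?_ ?_)
      · rw [es, norm_mul_I (by nlinarith)]
        nlinarith
      · rw [norm_real, Real.norm_eq_abs, abs_mul, abs_of_nonneg hs]
        nlinarith [abs_nonneg b]
    · rw [← eg I I_mem_H, ← eh I I_mem_H, et, eu]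
      have : ((1 + t * (L - 1) : ℝ) : ℂ) * I + (t * b : ℝ) - (((1 + u * (L - 1) : ℝ) : ℂ) * I +
          (u * b : ℝ)) = ((t - u : ℝ) : ℂ) * (((L - 1 : ℝ) : ℂ) * I + b) := by
        push_cast
        ring
      rw [this, norm_mul, norm_real, Real.norm_of_nonneg (by linarith), mul_comm]
      apply mul_le_mul_of_nonneg_right _ (by linarith)
      refine (norm_add_le _ _).trans (add_le_add ?_ ?_)
      · rw [norm_mul, norm_I, mul_one, norm_real, Real.norm_of_nonneg (by linarith)]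
      · rw [norm_real, Real.norm_eq_abs]

theorem exists_evH {F : Set ℝ} (hF : F.Finite) {φ : ℂ → ℂ} (hφ : SF F φ) :
    ∃ Ψ, EvH (SF F) φ Ψ := by
  rcases F.eq_empty_or_nonempty with rfl | h
  · exact exists_evH_empty hφ
  · exact exists_evH_nonempty hF h hφ

end Pool.Agent.MP_1a2790_an

end

section

/-! Transfer between the disc and the half-plane. -/

open Complex Set Filter Topology Metric Function
open scoped ComplexConjugate

namespace Pool.Agent.MP_1a2790_an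

/-- Cayley map of the disc onto the half-plane sending `τ` to infinity. -/
noncomputable def cy (τ z : ℂ) : ℂ := I * (τ + z) / (τ - z)

/-- Its inverse. -/
noncomputable def yc (τ w : ℂ) : ℂ := τ * (w - I) / (w + I)

lemma add_I_ne_zero {w : ℂ} (hw : w ∈ H) : w + I ≠ 0 := by
  simpa using sub_conj_ne_zero hw I_mem_H

section
variable {τ : ℂ} (hτ : ‖τ‖ = 1)
include hτ

lemma ne_zero_of_norm_one : τ ≠ 0 := by
  intro h
  simp [h] at hτ

lemma sub_ne_zero_disc {z : ℂ} (hz : ‖z‖ < 1) : τ - z ≠ 0 := by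
  intro h
  rw [← sub_eq_zero.1 h, hτ] at hz
  exact lt_irrefl _ hz

lemma im_cy' {z : ℂ} (h0 : τ - z ≠ 0) : (cy τ z).im = (1 - ‖z‖ ^ 2) / ‖τ - z‖ ^ 2 := by
  have h1 : normSq (τ - z) ≠ 0 := by simpa using h0
  have h2 : τ.re * τ.re + τ.im * τ.im = 1 := by
    rw [← normSq_apply, ← Complex.sq_norm, hτ, one_pow]
  rw [cy, Complex.div_im, Complex.sq_norm, Complex.sq_norm]
  field_simp
  simp only [normSq_apply, sub_re, sub_im, mul_re, mul_im, add_re, add_im, I_re, I_im]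
  linear_combination h2

lemma im_cy {z : ℂ} (hz : ‖z‖ < 1) : (cy τ z).im = (1 - ‖z‖ ^ 2) / ‖τ - z‖ ^ 2 :=
  im_cy' hτ (sub_ne_zero_disc hτ hz)

lemma cy_mem_H {z : ℂ} (hz : ‖z‖ < 1) : cy τ z ∈ H := by
  rw [mem_H, im_cy hτ hz]
  have h3 : 0 < 1 - ‖z‖ ^ 2 := by nlinarith [norm_nonneg z]
  have h4 : 0 < ‖τ - z‖ := norm_pos_iff.2 (sub_ne_zero_disc hτ hz)
  positivity

lemma norm_yc_lt {w : ℂ} (hw : w ∈ H) : ‖yc τ w‖ < 1 := by
  have := norm_cay_lt I_mem_H hw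
  rw [yc, mul_div_assoc, norm_mul, hτ, one_mul]
  simpa [cay] using this

lemma cy_add_I {z : ℂ} (hz : ‖z‖ < 1) : cy τ z + I = 2 * I * τ / (τ - z) := by
  have h0 := sub_ne_zero_disc hτ hz
  rw [cy]
  field_simp
  ring

lemma yc_cy {z : ℂ} (hz : ‖z‖ < 1) : yc τ (cy τ z) = z := by
  have h0 := sub_ne_zero_disc hτ hz
  have h1 := ne_zero_of_norm_one hτ
  rw [yc, cy_add_I hτ hz, cy]
  field_simp
  ring

omit hτ in
lemma sub_yc {w : ℂ} (hw : w ∈ H) : τ - yc τ w = 2 * I * τ / (w + I) := by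
  have h0 := add_I_ne_zero hw
  rw [yc]
  field_simp
  ring

lemma cy_yc {w : ℂ} (hw : w ∈ H) : cy τ (yc τ w) = w := by
  have h0 := add_I_ne_zero hw
  have h1 := ne_zero_of_norm_one hτ
  rw [cy, sub_yc hw, yc]
  field_simp
  ring

lemma differentiableOn_cy : DifferentiableOn ℂ (cy τ) (ball 0 1) := by
  unfold cy
  exact DifferentiableOn.div (by fun_prop) (by fun_prop) fun z hz =>
    sub_ne_zero_disc hτ (by simpa using hz)

omit hτ in
lemma differentiableOn_yc : DifferentiableOn ℂ (yc τ) H := by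
  unfold yc
  exact DifferentiableOn.div (by fun_prop) (by fun_prop) fun z hz => add_I_ne_zero hz

lemma mapsTo_cy : MapsTo (cy τ) (ball 0 1) H := fun z hz => cy_mem_H hτ (by simpa using hz)

lemma mapsTo_yc : MapsTo (yc τ) H (ball 0 1) := fun z hz => by simpa using norm_yc_lt hτ hz

lemma norm_yc_sub_le {a b : ℂ} (ha : a ∈ H) (hb : b ∈ H) : ‖yc τ a - yc τ b‖ ≤ 2 * ‖a - b‖ := by
  have h1 := add_I_ne_zero ha
  have h2 := add_I_ne_zero hb
  have e : yc τ a - yc τ b = 2 * I * τ * (a - b) / ((a + I) * (b + I)) := by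
    rw [yc, yc]
    field_simp
    ring
  have k : ∀ w ∈ H, 1 ≤ ‖w + I‖ := fun w hw => by
    have h3 := Complex.im_le_norm (w + I)
    have h4 : 0 < w.im := hw
    simp only [add_im, I_im] at h3
    linarith
  rw [e, norm_div, norm_mul, norm_mul, norm_mul, norm_mul, hτ, norm_I]
  simp only [Complex.norm_ofNat, mul_one]
  exact div_le_self (by positivity) (one_le_mul_of_one_le_of_one_le (k a ha) (k b hb))

end

/-- The half-plane model of a map of the disc. -/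
noncomputable def up (τ : ℂ) (φ : ℂ → ℂ) (w : ℂ) : ℂ := cy τ (φ (yc τ w))

/-- The disc model of a map of the half-plane. -/
noncomputable def dn (τ : ℂ) (g : ℂ → ℂ) (z : ℂ) : ℂ := yc τ (g (cy τ z))

section
variable {τ : ℂ} (hτ : ‖τ‖ = 1) {φ : ℂ → ℂ} (hd : DifferentiableOn ℂ φ (ball 0 1))
  (hm : MapsTo φ (ball 0 1) (ball 0 1))
include hτ hm

omit hτ in
lemma norm_map_lt {z : ℂ} (hz : ‖z‖ < 1) : ‖φ z‖ < 1 := by
  simpa using hm (by simpa using hz : z ∈ ball (0 : ℂ) 1)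

lemma ratio_eq {z : ℂ} (hz : ‖z‖ < 1) :
    (φ z - τ) / (z - τ) = (cy τ z + I) / (up τ φ (cy τ z) + I) := by
  have h0 := sub_ne_zero_disc hτ hz
  have h1 := ne_zero_of_norm_one hτ
  have h2 := sub_ne_zero_disc hτ (norm_map_lt hm hz)
  have h3 : z - τ ≠ 0 := by rwa [← neg_sub, neg_ne_zero]
  rw [up, yc_cy hτ hz, cy_add_I hτ hz, cy_add_I hτ (norm_map_lt hm hz)]
  field_simp
  ring

include hd

lemma hol_up : Hol (up τ φ) :=
  ⟨(differentiableOn_cy hτ).comp (hd.comp differentiableOn_yc (mapsTo_yc hτ))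
    (hm.comp (mapsTo_yc hτ)), (mapsTo_cy hτ).comp (hm.comp (mapsTo_yc hτ))⟩

lemma univ_up (hi : InjOn φ (ball 0 1)) : Univ (up τ φ) :=
  ⟨hol_up hτ hd hm, fun a ha b hb e => by
    have e1 := congrArg (yc τ) e
    rw [up, up, yc_cy hτ (norm_map_lt hm (norm_yc_lt hτ ha)),
      yc_cy hτ (norm_map_lt hm (norm_yc_lt hτ hb))] at e1
    have e2 := congrArg (cy τ) (hi (mapsTo_yc hτ ha) (mapsTo_yc hτ hb) e1)
    rwa [cy_yc hτ ha, cy_yc hτ hb] at e2⟩

omit hτ hm hd in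
lemma tendsto_shift {g : ℂ → ℂ} {ι : Type*} {l : Filter ι} {w : ι → ℂ} {c : ℂ}
    (hw : ∀ᶠ i in l, w i ∈ H) (hn : Tendsto (fun i => ‖w i‖) l atTop)
    (h : Tendsto (fun i => g (w i) / w i) l (𝓝 c)) :
    Tendsto (fun i => (g (w i) + I) / (w i + I)) l (𝓝 c) := by
  have h0 : Tendsto (fun i => (w i)⁻¹) l (𝓝 0) := by
    rw [tendsto_zero_iff_norm_tendsto_zero]
    simpa [comp_def] using tendsto_inv_atTop_zero.comp hn
  have h1 : Tendsto (fun i => (g (w i) / w i + I * (w i)⁻¹) / (1 + I * (w i)⁻¹)) l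
      (𝓝 ((c + I * 0) / (1 + I * 0))) :=
    (h.add (h0.const_mul _)).div ((h0.const_mul _).const_add _) (by simp)
  simp only [mul_zero, add_zero, div_one] at h1
  apply h1.congr'
  filter_upwards [hw] with i hi
  have a1 := ne_zero_of_mem_H hi
  have a2 := add_I_ne_zero hi
  field_simp

/-- The angular derivative in the disc is the inverse of the one in the half-plane. -/
lemma mul_cInf_eq_one {d : ℂ} (h : HasAngularLimit (fun z => (φ z - τ) / (z - τ)) τ d) :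
    d * cInf (up τ φ) = 1 := by
  have hg := hol_up hτ hd hm
  have hev : ∀ᶠ y : ℝ in atTop, (y : ℂ) * I ∈ H := (eventually_gt_atTop 0).mono fun y => mul_I_mem_H
  have hn : Tendsto (fun y : ℝ => ‖(y : ℂ) * I‖) atTop atTop :=
    tendsto_id.congr' ((eventually_gt_atTop 0).mono fun y hy => (norm_mul_I hy).symm)
  have h1 := tendsto_shift hev hn hg.jwc_vertical
  have hsub : ∀ y : ℝ, 0 < y → ‖τ - yc τ (y * I)‖ = 2 / (y + 1) := fun y hy => by
    rw [sub_yc (mul_I_mem_H hy), norm_div, norm_mul, norm_mul, hτ, norm_I]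
    have : (y : ℂ) * I + I = ((y + 1 : ℝ) : ℂ) * I := by push_cast; ring
    rw [this, norm_mul_I (by linarith)]
    simp
  have h2 : Tendsto (fun y : ℝ => yc τ (y * I)) atTop
      (𝓝[{z | ‖z‖ < 1 ∧ ‖τ - z‖ ≤ 1 * (1 - ‖z‖)}] τ) := by
    refine tendsto_nhdsWithin_iff.2 ⟨?_, ?_⟩
    · rw [tendsto_iff_norm_sub_tendsto_zero]
      apply ((tendsto_atTop_add_const_right _ 1 tendsto_id).const_div_atTop 2).congr'
      filter_upwards [eventually_gt_atTop 0] with y hy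
      rw [norm_sub_rev, hsub y hy]
      rfl
    · filter_upwards [eventually_gt_atTop 1] with y hy
      have hy0 : 0 < y := by linarith
      refine ⟨norm_yc_lt hτ (mul_I_mem_H hy0), ?_⟩
      have a1 : (y : ℂ) * I + I = ((y + 1 : ℝ) : ℂ) * I := by push_cast; ring
      have a2 : (y : ℂ) * I - I = ((y - 1 : ℝ) : ℂ) * I := by push_cast; ring
      rw [hsub y hy0, yc, norm_div, norm_mul, hτ, a1, a2, norm_mul_I (by linarith),
        norm_mul_I (by linarith)]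
      apply le_of_eq
      field_simp
      ring
  have h3 := ((h 1).comp h2).mul h1
  refine tendsto_nhds_unique h3 (tendsto_const_nhds.congr' ?_)
  filter_upwards [hev] with y hy
  have a1 := add_I_ne_zero hy
  have a2 := add_I_ne_zero (hg.maps hy)
  simp only [comp_apply]
  rw [ratio_eq hτ hm (norm_yc_lt hτ hy), cy_yc hτ hy, div_mul_div_cancel₀ a2, div_self a1]

lemma brfp_of_cInf_pos (hc : 0 < cInf (up τ φ)) :
    IsBRFPWithDeriv φ τ ((cInf (up τ φ))⁻¹ : ℝ) := by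
  have hg := hol_up hτ hd hm
  have key : HasAngularLimit (fun z => (φ z - τ) / (z - τ)) τ ((cInf (up τ φ))⁻¹ : ℝ) := by
    intro K
    set l := 𝓝[{z | ‖z‖ < 1 ∧ ‖τ - z‖ ≤ K * (1 - ‖z‖)}] τ with hl
    have hev : ∀ᶠ z in l, ‖z‖ < 1 ∧ ‖τ - z‖ ≤ K * (1 - ‖z‖) := self_mem_nhdsWithin
    have hn0 : Tendsto (fun z => ‖τ - z‖) l (𝓝[>] 0) := by
      refine tendsto_nhdsWithin_iff.2 ⟨?_, hev.mono fun z hz =>
        norm_pos_iff.2 (sub_ne_zero_disc hτ hz.1)⟩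
      have : Continuous fun z : ℂ => ‖τ - z‖ := by fun_prop
      simpa using (this.tendsto τ).mono_left nhdsWithin_le_nhds
    have hn : Tendsto (fun z => ‖cy τ z‖) l atTop := by
      have a1 := tendsto_atTop_add_const_right _ (-1)
        ((tendsto_inv_nhdsGT_zero.comp hn0).const_mul_atTop two_pos)
      refine tendsto_atTop_mono' _ (hev.mono fun z hz => ?_) a1
      have b1 := norm_add_le (cy τ z) I
      rw [cy_add_I hτ hz.1, norm_div, norm_mul, norm_mul, hτ, norm_I] at b1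
      simp only [Complex.norm_ofNat, mul_one] at b1
      simp only [comp_apply]
      rw [← div_eq_mul_inv]
      linarith
    have h1 := hg.jwc_tendsto (l := l) (w := cy τ) (K := 2 * max K 1) (by positivity)
      (hev.mono fun z hz => ⟨cy_mem_H hτ hz.1, by
        have b0 : 0 < ‖τ - z‖ := norm_pos_iff.2 (sub_ne_zero_disc hτ hz.1)
        have b1 : ‖τ + z‖ ≤ 2 := (norm_add_le _ _).trans (by linarith [hz.1])
        have b2 : ‖τ - z‖ ≤ max K 1 * (1 - ‖z‖ ^ 2) := by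
          refine hz.2.trans (mul_le_mul (le_max_left _ _) ?_ (by linarith [hz.1]) (by positivity))
          nlinarith [norm_nonneg z, hz.1]
        rw [im_cy hτ hz.1, cy, norm_div, norm_mul, norm_I, one_mul, ← mul_div_assoc,
          div_le_div_iff₀ b0 (by positivity)]
        calc ‖τ + z‖ * ‖τ - z‖ ^ 2 = ‖τ + z‖ * ‖τ - z‖ * ‖τ - z‖ := by ring
          _ ≤ 2 * (max K 1 * (1 - ‖z‖ ^ 2)) * ‖τ - z‖ := by gcongr
          _ = _ := by ring⟩) hn
    have h2 := (tendsto_shift (hev.mono fun z hz => cy_mem_H hτ hz.1) hn h1).inv₀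
      (by exact_mod_cast hc.ne')
    rw [ofReal_inv]
    apply h2.congr'
    filter_upwards [hev] with z hz
    rw [ratio_eq hτ hm hz.1, inv_div]
  refine ⟨hτ, fun K => ?_, key⟩
  have a1 : Tendsto (fun z => z - τ) (𝓝[{z | ‖z‖ < 1 ∧ ‖τ - z‖ ≤ K * (1 - ‖z‖)}] τ) (𝓝 0) := by
    have : Continuous fun z : ℂ => z - τ := by fun_prop
    simpa using (this.tendsto τ).mono_left nhdsWithin_le_nhds
  have a2 := ((key K).mul a1).add_const τ
  rw [mul_zero, zero_add] at a2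
  apply a2.congr'
  filter_upwards [self_mem_nhdsWithin] with z hz
  have h3 : z - τ ≠ 0 := by
    rw [← neg_sub, neg_ne_zero]
    exact sub_ne_zero_disc hτ hz.1
  field_simp
  ring

lemma cInf_pos_of_brfp {d : ℂ} (h : IsBRFPWithDeriv φ τ d) : 0 < cInf (up τ φ) := by
  refine lt_of_le_of_ne (hol_up hτ hd hm).cInf_nonneg fun e => ?_
  have := mul_cInf_eq_one hτ hd hm h.2.2
  rw [← e] at this
  simp at this

end

lemma im_div_eq {τ σ : ℂ} (hτ : ‖τ‖ = 1) (hσ : ‖σ‖ = 1) (hne : σ ≠ τ) {z : ℂ} (hz : ‖z‖ < 1) :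
    (cy τ z).im * 4 = (cy σ z).im * (‖cy τ z - (cy τ σ).re‖ ^ 2 * ‖τ - σ‖ ^ 2) := by
  have h0 : τ - σ ≠ 0 := sub_ne_zero.2 hne.symm
  have h1 := sub_ne_zero_disc hτ hz
  have h2 := sub_ne_zero_disc hσ hz
  have e1 : ((cy τ σ).re : ℂ) = cy τ σ := by
    apply Complex.ext
    · simp
    · rw [im_cy' hτ h0, hσ]
      simp
  have e2 : cy τ z - cy τ σ = -(2 * I * τ * (σ - z)) / ((τ - z) * (τ - σ)) := by
    rw [cy, cy]
    field_simp
    ring
  rw [e1, e2, im_cy hτ hz, im_cy hσ hz, norm_div, norm_neg, norm_mul, norm_mul, norm_mul, norm_mul,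
    hτ, norm_I]
  have n0 := norm_ne_zero_iff.2 h0
  have n1 := norm_ne_zero_iff.2 h1
  have n2 := norm_ne_zero_iff.2 h2
  simp only [Complex.norm_ofNat]
  field_simp
  norm_num

lemma julia_iff_low {τ σ : ℂ} (hτ : ‖τ‖ = 1) (hσ : ‖σ‖ = 1) (hne : σ ≠ τ) {φ : ℂ → ℂ}
    (hm : MapsTo φ (ball 0 1) (ball 0 1)) {Λ : ℝ} (hΛ : 0 < Λ) :
    Julia (up τ φ) (cy τ σ).re (cy τ σ).re Λ ↔ Low (up σ φ) Λ⁻¹ := by
  have key : ∀ z, ‖z‖ < 1 → ((cy τ z).im * ‖cy τ (φ z) - (cy τ σ).re‖ ^ 2 ≤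
      Λ * ‖cy τ z - (cy τ σ).re‖ ^ 2 * (cy τ (φ z)).im ↔ Λ⁻¹ * (cy σ z).im ≤ (cy σ (φ z)).im) := by
    intro z hz
    have hz' := norm_map_lt hm hz
    have a1 := im_div_eq hτ hσ hne hz
    have a2 := im_div_eq hτ hσ hne hz'
    have p1 : 0 < ‖cy τ z - (cy τ σ).re‖ := norm_pos_iff.2 (sub_real_ne_zero (cy_mem_H hτ hz) _)
    have p2 : 0 < ‖cy τ (φ z) - (cy τ σ).re‖ :=
      norm_pos_iff.2 (sub_real_ne_zero (cy_mem_H hτ hz') _)
    have p3 : 0 < ‖τ - σ‖ := norm_pos_iff.2 (sub_ne_zero.2 hne.symm)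
    rw [inv_mul_le_iff₀ hΛ, ← mul_le_mul_iff_left₀ (show (0 : ℝ) < 4 by norm_num),
      ← mul_le_mul_iff_left₀ (a := ‖cy τ z - (cy τ σ).re‖ ^ 2 * ‖cy τ (φ z) - (cy τ σ).re‖ ^ 2 *
        ‖τ - σ‖ ^ 2) (b := (cy σ z).im) (by positivity)]
    apply Iff.of_eq
    congr 1
    · linear_combination ‖cy τ (φ z) - (cy τ σ).re‖ ^ 2 * a1
    · linear_combination Λ * ‖cy τ z - (cy τ σ).re‖ ^ 2 * a2
  constructor
  · intro h w hw
    have h1 := h _ (cy_mem_H hτ (norm_yc_lt hσ hw))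
    rw [up, yc_cy hτ (norm_yc_lt hσ hw), key _ (norm_yc_lt hσ hw), cy_yc hσ hw] at h1
    exact h1
  · intro h w hw
    have h1 := h _ (cy_mem_H hσ (norm_yc_lt hτ hw))
    rw [up, yc_cy hσ (norm_yc_lt hτ hw), ← key _ (norm_yc_lt hτ hw), cy_yc hτ hw] at h1
    exact h1

theorem embedding (F : Set ℂ) (τ : ℂ) (hF : F.Finite) (hFs : F ⊆ sphere 0 1) (hτ' : τ ∈ sphere 0 1)
    (hτF : τ ∉ F) : HasEmbeddingProperty (UtauF τ F) := by
  have hτ : ‖τ‖ = 1 := by simpa using hτ'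
  have hF1 : ∀ σ ∈ F, ‖σ‖ = 1 := fun σ h => by simpa using hFs h
  have hne : ∀ σ ∈ F, σ ≠ τ := fun σ h e => hτF (e ▸ h)
  intro φ hφ hid
  obtain ⟨⟨hd, hi, hm, hb⟩, -, hdw⟩ := hφ.resolve_left hid
  obtain ⟨-, d, hd1, hdb⟩ := hdw.resolve_left fun h => by linarith [h.1]
  have hS : SF ((fun σ => (cy τ σ).re) '' F) (up τ φ) := by
    refine ⟨univ_up hτ hd hm hi, (hol_up hτ hd hm).low_of_le ?_, ?_⟩
    · have a1 : d * cInf (up τ φ) = 1 := by exact_mod_cast mul_cInf_eq_one hτ hd hm hdb.2.2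
      nlinarith [(hol_up hτ hd hm).cInf_nonneg]
    · rintro _ ⟨σ, hσ, rfl⟩
      obtain ⟨e, he⟩ := hb σ hσ
      have hc := cInf_pos_of_brfp (hF1 σ hσ) hd hm he
      refine ⟨(cInf (up σ φ))⁻¹, (julia_iff_low hτ (hF1 σ hσ) (hne σ hσ) hm (inv_pos.2 hc)).2 ?_⟩
      rw [inv_inv]
      exact (hol_up (hF1 σ hσ) hd hm).low_cInf
  obtain ⟨Ψ, hΨ⟩ := exists_evH (hF.image _) hS
  have hball : ∀ {z : ℂ}, z ∈ ball (0 : ℂ) 1 → ‖z‖ < 1 := fun hz => by simpa using hz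
  have hdn : ∀ g, Hol g → DifferentiableOn ℂ (dn τ g) (ball 0 1) ∧
      MapsTo (dn τ g) (ball 0 1) (ball 0 1) := fun g hg =>
    ⟨differentiableOn_yc.comp (hg.diff.comp (differentiableOn_cy hτ) (mapsTo_cy hτ))
      (hg.maps.comp (mapsTo_cy hτ)), (mapsTo_yc hτ).comp (hg.maps.comp (mapsTo_cy hτ))⟩
  have hupdn : ∀ g, Hol g → ∀ w ∈ H, up τ (dn τ g) w = g w := fun g hg w hw => by
    rw [up, dn, cy_yc hτ hw, cy_yc hτ (hg.maps hw)]
  refine ⟨fun s t => dn τ (Ψ s t), ⟨fun s t hs ht => hdn _ (hΨ.mem s t hs ht).univ.toHol,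
    fun s hs z hz => ?_, fun s u t hs hu ht z hz => ?_, fun z hz T hT => ?_⟩, fun s t hs ht => ?_,
    fun z hz => ?_⟩
  · show dn τ (Ψ s s) z = z
    rw [dn, hΨ.id s hs _ (mapsTo_cy hτ hz), yc_cy hτ (hball hz)]
  · simp only [dn, comp_apply]
    rw [hΨ.comp s u t hs hu ht _ (mapsTo_cy hτ hz),
      cy_yc hτ ((hΨ.mem s u hs hu).univ.maps (mapsTo_cy hτ hz))]
  · obtain ⟨C, hC, h⟩ := hΨ.lip _ (mapsTo_cy hτ hz)
    refine ⟨fun _ => 2 * C, fun _ => by positivity, continuousOn_const.integrableOn_Icc,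
      fun s u t hs hu ht _ => ?_⟩
    rw [intervalIntegral.integral_const, smul_eq_mul]
    refine (norm_yc_sub_le hτ ((hΨ.mem s u hs hu).univ.maps (mapsTo_cy hτ hz))
      ((hΨ.mem s t hs (hu.trans ht)).univ.maps (mapsTo_cy hτ hz))).trans ?_
    linarith [h s u t hs hu ht]
  · have hg := hΨ.mem s t hs ht
    set g := Ψ s t
    obtain ⟨gd, gm⟩ := hdn g hg.univ.toHol
    have e := hupdn g hg.univ.toHol
    by_cases hgid : EqOn (dn τ g) id (ball 0 1)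
    · exact Or.inl hgid
    refine Or.inr ⟨⟨gd, fun a ha b hb eab => ?_, gm, fun σ hσ => ?_⟩, hgid,
      Or.inr ⟨fun z hz ez => hgid fun w hw => ?_, (cInf (up τ (dn τ g)))⁻¹, ?_, ?_⟩⟩
    · have e1 : cy τ (dn τ g a) = cy τ (dn τ g b) := congrArg (cy τ) eab
      rw [dn, dn, cy_yc hτ (hg.univ.maps (mapsTo_cy hτ ha)),
        cy_yc hτ (hg.univ.maps (mapsTo_cy hτ hb))] at e1
      have e2 := congrArg (yc τ) (hg.univ.inj (mapsTo_cy hτ ha) (mapsTo_cy hτ hb) e1)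
      rwa [yc_cy hτ (hball ha), yc_cy hτ (hball hb)] at e2
    · obtain ⟨Λ, hΛ⟩ := hg.jul _ ⟨σ, hσ, rfl⟩
      have hΛ0 := hΛ.pos hg.univ.toHol
      have := (julia_iff_low hτ (hF1 σ hσ) (hne σ hσ) gm hΛ0).1 (hΛ.congr e)
      exact ⟨_, brfp_of_cInf_pos (hF1 σ hσ) gd gm ((inv_pos.2 hΛ0).trans_le this.le_cInf)⟩
    · have hz' := cy_mem_H hτ hz
      have e1 : g (cy τ z) = cy τ z := by
        have : cy τ (dn τ g z) = cy τ z := congrArg (cy τ) ez
        rwa [dn, cy_yc hτ (hg.univ.maps hz')] at this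
      obtain ⟨b, hb⟩ := translation_of_im_le hg.univ.toHol hg.low hz' (by rw [e1])
      have hb0 : (b : ℂ) = 0 := by
        have := hb _ hz'
        rw [e1] at this
        linear_combination -this
      show dn τ g w = w
      rw [dn, hb _ (mapsTo_cy hτ hw), hb0, add_zero, yc_cy hτ (hball hw)]
    · exact inv_le_one_of_one_le₀ (hg.low.congr e).le_cInf
    · exact brfp_of_cInf_pos hτ gd gm (one_pos.trans_le (hg.low.congr e).le_cInf)
  · show dn τ (Ψ 0 1) z = φ z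
    rw [dn, hΨ.fin _ (mapsTo_cy hτ hz), up, yc_cy hτ (hball hz),
      yc_cy hτ (hball (hm hz))]

end Pool.Agent.MP_1a2790_an

end
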