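import Pool.Agent.Mg.F1a2790.G449c1d
import Pool.Agent.Mg.F1a2790.Gd72f8f

section

/-! Wolff's lemma in the half-plane. -/

open Complex Set Filter Topology Metric Function

namespace Pool.Agent.MP_1a2790_an

lemma univ_add_mul_I {ε : ℝ} (hε : 0 < ε) : Univ (fun z => z + ε * I) := by
  refine ⟨⟨by fun_prop, fun z hz => ?_⟩, fun z _ w _ e => add_right_cancel e⟩
  have : 0 < z.im := hz
  simp only [mem_H, add_im, mul_im, ofReal_re, I_im, mul_one, ofReal_im, I_re, mul_zero, add_zero]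
  linarith

/-- A bounded map pushed upwards has a fixed point. -/
lemma exists_fixed_of_bounded {h : ℂ → ℂ} (hh : Hol h) {ε M : ℝ} (hε : 0 < ε)
    (hM : ∀ z ∈ H, ‖h z‖ ≤ M) : ∃ z ∈ H, h z + ε * I = z := by
  set f : ℂ → ℂ := fun z => h z + ε * I with hf
  have hfH : Hol f := (univ_add_mul_I hε).toHol.comp hh
  have him : ∀ z, (f z).im = (h z).im + ε := fun z => by simp [hf]
  set K : Set ℂ := closedBall 0 (M + ε) ∩ {z | ε ≤ z.im} with hK
  have hKc : IsCompact K :=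
    (isCompact_closedBall _ _).inter_right (isClosed_le continuous_const Complex.continuous_im)
  have hKH : K ⊆ H := fun z hz => lt_of_lt_of_le hε hz.2
  have hfK : ∀ z ∈ H, f z ∈ K := fun z hz => by
    refine ⟨?_, ?_⟩
    · rw [mem_closedBall_zero_iff]
      refine (norm_add_le _ _).trans ?_
      rw [norm_mul_I hε]
      linarith [hM z hz]
    · have : 0 < (h z).im := hh.maps hz
      show ε ≤ (f z).im
      rw [him]
      linarith
  set D : ℂ → ℝ := fun z => ‖z - f z‖ ^ 2 / (z.im * (f z).im) with hD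
  have hDc : ContinuousOn D K := by
    have c1 : ContinuousOn f K := hfH.cont.mono hKH
    refine ContinuousOn.div ((continuousOn_id.sub c1).norm.pow 2)
      (Complex.continuous_im.continuousOn.mul (Complex.continuous_im.comp_continuousOn c1))
      fun z hz => ?_
    have a1 : 0 < z.im := hKH hz
    have a2 : 0 < (f z).im := hfH.maps (hKH hz)
    positivity
  obtain ⟨z, hz, hmin⟩ := hKc.exists_isMinOn ⟨_, hfK I I_mem_H⟩ hDc
  have hzH := hKH hz
  refine ⟨z, hzH, ?_⟩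
  by_contra hne
  have hw := hfH.maps hzH
  have h1 : D z ≤ D (f z) := hmin (hfK z hzH)
  have h2 := hh.schwarzPick hzH hw
  have a1 : 0 < z.im := hzH
  have a2 : 0 < (f z).im := hw
  have a3 : 0 < (f (f z)).im := hfH.maps hw
  have a4 : 0 < (h z).im := hh.maps hzH
  have a5 : 0 < (h (f z)).im := hh.maps hw
  have a6 : 0 < ‖z - f z‖ := norm_pos_iff.2 (sub_ne_zero.2 fun e => hne e.symm)
  have e : f z - f (f z) = h z - h (f z) := by simp only [hf]; ring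
  simp only [hD] at h1
  rw [e, div_le_div_iff₀ (by positivity) (by positivity)] at h1
  have a7 : (h z).im * (h (f z)).im < (f z).im * (f (f z)).im := by
    rw [him (f z), him z]
    nlinarith
  have a8 := mul_lt_mul_of_pos_left a7 (pow_pos a6 2)
  linarith

/-- Wolff's lemma. -/
theorem wolff {φ : ℂ → ℂ} (hφ : Hol φ) (hn : ∀ z ∈ H, φ z ≠ z) :
    Low φ 1 ∨ ∃ x : ℝ, Julia φ x x 1 := by
  set ε : ℕ → ℝ := fun n => 1 / ((n : ℝ) + 1) with hε
  have hε0 : ∀ n, 0 < ε n := fun n => by simp only [hε]; positivity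
  have hεt : Tendsto ε atTop (𝓝 0) := tendsto_one_div_add_atTop_nhds_zero_nat
  set h : ℕ → ℂ → ℂ := fun n z => bom 0 (mob 0 (φ z) + ε n * I) with hh
  have hH : ∀ n, Hol (h n) := fun n =>
    (univ_bom 0).toHol.comp ((univ_add_mul_I (hε0 n)).toHol.comp ((univ_mob 0).toHol.comp hφ))
  have hb : ∀ n, ∀ z ∈ H, ‖h n z‖ ≤ (ε n)⁻¹ := fun n z hz => by
    have a1 : 0 < (mob 0 (φ z)).im := mob_mem_H 0 (hφ.maps hz)
    have a2 := Complex.im_le_norm (mob 0 (φ z) + ε n * I)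
    simp only [add_im, mul_im, ofReal_re, I_im, mul_one, ofReal_im, I_re, mul_zero, add_zero] at a2
    simp only [hh, bom, ofReal_zero, zero_sub, norm_neg, norm_inv]
    exact inv_anti₀ (hε0 n) (by linarith)
  choose w hw ew using fun n => exists_fixed_of_bounded (hH n) (hε0 n) (hb n)
  set f : ℕ → ℂ → ℂ := fun n z => h n z + ε n * I with hf
  have hfH : ∀ n, Hol (f n) := fun n => (univ_add_mul_I (hε0 n)).toHol.comp (hH n)
  have hft : ∀ z ∈ H, Tendsto (fun n => f n z) atTop (𝓝 (φ z)) := fun z hz => by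
    have c0 : Tendsto (fun n => (ε n : ℂ) * I) atTop (𝓝 0) := by
      simpa using ((Complex.continuous_ofReal.tendsto _).comp hεt).mul_const I
    have c1 : Tendsto (fun n => mob 0 (φ z) + ε n * I) atTop (𝓝 (mob 0 (φ z))) := by
      simpa using c0.const_add (mob 0 (φ z))
    have c2 := (((univ_bom 0).toHol.contAt (mob_mem_H 0 (hφ.maps hz))).tendsto.comp c1).add c0
    simpa [bom_mob, comp_def] using c2
  have key : ∀ n, ∀ z ∈ H, z.im * ‖f n z - w n‖ ^ 2 ≤ ‖z - w n‖ ^ 2 * (f n z).im := fun n z hz => by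
    have a1 := (hfH n).schwarzPick hz (hw n)
    have a2 : f n (w n) = w n := ew n
    rw [a2] at a1
    have a3 : 0 < (w n).im := hw n
    apply le_of_mul_le_mul_right _ a3
    linarith
  let 𝒰 : Ultrafilter ℕ := Ultrafilter.of atTop
  have h𝒰 : (𝒰 : Filter ℕ) ≤ atTop := Ultrafilter.of_le _
  by_cases hbd : ∃ M : ℝ, ∀ᶠ n in 𝒰, ‖w n‖ ≤ M
  · obtain ⟨M, hM⟩ := hbd
    obtain ⟨a, ha⟩ := exists_tendsto_of_bounded 𝒰 hM
    have lim : ∀ z ∈ H, z.im * ‖φ z - a‖ ^ 2 ≤ ‖z - a‖ ^ 2 * (φ z).im := fun z hz => by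
      have t0 := (hft z hz).mono_left h𝒰
      exact le_of_tendsto_of_tendsto' (((t0.sub ha).norm.pow 2).const_mul _)
        (((ha.const_sub z).norm.pow 2).mul ((Complex.continuous_im.tendsto _).comp t0))
        fun n => key n z hz
    have ha0 : 0 ≤ a.im :=
      ge_of_tendsto' ((Complex.continuous_im.tendsto _).comp ha) fun n => le_of_lt (hw n)
    rcases ha0.eq_or_lt with h0 | h0
    · have : a = (a.re : ℂ) := Complex.ext (by simp) (by simp [h0])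
      refine Or.inr ⟨a.re, fun z hz => ?_⟩
      rw [← this, one_mul]
      exact lim z hz
    · have := lim a h0
      rw [sub_self, norm_zero] at this
      have h1 : 0 < ‖φ a - a‖ := norm_pos_iff.2 (sub_ne_zero.2 (hn a h0))
      nlinarith [mul_pos h0 (pow_pos h1 2)]
  · push Not at hbd
    have hn' : Tendsto (fun n => ‖w n‖) 𝒰 atTop := tendsto_atTop.2 fun M =>
      (hbd M).mono fun n h => h.le
    have hi : Tendsto (fun n => (w n)⁻¹) 𝒰 (𝓝 0) := by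
      rw [tendsto_zero_iff_norm_tendsto_zero]
      simpa [comp_def] using tendsto_inv_atTop_zero.comp hn'
    refine Or.inl fun z hz => ?_
    have t0 := (hft z hz).mono_left h𝒰
    have t1 := (((t0.mul hi).sub_const 1).norm.pow 2).const_mul z.im
    have t2 := (((hi.const_mul z).sub_const 1).norm.pow 2).mul
      ((Complex.continuous_im.tendsto _).comp t0)
    have := le_of_tendsto_of_tendsto' t1 t2 fun n => by
      have h0 := ne_zero_of_mem_H (hw n)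
      have e1 : f n z * (w n)⁻¹ - 1 = (f n z - w n) * (w n)⁻¹ := by field_simp
      have e2 : z * (w n)⁻¹ - 1 = (z - w n) * (w n)⁻¹ := by field_simp
      rw [e1, e2, norm_mul, norm_mul, mul_pow, mul_pow]
      have := mul_le_mul_of_nonneg_right (key n z hz) (sq_nonneg ‖(w n)⁻¹‖)
      simp only [comp_apply]
      linarith
    simpa using this

end Pool.Agent.MP_1a2790_an

end

section

/-! Maps with an interior fixed point. -/

open Complex Set Filter Topology Metric Function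
open scoped ComplexConjugate

namespace Pool.Agent.MP_1a2790_an

/-- Quotient of the Cayley maps. -/
noncomputable def kf (f : ℂ → ℂ) (z₀ z : ℂ) : ℂ :=
  dslope f z₀ z * (z - conj z₀) / (f z - conj z₀)

lemma one_sub_norm_cay_sq {w z : ℂ} (hw : w ∈ H) (hz : z ∈ H) :
    (1 - ‖cay w z‖ ^ 2) * ‖z - conj w‖ ^ 2 = 4 * z.im * w.im := by
  have h0 := norm_pos_iff.2 (sub_conj_ne_zero hz hw)
  rw [cay, norm_div, div_pow, sub_mul, div_mul_cancel₀ _ (by positivity), one_mul,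
    norm_sub_conj_sq]
  ring

lemma est_of_norm_le_one {k : ℂ → ℂ} (hd : DifferentiableOn ℂ k H) (hk : ∀ z ∈ H, ‖k z‖ ≤ 1)
    {z w : ℂ} (hz : z ∈ H) (hw : w ∈ H) :
    ‖1 - k z‖ ≤ (1 + ‖z - conj w‖ ^ 2 / (z.im * w.im)) * ‖1 - k w‖ := by
  have hpd : DifferentiableOn ℂ (fun z => I * (1 - k z)) H := (hd.const_sub 1).const_mul I
  have hp0 : ∀ z ∈ H, 0 ≤ (I * (1 - k z)).im := fun z hz => by
    have := (Complex.re_le_norm (k z)).trans (hk z hz)
    simp only [mul_im, I_re, zero_mul, I_im, sub_re, one_re, one_mul, zero_add]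
    linarith
  have a1 := norm_sub_conj_le hpd hp0 hz hw
  have a2 : (I * (1 - k w)).im ≤ ‖1 - k w‖ := by simpa using Complex.im_le_norm (I * (1 - k w))
  have a3 := norm_add_le (I * (1 - k z) - conj (I * (1 - k w))) (conj (I * (1 - k w)))
  rw [sub_add_cancel, RCLike.norm_conj, norm_mul, norm_mul, norm_I, one_mul, one_mul] at a3
  have hz' : 0 < z.im := hz
  have hw' : 0 < w.im := hw
  have a4 : ‖I * (1 - k z) - conj (I * (1 - k w))‖ ≤
      ‖z - conj w‖ ^ 2 / (z.im * w.im) * ‖1 - k w‖ := by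
    rw [div_mul_eq_mul_div, le_div_iff₀ (by positivity)]
    exact a1.trans (by gcongr)
  linarith

lemma const_of_norm_eq_one {k : ℂ → ℂ} (hd : DifferentiableOn ℂ k H) (hk : ∀ z ∈ H, ‖k z‖ ≤ 1)
    {w : ℂ} (hw : w ∈ H) (h1 : ‖k w‖ = 1) : ∀ z ∈ H, k z = k w := fun z hz => by
  have h0 : k w ≠ 0 := by rintro h; simp [h] at h1
  have := est_of_norm_le_one (k := fun z => k z / k w) (hd.div_const _)
    (fun z hz => by rw [norm_div, h1, div_one]; exact hk z hz) hz hw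
  rw [div_self h0, sub_self, norm_zero, mul_zero, norm_le_zero_iff, sub_eq_zero, eq_comm,
    div_eq_one_iff_eq h0] at this
  exact this

section kf
variable {f : ℂ → ℂ} {z₀ : ℂ} (hf : Hol f) (hz₀ : z₀ ∈ H)
include hf hz₀

lemma kf_diff : DifferentiableOn ℂ (kf f z₀) H := by
  unfold kf
  exact (((differentiableOn_dslope (H_mem_nhds hz₀)).2 hf.diff).mul (by fun_prop)).div
    (hf.diff.sub_const _) fun z hz => sub_conj_ne_zero (hf.maps hz) hz₀

variable (e : f z₀ = z₀)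
include e

lemma kf_mul {z : ℂ} (hz : z ∈ H) : cay z₀ (f z) = kf f z₀ z * cay z₀ z := by
  have h1 := sub_smul_dslope f z₀ z
  rw [smul_eq_mul, e] at h1
  have h2 := sub_conj_ne_zero hz hz₀
  have h3 := sub_conj_ne_zero (hf.maps hz) hz₀
  rw [cay, cay, kf, ← h1]
  field_simp

lemma norm_cay_le {z : ℂ} (hz : z ∈ H) : ‖cay z₀ (f z)‖ ≤ ‖cay z₀ z‖ := by
  have h1 := hf.schwarzPick hz hz₀
  rw [e] at h1
  have h2 := norm_pos_iff.2 (sub_conj_ne_zero hz hz₀)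
  have h3 := norm_pos_iff.2 (sub_conj_ne_zero (hf.maps hz) hz₀)
  have h4 : 0 < z₀.im := hz₀
  rw [cay, cay, norm_div, norm_div, div_le_div_iff₀ h3 h2]
  refine le_of_pow_le_pow_left₀ two_ne_zero (by positivity) ?_
  rw [mul_pow, mul_pow, norm_sub_conj_sq, norm_sub_conj_sq]
  nlinarith

lemma norm_kf_le {z : ℂ} (hz : z ∈ H) : ‖kf f z₀ z‖ ≤ 1 := by
  have key : ∀ z ∈ H, z ≠ z₀ → ‖kf f z₀ z‖ ≤ 1 := fun z hz hne => by
    have h1 := norm_cay_le hf hz₀ e hz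
    rw [kf_mul hf hz₀ e hz, norm_mul] at h1
    have h2 : 0 < ‖cay z₀ z‖ :=
      norm_pos_iff.2 (div_ne_zero (sub_ne_zero.2 hne) (sub_conj_ne_zero hz hz₀))
    exact le_of_mul_le_mul_right (by linarith) h2
  by_cases hne : z = z₀
  · subst hne
    have hc := ((kf_diff hf hz).continuousOn.continuousAt (H_mem_nhds hz)).norm.tendsto.mono_left
      (nhdsWithin_le_nhds (s := {z}ᶜ))
    refine le_of_tendsto hc ?_
    filter_upwards [nhdsWithin_le_nhds (H_mem_nhds hz), self_mem_nhdsWithin] with w hw hw'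
    exact key w hw hw'
  · exact key z hz hne

lemma eq_id_of_kf (h : ∀ z ∈ H, kf f z₀ z = 1) : ∀ z ∈ H, f z = z := fun z hz => by
  rw [← cayInv_cay hz₀ (hf.maps hz), kf_mul hf hz₀ e hz, h z hz, one_mul, cayInv_cay hz₀ hz]

end kf

lemma kf_ne_zero {f : ℂ → ℂ} {z₀ : ℂ} (hf : Univ f) (hz₀ : z₀ ∈ H) {z : ℂ} (hz : z ∈ H) :
    kf f z₀ z ≠ 0 :=
  div_ne_zero (mul_ne_zero (dslope_ne_zero_of_injOn isOpen_H hf.diff hf.inj hz₀ hz)
    (sub_conj_ne_zero hz hz₀)) (sub_conj_ne_zero (hf.maps hz) hz₀)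

lemma exists_log_H {k : ℂ → ℂ} (hd : DifferentiableOn ℂ k H) (h0 : ∀ z ∈ H, k z ≠ 0) :
    ∃ L, DifferentiableOn ℂ L H ∧ ∀ z ∈ H, exp (L z) = k z := by
  have hs : IsSimplyConnected H := by
    have := convex_H.contractibleSpace ⟨I, I_mem_H⟩
    exact SimplyConnectedSpace.ofContractible H
  obtain ⟨L, h1, h2⟩ := Complex.exists_continuousOn_eqOn_exp_comp hs isOpen_H hd.continuousOn
    (by rintro ⟨z, hz, e⟩; exact h0 z hz e)
  exact ⟨L, differentiableOn_of_exp_eq isOpen_H h1 hd h2, h2⟩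

/-- Three sides of a rectangle. -/
noncomputable def rectPath (s s' h : ℝ) (t : UI) : ℂ :=
  ((s + max 0 (min (3 * (t : ℝ) - 1) 1) * (s' - s) : ℝ) : ℂ) +
    ((h * min (min (3 * (t : ℝ)) 1) (3 - 3 * t) : ℝ) : ℂ) * I

lemma rectPath_im (s s' h : ℝ) (t : UI) :
    (rectPath s s' h t).im = h * min (min (3 * (t : ℝ)) 1) (3 - 3 * t) := by
  simp only [rectPath, add_im, ofReal_im, mul_im, ofReal_re, I_im, I_re]
  ring

lemma rectPath_left (s s' h : ℝ) {t : UI} (ht : 3 * (t : ℝ) ≤ 1) :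
    rectPath s s' h t = s + ((h * (3 * t) : ℝ) : ℂ) * I := by
  rw [rectPath, max_eq_left ((min_le_left _ _).trans (by linarith)), min_eq_left ht,
    min_eq_left (by linarith)]
  simp

lemma rectPath_right (s s' h : ℝ) {t : UI} (ht : 2 ≤ 3 * (t : ℝ)) :
    rectPath s s' h t = s' + ((h * (3 - 3 * t) : ℝ) : ℂ) * I := by
  rw [rectPath, min_eq_right (by linarith : (1 : ℝ) ≤ 3 * t - 1), max_eq_right zero_le_one,
    min_eq_right (by linarith : (1 : ℝ) ≤ 3 * t), min_eq_right (by linarith)]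
  simp

lemma stolz_rectPath {s s' h : ℝ} (hs : s < s') (hh : 0 < h) :
    StolzPath (rectPath s s' h) s s' ((s' - s) / h + 1) := by
  have hK : 0 < (s' - s) / h := div_pos (sub_pos.2 hs) hh
  have hI : ∀ t : UI, t ≠ 0 → t ≠ 1 → 0 < (t : ℝ) ∧ (t : ℝ) < 1 := fun t h0 h1 =>
    ⟨unitInterval.pos_iff_ne_zero.2 h0, unitInterval.lt_one_iff_ne_one.2 h1⟩
  refine ⟨by unfold rectPath; fun_prop, ?_, ?_, by linarith, fun t h0 h1 => ?_, fun t h0 h1 => ?_⟩
  · rw [rectPath_left _ _ _ (by simp)]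
    simp
  · rw [rectPath_right _ _ _ (by norm_num)]
    simp
  · obtain ⟨a, b⟩ := hI t h0 h1
    rw [mem_H, rectPath_im]
    exact mul_pos hh (lt_min (lt_min (by linarith) one_pos) (by linarith))
  · obtain ⟨a, b⟩ := hI t h0 h1
    by_cases c1 : 3 * (t : ℝ) ≤ 1
    · left
      have : 0 < h * (3 * t) := by positivity
      rw [rectPath_left _ _ _ c1, add_sub_cancel_left, norm_mul_I this]
      simp only [add_im, ofReal_im, mul_im, ofReal_re, I_im, I_re]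
      nlinarith
    by_cases c2 : 2 ≤ 3 * (t : ℝ)
    · right
      have : 0 < h * (3 - 3 * t) := mul_pos hh (by linarith)
      rw [rectPath_right _ _ _ c2, add_sub_cancel_left, norm_mul_I this]
      simp only [add_im, ofReal_im, mul_im, ofReal_re, I_im, I_re]
      nlinarith
    left
    push Not at c1 c2
    refine (Complex.norm_le_abs_re_add_abs_im _).trans ?_
    rw [sub_im, ofReal_im, sub_zero, rectPath_im, min_eq_right c1.le, min_eq_left (by linarith),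
      mul_one, abs_of_pos hh, add_mul, div_mul_cancel₀ _ hh.ne', one_mul]
    have : (rectPath s s' h t - s).re = (3 * t - 1) * (s' - s) := by
      rw [rectPath, min_eq_left (by linarith : 3 * (t : ℝ) - 1 ≤ 1), max_eq_right (by linarith)]
      simp
    rw [this, abs_of_nonneg (by nlinarith)]
    nlinarith

/-- The argument of the quotient has the same limits at both ends of an arc. -/
lemma tendsto_log_kf {φ L : ℂ → ℂ} (hφ : Univ φ) {c s s' Λ Λ' : ℝ} (hc : 0 < c) (hl : Low φ c)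
    (hs : s < s') (hj : Julia φ s s Λ) (hj' : Julia φ s' s' Λ') {z₀ : ℂ} (hz₀ : z₀ ∈ H)
    (e : φ z₀ = z₀) (hL : ContinuousOn L H) (eL : ∀ z ∈ H, exp (L z) = kf φ z₀ z) :
    Tendsto (fun y : ℝ => L (s' + y * I) - L (s + y * I)) (𝓝[>] 0) (𝓝 0) := by
  have hy₀ : 0 < z₀.im := hz₀
  set h := z₀.im / 2 with hh
  have hh0 : 0 < h := by positivity
  have hQ := stolz_rectPath hs hh0
  set Q := rectPath s s' h with hQdef
  obtain ⟨Γ, K', hΓ, eΓ⟩ := hQ.image hs.ne hφ.toHol hc hl hj hj'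
  have hzQ : z₀ ∉ range Q := by
    rintro ⟨t, ht⟩
    have h1 := rectPath_im s s' h t
    rw [← hQdef, ht] at h1
    have h2 : min (min (3 * (t : ℝ)) 1) (3 - 3 * t) ≤ 1 := (min_le_left _ _).trans (min_le_right _ _)
    nlinarith
  have hzΓ : z₀ ∉ range Γ := e ▸ notMem_range_image hQ hΓ hφ eΓ hz₀ hzQ
  have hidx := idx_image hQ hΓ hφ hc hl eΓ hz₀ hzQ
  rw [e, idx, idx, sub_left_inj] at hidx
  have n1 : ∀ t, Q t - z₀ ≠ 0 := fun t h => hzQ ⟨t, sub_eq_zero.1 h⟩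
  have n2 : ∀ t, Γ t - z₀ ≠ 0 := fun t h => hzΓ ⟨t, sub_eq_zero.1 h⟩
  have sl : ∀ w : ℂ, 0 ≤ w.im → -I * (w - conj z₀) ∈ slitPlane := fun w hw =>
    Or.inl (by simp; linarith)
  have n3 : ∀ t, Q t - conj z₀ ≠ 0 := fun t =>
    right_ne_zero_of_mul (slitPlane_ne_zero (sl _ (hQ.im_nonneg t)))
  have n4 : ∀ t, Γ t - conj z₀ ≠ 0 := fun t =>
    right_ne_zero_of_mul (slitPlane_ne_zero (sl _ (hΓ.im_nonneg t)))
  have c1 : Continuous fun t => Q t - z₀ := hQ.cont.sub continuous_const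
  have c2 : Continuous fun t => Γ t - z₀ := hΓ.cont.sub continuous_const
  have c3 : Continuous fun t => Q t - conj z₀ := hQ.cont.sub continuous_const
  have c4 : Continuous fun t => Γ t - conj z₀ := hΓ.cont.sub continuous_const
  have i34 : inc (fun t => Q t - conj z₀) = inc (fun t => Γ t - conj z₀) := by
    rw [inc_of_slit c3 fun t => sl _ (hQ.im_nonneg t), inc_of_slit c4 fun t => sl _ (hΓ.im_nonneg t),
      hQ.zero, hQ.one, hΓ.zero, hΓ.one]
  set u : UI → ℂ := fun t => (Γ t - z₀) * (Q t - conj z₀) / ((Q t - z₀) * (Γ t - conj z₀)) with hu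
  have uc : Continuous u := (c2.mul c3).div (c1.mul c4) fun t => mul_ne_zero (n1 t) (n4 t)
  have un : ∀ t, u t ≠ 0 := fun t =>
    div_ne_zero (mul_ne_zero (n2 t) (n3 t)) (mul_ne_zero (n1 t) (n4 t))
  have iu : inc u = 0 := by
    have a1 := inc_mul uc un (c1.mul c4) fun t => mul_ne_zero (n1 t) (n4 t)
    have a2 : (fun t => u t * ((Q t - z₀) * (Γ t - conj z₀))) =
        fun t => (Γ t - z₀) * (Q t - conj z₀) :=
      funext fun t => div_mul_cancel₀ _ (mul_ne_zero (n1 t) (n4 t))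
    have a3 := inc_mul c2 n2 c3 n3
    have a4 := inc_mul c1 n1 c4 n4
    simp only [Pi.mul_apply] at a1
    rw [a2, a3] at a1
    have a5 : inc ((fun t => Q t - z₀) * fun t => Γ t - conj z₀) = _ := a4
    rw [a5] at a1
    linear_combination -a1 + hidx + i34
  have u0 : u 0 = 1 := by
    have := n1 0
    have := n3 0
    simp only [hu, hQ.zero, hΓ.zero] at *
    field_simp
  obtain ⟨G, hG⟩ := exists_isLift uc un
  have G1 : G 1 = 0 := by rw [← hG.inc_eq (un 0), iu]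
  set π : ℝ → UI := projIcc 0 1 zero_le_one with hπ
  have πc : Continuous π := continuous_projIcc
  have πe : ∀ x ∈ Ioo (0 : ℝ) 1, (π x : ℝ) = x := fun x hx => by
    rw [hπ, projIcc_of_mem _ (Ioo_subset_Icc_self hx)]
  have πn : ∀ x ∈ Ioo (0 : ℝ) 1, π x ≠ 0 ∧ π x ≠ 1 := fun x hx =>
    ⟨fun h => hx.1.ne' (by rw [← πe x hx, h]; rfl), fun h => hx.2.ne (by rw [← πe x hx, h]; rfl)⟩
  have key : ∀ x ∈ Ioo (0 : ℝ) 1, ∀ x' ∈ Ioo (0 : ℝ) 1,
      G (π x) - L (Q (π x)) = G (π x') - L (Q (π x')) := fun x hx x' hx' => by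
    refine eq_of_exp_eq_one isPreconnected_Ioo (g := fun x => G (π x) - L (Q (π x)))
      ((hG.1.comp πc).continuousOn.sub (hL.comp (hQ.cont.comp πc).continuousOn
        fun x hx => hQ.mem _ (πn x hx).1 (πn x hx).2)) (fun x hx => ?_) hx hx'
    have m := hQ.mem _ (πn x hx).1 (πn x hx).2
    have b1 := hG.2.2 (π x)
    have b2 := kf_mul hφ.toHol hz₀ e m
    rw [← eΓ _ (πn x hx).1 (πn x hx).2, cay, cay] at b2
    rw [u0, mul_one] at b1
    rw [exp_sub, b1, eL _ m, div_eq_one_iff_eq (kf_ne_zero hφ hz₀ m)]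
    have := n1 (π x)
    have := n3 (π x)
    have := n4 (π x)
    simp only [hu]
    field_simp at b2 ⊢
    linear_combination b2
  have t1 : Tendsto (fun y : ℝ => G (π (1 - y / (3 * h))) - G (π (y / (3 * h)))) (𝓝[>] 0)
      (𝓝 0) := by
    have : Continuous fun y : ℝ => G (π (1 - y / (3 * h))) - G (π (y / (3 * h))) :=
      (hG.1.comp (πc.comp (by fun_prop))).sub (hG.1.comp (πc.comp (by fun_prop)))
    have t := (this.tendsto 0).mono_left (nhdsWithin_le_nhds (s := Ioi 0))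
    have p0 : π 0 = 0 := projIcc_left _
    have p1 : π 1 = 1 := projIcc_right _
    simpa [p0, p1, G1, hG.2.1] using t
  apply t1.congr'
  filter_upwards [Ioo_mem_nhdsGT hh0] with y hy
  have d1 : 0 < y / (3 * h) := div_pos hy.1 (by positivity)
  have d2 : 3 * (y / (3 * h)) = y / h := by field_simp
  have d3 : y / h < 1 := (div_lt_one hh0).2 hy.2
  have m1 : y / (3 * h) ∈ Ioo (0 : ℝ) 1 := ⟨d1, by linarith⟩
  have m2 : 1 - y / (3 * h) ∈ Ioo (0 : ℝ) 1 := ⟨by linarith, by linarith⟩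
  have k := key _ m1 _ m2
  have q1 : Q (π (y / (3 * h))) = s + y * I := by
    rw [hQdef, rectPath_left _ _ _ (by rw [πe _ m1]; linarith), πe _ m1, d2,
      mul_div_cancel₀ _ hh0.ne']
  have q2 : Q (π (1 - y / (3 * h))) = s' + y * I := by
    rw [hQdef, rectPath_right _ _ _ (by rw [πe _ m2]; linarith), πe _ m2,
      show 3 - 3 * (1 - y / (3 * h)) = y / h by linarith, mul_div_cancel₀ _ hh0.ne']
  rw [q1, q2] at k
  linear_combination -k

/-- A map with an interior fixed point which is real on an arc between two boundary fixed points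
is the identity. -/
theorem eq_id_of_realOn {φ : ℂ → ℂ} (hφ : Univ φ) {c s s' Λ Λ' : ℝ} (hc : 0 < c) (hl : Low φ c)
    (hs : s < s') (hj : Julia φ s s Λ) (hj' : Julia φ s' s' Λ') (hr : RealOn φ s s') {z₀ : ℂ}
    (hz₀ : z₀ ∈ H) (e : φ z₀ = z₀) : ∀ z ∈ H, φ z = z := by
  have hy₀ : 0 < z₀.im := hz₀
  have kd := kf_diff hφ.toHol hz₀
  have k1 : ∀ z ∈ H, ‖kf φ z₀ z‖ ≤ 1 := fun z hz => norm_kf_le hφ.toHol hz₀ e hz
  have k2 : ∀ z ∈ H, ‖cay z₀ (φ z)‖ ≤ ‖kf φ z₀ z‖ := fun z hz => by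
    rw [kf_mul hφ.toHol hz₀ e hz, norm_mul]
    exact mul_le_of_le_one_right (norm_nonneg _) (norm_cay_lt hz₀ hz).le
  obtain ⟨L, hL, eL⟩ := exists_log_H kd fun z hz => kf_ne_zero hφ hz₀ hz
  have tL := tendsto_log_kf hφ hc hl hs hj hj' hz₀ e hL.continuousOn eL
  set p : ℂ → ℂ := fun z => -I * L z with hp
  have hpd : DifferentiableOn ℂ p H := hL.const_mul _
  have pim : ∀ z ∈ H, (p z).im = -Real.log ‖kf φ z₀ z‖ := fun z hz => by
    rw [← eL z hz, norm_exp, Real.log_exp]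
    simp [hp]
  have hp0 : ∀ z ∈ H, 0 ≤ (p z).im := fun z hz => by
    rw [pim z hz, neg_nonneg]
    exact Real.log_nonpos (norm_nonneg _) (k1 z hz)
  set h := z₀.im / 2 with hh
  have hh0 : 0 < h := by positivity
  obtain ⟨r, hr0, hball⟩ : ∃ r > 0, ball z₀ r ⊆ φ '' {z | h < z.im} := by
    have a1 := nhds_le_map_of_injOn isOpen_H hφ.diff hφ.inj hz₀
    rw [e] at a1
    exact Metric.mem_nhds_iff.1 (a1 (image_mem_map
      ((isOpen_lt continuous_const Complex.continuous_im).mem_nhds (by show h < z₀.im; linarith))))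
  have hM : ∀ z ∈ H, z.im ≤ h → |(p z).im| ≤ -Real.log (r / (r + 2 * z₀.im)) := fun z hz hzh => by
    rw [abs_of_nonneg (hp0 z hz), pim z hz, neg_le_neg_iff]
    refine Real.log_le_log (by positivity) (le_trans ?_ (k2 z hz))
    have a1 : r ≤ ‖φ z - z₀‖ := by
      by_contra hlt
      obtain ⟨w, hw, ew⟩ := hball (show φ z ∈ ball z₀ r by
        rw [mem_ball, dist_eq_norm]; exact not_le.1 hlt)
      have hw' : h < w.im := hw
      rw [hφ.inj (hh0.trans hw') hz ew] at hw'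
      linarith
    have a2 : ‖φ z - conj z₀‖ ≤ ‖φ z - z₀‖ + 2 * z₀.im := by
      have b1 := norm_add_le (φ z - z₀) (z₀ - conj z₀)
      rw [sub_add_sub_cancel, Complex.sub_conj, norm_mul_I (by positivity)] at b1
      exact b1
    rw [cay, norm_div, div_le_div_iff₀ (by positivity)
      (norm_pos_iff.2 (sub_conj_ne_zero (hφ.maps hz) hz₀))]
    nlinarith
  have hreal : ∀ x ∈ Ioo s s', Tendsto (fun y : ℝ => (p (x + y * I)).im) (𝓝[>] 0) (𝓝 0) := by
    intro x hx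
    have hev : ∀ᶠ y : ℝ in 𝓝[>] 0, (x : ℂ) + y * I ∈ H :=
      eventually_nhdsWithin_of_forall fun y hy => add_mul_I_mem_H x hy
    have t0 : Tendsto (fun y : ℝ => 1 - 4 * (φ (x + y * I)).im / z₀.im) (𝓝[>] 0) (𝓝 1) := by
      simpa using (((hr x hx).const_mul 4).div_const z₀.im).const_sub 1
    have t1 : Tendsto (fun y : ℝ => ‖kf φ z₀ (x + y * I)‖) (𝓝[>] 0) (𝓝 1) := by
      refine tendsto_of_tendsto_of_tendsto_of_le_of_le' t0 tendsto_const_nhds
        (hev.mono fun y hy => le_trans ?_ (k2 _ hy)) (hev.mono fun y hy => k1 _ hy)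
      have hw := hφ.maps hy
      generalize φ (x + y * I) = w at hw
      have b1 := one_sub_norm_cay_sq hz₀ hw
      have b2 : z₀.im ≤ ‖w - conj z₀‖ := im_le_norm_sub_conj' (le_of_lt hw)
      have b3 := norm_cay_lt hz₀ hw
      have b4 : 0 ≤ 1 - ‖cay z₀ w‖ ^ 2 := by nlinarith [norm_nonneg (cay z₀ w)]
      have b5 : (1 - ‖cay z₀ w‖ ^ 2) * z₀.im ^ 2 ≤ 4 * w.im * z₀.im := by
        rw [← b1]; gcongr
      have b6 : (1 - ‖cay z₀ w‖) * z₀.im ≤ 4 * w.im := by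
        apply le_of_mul_le_mul_right _ hy₀
        have : 1 - ‖cay z₀ w‖ ≤ 1 - ‖cay z₀ w‖ ^ 2 := by nlinarith [norm_nonneg (cay z₀ w)]
        nlinarith [mul_le_mul_of_nonneg_right this (sq_nonneg z₀.im)]
      rw [sub_le_comm, le_div_iff₀ hy₀]
      exact b6
    have t2 := (t1.log one_ne_zero).neg
    rw [Real.log_one, neg_zero] at t2
    exact t2.congr' (hev.mono fun y hy => (pim _ hy).symm)
  set C : ℝ := (|s| + |s'| + h + 1) ^ 2 with hC
  have hC0 : 0 < C := by positivity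
  have key : ∀ η > 0, (s' - s) * ((p I).im / C) ≤ η := fun η hη => by
    have ev : ∀ᶠ y : ℝ in 𝓝[>] 0, ‖L (s' + y * I) - L (s + y * I)‖ ≤ η :=
      (tendsto_zero_iff_norm_tendsto_zero.1 tL).eventually (ge_mem_nhds hη)
    obtain ⟨δ₀, hδ₀, hsub⟩ := mem_nhdsGT_iff_exists_Ioc_subset.1 ev
    set δ := min δ₀ h with hδ
    have hδ0 : 0 < δ := lt_min hδ₀ hh0
    have h1 := rect_ineq hpd hs.le hδ0 (M := -Real.log (r / (r + 2 * z₀.im))) (η := η)
      (fun x _ y hy => hM _ (add_mul_I_mem_H x hy.1) (by simpa using hy.2.trans (min_le_right _ _)))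
      hreal fun y hy => by
        have a1 : ‖L (s' + y * I) - L (s + y * I)‖ ≤ η := hsub ⟨hy.1, hy.2.trans (min_le_left _ _)⟩
        have a2 := Complex.im_le_norm (L (s' + y * I) - L (s + y * I))
        simp only [hp, neg_mul, neg_re, mul_re, I_re, zero_mul, I_im, one_mul, zero_sub, neg_neg]
        rw [sub_im] at a2
        linarith
    have hcont : Continuous fun x : ℝ => (p (x + δ * I)).im :=
      Complex.continuous_im.comp (continuous_horizontal hpd.continuousOn hδ0)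
    have h5 := intervalIntegral.integral_mono_on hs.le
      (intervalIntegrable_const (c := (p I).im / C * δ))
      (hcont.intervalIntegrable (μ := MeasureTheory.volume) s s') fun x hx => by
        have a1 := harnack_lower hpd hp0 (add_mul_I_mem_H x hδ0) I_mem_H
        have a2 : ‖(x : ℂ) + δ * I - conj I‖ ≤ |s| + |s'| + h + 1 := by
          have b1 := norm_sub_le ((x : ℂ) + δ * I) (conj I)
          have b2 := norm_add_le (x : ℂ) (δ * I)
          rw [norm_mul_I hδ0, norm_real, Real.norm_eq_abs] at b2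
          have b3 : |x| ≤ |s| + |s'| := abs_le.2
            ⟨by linarith [hx.1, neg_abs_le s, abs_nonneg s'],
              by linarith [hx.2, le_abs_self s', abs_nonneg s]⟩
          simp only [RCLike.norm_conj, norm_I] at b1
          linarith [min_le_right δ₀ h]
        have a3 : ‖(x : ℂ) + δ * I - conj I‖ ^ 2 ≤ C := by rw [hC]; gcongr
        simp only [add_im, ofReal_im, mul_im, ofReal_re, I_im, mul_one, I_re, mul_zero, add_zero,
          zero_add] at a1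
        rw [div_mul_eq_mul_div, div_le_iff₀ hC0]
        nlinarith [hp0 _ (add_mul_I_mem_H x hδ0)]
    simp only [intervalIntegral.integral_const, smul_eq_mul] at h5
    apply le_of_mul_le_mul_right _ hδ0
    linarith
  have k3 : (p I).im ≤ 0 := by
    have a1 : (s' - s) * ((p I).im / C) ≤ 0 := le_of_forall_pos_le_add fun η hη => by
      simpa using key η hη
    by_contra hpos
    have := mul_pos (sub_pos.2 hs) (div_pos (not_le.1 hpos) hC0)
    linarith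
  have k4 : ‖kf φ z₀ I‖ = 1 := by
    have a1 : Real.log ‖kf φ z₀ I‖ = 0 := by linarith [pim I I_mem_H, hp0 I I_mem_H]
    exact Real.eq_one_of_pos_of_log_eq_zero (norm_pos_iff.2 (kf_ne_zero hφ hz₀ I_mem_H)) a1
  have k5 := const_of_norm_eq_one kd k1 I_mem_H k4
  have k6 : kf φ z₀ I = 1 := by
    have n0 : (s : ℂ) - conj z₀ ≠ 0 := fun h => by
      have := congrArg Complex.im h
      simp at this
      linarith
    have n1 : (s : ℂ) - z₀ ≠ 0 := fun h => by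
      have := congrArg Complex.im h
      simp at this
      linarith
    have cc : ContinuousAt (cay z₀) s := by
      unfold cay
      exact ContinuousAt.div (by fun_prop) (by fun_prop) n0
    have a1 := cc.tendsto.comp (hj.tendsto_vertical hφ.toHol)
    have a2 := (cc.tendsto.comp (tendsto_vertical_real s)).const_mul (kf φ z₀ I)
    have a3 := tendsto_nhds_unique a1 (a2.congr' (eventually_nhdsWithin_of_forall fun y hy => by
      have m := add_mul_I_mem_H s hy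
      simp only [comp_apply]
      rw [kf_mul hφ.toHol hz₀ e m, k5 _ m]))
    exact (mul_eq_right₀ (div_ne_zero n1 n0)).1 a3.symm
  exact eq_id_of_kf hφ.toHol hz₀ e fun z hz => (k5 z hz).trans k6

end Pool.Agent.MP_1a2790_an

end

section

/-! Factorisation of a map none of whose inner arcs is filled. -/

open Complex Set Filter Topology Metric Function
open scoped ComplexConjugate

namespace Pool.Agent.MP_1a2790_an

lemma rigid' {φ : ℂ → ℂ} (hφ : Univ φ) (hl : Low φ 1) (hc : cInf φ ≤ 1) {ρ : ℝ}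
    (hρ : 0 < ρ) (hG : Gr ρ ⊆ φ '' H) {s s' t' Λ : ℝ} (hj : Julia φ s s Λ)
    (hj' : Julia φ s' t' Λ) (hst : s' ≤ t') (hreal : ∀ x : ℝ, x < s ∨ s' < x → ∀ M : ℝ,
      (∀ y ∈ Ioc (0 : ℝ) 1, ‖φ (x + y * I)‖ ≤ M) →
      Tendsto (fun y : ℝ => (φ (x + y * I)).im) (𝓝[>] 0) (𝓝 0)) : ∀ z ∈ H, φ z = z := by
  obtain ⟨M, hM0, hM⟩ := exists_shift_bound hφ hl hc hρ hG
  have hbd : ∀ z ∈ H, ‖φ z‖ ≤ 2 * ρ + ‖z‖ + M := fun z hz => by
    by_cases h : 2 * ρ ≤ ‖φ z‖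
    · have h1 := hM z hz h
      have h2 := norm_add_le (φ z - z) z
      rw [sub_add_cancel] at h2
      linarith
    · push Not at h
      linarith [norm_nonneg z]
  set p : ℂ → ℂ := fun z => φ z - z with hp
  have hpd : DifferentiableOn ℂ p H := hφ.diff.sub differentiableOn_id
  have hp0 : ∀ z ∈ H, 0 ≤ (p z).im := fun z hz => by
    have := hl z hz
    simp only [hp, sub_im]
    linarith
  have hnorm : ∀ x y : ℝ, y ∈ Ioc (0 : ℝ) 1 → ‖(x : ℂ) + y * I‖ ≤ |x| + 1 := fun x y hy => by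
    have := norm_add_le (x : ℂ) (y * I)
    rw [norm_mul_I hy.1, norm_real, Real.norm_eq_abs] at this
    linarith [hy.2]
  have hpim : ∀ x y : ℝ, y ∈ Ioc (0 : ℝ) 1 → |(p (x + y * I)).im| ≤ 2 * ρ + 2 * (|x| + 1) + M :=
    fun x y hy => by
      have h1 := hbd _ (add_mul_I_mem_H x hy.1)
      have h2 := hnorm x y hy
      have h3 : ‖p (x + y * I)‖ ≤ _ := norm_sub_le _ _
      linarith [Complex.abs_im_le_norm (p (x + y * I))]
  have hp_real : ∀ x : ℝ, x < s ∨ s' < x →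
      Tendsto (fun y : ℝ => (p (x + y * I)).im) (𝓝[>] 0) (𝓝 0) := fun x hx => by
    have h1 := hreal x hx (2 * ρ + (|x| + 1) + M) fun y hy => by
      have h1 := hbd _ (add_mul_I_mem_H x hy.1)
      have h2 := hnorm x y hy
      linarith
    refine squeeze_zero' (eventually_nhdsWithin_of_forall fun y hy =>
      hp0 _ (add_mul_I_mem_H x hy)) (eventually_nhdsWithin_of_forall fun y hy => ?_) h1
    have : (0 : ℝ) < y := hy
    simp only [hp, sub_im, add_im, ofReal_im, mul_im, ofReal_re, I_im, I_re]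
    linarith
  have hΛ := hj.pos hφ.toHol
  have hvert : ∀ t : ℝ, Julia φ t t Λ → ∀ y : ℝ, 0 < y → |(p (t + y * I)).re| ≤ Λ * y :=
    fun t ht y hy => by
      have a1 := (Complex.abs_re_le_norm _).trans (ht.vertical hφ.toHol hy)
      simpa [hp] using a1
  set C : ℝ := (|s'| + 3) ^ 2 with hC
  have hC0 : 0 < C := by positivity
  have key : ∀ δ ∈ Ioc (0 : ℝ) 1, ∀ r, 2 * ρ ≤ r →
      (p I).im / C ≤ 2 * (8 * ρ ^ 2 / r) + 2 * Λ * δ := by
    intro δ hδ r hr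
    set X : ℝ := r + M + |s| + |s'| + 1 with hX
    have hs1 := neg_abs_le s
    have hs2 := le_abs_self s'
    have hs3 := abs_nonneg s
    have hs4 := abs_nonneg s'
    have hfar : ∀ x y : ℝ, |x| = X → 0 < y → r ≤ ‖φ (x + y * I)‖ := fun x y hx hy => by
      apply proper_of_shift hφ.toHol hl hρ hM0 hM hr
      refine ⟨add_mul_I_mem_H x hy, ?_⟩
      have := Complex.abs_re_le_norm ((x : ℂ) + y * I)
      simp only [add_re, ofReal_re, mul_re, I_re, mul_zero, ofReal_im, I_im, mul_one, sub_self,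
        add_zero] at this
      linarith
    have hX0 : 0 < X := by linarith
    set b : ℝ := (p (X + (1 : ℝ) * I)).re with hb
    have hosc : ∀ x y : ℝ, |x| = X → 0 < y → |(p (x + y * I)).re - b| ≤ 8 * ρ ^ 2 / r :=
      fun x y hx hy => by
        have := osc_bound hφ hl hc hρ hG hr (add_mul_I_mem_H x hy) (add_mul_I_mem_H X one_pos)
          (hfar x y hx hy) (hfar X 1 (abs_of_pos hX0) one_pos)
        exact (Complex.abs_re_le_norm (p (x + y * I) - p (X + (1 : ℝ) * I))).trans this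
    have hbound : ∀ x y : ℝ, |x| ≤ X → y ∈ Ioc (0 : ℝ) δ →
        |(p (x + y * I)).im| ≤ 2 * ρ + 2 * (X + 1) + M := fun x y hx hy =>
      (hpim x y ⟨hy.1, hy.2.trans hδ.2⟩).trans (by linarith)
    have h1 := rect_ineq hpd (x₁ := s') (x₂ := X) (by linarith) hδ.1
      (M := 2 * ρ + 2 * (X + 1) + M) (η := b + 8 * ρ ^ 2 / r + Λ * δ)
      (fun x hx y hy => hbound x y (abs_le.2 ⟨by linarith [hx.1, neg_abs_le s'], hx.2⟩) hy)
      (fun x hx => hp_real x (Or.inr hx.1)) (fun y hy => by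
        have a1 := (abs_le.1 (hosc X y (abs_of_pos hX0) hy.1)).2
        have a2 : -(Λ * y) ≤ (p (s' + y * I)).re := by
          have a3 := (abs_le.1 ((Complex.abs_re_le_norm _).trans (hj'.vertical hφ.toHol hy.1))).1
          simp only [hp, sub_re, ofReal_re, add_re, mul_re, I_re, mul_zero, ofReal_im, I_im,
            mul_one, sub_self, add_zero] at a3 ⊢
          linarith
        nlinarith [hy.2])
    have h2 := rect_ineq hpd (x₁ := -X) (x₂ := s) (by linarith) hδ.1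
      (M := 2 * ρ + 2 * (X + 1) + M) (η := -b + 8 * ρ ^ 2 / r + Λ * δ)
      (fun x hx y hy => hbound x y (abs_le.2 ⟨hx.1, by linarith [hx.2, le_abs_self s]⟩) hy)
      (fun x hx => hp_real x (Or.inl hx.2)) (fun y hy => by
        have a1 := (abs_le.1 (hosc (-X) y (by rw [abs_neg, abs_of_pos hX0]) hy.1)).1
        have a2 := (abs_le.1 (hvert s hj y hy.1)).2
        nlinarith [hy.2])
    have hcont : Continuous fun x : ℝ => (p (x + δ * I)).im :=
      Complex.continuous_im.comp (continuous_horizontal hpd.continuousOn hδ.1)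
    have hnn : ∀ x : ℝ, 0 ≤ (p (x + δ * I)).im := fun x => hp0 _ (add_mul_I_mem_H x hδ.1)
    have h3 : 0 ≤ ∫ x in (-X)..s, (p (x + δ * I)).im :=
      intervalIntegral.integral_nonneg (by linarith) fun x _ => hnn x
    have h4 : ∫ x in s'..(s' + 1), (p (x + δ * I)).im ≤ ∫ x in s'..X, (p (x + δ * I)).im :=
      intervalIntegral.integral_mono_interval le_rfl (by linarith) (by linarith)
        (Eventually.of_forall fun x => hnn x) (hcont.intervalIntegrable _ _)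
    have h5 := intervalIntegral.integral_mono_on (show s' ≤ s' + 1 by linarith)
      (intervalIntegrable_const (c := (p I).im / C * δ))
      (hcont.intervalIntegrable (μ := MeasureTheory.volume) s' (s' + 1)) fun x hx => by
        have a1 := harnack_lower hpd hp0 (add_mul_I_mem_H x hδ.1) I_mem_H
        have a2 : ‖(x : ℂ) + δ * I - conj I‖ ≤ |s'| + 3 := by
          have b1 := norm_sub_le ((x : ℂ) + δ * I) (conj I)
          have b2 := hnorm x δ hδ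
          have b3 : |x| ≤ |s'| + 1 := abs_le.2 ⟨by linarith [hx.1, neg_abs_le s'], by linarith [hx.2]⟩
          simp only [RCLike.norm_conj, norm_I] at b1
          linarith
        have a3 : ‖(x : ℂ) + δ * I - conj I‖ ^ 2 ≤ C := by rw [hC]; gcongr
        simp only [add_im, ofReal_im, mul_im, ofReal_re, I_im, mul_one, I_re, mul_zero, add_zero,
          zero_add] at a1
        rw [div_mul_eq_mul_div, div_le_iff₀ hC0]
        nlinarith [hnn x]
    simp only [intervalIntegral.integral_const, smul_eq_mul, add_sub_cancel_left, one_mul] at h5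
    have h6 : (p I).im / C * δ ≤ (2 * (8 * ρ ^ 2 / r) + 2 * Λ * δ) * δ := by linarith
    exact le_of_mul_le_mul_right h6 hδ.1
  have key2 : ∀ δ ∈ Ioc (0 : ℝ) 1, (p I).im / C ≤ 2 * Λ * δ := fun δ hδ => by
    have t : Tendsto (fun r : ℝ => 2 * (8 * ρ ^ 2 / r) + 2 * Λ * δ) atTop
        (𝓝 (2 * 0 + 2 * Λ * δ)) :=
      ((tendsto_id.const_div_atTop _).const_mul _).add_const _
    rw [mul_zero, zero_add] at t
    exact ge_of_tendsto t ((eventually_ge_atTop _).mono (key δ hδ))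
  have t : Tendsto (fun δ : ℝ => 2 * Λ * δ) (𝓝[>] 0) (𝓝 (2 * Λ * 0)) :=
    Tendsto.mono_left (Continuous.tendsto (by fun_prop) 0) nhdsWithin_le_nhds
  rw [mul_zero] at t
  have key3 := ge_of_tendsto t (mem_of_superset (Ioc_mem_nhdsGT one_pos) key2)
  rw [div_le_iff₀ hC0, zero_mul] at key3
  refine eq_id_of_im_le hφ.toHol hl hj I_mem_H ?_
  simp only [hp, sub_im] at key3
  linarith

variable {φ : ℂ → ℂ} {σ : ℕ → ℝ} {n : ℕ} {Λ a b : ℝ} {P Γ : ℕ → UI → ℂ} {K : ℕ → ℝ} {A : Set ℂ}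

lemma exists_better_state' (D : Dat φ σ n Λ P Γ K) (ha0 : 0 < a) (hb : 0 < b)
    (hA : ∀ w ∈ A, ∀ k < n, w ∈ Rout (Γ k) (σ k) (σ (k + 1)))
    {ψ χ : ℂ → ℂ} {s : ℕ → ℝ} (S : St φ σ n Λ a b A ψ χ s) {k : ℕ} (hk : k < n)
    (hlt : σ (k + 1) - σ k < s (k + 1) - s k) {w : ℂ} (hwR : w ∈ Rin (Γ k) (σ k) (σ (k + 1)))
    (hw1 : w ∉ ψ '' H) (hw2 : w ∈ closure (ψ '' H)) :
    ∃ ψ' χ' s', St φ σ n Λ a b A ψ' χ' s' ∧ (χ I).im < (χ' I).im := by
  have hslt : ∀ j < n, s j < s (j + 1) := fun j hj => by linarith [S.gap j hj, D.lt j hj]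
  have jψ : ∀ j ≤ n, Julia ψ (s j) (σ j) (Λ / b) := fun j hj => S.jψ D ha0 hb hj
  have hcψ : a ≤ cInf ψ := S.lψ.le_cInf
  have hcψ0 : 0 < cInf ψ := by linarith
  obtain ⟨Q, KQ, hQ, eQ⟩ := (D.hP k hk).image (D.lt k hk).ne S.uχ.toHol hb S.lχ (S.jχ k hk.le)
    (S.jχ (k + 1) hk)
  have hΓ := D.hΓ k hk
  have eΓ : ∀ t, t ≠ 0 → t ≠ 1 → Γ k t = ψ (Q t) := fun t h0 h1 => by
    rw [D.eΓ k hk t h0 h1, eQ t h0 h1, S.fac _ ((D.hP k hk).mem t h0 h1)]
  have hri := range_inter_subset_image hQ hΓ eΓ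
  set R := Rin (Γ k) (σ k) (σ (k + 1)) with hR
  obtain ⟨ψ₁, u₁, i1, i2, i3⟩ := exists_enlarge S.uψ (S.uψ.isOpen_image.union hΓ.isOpen_Rin)
    (S.uψ.propC.union S.uψ.maps.image_subset (fun _ h => h.1) hΓ.isOpen_Rout
      (disjoint_Rin_Rout _ _ _) fun z hz => mem_Rin_or_Rout _ _ hz.1 fun h => hz.2 (hri ⟨h, hz.1⟩))
    subset_union_left (union_subset S.uψ.maps.image_subset fun _ h => h.1) (Or.inr hwR) hw2
  obtain ⟨ψ₂, h₁, u₂, uh, im₂, f₂, lh, l₂, jh⟩ := factor_norm S.uψ hcψ0 u₁ i1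
    (jψ 0 (Nat.zero_le _))
  have hns : ¬ H ⊆ h₁ '' H := not_surj_of_factor f₂ fun h => hw1 (h (im₂ ▸ i3))
  have hreal : ∀ j < n, j ≠ k → RealOn h₁ (s j) (s (j + 1)) := by
    intro j hj hjk x hx
    obtain ⟨t₁, j1, -⟩ := contact_split u₂.toHol uh.toHol hcψ0 one_pos l₂ lh
      ((jψ j hj.le).congr f₂)
    obtain ⟨t₂, j2, -⟩ := contact_split u₂.toHol uh.toHol hcψ0 one_pos l₂ lh
      ((jψ (j + 1) hj).congr f₂)
    obtain ⟨M, hM⟩ := bounded_between uh one_pos lh (hslt j hj) j1 j2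
    apply tendsto_im_factor S.uψ u₂ uh f₂ hΓ.isOpen_Rin (im₂ ▸ i2) (hM x (Ioo_subset_Icc_self hx))
    have hx' : x < s k ∨ s (k + 1) < x := by
      rcases lt_or_gt_of_ne hjk with h | h
      · exact Or.inl (hx.2.trans_le (le_of_steps hslt h hk.le))
      · exact Or.inr ((le_of_steps hslt h hj.le).trans_lt hx.1)
    filter_upwards [eventually_image_mem_Rout hQ hΓ S.uψ ha0 S.lψ eΓ (hslt k hk) hx'] with y hy h
    exact disjoint_left.1 (disjoint_Rin_Rout _ _ _) h hy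
  obtain ⟨𝒰, gb, ga, hg, hlim⟩ := small_factor uh lh
    (cInf_le_one_of_factor u₂.toHol uh.toHol hcψ0 f₂ lh l₂) hns jh
  have uψ' : ∀ m, Univ (fun z => ψ₂ (gb m z)) := fun m => u₂.comp (hg m).1
  have lψ' : ∀ m, Low (fun z => ψ₂ (gb m z)) a := fun m => by
    simpa using (l₂.mono hcψ).comp (hg m).2.2.2.2.1 ha0.le (hg m).1.maps
  have fψ' : ∀ m, ∀ z ∈ H, ψ₂ (gb m (ga m z)) = ψ z := fun m z hz => by
    rw [(hg m).2.2.1 z hz, f₂ z hz]
  have ht : ∀ m j, ∃ t, j ≤ n → Julia (ga m) (s j) t (Λ / b / a) := by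
    intro m j
    by_cases hj : j ≤ n
    · obtain ⟨t, h1, -⟩ := contact_split (uψ' m).toHol (hg m).2.1.toHol ha0 one_pos (lψ' m)
        (hg m).2.2.2.1 ((jψ j hj).congr (fψ' m))
      exact ⟨t, fun _ => h1⟩
    · exact ⟨0, fun h => absurd h hj⟩
  choose t ht using ht
  have htl : ∀ j ≤ n, Tendsto (fun m => t m j) 𝒰 (𝓝 (s j)) := by
    intro j hj
    obtain ⟨t₀, h1, h2⟩ := exists_contact_limit 𝒰 (fun m => (hg m).2.1.toHol) hlim
      (fun m => ht m j hj)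
    rwa [h2.unique univ_id.toHol (julia_id _)] at h1
  obtain ⟨m, hm⟩ := (((htl (k + 1) hk).sub (htl k hk.le)).eventually_const_lt hlt).exists
  obtain ⟨ub, ua, fb, la, lb, ja, nsa⟩ := hg m
  have uχ' : Univ (fun z => ga m (χ z)) := ua.comp S.uχ
  have lχ' : Low (fun z => ga m (χ z)) b := by
    simpa using la.comp S.lχ zero_le_one S.uχ.maps
  have fac' : ∀ z ∈ H, ψ₂ (gb m (ga m (χ z))) = φ z := fun z hz => by
    rw [fψ' m _ (S.uχ.maps hz), S.fac z hz]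
  refine ⟨fun z => ψ₂ (gb m z), fun z => ga m (χ z), t m, ⟨uψ' m, uχ', fac', lψ' m, lχ',
    fun j hj => ?_, ?_, fun j hj => ?_, fun v hv h => ?_⟩,
    im_lt_of_not_surj ua.toHol la nsa (S.uχ.maps I_mem_H)⟩
  · obtain ⟨t', h1, -⟩ := contact_split (uψ' m).toHol uχ'.toHol ha0 hb (lψ' m) lχ'
      ((D.jφ j hj).congr fac')
    rwa [h1.unique uχ'.toHol ((ht m j hj).comp ua.toHol S.uχ.toHol (S.jχ j hj))] at h1
  · rw [← S.s0]
    exact (ht m 0 (Nat.zero_le _)).unique ua.toHol ja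
  · by_cases e : j = k
    · rw [e]; exact hm.le
    · have := gap_le ua one_pos la (hslt j hj) (ht m j hj.le) (ht m (j + 1) hj)
        ((hreal j hj e).of_le ua.toHol fun z hz => by
          simpa [fb z hz] using lb _ (ua.maps hz))
      linarith [S.gap j hj]
  · obtain ⟨z, hz, rfl⟩ := h
    rcases i2 (im₂ ▸ ⟨gb m z, ub.maps hz, rfl⟩ : ψ₂ (gb m z) ∈ ψ₁ '' H) with h | h
    · exact S.avoid _ hv h
    · exact disjoint_left.1 (disjoint_Rin_Rout _ _ _) h (hA _ hv k hk)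

end Pool.Agent.MP_1a2790_an

end

section

/-! Factorisation of a map none of whose inner arcs is filled, continued. -/

open Complex Set Filter Topology Metric Function
open scoped ComplexConjugate

namespace Pool.Agent.MP_1a2790_an

/-- One half of the kernel theorem. -/
lemma kernel {ι : Type*} (𝒰 : Ultrafilter ι) {ψ : ι → ℂ → ℂ} {φ : ℂ → ℂ} (hψ : ∀ i, Univ (ψ i))
    (hφ : Hol φ) (hlim : TendstoLocallyUniformlyOn ψ φ 𝒰 H) {w w' : ℂ} {r : ℝ}
    (hw' : w' ∈ ball w r) (hB : ∀ᶠ i in 𝒰, ball w r ⊆ ψ i '' H) {z : ι → ℂ} {z' : ℂ}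
    (hz : ∀ i, z i ∈ H ∧ ψ i (z i) = w') (hz' : z' ∈ H) (ht : Tendsto z 𝒰 (𝓝 z')) :
    w ∈ φ '' H := by
  have hr : 0 < r := pos_of_mem_ball hw'
  have hrc : (r : ℂ) ≠ 0 := by exact_mod_cast hr.ne'
  choose g gd eg using fun i => exists_inverse isOpen_H (hψ i).diff (hψ i).inj
  set β : ℂ → ℂ := fun u => w + r * cay I u with hβ
  have βd : DifferentiableOn ℂ β H := ((differentiableOn_cay I_mem_H).const_mul _).const_add _
  have βm : MapsTo β H (ball w r) := fun u hu => by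
    rw [mem_ball, dist_eq_norm, hβ]
    simp only [add_sub_cancel_left, norm_mul, norm_real, Real.norm_of_nonneg hr.le]
    exact mul_lt_of_lt_one_right hr (norm_cay_lt I_mem_H hu)
  have hv : ‖(w' - w) / r‖ < 1 := by
    rw [norm_div, norm_real, Real.norm_of_nonneg hr.le, div_lt_one hr, ← dist_eq_norm]
    exact hw'
  set v := cayInv I ((w' - w) / r) with hvdef
  have hvH : v ∈ H := cayInv_mem_H I_mem_H hv
  have hv0 : 0 < v.im := hvH
  have βv : β v = w' := by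
    simp only [hβ, hvdef, cay_cayInv I_mem_H hv]
    field_simp
    ring
  have βI : β I = w := by simp [hβ, cay_self]
  set C := ‖I - conj v‖ ^ 2 with hC
  have key : ∀ᶠ i in 𝒰, ψ i (g i w) = w ∧ ‖g i w - conj (z i)‖ * v.im ≤ C * (z i).im ∧
      (z i).im * v.im ≤ C * (g i w).im := hB.mono fun i hi => by
    have m : ∀ u ∈ ball w r, g i u ∈ H ∧ ψ i (g i u) = u := fun u hu => by
      obtain ⟨y, hy, rfl⟩ := hi hu
      rw [eg i y hy]
      exact ⟨hy, rfl⟩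
    have hd : DifferentiableOn ℂ (fun u => g i (β u)) H := (gd i).comp βd fun u hu => hi (βm hu)
    have h0 : ∀ u ∈ H, 0 ≤ (g i (β u)).im := fun u hu => le_of_lt (m _ (βm hu)).1
    have a1 := norm_sub_conj_le hd h0 I_mem_H hvH
    have a2 := harnack_lower hd h0 I_mem_H hvH
    have a3 : g i w' = z i := by rw [← (hz i).2, eg i _ (hz i).1]
    simp only [βv, βI, a3, I_im, one_mul] at a1 a2
    exact ⟨(m w (mem_ball_self hr)).2, a1, a2⟩
  have hC0 : 0 ≤ C := by positivity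
  obtain ⟨ζ, hζ⟩ := exists_tendsto_of_bounded 𝒰 (a := fun i => g i w)
    (M := C * (‖z'‖ + 1) / v.im + (‖z'‖ + 1)) (by
      filter_upwards [key, ht.norm.eventually (ge_mem_nhds (lt_add_one ‖z'‖))] with i hi hn
      have b1 := norm_add_le (g i w - conj (z i)) (conj (z i))
      rw [sub_add_cancel, RCLike.norm_conj] at b1
      have b2 : ‖g i w - conj (z i)‖ ≤ C * (‖z'‖ + 1) / v.im := by
        rw [le_div_iff₀ hv0]
        exact hi.2.1.trans (mul_le_mul_of_nonneg_left ((Complex.im_le_norm _).trans hn) hC0)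
      linarith)
  have hζH : ζ ∈ H := by
    have a1 : z'.im * v.im ≤ C * ζ.im :=
      le_of_tendsto_of_tendsto (((Complex.continuous_im.tendsto _).comp ht).mul_const _)
        (((Complex.continuous_im.tendsto _).comp hζ).const_mul _) (key.mono fun i hi => hi.2.2)
    have a2 : 0 < z'.im := hz'
    by_contra hn
    have a3 : ζ.im ≤ 0 := not_lt.1 hn
    nlinarith [mul_pos a2 hv0, mul_nonneg hC0 (neg_nonneg.2 a3)]
  exact ⟨ζ, hζH, tendsto_nhds_unique (tendsto_comp_H hφ hlim hζH hζ)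
    (tendsto_const_nhds.congr' (key.mono fun i hi => hi.1.symm))⟩

variable {φ : ℂ → ℂ} {σ : ℕ → ℝ} {n : ℕ} {Λ : ℝ} {P Γ : ℕ → UI → ℂ} {K : ℕ → ℝ}

lemma Dat.exists_open_point (D : Dat φ σ n Λ P Γ K) (hc : 0 < cInf φ) {k : ℕ} (hk : k < n)
    (hnr : ¬ RealOn φ (σ k) (σ (k + 1))) :
    ∃ w ∈ Rin (Γ k) (σ k) (σ (k + 1)), w ∉ φ '' H ∧ w ∈ closure (φ '' H) := by
  have hl := D.uφ.toHol.low_cInf
  simp only [RealOn, not_forall] at hnr
  obtain ⟨x, hx, hnx⟩ := hnr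
  obtain ⟨M, hM⟩ := bounded_between D.uφ hc hl (D.lt k hk) (D.jφ k hk.le) (D.jφ (k + 1) hk)
  obtain ⟨𝒱, w, h𝒱, hw, hwt⟩ := exists_cluster D.uφ.toHol (hM x (Ioo_subset_Icc_self hx)) hnx
  obtain ⟨hw1, hw2⟩ := limit_notMem_image D.uφ h𝒱 hwt
  refine ⟨w, (mem_Rin_or_Rout _ _ hw (D.notMem_range hw hw1 hk)).resolve_right fun h => ?_,
    hw1, hw2⟩
  obtain ⟨y, hy1, hy2⟩ := ((hwt.eventually ((D.hΓ k hk).isOpen_Rout.mem_nhds h)).and
    (h𝒱 (eventually_image_mem_Rin (D.hP k hk) (D.hΓ k hk) D.uφ hc hl (D.eΓ k hk) hx))).exists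
  exact disjoint_left.1 (disjoint_Rin_Rout _ _ _) hy2 hy1

/-- A state with parabolic inner factor which does not enter the outer region is trivial. -/
lemma St.trivial (D : Dat φ σ n Λ P Γ K) (hc : 0 < cInf φ) {ψ χ : ℂ → ℂ} {s : ℕ → ℝ}
    (S : St φ σ n Λ (cInf φ) 1 (Uout σ n Γ \ φ '' H) ψ χ s) : ∀ z ∈ H, χ z = z := by
  have hl := D.uφ.toHol.low_cInf
  have hQ : ∀ k, ∃ (Q : UI → ℂ) (KQ : ℝ), k < n → StolzPath Q (s k) (s (k + 1)) KQ ∧
      ∀ t, t ≠ 0 → t ≠ 1 → Γ k t = ψ (Q t) := fun k => by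
    by_cases hk : k < n
    · obtain ⟨Q, KQ, hQ, eQ⟩ := (D.hP k hk).image (D.lt k hk).ne S.uχ.toHol one_pos S.lχ
        (S.jχ k hk.le) (S.jχ (k + 1) hk)
      exact ⟨Q, KQ, fun _ => ⟨hQ, fun t h0 h1 => by
        rw [D.eΓ k hk t h0 h1, eQ t h0 h1, S.fac _ ((D.hP k hk).mem t h0 h1)]⟩⟩
    · exact ⟨0, 0, fun h => (hk h).elim⟩
  choose Q KQ hQ using hQ
  have h : ∀ k, ∃ R : ℝ, k < n → ∀ a ∈ H, R < ‖a‖ → a ∈ Rout (Q k) (s k) (s (k + 1)) :=
    fun k => by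
      by_cases hk : k < n
      · obtain ⟨R, hR⟩ := (hQ k hk).1.exists_large
        exact ⟨R, fun _ => hR⟩
      · exact ⟨0, fun h => (hk h).elim⟩
  choose R hR using h
  obtain ⟨B, hB⟩ := ((finite_Iio n).image R).bddAbove
  have hin : ∀ v ∈ ψ '' H, v ∈ Uout σ n Γ → v ∈ φ '' H := fun v hv hU => by
    by_contra hn
    exact S.avoid v ⟨hU, hn⟩ hv
  have hG : Gr (max B 1) ⊆ χ '' H := fun a ha => by
    obtain ⟨z, hz, e⟩ := hin _ ⟨a, ha.1, rfl⟩ (mem_Uout.2 ⟨S.uψ.maps ha.1, fun k hk =>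
      image_mem_Rout (hQ k hk).1 (D.hΓ k hk) S.uψ hc S.lψ (hQ k hk).2
        (hR k hk a ha.1 (((hB ⟨k, hk, rfl⟩).trans (le_max_left _ _)).trans_lt ha.2))⟩)
    exact ⟨z, hz, S.uψ.inj (S.uχ.maps hz) ha.1 ((S.fac z hz).trans e)⟩
  have hle : ∀ k ≤ n, σ k ≤ s k := fun k hk => by
    induction k with
    | zero => exact S.s0.ge
    | succ k ih => linarith [S.gap k hk, ih (by omega)]
  have j0 := S.jχ 0 (Nat.zero_le _)
  rw [S.s0] at j0
  refine rigid' S.uχ S.lχ (cInf_le_one_of_factor S.uψ.toHol S.uχ.toHol hc S.fac S.lχ S.lψ)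
    (by positivity) hG j0 (S.jχ n le_rfl) (hle n le_rfl) fun x hx M hM => ?_
  refine tendsto_im_factor D.uφ S.uψ S.uχ S.fac
    (R := ⋃ k ∈ Iio n, Rin (Γ k) (σ k) (σ (k + 1)))
    (isOpen_biUnion fun k hk => (D.hΓ k hk).isOpen_Rin) (fun v hv => ?_) hM ?_
  · by_cases h1 : v ∈ φ '' H
    · exact Or.inl h1
    have hvH : v ∈ H := S.uψ.maps.image_subset hv
    by_cases h2 : ∃ k < n, v ∈ Rin (Γ k) (σ k) (σ (k + 1))
    · obtain ⟨k, hk, h2⟩ := h2
      exact Or.inr (mem_iUnion₂.2 ⟨k, hk, h2⟩)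
    · push Not at h2
      exact (h1 (hin v hv (mem_Uout.2 ⟨hvH, fun k hk =>
        (mem_Rin_or_Rout _ _ hvH (D.notMem_range hvH h1 hk)).resolve_left (h2 k hk)⟩))).elim
  · have : ∀ᶠ y : ℝ in 𝓝[>] 0, ∀ k ∈ Iio n, φ (x + y * I) ∈ Rout (Γ k) (σ k) (σ (k + 1)) :=
      (eventually_all_finite (finite_Iio n)).2 fun k hk =>
        eventually_image_mem_Rout (D.hP k hk) (D.hΓ k hk) D.uφ hc hl (D.eΓ k hk) (D.lt k hk)
          (hx.imp (fun h => h.trans_le (le_of_steps D.lt (Nat.zero_le _) (le_of_lt hk)))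
            fun h => (le_of_steps D.lt hk le_rfl).trans_lt h)
    refine this.mono fun y hy h => ?_
    obtain ⟨k, hk, h⟩ := mem_iUnion₂.1 h
    exact disjoint_left.1 (disjoint_Rin_Rout _ _ _) h (hy k hk)

lemma Dat.initial_state (D : Dat φ σ n Λ P Γ K) (hc : 0 < cInf φ) {β : ℝ} (hβ1 : 1 ≤ β) :
    ∃ ψ χ s, St φ σ n Λ (cInf φ / β) β (Uout σ n Γ \ φ '' H) ψ χ s := by
  have hβ0 : 0 < β := by linarith
  have hβc : (β : ℂ) ≠ 0 := by exact_mod_cast hβ0.ne'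
  have hl := D.uφ.toHol.low_cInf
  refine ⟨fun w => φ ((β⁻¹ : ℝ) * w + (σ 0 - β⁻¹ * σ 0 : ℝ)),
    fun z => (β : ℂ) * z + (σ 0 - β * σ 0 : ℝ), fun k => β * σ k + (σ 0 - β * σ 0),
    D.uφ.comp (univ_affine (inv_pos.2 hβ0) _), univ_affine hβ0 _, fun z _ => ?_, ?_,
    low_affine _, fun k hk => ?_, by ring, fun k hk => ?_, fun w hw h => hw.2 ?_⟩
  · congr 1
    push_cast
    field_simp
    ring
  · exact hl.comp (low_affine (a := β⁻¹) (σ 0 - β⁻¹ * σ 0)) hc.le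
      (univ_affine (inv_pos.2 hβ0) _).maps
  · refine (julia_affine _ _).mono (univ_affine hβ0 _).toHol ?_
    rw [le_div_iff₀ (div_pos hc hβ0), mul_div_cancel₀ _ hβ0.ne']
    exact hl.le_julia D.uφ.toHol (D.jφ k hk)
  · have := D.lt k hk
    nlinarith
  · obtain ⟨z, hz, rfl⟩ := h
    exact ⟨_, (univ_affine (inv_pos.2 hβ0) _).maps hz, rfl⟩

lemma split_dat_ell (D : Dat φ σ n Λ P Γ K) (hc : 0 < cInf φ)
    (hopen : ∀ k < n, ¬ RealOn φ (σ k) (σ (k + 1))) :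
    ∃ (ψ χ : ℂ → ℂ) (a b : ℝ), Univ ψ ∧ Univ χ ∧ (∀ z ∈ H, ψ (χ z) = φ z) ∧ 0 < a ∧ 1 < b ∧
      Low ψ a ∧ Low χ b ∧
      ∀ k ≤ n, (∃ L, Julia ψ (σ k) (σ k) L) ∧ ∃ L, Julia χ (σ k) (σ k) L := by
  by_contra hcon
  set c := cInf φ with hcdef
  set A := Uout σ n Γ \ φ '' H with hA
  set β : ℕ → ℝ := fun m => 1 + 1 / ((m : ℝ) + 1) with hβ
  have hβ1 : ∀ m, 1 < β m := fun m => by
    simp only [hβ]
    have : 0 < 1 / ((m : ℝ) + 1) := by positivity
    linarith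
  have hβ2 : ∀ m, β m ≤ 2 := fun m => by
    simp only [hβ]
    have : 1 / ((m : ℝ) + 1) ≤ 1 := by
      rw [div_le_one (by positivity)]
      linarith [Nat.cast_nonneg (α := ℝ) m]
    linarith
  have hβt : Tendsto β atTop (𝓝 1) := by
    have := (tendsto_one_div_add_atTop_nhds_zero_nat (𝕜 := ℝ)).const_add (1 : ℝ)
    rwa [add_zero] at this
  have hβ0 : ∀ m, 0 < β m := fun m => one_pos.trans (hβ1 m)
  have ha0 : ∀ m, 0 < c / β m := fun m => div_pos hc (hβ0 m)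
  have step : ∀ m, ∃ ψ χ s, St φ σ n Λ (c / β m) (β m) A ψ χ s ∧ ∃ k < n,
      ∀ w ∈ Rin (Γ k) (σ k) (σ (k + 1)), w ∈ closure (ψ '' H) → w ∈ ψ '' H := fun m => by
    obtain ⟨ψ₀, χ₀, s₀, S₀⟩ := D.initial_state hc (hβ1 m).le
    obtain ⟨ψ, χ, s, S, hmax⟩ := exists_max_state (ha0 m) (hβ0 m) S₀
    refine ⟨ψ, χ, s, S, ?_⟩
    by_contra hno
    push Not at hno
    have h1 : ∀ k < n, s (k + 1) - s k = σ (k + 1) - σ k := fun k hk => by
      by_contra h
      obtain ⟨w, w1, w2, w3⟩ := hno k hk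
      obtain ⟨ψ', χ', s', S', hlt⟩ := exists_better_state' D (ha0 m) (hβ0 m)
        (fun v hv => (mem_Uout.1 hv.1).2) S hk (lt_of_le_of_ne (S.gap k hk) (Ne.symm h)) w1 w3 w2
      exact absurd (hmax _ _ _ S') (not_le.2 hlt)
    have h2 : ∀ k ≤ n, s k = σ k := by
      intro k hk
      induction k with
      | zero => exact S.s0
      | succ k ih => linarith [h1 k hk, ih (by omega)]
    refine hcon ⟨ψ, χ, _, _, S.uψ, S.uχ, S.fac, ha0 m, hβ1 m, S.lψ, S.lχ, fun k hk =>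
      ⟨⟨Λ / β m, ?_⟩, Λ / (c / β m), ?_⟩⟩
    · simpa [h2 k hk] using S.jψ D (ha0 m) (hβ0 m) hk
    · simpa [h2 k hk] using S.jχ k hk
  choose ψ χ s S κ hκ hfill using step
  let 𝒰 : Ultrafilter ℕ := Ultrafilter.of atTop
  have h𝒰 : (𝒰 : Filter ℕ) ≤ atTop := Ultrafilter.of_le _
  have hΛ : 0 < Λ := (D.jφ 0 (Nat.zero_le _)).pos D.uφ.toHol
  have ha2 : ∀ m, c / 2 ≤ c / β m := fun m => div_le_div_of_nonneg_left hc.le (hβ0 m) (hβ2 m)
  have jχ : ∀ m, ∀ k ≤ n, Julia (χ m) (σ k) (s m k) (Λ / (c / 2)) := fun m k hk =>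
    ((S m).jχ k hk).mono (S m).uχ.toHol (div_le_div_of_nonneg_left hΛ.le (by positivity) (ha2 m))
  obtain ⟨ψ₁, χ₁, c1, c2, c3, -, c5, c6, c7⟩ := exists_limit_pair 𝒰 (fun i => (S i).uψ)
    (fun i => (S i).uχ) (fun i => (S i).fac) (half_pos hc) one_pos
    (fun i => (S i).lψ.mono (ha2 i)) (fun i => (S i).lχ.mono (hβ1 i).le)
    (M := Λ / (c / 2) * ‖I - σ 0‖ ^ 2 + |σ 0|) (fun i => by
      have := (jχ i 0 (Nat.zero_le _)).norm_I_le' (S i).uχ.toHol
      rwa [(S i).s0] at this)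
  have hat : Tendsto (fun m => c / β m) 𝒰 (𝓝 c) := by
    have := (tendsto_const_nhds (x := c)).div (hβt.mono_left h𝒰) one_ne_zero
    rwa [div_one] at this
  have c4 : Low ψ₁ c := fun z hz =>
    le_of_tendsto_of_tendsto' (hat.mul_const _)
      ((Complex.continuous_im.tendsto _).comp (c6.tendsto_at hz)) fun m => (S m).lψ z hz
  have hs : ∀ k, ∃ t, k ≤ n → Tendsto (fun i => s i k) 𝒰 (𝓝 t) ∧ Julia χ₁ (σ k) t (Λ / c) := by
    intro k
    by_cases hk : k ≤ n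
    · obtain ⟨t, ht, -⟩ := exists_contact_limit 𝒰 (fun i => (S i).uχ.toHol)
        (fun z hz => c7.tendsto_at hz) (fun i => jχ i k hk)
      exact ⟨t, fun _ => ⟨ht, julia_limit (fun z hz => c7.tendsto_at hz) tendsto_const_nhds ht
        (tendsto_const_nhds.div hat hc.ne') (Eventually.of_forall fun i => (S i).jχ k hk)⟩⟩
    · exact ⟨0, fun h => absurd h hk⟩
  choose t ht using hs
  have S₁ : St φ σ n Λ c 1 A ψ₁ χ₁ t := by
    refine ⟨c1, c2, c3, c4, c5, fun k hk => (ht k hk).2, ?_, fun k hk => ?_, fun w hw => ?_⟩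
    · have := (ht 0 (Nat.zero_le _)).1
      simp only [(S _).s0] at this
      exact tendsto_nhds_unique this tendsto_const_nhds
    · exact ge_of_tendsto' ((ht (k + 1) hk).1.sub (ht k hk.le).1) fun i => (S i).gap k hk
    · rintro ⟨z, hz, e⟩
      exact limit_ne isOpen_H (fun i => (S i).uψ.diff) c6
        (fun z hz => not_eventually_const_of_injOn isOpen_H c1.inj hz) (a := w)
        (fun i z hz e => (S i).avoid w hw ⟨z, hz, e⟩) z hz e
  have hid := S₁.trivial D hc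
  obtain ⟨k, hk, hev⟩ : ∃ k ∈ Iio n, ∀ᶠ m in 𝒰, κ m = k :=
    (Ultrafilter.eventually_exists_mem_iff (finite_Iio n)).1
      (Eventually.of_forall fun m => ⟨κ m, hκ m, rfl⟩)
  obtain ⟨w, w1, w2, w3⟩ := D.exists_open_point hc hk (hopen k hk)
  obtain ⟨r, hr, hball⟩ := Metric.isOpen_iff.1 (D.hΓ k hk).isOpen_Rin w w1
  obtain ⟨_, hw', z', hz', rfl⟩ := mem_closure_iff.1 w3 _ isOpen_ball (mem_ball_self hr)
  have hz : ∀ m, χ m z' ∈ H ∧ ψ m (χ m z') = φ z' := fun m =>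
    ⟨(S m).uχ.maps hz', (S m).fac z' hz'⟩
  obtain ⟨ζ, hζ, e⟩ := kernel 𝒰 (fun m => (S m).uψ) c1.toHol c6 hw' (hev.mono fun m hm => by
    refine (convex_ball w r).isPreconnected.subset_of_closure_inter_subset (S m).uψ.isOpen_image
      ⟨_, hw', _, (hz m).1, (hz m).2⟩ fun v hv => hfill m v ?_ hv.1
    rw [hm]
    exact hball hv.2) hz (c2.maps hz') (c7.tendsto_at hz')
  exact w2 ⟨ζ, hζ, by rw [← c3 ζ hζ, hid ζ hζ, e]⟩

end Pool.Agent.MP_1a2790_an

end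

section

/-! The factorisation lemma without a prescribed Denjoy-Wolff point. -/

open Complex Set Filter Topology Metric Function

namespace Pool.Agent.MP_1a2790_an

/-- The semigroup of univalent maps for which infinity and the points of `G` are boundary regular
fixed points, in the half-plane model. -/
structure GF (G : Set ℝ) (f : ℂ → ℂ) : Prop where
  univ : Univ f
  cpos : 0 < cInf f
  jul : ∀ x ∈ G, ∃ Λ, Julia f x x Λ

variable {G : Set ℝ}

lemma SF.gf {f : ℂ → ℂ} (h : SF G f) : GF G f := ⟨h.univ, one_pos.trans_le h.low.le_cInf, h.jul⟩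

lemma GF.exists_unif (hG : G.Finite) {f : ℂ → ℂ} (h : GF G f) :
    ∃ Λ, ∀ x ∈ G, Julia f x x Λ := by
  have h1 : ∀ x, ∃ Λ, x ∈ G → Julia f x x Λ := fun x => by
    by_cases hx : x ∈ G
    · obtain ⟨Λ, hΛ⟩ := h.jul x hx
      exact ⟨Λ, fun _ => hΛ⟩
    · exact ⟨0, fun h => (hx h).elim⟩
  choose L hL using h1
  obtain ⟨B, hB⟩ := (hG.image L).bddAbove
  exact ⟨B, fun x hx => (hL x hx).mono h.univ.toHol (hB ⟨x, hx, rfl⟩)⟩

lemma julia_mob {x y : ℝ} (h : y ≠ x) : Julia (mob x) y (-(y - x)⁻¹) (((y - x) ^ 2)⁻¹) := by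
  intro z hz
  have h1 := sub_real_ne_zero hz x
  have h2 : (y : ℂ) - x ≠ 0 := by exact_mod_cast sub_ne_zero.2 h
  have h3 : y - x ≠ 0 := sub_ne_zero.2 h
  have e : mob x z - ((-(y - x)⁻¹ : ℝ) : ℂ) = (z - y) / ((z - x) * ((y - x : ℝ) : ℂ)) := by
    rw [mob]
    push_cast
    field_simp
    ring
  rw [e, im_mob, norm_div, norm_mul, norm_real, Real.norm_eq_abs, div_pow, mul_pow, sq_abs]
  have := norm_ne_zero_iff.2 h1
  apply le_of_eq
  field_simp

lemma julia_bom {x y : ℝ} (h : y ≠ x) : Julia (bom x) (-(y - x)⁻¹) y ((y - x) ^ 2) := by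
  intro z hz
  have h1 := ne_zero_of_mem_H hz
  have h2 : (y : ℂ) - x ≠ 0 := by exact_mod_cast sub_ne_zero.2 h
  have e : bom x z - y = -(((y - x : ℝ) : ℂ) * (z - ((-(y - x)⁻¹ : ℝ) : ℂ)) / z) := by
    rw [bom]
    push_cast
    field_simp
    ring
  rw [e, im_bom, norm_neg, norm_div, norm_mul, norm_real, Real.norm_eq_abs, div_pow, mul_pow,
    sq_abs]
  have := norm_ne_zero_iff.2 h1
  apply le_of_eq
  field_simp

lemma cj_cj (f : ℂ → ℂ) (x : ℝ) (w : ℂ) : cj (cj f x x) 0 0 w = f (w + x) + (-x : ℝ) := by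
  simp only [cj, mob, bom, ofReal_zero, zero_sub, sub_zero, inv_neg, inv_inv, neg_neg,
    sub_neg_eq_add, ofReal_neg]
  rw [add_comm (x : ℂ) w, sub_eq_add_neg]

lemma julia_cj_of_low {f : ℂ → ℂ} (hf : Hol f) {c : ℝ} (hc : 0 < c) (hl : Low f c) (x : ℝ) :
    Julia (cj f x x) 0 0 c⁻¹ := by
  rw [(hf.cj x x).julia_iff (inv_pos.2 hc), inv_inv]
  exact ((hl.comp_add_real x).add_real (-x)).congr fun z _ => cj_cj f x z

lemma low_of_julia_cj {f : ℂ → ℂ} (hf : Hol f) {Λ x : ℝ} (h : Julia (cj f x x) 0 0 Λ) :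
    Low f Λ⁻¹ := by
  have h1 := ((hf.cj x x).julia_iff (h.pos (hf.cj x x))).1 h
  refine ((h1.comp_add_real (-x)).add_real x).congr fun z _ => ?_
  rw [cj_cj]
  simp

lemma GF.of_sf_cj {x : ℝ} {g : ℂ → ℂ}
    (hg : SF (insert 0 ((fun y => -(y - x)⁻¹) '' (G \ {x}))) g) :
    GF G (fun z => bom x (g (mob x z))) := by
  have hu : Univ (fun z => bom x (g (mob x z))) := (univ_bom x).comp (hg.univ.comp (univ_mob x))
  have e : ∀ w ∈ H, cj (fun z => bom x (g (mob x z))) x x w = g w := fun w _ => by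
    simp only [cj, mob_bom]
  refine ⟨hu, ?_, fun y hy => ?_⟩
  · obtain ⟨Λ, hΛ⟩ := hg.jul 0 (mem_insert _ _)
    exact (inv_pos.2 (hΛ.pos hg.univ.toHol)).trans_le
      (low_of_julia_cj hu.toHol (hΛ.congr e)).le_cInf
  · by_cases h : y = x
    · subst h
      exact ⟨1, (hu.toHol.julia_iff one_pos).2 (by simpa using hg.low.congr e)⟩
    · obtain ⟨Λ, hΛ⟩ := hg.jul _ (mem_insert_of_mem _ ⟨y, ⟨hy, h⟩, rfl⟩)
      exact ⟨_, (julia_bom h).comp (univ_bom x).toHol (hg.univ.comp (univ_mob x)).toHol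
        (hΛ.comp hg.univ.toHol (univ_mob x).toHol (julia_mob h))⟩

/-- The factorisation lemma. -/
theorem GF.split (hG : G.Finite) (hne : G.Nonempty) {φ : ℂ → ℂ} (h : GF G φ)
    (hid : ¬ ∀ z ∈ H, φ z = z) : ∃ ψ χ, GF G ψ ∧ GF G χ ∧ (∀ z ∈ H, ψ (χ z) = φ z) ∧
      (¬ ∀ z ∈ H, ψ z = z) ∧ ¬ ∀ z ∈ H, χ z = z := by
  have hl := h.univ.toHol.low_cInf
  by_cases hfix : ∃ z₀ ∈ H, φ z₀ = z₀
  · obtain ⟨z₀, hz₀, e⟩ := hfix
    obtain ⟨σ, n, h1, h2, h3⟩ := exists_enum hG hne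
    obtain ⟨Λ, hΛ⟩ := h.exists_unif hG
    have hP : ∀ k, ∃ (P Γ : UI → ℂ) (K : ℝ), k < n → StolzPath P (σ k) (σ (k + 1)) 4 ∧
        StolzPath Γ (σ k) (σ (k + 1)) K ∧ ∀ t, t ≠ 0 → t ≠ 1 → Γ t = φ (P t) := fun k => by
      by_cases hk : k < n
      · obtain ⟨P, hP⟩ := exists_stolzPath (h1 k hk)
        obtain ⟨Γ, K, hΓ⟩ := hP.image (h1 k hk).ne h.univ.toHol h.cpos hl (hΛ _ (h2 k hk.le))
          (hΛ _ (h2 (k + 1) hk))
        exact ⟨P, Γ, K, fun _ => ⟨hP, hΓ⟩⟩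
      · exact ⟨0, 0, 0, fun h => (hk h).elim⟩
    choose P Γ K hP using hP
    have D : Dat φ σ n Λ P Γ K := ⟨h.univ, h1, fun k hk => hΛ _ (h2 k hk),
      fun k hk => (hP k hk).1, fun k hk => (hP k hk).2.1, fun k hk => (hP k hk).2.2⟩
    obtain ⟨ψ, χ, a, b, a1, a2, a3, a4, a5, a6, a7, a8⟩ := split_dat_ell D h.cpos fun k hk hr =>
      hid (eq_id_of_realOn h.univ h.cpos hl (h1 k hk) (D.jφ k hk.le) (D.jφ (k + 1) hk) hr hz₀ e)
    refine ⟨ψ, χ, ⟨a1, a4.trans_le a6.le_cInf, fun x hx => ?_⟩,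
      ⟨a2, (one_pos.trans a5).trans_le a7.le_cInf, fun x hx => ?_⟩, a3, fun hψ => ?_,
      not_id_of_low a7 a5⟩
    · obtain ⟨k, hk, rfl⟩ := h3 x hx
      exact (a8 k hk).1
    · obtain ⟨k, hk, rfl⟩ := h3 x hx
      exact (a8 k hk).2
    · have b1 := a7 z₀ hz₀
      rw [← hψ _ (a2.maps hz₀), a3 z₀ hz₀, e] at b1
      have b2 : 0 < z₀.im := hz₀
      nlinarith
  · push Not at hfix
    rcases wolff h.univ.toHol hfix with h1 | ⟨x, h1⟩
    · obtain ⟨ψ, χ, a1, a2, a3⟩ := SF.split hG hne ⟨h.univ, h1, h.jul⟩ hid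
      exact ⟨ψ, χ, a1.gf, a2.gf, a3⟩
    · have hS : SF (insert 0 ((fun y => -(y - x)⁻¹) '' (G \ {x}))) (cj φ x x) := by
        refine ⟨(univ_mob x).comp (h.univ.comp (univ_bom x)),
          by simpa using (h.univ.toHol.julia_iff one_pos).1 h1, ?_⟩
        rintro _ (rfl | ⟨y, ⟨hy, hyx⟩, rfl⟩)
        · exact ⟨_, julia_cj_of_low h.univ.toHol h.cpos hl x⟩
        · obtain ⟨Λ, hΛ⟩ := h.jul y hy
          exact ⟨_, (julia_mob hyx).comp (univ_mob x).toHol (h.univ.comp (univ_bom x)).toHol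
            (hΛ.comp h.univ.toHol (univ_bom x).toHol (julia_bom hyx))⟩
      have hnid : ∀ g : ℂ → ℂ, (∀ z ∈ H, bom x (g (mob x z)) = z) → ∀ w ∈ H, g w = w :=
        fun g e w hw => by
          have := congrArg (mob x) (e _ (bom_mem_H x hw))
          simpa only [mob_bom] using this
      obtain ⟨ψ, χ, a1, a2, a3, a4, a5⟩ := SF.split ((hG.sdiff.image _).insert _)
        (insert_nonempty _ _) hS fun e => hid fun z hz => by
          have := congrArg (bom x) (e _ (mob_mem_H x hz))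
          simpa only [cj, bom_mob] using this
      refine ⟨_, _, GF.of_sf_cj a1, GF.of_sf_cj a2, fun z hz => ?_, fun e => a4 (hnid _ e),
        fun e => a5 (hnid _ e)⟩
      simp only [mob_bom]
      rw [a3 _ (mob_mem_H x hz)]
      simp only [cj, bom_mob]

end Pool.Agent.MP_1a2790_an

end

section

/-! Evolution families when at least three boundary points are fixed. -/

open Complex Set Filter Topology Metric Function

namespace Pool.Agent.MP_1a2790_an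

variable {G : Set ℝ}

lemma GF.id (G : Set ℝ) : GF G (fun z => z) := (SF.id G).gf

lemma GF.comp {f g : ℂ → ℂ} (hf : GF G f) (hg : GF G g) : GF G (fun z => f (g z)) :=
  ⟨hf.univ.comp hg.univ, by
    rw [cInf_comp hf.univ.toHol hg.univ.toHol hg.cpos]; exact mul_pos hf.cpos hg.cpos,
    fun x hx => by
      obtain ⟨a, ha⟩ := hf.jul x hx
      obtain ⟨b, hb⟩ := hg.jul x hx
      exact ⟨_, ha.comp hf.univ.toHol hg.univ.toHol hb⟩⟩

/-- Angular derivative at `x` times the angular derivative at infinity. -/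
noncomputable def tau (x : ℝ) (f : ℂ → ℂ) : ℝ := lam x f / cInf f

lemma GF.kap_pos {f : ℂ → ℂ} (hf : GF G f) {σ : ℝ} (hσ : σ ∈ G) : 0 < kap f σ σ := by
  obtain ⟨L, hL⟩ := hf.jul σ hσ
  exact hL.kap_pos hf.univ.toHol

lemma GF.julia_lam {f : ℂ → ℂ} (hf : GF G f) {σ : ℝ} (hσ : σ ∈ G) : Julia f σ σ (lam σ f) :=
  hf.univ.toHol.julia_kap (hf.kap_pos hσ)

lemma GF.cInf_le_lam {f : ℂ → ℂ} (hf : GF G f) {σ : ℝ} (hσ : σ ∈ G) : cInf f ≤ lam σ f :=
  hf.univ.toHol.low_cInf.le_julia hf.univ.toHol (hf.julia_lam hσ)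

lemma GF.one_le_tau {f : ℂ → ℂ} (hf : GF G f) {σ : ℝ} (hσ : σ ∈ G) : 1 ≤ tau σ f :=
  (one_le_div hf.cpos).2 (hf.cInf_le_lam hσ)

lemma GF.cInf_eq {φ ψ χ : ℂ → ℂ} (hψ : GF G ψ) (hχ : GF G χ) (e : ∀ z ∈ H, φ z = ψ (χ z)) :
    cInf φ = cInf ψ * cInf χ := by
  rw [cInf_congr e, cInf_comp hψ.univ.toHol hχ.univ.toHol hχ.cpos]

lemma GF.tau_comp {φ ψ χ : ℂ → ℂ} (hψ : GF G ψ) (hχ : GF G χ) (e : ∀ z ∈ H, φ z = ψ (χ z))
    {σ : ℝ} (hσ : σ ∈ G) : tau σ φ = tau σ ψ * tau σ χ := by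
  rw [tau, hψ.cInf_eq hχ e, lam, kap_congr e,
    kap_comp hψ.univ.toHol hχ.univ.toHol (hχ.kap_pos hσ), mul_inv, tau, tau, div_mul_div_comm]
  rfl

lemma GF.near {f : ℂ → ℂ} (hf : GF G f) {σ : ℝ} (hσ : σ ∈ G) {w : ℂ} (hw : w ∈ H) :
    ‖((cInf f)⁻¹ : ℝ) * f w + (σ - (cInf f)⁻¹ * σ : ℝ) - w‖ * w.im ≤
      (tau σ f - 1) * ‖w - σ‖ ^ 2 := by
  have hc := inv_pos.2 hf.cpos
  have hu := univ_affine hc (σ - (cInf f)⁻¹ * σ)
  have h1 := (julia_affine (a := (cInf f)⁻¹) (σ - (cInf f)⁻¹ * σ) σ).comp hu.toHol hf.univ.toHol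
    (hf.julia_lam hσ)
  have h2 := (low_affine (a := (cInf f)⁻¹) (σ - (cInf f)⁻¹ * σ)).comp hf.univ.toHol.low_cInf hc.le
    hf.univ.maps
  rw [inv_mul_cancel₀ hf.cpos.ne'] at h2
  rw [add_sub_cancel, show (cInf f)⁻¹ * lam σ f = tau σ f from (div_eq_inv_mul _ _).symm] at h1
  exact h1.norm_sub_id_le (hu.toHol.comp hf.univ.toHol) h2 hw

/-- The size of a map. -/
noncomputable def siz (x y : ℝ) (f : ℂ → ℂ) : ℝ := tau x f * tau y f

section two
variable {x y : ℝ} (hx : x ∈ G) (hy : y ∈ G)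
include hx hy

lemma GF.one_le_siz {f : ℂ → ℂ} (hf : GF G f) : 1 ≤ siz x y f :=
  one_le_mul_of_one_le_of_one_le (hf.one_le_tau hx) (hf.one_le_tau hy)

lemma GF.siz_comp {φ ψ χ : ℂ → ℂ} (hψ : GF G ψ) (hχ : GF G χ) (e : ∀ z ∈ H, φ z = ψ (χ z)) :
    siz x y φ = siz x y ψ * siz x y χ := by
  rw [siz, siz, siz, hψ.tau_comp hχ e hx, hψ.tau_comp hχ e hy]
  ring

variable (hxy : x ≠ y)
include hxy

lemma GF.inv_bound {f : ℂ → ℂ} (hf : GF G f) :
    |1 - (cInf f)⁻¹| ≤ (‖I - x‖ ^ 2 + ‖I - y‖ ^ 2) / |x - y| * (siz x y f - 1) := by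
  have h1 := hf.near hx I_mem_H
  have h2 := hf.near hy I_mem_H
  have t1 := hf.one_le_tau hx
  have t2 := hf.one_le_tau hy
  rw [I_im, mul_one] at h1 h2
  have h3 := norm_sub_le (((cInf f)⁻¹ : ℝ) * f I + (x - (cInf f)⁻¹ * x : ℝ) - I)
    (((cInf f)⁻¹ : ℝ) * f I + (y - (cInf f)⁻¹ * y : ℝ) - I)
  have e : ((cInf f)⁻¹ : ℝ) * f I + (x - (cInf f)⁻¹ * x : ℝ) - I -
      (((cInf f)⁻¹ : ℝ) * f I + (y - (cInf f)⁻¹ * y : ℝ) - I) =
      (((1 - (cInf f)⁻¹) * (x - y) : ℝ) : ℂ) := by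
    push_cast
    ring
  rw [e, norm_real, Real.norm_eq_abs, abs_mul] at h3
  rw [div_mul_eq_mul_div, le_div_iff₀ (abs_pos.2 (sub_ne_zero.2 hxy)), siz]
  have a1 : (tau x f - 1) * ‖I - x‖ ^ 2 ≤ (tau x f * tau y f - 1) * ‖I - x‖ ^ 2 :=
    mul_le_mul_of_nonneg_right (by nlinarith) (by positivity)
  have a2 : (tau y f - 1) * ‖I - y‖ ^ 2 ≤ (tau x f * tau y f - 1) * ‖I - y‖ ^ 2 :=
    mul_le_mul_of_nonneg_right (by nlinarith) (by positivity)
  linarith

lemma GF.norm_sub_id {f : ℂ → ℂ} (hf : GF G f) {Λ : ℝ} (hj : Julia f x x Λ) {w : ℂ}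
    (hw : w ∈ H) : ‖f w - w‖ * w.im ≤ (siz x y f - 1) *
      (1 + (‖I - x‖ ^ 2 + ‖I - y‖ ^ 2) / |x - y| * Λ) * ‖w - x‖ ^ 2 := by
  have h1 := hf.near hx hw
  have h2 := hf.inv_bound hx hy hxy
  have h3 := hj.norm_le hf.univ.toHol hw
  have t1 := hf.one_le_tau hx
  have t2 := hf.one_le_tau hy
  have hw' : 0 < w.im := hw
  have h4 := norm_add_le (((cInf f)⁻¹ : ℝ) * f w + (x - (cInf f)⁻¹ * x : ℝ) - w)
    (((1 - (cInf f)⁻¹ : ℝ) : ℂ) * (f w - x))
  have e : ((cInf f)⁻¹ : ℝ) * f w + (x - (cInf f)⁻¹ * x : ℝ) - w +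
      ((1 - (cInf f)⁻¹ : ℝ) : ℂ) * (f w - x) = f w - w := by
    push_cast
    ring
  rw [e, norm_mul, norm_real, Real.norm_eq_abs] at h4
  have a1 : (tau x f - 1) * ‖w - x‖ ^ 2 ≤ (siz x y f - 1) * ‖w - x‖ ^ 2 :=
    mul_le_mul_of_nonneg_right (by rw [siz]; nlinarith) (by positivity)
  have a2 := mul_le_mul h2 h3 (by positivity) ((abs_nonneg _).trans h2)
  have a3 := mul_le_mul_of_nonneg_right h4 hw'.le
  nlinarith

lemma GF.eq_id_of_siz_le {f : ℂ → ℂ} (hf : GF G f) (h : siz x y f ≤ 1) : ∀ z ∈ H, f z = z :=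
  fun z hz => by
  have h1 := hf.norm_sub_id hx hy hxy (hf.julia_lam hx) hz
  have h2 : 0 < z.im := hz
  rw [le_antisymm h (hf.one_le_siz hx hy), sub_self, zero_mul, zero_mul] at h1
  have h3 : ‖f z - z‖ ≤ 0 := by
    by_contra h3
    push Not at h3
    nlinarith
  exact sub_eq_zero.1 (norm_le_zero_iff.1 h3)

lemma GF.exists_bd (hG : G.Finite) {φ : ℂ → ℂ} (hφ : GF G φ) :
    ∃ c₀ Λ : ℝ, 0 < c₀ ∧ ∀ p q r, GF G p → GF G q → GF G r → (∀ z ∈ H, φ z = p (q (r z))) →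
      Low q c₀ ∧ ∀ σ ∈ G, Julia q σ σ Λ := by
  obtain ⟨Λ, hΛ⟩ := hφ.exists_unif hG
  set N := 1 + (‖I - x‖ ^ 2 + ‖I - y‖ ^ 2) / |x - y| * (siz x y φ - 1) with hN
  have key : ∀ f, GF G f → siz x y f ≤ siz x y φ → (cInf f)⁻¹ ≤ N := fun f hf h => by
    have h1 := (abs_le.1 (hf.inv_bound hx hy hxy)).1
    have h2 : (‖I - x‖ ^ 2 + ‖I - y‖ ^ 2) / |x - y| * (siz x y f - 1) ≤
        (‖I - x‖ ^ 2 + ‖I - y‖ ^ 2) / |x - y| * (siz x y φ - 1) :=
      mul_le_mul_of_nonneg_left (by linarith) (by positivity)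
    linarith
  have hN0 : 0 < N := (inv_pos.2 hφ.cpos).trans_le (key φ hφ le_rfl)
  refine ⟨N⁻¹, Λ * N * N, inv_pos.2 hN0, fun p q r hp hq hr e => ?_⟩
  have e1 := hp.siz_comp hx hy (hq.comp hr) e
  have e2 := hq.siz_comp hx hy hr fun _ _ => rfl
  have s1 := hp.one_le_siz hx hy
  have s2 := hq.one_le_siz hx hy
  have s3 := hr.one_le_siz hx hy
  have s4 : 1 ≤ siz x y q * siz x y r := one_le_mul_of_one_le_of_one_le s2 s3
  rw [e2] at e1
  have kp := key p hp (by nlinarith)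
  have kq := key q hq (by nlinarith)
  have kr := key r hr (by nlinarith)
  refine ⟨hq.univ.toHol.low_of_le (inv_le_of_inv_le₀ hq.cpos kq), fun σ hσ =>
    (hq.julia_lam hσ).mono hq.univ.toHol ?_⟩
  have f1 := hp.tau_comp (hq.comp hr) e hσ
  have f2 := hq.tau_comp hr (fun _ _ => rfl) hσ
  have g1 := hp.cInf_eq (hq.comp hr) e
  have g2 := hq.cInf_eq hr fun _ _ => rfl
  rw [f2] at f1
  rw [g2] at g1
  have t1 := hp.one_le_tau hσ
  have t2 := hq.one_le_tau hσ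
  have t3 := hr.one_le_tau hσ
  have t4 : tau σ q ≤ tau σ φ := by nlinarith [mul_le_mul t1 t3 zero_le_one (by linarith)]
  have t5 : tau σ φ * cInf φ ≤ Λ := by
    rw [tau, div_mul_cancel₀ _ hφ.cpos.ne']
    exact (hΛ σ hσ).lam_le hφ.univ.toHol
  have cp := hp.cpos
  have cq := hq.cpos
  have cr := hr.cpos
  have c0 := hφ.cpos
  calc lam σ q = tau σ q * cInf φ * (cInf p)⁻¹ * (cInf r)⁻¹ := by
        rw [g1, tau]
        field_simp
    _ ≤ Λ * N * N := by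
        have b1 : tau σ q * cInf φ ≤ Λ := (mul_le_mul_of_nonneg_right t4 c0.le).trans t5
        have b2 : 0 ≤ tau σ q * cInf φ := by positivity
        have b3 : 0 ≤ Λ := b2.trans b1
        gcongr

end two

lemma GF.limit {ι : Type*} (𝒰 : Ultrafilter ι) {f : ι → ℂ → ℂ} (hf : ∀ i, GF G (f i))
    {c₀ Λ σ : ℝ} (hc : 0 < c₀) (hσ : σ ∈ G) (hb : ∀ i, Low (f i) c₀ ∧ ∀ x ∈ G, Julia (f i) x x Λ) :
    ∃ g, GF G g ∧ TendstoLocallyUniformlyOn f g 𝒰 H ∧
      ∀ x ∈ G, ∃ α, Tendsto (fun i => tau x (f i)) 𝒰 (𝓝 α) ∧ tau x g ≤ α := by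
  obtain ⟨g, h1, h2, h3⟩ := exists_limit 𝒰 (fun i => (hf i).univ) hc (fun i => (hb i).1)
    (w := fun _ => I) (M := max 1 (Λ * ‖I - σ‖ ^ 2 + |σ|)) one_pos fun i =>
      ⟨by simp, by simp, (((hb i).2 σ hσ).norm_I_le' (hf i).univ.toHol).trans (le_max_right _ _)⟩
  have hg : GF G g := ⟨h1, hc.trans_le h2.le_cInf, fun x hx => ⟨Λ, julia_limit
    (fun z hz => h3.tendsto_at hz) tendsto_const_nhds tendsto_const_nhds tendsto_const_nhds
    (Eventually.of_forall fun i => (hb i).2 x hx)⟩⟩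
  refine ⟨g, hg, h3, fun x hx => ?_⟩
  have l1 : ∀ i, lam x (f i) ≤ Λ := fun i => ((hb i).2 x hx).lam_le (hf i).univ.toHol
  obtain ⟨l, hl⟩ := exists_tendsto_of_bounded_real 𝒰 (a := fun i => lam x (f i)) (M := Λ)
    (Eventually.of_forall fun i => by
      rw [abs_of_pos ((hf i).cpos.trans_le ((hf i).cInf_le_lam hx))]; exact l1 i)
  obtain ⟨γ, hγ⟩ := exists_tendsto_of_bounded_real 𝒰 (a := fun i => cInf (f i)) (M := Λ)
    (Eventually.of_forall fun i => by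
      rw [abs_of_pos (hf i).cpos]; exact ((hf i).cInf_le_lam hx).trans (l1 i))
  have hγ0 : 0 < γ := hc.trans_le (ge_of_tendsto' hγ fun i => (hb i).1.le_cInf)
  have a1 : lam x g ≤ l := (julia_limit (fun z hz => h3.tendsto_at hz) tendsto_const_nhds
    tendsto_const_nhds hl (Eventually.of_forall fun i => (hf i).julia_lam hx)).lam_le h1.toHol
  have a2 : γ ≤ cInf g := Low.le_cInf fun z hz =>
    le_of_tendsto_of_tendsto' (hγ.mul_const _)
      ((Complex.continuous_im.tendsto _).comp (h3.tendsto_at hz))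
      fun i => (hf i).univ.toHol.low_cInf z hz
  refine ⟨l / γ, hl.div hγ hγ0.ne', ?_⟩
  have a3 := hg.cpos.trans_le (hg.cInf_le_lam hx)
  exact div_le_div₀ (by linarith) a1 hγ0 a2

theorem exists_evH_two (hG : G.Finite) {x y : ℝ} (hx : x ∈ G) (hy : y ∈ G) (hxy : x ≠ y)
    {φ : ℂ → ℂ} (hφ : GF G φ) : ∃ Ψ, EvH (GF G) φ Ψ := by
  obtain ⟨c₀, Λ, hc₀, hbd⟩ := hφ.exists_bd hx hy hxy hG
  let X := {χ : ℂ → ℂ // GF G χ ∧ ∃ ψ, GF G ψ ∧ ∀ z ∈ H, φ z = ψ (χ z)}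
  let r : X → X → Prop := fun a b => ∃ h, GF G h ∧ ∀ z ∈ H, b.1 z = h (a.1 z)
  let T : X → ℝ := fun a => siz x y a.1
  let bot : X := ⟨fun z => z, GF.id G, φ, hφ, fun _ _ => rfl⟩
  let top : X := ⟨φ, hφ, fun z => z, GF.id G, fun _ _ => rfl⟩
  have hX : ∀ a : X, Low a.1 c₀ ∧ ∀ σ ∈ G, Julia a.1 σ σ Λ := fun a => by
    obtain ⟨ψ, h1, h2⟩ := a.2.2
    exact hbd _ _ _ h1 a.2.1 (GF.id G) h2
  have hY : ∀ (a b : X) (h : ℂ → ℂ), GF G h → (∀ z ∈ H, b.1 z = h (a.1 z)) →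
      Low h c₀ ∧ ∀ σ ∈ G, Julia h σ σ Λ := fun a b h h1 h2 => by
    obtain ⟨ψ, g1, g2⟩ := b.2.2
    exact hbd _ _ _ g1 h1 a.2.1 fun z hz => by rw [g2 z hz, h2 z hz]
  have rig0 : ∀ a b : X, r a b → T b ≤ T a → ∀ z ∈ H, b.1 z = a.1 z := by
    rintro a b ⟨h, h1, h2⟩ hT z hz
    have e := h1.siz_comp hx hy a.2.1 h2
    have h3 := a.2.1.one_le_siz hx hy
    have h4 : siz x y h ≤ 1 := by
      by_contra h4
      push Not at h4
      simp only [T] at hT
      nlinarith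
    rw [h2 z hz, h1.eq_id_of_siz_le hx hy hxy h4 _ (a.2.1.univ.maps hz)]
  obtain ⟨γ, hγ1, hγ2⟩ := exists_param r T bot top (fun a => ⟨fun z => z, GF.id G, fun _ _ => rfl⟩)
    (by
      rintro a b c ⟨h, h1, h2⟩ ⟨g, g1, g2⟩
      exact ⟨_, g1.comp h1, fun z hz => by rw [g2 z hz, h2 z hz]⟩)
    (fun a => ⟨a.1, a.2.1, fun _ _ => rfl⟩) (fun a => a.2.2)
    (fun a b h hT => ⟨fun z => z, GF.id G, fun z hz => (rig0 a b h hT z hz).symm⟩)
    (by
      rintro a b ⟨h, h1, h2⟩ hT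
      have e := h1.siz_comp hx hy a.2.1 h2
      have h3 := a.2.1.one_le_siz hx hy
      have hid : ¬ ∀ z ∈ H, h z = z := fun hid => by
        have := (GF.id G).siz_comp hx hy a.2.1 (φ := b.1) fun z hz => by
          rw [h2 z hz, hid _ (a.2.1.univ.maps hz)]
        have h5 := (GF.id G).siz_comp hx hy a.2.1 (φ := a.1) fun z hz => rfl
        exact hT.ne' (this.trans h5.symm)
      obtain ⟨p, q, hp, hq, e1, n1, n2⟩ := h1.split hG ⟨x, hx⟩ hid
      obtain ⟨ψ, g1, g2⟩ := b.2.2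
      have e2 : ∀ z ∈ H, b.1 z = p (q (a.1 z)) := fun z hz => by
        rw [h2 z hz, e1 _ (a.2.1.univ.maps hz)]
      have l1 : 1 < siz x y p := lt_of_not_ge fun h' => n1 (hp.eq_id_of_siz_le hx hy hxy h')
      have l2 : 1 < siz x y q := lt_of_not_ge fun h' => n2 (hq.eq_id_of_siz_le hx hy hxy h')
      have l3 := hq.siz_comp hx hy a.2.1 (fun _ _ => rfl)
      have l4 := hp.siz_comp hx hy (hq.comp a.2.1) e2
      refine ⟨⟨fun z => q (a.1 z), hq.comp a.2.1, _, g1.comp hp, fun z hz => by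
        rw [g2 z hz, e2 z hz]⟩, ⟨q, hq, fun _ _ => rfl⟩, ⟨p, hp, e2⟩, ?_, ?_⟩
      · simp only [T]
        nlinarith
      · simp only [T]
        nlinarith)
    (by
      intro 𝒰 a
      choose ψ hψ eψ using fun n => (a n).2.2
      obtain ⟨χ₀, c1, c2, c3⟩ := GF.limit 𝒰 (fun n => (a n).2.1) hc₀ hx fun n => hX (a n)
      obtain ⟨ψ₀, d1, d2, d3⟩ := GF.limit 𝒰 hψ hc₀ hx fun n => hY (a n) top _ (hψ n) (eψ n)
      have e0 : ∀ z ∈ H, φ z = ψ₀ (χ₀ z) := fun z hz =>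
        tendsto_nhds_unique (tendsto_const_nhds.congr fun n => eψ n z hz)
          (tendsto_comp_H d1.univ.toHol d2 (c1.univ.maps hz) (c2.tendsto_at hz))
      have hlim : ∀ (b : ℕ → X) (c : ℕ → X), (∀ᶠ n in 𝒰, r (b n) (c n)) →
          ∃ (h : ℕ → ℂ → ℂ) (h₀ : ℂ → ℂ), GF G h₀ ∧ TendstoLocallyUniformlyOn h h₀ 𝒰 H ∧
            ∀ᶠ n in 𝒰, ∀ z ∈ H, (c n).1 z = h n ((b n).1 z) := fun b c hbc => by
        have : ∀ n, ∃ h, GF G h ∧ (Low h c₀ ∧ ∀ σ ∈ G, Julia h σ σ Λ) ∧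
            (r (b n) (c n) → ∀ z ∈ H, (c n).1 z = h ((b n).1 z)) := fun n => by
          by_cases hr : r (b n) (c n)
          · obtain ⟨h, h1, h2⟩ := hr
            exact ⟨h, h1, hY _ _ h h1 h2, fun _ => h2⟩
          · exact ⟨fun z => z, GF.id G, hX bot, fun h => (hr h).elim⟩
        choose h h1 h2 h3 using this
        obtain ⟨h₀, g1, g2, -⟩ := GF.limit 𝒰 h1 hc₀ hx h2
        exact ⟨h, h₀, g1, g2, hbc.mono h3⟩
      refine ⟨⟨χ₀, c1, ψ₀, d1, e0⟩, ?_, fun y hy => ?_, fun y hy => ?_⟩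
      · have key : ∀ σ ∈ G, Tendsto (fun n => tau σ (a n).1) 𝒰 (𝓝 (tau σ χ₀)) := fun σ hσ => by
          obtain ⟨α, hα, l1⟩ := c3 σ hσ
          obtain ⟨β, hβ, l2⟩ := d3 σ hσ
          have e1 : tau σ φ = β * α := tendsto_nhds_unique
            (tendsto_const_nhds.congr fun n => (hψ n).tau_comp (a n).2.1 (eψ n) hσ) (hβ.mul hα)
          have e2 := d1.tau_comp c1 e0 hσ
          have l3 := c1.one_le_tau hσ
          have l4 := d1.one_le_tau hσ
          have : tau σ χ₀ = α := le_antisymm l1 (by nlinarith)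
          rw [this]
          exact hα
        exact (key x hx).mul (key y hy)
      · obtain ⟨h, h₀, g1, g2, g3⟩ := hlim (fun _ => y) a hy
        refine ⟨h₀, g1, fun z hz => tendsto_nhds_unique (c2.tendsto_at hz) ?_⟩
        exact (g2.tendsto_at (y.2.1.univ.maps hz)).congr' (g3.mono fun n hn => (hn z hz).symm)
      · obtain ⟨h, h₀, g1, g2, g3⟩ := hlim a (fun _ => y) hy
        exact ⟨h₀, g1, fun z hz => tendsto_nhds_unique
          (tendsto_const_nhds.congr' (g3.mono fun n hn => hn z hz))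
          (tendsto_comp_H g1.univ.toHol g2 (c1.univ.maps hz) (c2.tendsto_at hz))⟩)
  have hTb : T bot = 1 := by
    have h1 := (GF.id G).siz_comp hx hy (GF.id G) (φ := fun z => z) fun _ _ => rfl
    have h2 := (GF.id G).one_le_siz hx hy
    show siz x y (fun z => z) = 1
    nlinarith
  set L := T top with hL
  have hL1 : 1 ≤ L := hφ.one_le_siz hx hy
  rw [hTb] at hγ1 hγ2
  have hm : ∀ t ∈ Icc (0 : ℝ) 1, 1 + t * (L - 1) ∈ Icc 1 L := fun t ht =>
    ⟨by nlinarith [ht.1], by nlinarith [ht.2]⟩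
  refine evH_of_chain (fun f hf => hf.univ) (χ := fun t => (γ (1 + t * (L - 1))).1)
    (fun t _ => (γ _).2.1.univ) ?_ ?_
    (fun s hs t ht hst => hγ2 _ (hm s hs) _ (hm t ht) (by nlinarith)) fun z hz => ?_
  · refine rig0 bot _ ⟨_, (γ _).2.1, fun _ _ => rfl⟩ ?_
    rw [hγ1 _ (hm 0 (by simp)), hTb]
    simp
  · refine fun z hz => (rig0 _ top (γ _).2.2 ?_ z hz).symm
    rw [hγ1 _ (hm 1 (by simp)), ← hL]
    simp
  · have hz' : 0 < z.im := hz
    have hΛ : 0 < Λ := ((hX top).2 x hx).pos hφ.univ.toHol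
    set N := 1 + (‖I - x‖ ^ 2 + ‖I - y‖ ^ 2) / |x - y| * Λ with hN
    have hN0 : 0 < N := by positivity
    refine ⟨(L - 1) * N * Λ * ‖z - x‖ ^ 2 / z.im, by have := sub_nonneg.2 hL1; positivity,
      fun s u t hs hu ht ht1 g h hg hh eg eh => ?_⟩
    have mu := hm u ⟨by linarith, by linarith⟩
    have mt := hm t ⟨by linarith, ht1⟩
    have eu : siz x y (γ _).1 = _ := hγ1 _ mu
    have et : siz x y (γ _).1 = _ := hγ1 _ mt
    have e2 := hh.siz_comp hx hy (γ _).2.1 eh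
    rw [eu, et] at e2
    have h1 := hh.one_le_siz hx hy
    have h2 : siz x y h - 1 ≤ (L - 1) * (t - u) := by nlinarith [mu.1]
    have hw := hg.univ.maps hz
    have hw' : 0 < (g z).im := hw
    have a1 := hh.norm_sub_id hx hy hxy ((hY _ _ h hh eh).2 x hx) hw
    have a2 := (hY _ _ g hg eg).2 x hx z hz
    rw [norm_sub_rev, div_mul_eq_mul_div, le_div_iff₀ hz']
    have h3 : 0 ≤ (L - 1) * (t - u) := by linarith
    have a3 : ‖h (g z) - g z‖ * z.im * (g z).im ≤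
        (L - 1) * N * Λ * ‖z - x‖ ^ 2 * (t - u) * (g z).im := by
      calc ‖h (g z) - g z‖ * z.im * (g z).im = ‖h (g z) - g z‖ * (g z).im * z.im := by ring
        _ ≤ (siz x y h - 1) * N * ‖g z - x‖ ^ 2 * z.im := by gcongr
        _ ≤ (L - 1) * (t - u) * N * ‖g z - x‖ ^ 2 * z.im := by gcongr
        _ = (L - 1) * (t - u) * N * (z.im * ‖g z - x‖ ^ 2) := by ring
        _ ≤ (L - 1) * (t - u) * N * (Λ * ‖z - x‖ ^ 2 * (g z).im) := by gcongr
        _ = _ := by ring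
    exact le_of_mul_le_mul_right a3 hw'

end Pool.Agent.MP_1a2790_an

end

section

/-! Appending an affine flow to an evolution family. -/

open Complex Set Filter Topology Metric Function

namespace Pool.Agent.MP_1a2790_an

lemma evH_affine {S S' : (ℂ → ℂ) → Prop} (hS : ∀ f, S f → Univ f) {a b : ℝ} (ha : 0 < a)
    (hmem : ∀ f (ρ δ : ℝ), S f → 0 < ρ → (∀ x, a * x + b = x → ρ * x + δ = x) →
      S' (fun z => (ρ : ℂ) * f z + δ)) {g : ℂ → ℂ} {Ψ : ℝ → ℝ → ℂ → ℂ} (h : EvH S g Ψ) :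
    ∃ Ψ', EvH S' (fun z => (a : ℂ) * g z + b) Ψ' := by
  set τ : ℝ → ℝ := fun t => min (2 * t) 1 with hτ
  set θ : ℝ → ℝ := fun t => max 0 (min (2 * t - 1) 1) with hθ
  set α : ℝ → ℝ := fun t => 1 + θ t * (a - 1) with hα
  have θ0 : ∀ t, 0 ≤ θ t := fun t => le_max_left _ _
  have θ1 : ∀ t, θ t ≤ 1 := fun t => max_le zero_le_one (min_le_right _ _)
  have τ0 : ∀ t, 0 ≤ t → 0 ≤ τ t := fun t ht => le_min (by linarith) zero_le_one
  have τ1 : ∀ t, τ t ≤ 1 := fun t => min_le_right _ _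
  have τm : ∀ s t, s ≤ t → τ s ≤ τ t := fun s t h => min_le_min_right _ (by linarith)
  have τl : ∀ s t, s ≤ t → τ t - τ s ≤ 2 * (t - s) := fun s t h => by
    simp only [hτ, min_def]
    split_ifs <;> linarith
  have θl : ∀ s t, s ≤ t → |θ s - θ t| ≤ 2 * (t - s) := fun s t h => by
    simp only [hθ, min_def, max_def, abs_le]
    split_ifs <;> constructor <;> linarith
  have αm : ∀ t, min a 1 ≤ α t := fun t => by
    have := θ0 t
    have := θ1 t
    simp only [hα]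
    rcases le_total a 1 with h | h
    · rw [min_eq_left h]; nlinarith
    · rw [min_eq_right h]; nlinarith
  have αM : ∀ t, α t ≤ a + 1 := fun t => by
    have := θ0 t
    have := θ1 t
    simp only [hα]
    nlinarith
  have m0 : 0 < min a 1 := lt_min ha one_pos
  have α0 : ∀ t, 0 < α t := fun t => m0.trans_le (αm t)
  have αc : ∀ t, ((α t : ℝ) : ℂ) ≠ 0 := fun t => by exact_mod_cast (α0 t).ne'
  refine ⟨fun s t z => ((α t / α s : ℝ) : ℂ) * Ψ (τ s) (τ t) z +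
    (θ t * b - α t / α s * (θ s * b) : ℝ), fun s t hs ht => ?_, fun s hs z hz => ?_,
    fun s u t hs hu ht z hz => ?_, fun z hz => ?_, fun z hz => ?_⟩
  · refine hmem _ _ _ (h.mem _ _ (τ0 s hs) (τm s t ht)) (div_pos (α0 t) (α0 s)) fun x hx => ?_
    have e : ∀ r, α r * x + θ r * b = x := fun r => by
      simp only [hα]
      linear_combination θ r * hx
    have := (α0 s).ne'
    field_simp
    linear_combination α s * e t - α t * e s
  · rw [h.id _ (τ0 s hs) z hz, div_self (α0 s).ne']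
    simp
  · rcases le_total (2 * u) 1 with c | c
    · have e1 : θ u = 0 := max_eq_left ((min_le_left _ _).trans (by linarith))
      have e2 : θ s = 0 := max_eq_left ((min_le_left _ _).trans (by linarith))
      rw [h.comp _ _ _ (τ0 s hs) (τm s u hu) (τm u t ht) z hz]
      simp [hα, e1, e2]
    · have e1 : τ u = 1 := min_eq_right c
      have e2 : τ t = 1 := min_eq_right (by linarith)
      have m := (hS _ (h.mem _ _ (τ0 s hs) (τ1 s))).maps hz
      rw [e1, e2, h.id 1 zero_le_one _ ((univ_affine (div_pos (α0 u) (α0 s)) _).maps m)]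
      have := αc s
      have := αc u
      push_cast
      field_simp
      ring
  · obtain ⟨C, hC, hl⟩ := h.lip z hz
    refine ⟨(a + 1) / min a 1 * (C * 2) + (|a - 1| / min a 1 * (‖z‖ + C + |b|) + |b|) * 2,
      by positivity, fun s u t hs hu ht => ?_⟩
    have l1 := hl _ _ _ (τ0 s hs) (τm s u hu) (τm u t ht)
    have l2 := hl _ _ _ (τ0 s hs) le_rfl (τm s t (hu.trans ht))
    rw [h.id _ (τ0 s hs) z hz] at l2
    have l3 := τl u t ht
    have l4 := θl u t ht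
    generalize Ψ (τ s) (τ u) z = v at *
    generalize Ψ (τ s) (τ t) z = v' at *
    have e : ((α u / α s : ℝ) : ℂ) * v + (θ u * b - α u / α s * (θ s * b) : ℝ) -
        (((α t / α s : ℝ) : ℂ) * v' + (θ t * b - α t / α s * (θ s * b) : ℝ)) =
        ((α u / α s : ℝ) : ℂ) * (v - v') + ((θ u - θ t : ℝ) : ℂ) *
          ((((a - 1) / α s : ℝ) : ℂ) * (v' - (θ s * b : ℝ)) + b) := by
      have e1 : ((α u : ℝ) : ℂ) = α t + (θ u - θ t) * (a - 1) := by
        simp only [hα]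
        push_cast
        ring
      have := αc s
      push_cast
      rw [e1]
      field_simp
      ring
    rw [e]
    have n1 : ‖v' - (θ s * b : ℝ)‖ ≤ ‖z‖ + C + |b| := by
      have b1 := norm_sub_le v' (θ s * b : ℝ)
      have b2 := norm_sub_le z (z - v')
      rw [sub_sub_cancel] at b2
      rw [norm_real, Real.norm_eq_abs, abs_mul, abs_of_nonneg (θ0 s)] at b1
      nlinarith [θ0 s, θ1 s, abs_nonneg b, τ1 t, τ0 s hs]
    have n2 : ‖(((a - 1) / α s : ℝ) : ℂ) * (v' - (θ s * b : ℝ)) + b‖ ≤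
        |a - 1| / min a 1 * (‖z‖ + C + |b|) + |b| := by
      refine (norm_add_le _ _).trans (add_le_add ?_ (by simp))
      rw [norm_mul, norm_real, Real.norm_eq_abs, abs_div, abs_of_pos (α0 s)]
      gcongr
      exact αm s
    have n3 : α u / α s ≤ (a + 1) / min a 1 := div_le_div₀ (by positivity) (αM u) m0 (αm s)
    refine (norm_add_le _ _).trans ?_
    rw [norm_mul, norm_mul, norm_real, norm_real, Real.norm_eq_abs, Real.norm_eq_abs,
      abs_of_pos (div_pos (α0 u) (α0 s))]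
    have n4 := mul_le_mul n3 (l1.trans (mul_le_mul_of_nonneg_left l3 hC)) (norm_nonneg _)
      (by positivity)
    have n5 := mul_le_mul l4 n2 (norm_nonneg _) (by linarith)
    linarith
  · have e1 : τ 0 = 0 := by simp [hτ]
    have e2 : τ 1 = 1 := by simp [hτ]
    have e3 : θ 0 = 0 := by simp [hθ]
    have e4 : θ 1 = 1 := by norm_num [hθ]
    rw [e1, e2, h.fin z hz]
    simp [hα, e3, e4]

lemma EvH.congr {S : (ℂ → ℂ) → Prop} {φ φ' : ℂ → ℂ} {Ψ : ℝ → ℝ → ℂ → ℂ} (h : EvH S φ Ψ)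
    (e : ∀ z ∈ H, φ z = φ' z) : EvH S φ' Ψ :=
  ⟨h.mem, h.id, h.comp, h.lip, fun z hz => (h.fin z hz).trans (e z hz)⟩

theorem exists_evH_gf {G : Set ℝ} (hG : G.Finite) {φ : ℂ → ℂ} (hφ : GF G φ) :
    ∃ Ψ, EvH (GF G) φ Ψ := by
  rcases G.subsingleton_or_nontrivial with hs | ⟨x, hx, y, hy, hxy⟩
  · obtain ⟨x₀, hx₀⟩ : ∃ x₀, ∀ x ∈ G, x = x₀ := by
      rcases G.eq_empty_or_nonempty with rfl | ⟨x₀, h⟩
      · exact ⟨0, fun _ h => h.elim⟩
      · exact ⟨x₀, fun x hx => hs hx h⟩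
    have key : ∀ f (ρ δ : ℝ), GF G f → 0 < ρ → ρ * x₀ + δ = x₀ →
        GF G (fun z => (ρ : ℂ) * f z + δ) := fun f ρ δ hf hρ e =>
      GF.comp ⟨univ_affine hρ δ, by rwa [cInf_affine δ hρ], fun x hx => by
        have := julia_affine (a := ρ) δ x₀
        rw [e] at this
        exact ⟨ρ, hx₀ x hx ▸ this⟩⟩ hf
    have hc := hφ.cpos
    set c := cInf φ with hcdef
    have h1 := key φ c⁻¹ (x₀ - c⁻¹ * x₀) hφ (inv_pos.2 hc) (by ring)
    have h2 := (low_affine (a := c⁻¹) (x₀ - c⁻¹ * x₀)).comp hφ.univ.toHol.low_cInf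
      (inv_pos.2 hc).le hφ.univ.maps
    rw [inv_mul_cancel₀ hc.ne'] at h2
    obtain ⟨Ψ, hΨ⟩ := exists_evH hG ⟨h1.univ, h2, h1.jul⟩
    obtain ⟨Ψ', hΨ'⟩ := evH_affine (S' := GF G) (fun f hf => hf.univ) (b := x₀ - c * x₀) hc
      (fun f ρ δ hf hρ e => key f ρ δ hf.gf hρ (e x₀ (by ring))) hΨ
    refine ⟨Ψ', hΨ'.congr fun z _ => ?_⟩
    have : (c : ℂ) ≠ 0 := by exact_mod_cast hc.ne'
    push_cast
    field_simp
    ring
  · exact exists_evH_two hG hx hy hxy hφ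

end Pool.Agent.MP_1a2790_an

end

section

/-! The case without prescribed boundary fixed points. -/

open Complex Set Filter Topology Metric Function
open scoped ComplexConjugate

namespace Pool.Agent.MP_1a2790_an

/-- Univalent maps fixing `I`. -/
structure SZ (f : ℂ → ℂ) : Prop where
  univ : Univ f
  fix : f I = I

lemma SZ.id : SZ (fun z => z) := ⟨univ_id, rfl⟩

lemma SZ.comp {f g : ℂ → ℂ} (hf : SZ f) (hg : SZ g) : SZ (fun z => f (g z)) :=
  ⟨hf.univ.comp hg.univ, by rw [hg.fix, hf.fix]⟩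

/-- Rotation about `I`. -/
noncomputable def rot (u z : ℂ) : ℂ := cayInv I (u * cay I z)

lemma norm_mul_cay_lt {u z : ℂ} (hu : ‖u‖ = 1) (hz : z ∈ H) : ‖u * cay I z‖ < 1 := by
  rw [norm_mul, hu, one_mul]
  exact norm_cay_lt I_mem_H hz

lemma cay_rot {u z : ℂ} (hu : ‖u‖ = 1) (hz : z ∈ H) : cay I (rot u z) = u * cay I z :=
  cay_cayInv I_mem_H (norm_mul_cay_lt hu hz)

lemma rot_rot {u v z : ℂ} (hv : ‖v‖ = 1) (hz : z ∈ H) (e : u * v = 1) : rot u (rot v z) = z := by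
  rw [rot, cay_rot hv hz, ← mul_assoc, e, one_mul, cayInv_cay I_mem_H hz]

lemma sz_rot {u : ℂ} (hu : ‖u‖ = 1) : SZ (rot u) := by
  have h0 : u ≠ 0 := by rintro rfl; simp at hu
  refine ⟨⟨⟨(differentiableOn_cayInv I).comp ((differentiableOn_cay I_mem_H).const_mul u)
    fun z hz => mem_ball_zero_iff.2 (norm_mul_cay_lt hu hz),
    fun z hz => cayInv_mem_H I_mem_H (norm_mul_cay_lt hu hz)⟩, fun z hz w hw e => ?_⟩, ?_⟩
  · rw [← rot_rot hu hz (inv_mul_cancel₀ h0), e, rot_rot hu hw (inv_mul_cancel₀ h0)]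
  · rw [rot, cay_self, mul_zero, cayInv_zero]

lemma cay_ne_zero {z : ℂ} (hz : z ∈ H) (h : z ≠ I) : cay I z ≠ 0 :=
  div_ne_zero (sub_ne_zero.2 h) (sub_conj_ne_zero hz I_mem_H)

lemma SZ.cay_le {f : ℂ → ℂ} (hf : SZ f) {z : ℂ} (hz : z ∈ H) : ‖cay I (f z)‖ ≤ ‖cay I z‖ :=
  norm_cay_le hf.univ.toHol I_mem_H hf.fix hz

lemma SZ.norm_le {f : ℂ → ℂ} (hf : SZ f) {z : ℂ} (hz : z ∈ H) :
    ‖f z - conj I‖ * z.im ≤ ‖z - conj I‖ ^ 2 := by
  simpa [hf.fix] using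
    norm_sub_conj_le hf.univ.diff (fun z hz => le_of_lt (hf.univ.maps hz)) hz I_mem_H

lemma SZ.le_im {f : ℂ → ℂ} (hf : SZ f) {z : ℂ} (hz : z ∈ H) :
    z.im ≤ ‖z - conj I‖ ^ 2 * (f z).im := by
  simpa [hf.fix] using
    harnack_lower hf.univ.diff (fun z hz => le_of_lt (hf.univ.maps hz)) hz I_mem_H

lemma SZ.cay_lt {f : ℂ → ℂ} (hf : SZ f) (hs : ¬ H ⊆ f '' H) {w : ℂ} (hw : w ∈ H) (hne : w ≠ I) :
    ‖cay I (f w)‖ < ‖cay I w‖ := by
  refine lt_of_le_of_ne (hf.cay_le hw) fun e => hs fun v hv => ?_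
  have h1 : ‖kf f I w‖ = 1 := by
    rw [kf_mul hf.univ.toHol I_mem_H hf.fix hw, norm_mul] at e
    exact (mul_eq_right₀ (norm_ne_zero_iff.2 (cay_ne_zero hw hne))).1 e
  have h2 := const_of_norm_eq_one (kf_diff hf.univ.toHol I_mem_H)
    (fun z hz => norm_kf_le hf.univ.toHol I_mem_H hf.fix hz) hw h1
  have h0 : kf f I w ≠ 0 := kf_ne_zero hf.univ I_mem_H hw
  have h3 : ‖(kf f I w)⁻¹‖ = 1 := by rw [norm_inv, h1, inv_one]
  have h4 := (sz_rot h3).univ.maps hv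
  refine ⟨_, h4, ?_⟩
  rw [← cayInv_cay I_mem_H (hf.univ.maps h4), kf_mul hf.univ.toHol I_mem_H hf.fix h4, h2 _ h4]
  exact rot_rot h3 hv (mul_inv_cancel₀ h0)

lemma SZ.split {h : ℂ → ℂ} (hh : SZ h) {w : ℂ} (hw : w ∈ H) (hlt : ‖cay I (h w)‖ < ‖cay I w‖) :
    ∃ p q, SZ p ∧ SZ q ∧ (∀ z ∈ H, h z = p (q z)) ∧ ‖cay I (q w)‖ < ‖cay I w‖ ∧
      ‖cay I (h w)‖ < ‖cay I (q w)‖ := by
  have hne : w ≠ I := by
    rintro rfl
    rw [hh.fix] at hlt
    exact lt_irrefl _ hlt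
  have hs : ¬ H ⊆ h '' H := fun hs => by
    obtain ⟨g, hg, e⟩ := exists_factor univ_id hh.univ (by simpa using hs)
    have e' : ∀ z ∈ H, g (h z) = z := fun z hz =>
      hh.univ.inj (hg.maps (hh.univ.maps hz)) hz (e _ (hh.univ.maps hz))
    have := (SZ.mk hg (by simpa [hh.fix] using e' I I_mem_H)).cay_le (hh.univ.maps hw)
    rw [e' w hw] at this
    linarith
  obtain ⟨ψ, u1, s1, s2, s3⟩ := exists_refine hh.univ hs
  obtain ⟨q, uq, e⟩ := exists_factor hh.univ u1 s1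
  have ha : 0 < (q I).im := uq.maps I_mem_H
  set a := (q I).im with hadef
  set b := (q I).re with hbdef
  have hac : (a : ℂ) ≠ 0 := by exact_mod_cast ha.ne'
  have hqI : q I = a * I + b := by
    rw [add_comm]
    exact (re_add_im _).symm
  have e' : ∀ z ∈ H, ψ (a * ((a⁻¹ : ℝ) * q z + (-(a⁻¹ * b) : ℝ)) + b) = h z := fun z hz => by
    rw [← e z hz]
    congr 1
    push_cast
    field_simp
    ring
  have hp : SZ (fun z => ψ (a * z + b)) :=
    ⟨u1.comp (univ_affine ha b), by rw [← hqI, e I I_mem_H, hh.fix]⟩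
  have hq : SZ (fun z => ((a⁻¹ : ℝ) : ℂ) * q z + (-(a⁻¹ * b) : ℝ)) :=
    ⟨(univ_affine (inv_pos.2 ha) _).comp uq, by
      rw [hqI]
      push_cast
      field_simp
      ring⟩
  have im : (fun z => ψ (a * z + b)) '' H = ψ '' H :=
    image_comp_of_surj (univ_affine ha b).maps (surj_affine ha b)
  refine ⟨_, _, hp, hq, fun z hz => (e' z hz).symm, hq.cay_lt
    (not_surj_of_factor (ψ := fun z => ψ (a * z + b)) e' (by rwa [im])) hw hne, ?_⟩
  rw [← e' w hw]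
  exact hp.cay_lt (by rwa [im]) (hq.univ.maps hw)
    fun e1 => hne (hq.univ.inj hw I_mem_H (e1.trans hq.fix.symm))

lemma SZ.limit {ι : Type*} (𝒰 : Ultrafilter ι) {F : ι → ℂ → ℂ} (hF : ∀ i, SZ (F i)) {δ r : ℝ}
    (hδ : 0 < δ) (hr : r < 1) (h1 : ∀ i, ∃ w ∈ H, ‖cay I w‖ ≤ r ∧ δ ≤ ‖cay I (F i w)‖) :
    ∃ f, SZ f ∧ TendstoLocallyUniformlyOn F f 𝒰 H := by
  obtain ⟨f, hf⟩ := montel 𝒰 (U := H) (F := F) (fun i => (hF i).univ.diff) (fun z hz => by
    have hz' : 0 < z.im := hz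
    have hb : ∀ u ∈ ball z (z.im / 2), z.im / 2 ≤ u.im ∧ ‖u‖ ≤ ‖z‖ + z.im / 2 := by
      intro u hu
      rw [mem_ball, dist_eq_norm] at hu
      have a1 := Complex.abs_im_le_norm (u - z)
      rw [sub_im] at a1
      have a2 := norm_sub_norm_le u z
      constructor <;> linarith [neg_abs_le (u.im - z.im)]
    refine ⟨z.im / 2, by positivity, 1 + (‖z‖ + z.im / 2 + 1) ^ 2 / (z.im / 2),
      fun u hu => lt_of_lt_of_le (by positivity) (hb u hu).1,
      Eventually.of_forall fun i u hu => ?_⟩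
    obtain ⟨b4, b5⟩ := hb u hu
    have hu' : u ∈ H := lt_of_lt_of_le (by positivity) b4
    have a1 := (hF i).norm_le hu'
    have a2 : ‖u - conj I‖ ≤ ‖z‖ + z.im / 2 + 1 := by
      have := norm_sub_le u (conj I)
      rw [Complex.norm_conj, norm_I] at this
      linarith
    have a5 : ‖F i u - conj I‖ * (z.im / 2) ≤ (‖z‖ + z.im / 2 + 1) ^ 2 :=
      le_trans (by gcongr) (a1.trans (by gcongr))
    rw [← le_div_iff₀ (by positivity)] at a5
    have a6 := norm_add_le (F i u - conj I) (conj I)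
    rw [sub_add_cancel, Complex.norm_conj, norm_I] at a6
    linarith)
  have hfd : DifferentiableOn ℂ f H :=
    hf.differentiableOn (Eventually.of_forall fun i => (hF i).univ.diff) isOpen_H
  have hfm : MapsTo f H H := fun z hz => by
    have a1 : z.im ≤ ‖z - conj I‖ ^ 2 * (f z).im :=
      ge_of_tendsto' (((Complex.continuous_im.tendsto _).comp (hf.tendsto_at hz)).const_mul _)
        fun i => (hF i).le_im hz
    have a2 : 0 < z.im := hz
    by_contra hn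
    have a3 : (f z).im ≤ 0 := not_lt.1 hn
    nlinarith [mul_nonneg (sq_nonneg ‖z - conj I‖) (neg_nonneg.2 a3)]
  have hI : f I = I :=
    tendsto_nhds_unique (hf.tendsto_at I_mem_H) (tendsto_const_nhds.congr fun i => (hF i).fix.symm)
  refine ⟨f, ⟨⟨⟨hfd, hfm⟩, ?_⟩, hI⟩, hf⟩
  choose w hw h2 h3 using h1
  obtain ⟨v, hv⟩ := exists_tendsto_of_bounded 𝒰 (Eventually.of_forall h2)
  have hv1 : ‖v‖ < 1 := (le_of_tendsto' hv.norm h2).trans_lt hr
  have hw₀ := cayInv_mem_H I_mem_H hv1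
  have t1 : Tendsto w 𝒰 (𝓝 (cayInv I v)) :=
    (((differentiableOn_cayInv I).continuousOn.continuousAt
      (isOpen_ball.mem_nhds (mem_ball_zero_iff.2 hv1))).tendsto.comp hv).congr
      fun i => cayInv_cay I_mem_H (hw i)
  have t2 := ((differentiableOn_cay I_mem_H).continuousOn.continuousAt
    (H_mem_nhds (hfm hw₀))).tendsto.comp (tendsto_comp_H ⟨hfd, hfm⟩ hf hw₀ t1)
  have t3 := ge_of_tendsto' t2.norm h3
  apply limit_injOn isOpen_H (fun i => (hF i).univ.diff) hf _ fun i => (hF i).univ.inj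
  intro z₀ hz₀
  apply not_eventually_const isOpen_H isPreconnected_H hfd hw₀ I_mem_H _ hz₀
  intro e
  rw [e, hI, cay_self, norm_zero] at t3
  linarith

lemma two_I_mem_H : 2 * I ∈ H := by simp [mem_H]

/-- The image of the second base point. -/
noncomputable def kz (f : ℂ → ℂ) : ℂ := cay I (f (2 * I))

lemma kz_id : kz (fun z => z) = ((1 / 3 : ℝ) : ℂ) := by
  have : (2 : ℂ) * I - -I = 3 * I := by ring
  rw [kz, cay, conj_I, this]
  push_cast
  field_simp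
  ring

lemma SZ.norm_kz_le {f : ℂ → ℂ} (hf : SZ f) : ‖kz f‖ ≤ 1 / 3 := by
  have h1 : ‖kz f‖ ≤ ‖kz fun z => z‖ := hf.cay_le two_I_mem_H
  rwa [kz_id, norm_real, Real.norm_of_nonneg (by norm_num)] at h1

lemma SZ.kz_ne_zero {f : ℂ → ℂ} (hf : SZ f) : kz f ≠ 0 :=
  cay_ne_zero (hf.univ.maps two_I_mem_H) fun e => by
    have := congrArg Complex.im (hf.univ.inj two_I_mem_H I_mem_H (e.trans hf.fix.symm))
    simp at this

lemma lip_rad {f g h : ℂ → ℂ} (hf : SZ f) (hg : SZ g) (hh : SZ h) {z : ℂ} (hz : z ∈ H) :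
    ‖g z - h (g z)‖ ≤ (‖z - conj I‖ ^ 2 / z.im) ^ 2 * (1 + (‖z‖ + 6) ^ 2 / (z.im * (2 / 9))) *
      ‖1 - kf h I (g (f (2 * I)))‖ := by
  have hz' : 0 < z.im := hz
  have hz₀ := hf.univ.maps two_I_mem_H
  have n3 : ‖2 * I - conj I‖ = 3 := by
    rw [conj_I, show (2 : ℂ) * I - -I = 3 * I by ring]
    simp
  have b1 := hf.norm_le two_I_mem_H
  have b2 := hf.le_im two_I_mem_H
  rw [n3] at b1 b2
  simp only [mul_im, re_ofNat, I_im, mul_one, im_ofNat, I_re, mul_zero, add_zero] at b1 b2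
  generalize f (2 * I) = z₀ at *
  have b3 : ‖z - conj z₀‖ ≤ ‖z‖ + 6 := by
    have c1 := norm_sub_le z (conj z₀)
    have c2 := norm_add_le (z₀ - conj I) (conj I)
    rw [sub_add_cancel, Complex.norm_conj, norm_I] at c2
    rw [Complex.norm_conj] at c1
    linarith
  have hw := hg.univ.maps hz
  have hw₀ := hg.univ.maps hz₀
  have i0 : 0 < z₀.im := hz₀
  have i1 : 0 < (g z).im := hw
  have i2 : 0 < (g z₀).im := hw₀
  have a1 := est_of_norm_le_one (kf_diff hh.univ.toHol I_mem_H)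
    (fun z hz => norm_kf_le hh.univ.toHol I_mem_H hh.fix hz) hw hw₀
  have a2 := schwarzPick_closed_conj hg.univ.diff (fun z hz => le_of_lt (hg.univ.maps hz)) hz hz₀
  have a3 : ‖g z - conj (g z₀)‖ ^ 2 / ((g z).im * (g z₀).im) ≤ (‖z‖ + 6) ^ 2 / (z.im * (2 / 9)) := by
    refine le_trans (b := ‖z - conj z₀‖ ^ 2 / (z.im * z₀.im)) ?_ ?_
    · rwa [div_le_div_iff₀ (by positivity) (by positivity)]
    · gcongr
      linarith
  have a4 : ‖g z - conj I‖ ≤ ‖z - conj I‖ ^ 2 / z.im := by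
    rw [le_div_iff₀ hz']; exact hg.norm_le hz
  have a5 : ‖h (g z) - conj I‖ ≤ ‖z - conj I‖ ^ 2 / z.im := by
    rw [le_div_iff₀ hz']; exact (hh.comp hg).norm_le hz
  have a6 := kf_mul hh.univ.toHol I_mem_H hh.fix hw
  have n1 := sub_conj_ne_zero hw I_mem_H
  have n2 := sub_conj_ne_zero (hh.univ.maps hw) I_mem_H
  have a7 : g z - h (g z) = (1 - kf h I (g z)) * cay I (g z) * ((g z - conj I) *
      (h (g z) - conj I)) / (2 * I) := by
    rw [sub_mul, ← a6, one_mul, cay, cay]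
    rw [conj_I] at *
    field_simp
    ring
  have a8 : ‖g z - h (g z)‖ ≤ ‖1 - kf h I (g z)‖ * 1 * (‖g z - conj I‖ * ‖h (g z) - conj I‖) := by
    rw [a7, norm_div, norm_mul, norm_mul, norm_mul, norm_mul, norm_I, Complex.norm_ofNat, mul_one]
    refine (div_le_self (by positivity) one_le_two).trans ?_
    gcongr
    exact (norm_cay_lt I_mem_H hw).le
  calc ‖g z - h (g z)‖ ≤ (1 + (‖z‖ + 6) ^ 2 / (z.im * (2 / 9))) * ‖1 - kf h I (g z₀)‖ * 1 *
        (‖z - conj I‖ ^ 2 / z.im * (‖z - conj I‖ ^ 2 / z.im)) := by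
        refine a8.trans ?_
        gcongr
        refine a1.trans ?_
        gcongr
    _ = _ := by ring

lemma exists_chain_rad {φ : ℂ → ℂ} (hφ : SZ φ) (hre : kz φ = ‖kz φ‖) :
    ∃ χ : ℝ → ℂ → ℂ, (∀ t ∈ Icc (0 : ℝ) 1, SZ (χ t) ∧
      kz (χ t) = ((1 / 3 - t * (1 / 3 - ‖kz φ‖) : ℝ) : ℂ)) ∧ (∀ z ∈ H, χ 0 z = z) ∧
      (∀ z ∈ H, χ 1 z = φ z) ∧ ∀ s ∈ Icc (0 : ℝ) 1, ∀ t ∈ Icc (0 : ℝ) 1, s ≤ t →
      ∃ h, SZ h ∧ ∀ z ∈ H, χ t z = h (χ s z) := by
  let X := {χ : ℂ → ℂ // SZ χ ∧ kz χ = ‖kz χ‖ ∧ ∃ ψ, SZ ψ ∧ ∀ z ∈ H, φ z = ψ (χ z)}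
  let r : X → X → Prop := fun a b => ∃ h, SZ h ∧ ∀ z ∈ H, b.1 z = h (a.1 z)
  let T : X → ℝ := fun a => -‖kz a.1‖
  have nid : ‖kz fun z => z‖ = 1 / 3 := by
    rw [kz_id, norm_real, Real.norm_of_nonneg (by norm_num)]
  let bot : X := ⟨fun z => z, SZ.id, by rw [nid, kz_id], φ, hφ, fun _ _ => rfl⟩
  let top : X := ⟨φ, hφ, hre, fun z => z, SZ.id, fun _ _ => rfl⟩
  have hρ : 0 < ‖kz φ‖ := norm_pos_iff.2 hφ.kz_ne_zero
  have hX : ∀ a : X, ‖kz φ‖ ≤ ‖kz a.1‖ := fun a => by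
    obtain ⟨ψ, h1, h2⟩ := a.2.2.2
    rw [kz, h2 _ two_I_mem_H]
    exact h1.cay_le (a.2.1.univ.maps two_I_mem_H)
  have rig0 : ∀ a b : X, r a b → T b ≤ T a → ∀ z ∈ H, b.1 z = a.1 z := by
    rintro a b ⟨h, h1, h2⟩ hT z hz
    have hI := a.2.1.univ.maps two_I_mem_H
    have e1 : ‖kz b.1‖ = ‖kz a.1‖ := le_antisymm (by
      rw [kz, h2 _ two_I_mem_H]; exact h1.cay_le hI) (neg_le_neg_iff.1 hT)
    have e2 : kz b.1 = kz a.1 := by rw [a.2.2.1, b.2.2.1, e1]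
    have e3 := kf_mul h1.univ.toHol I_mem_H h1.fix hI
    rw [← h2 _ two_I_mem_H] at e3
    have e4 : kf h I (a.1 (2 * I)) = 1 :=
      (mul_eq_right₀ a.2.1.kz_ne_zero).1 (e3.symm.trans e2)
    have e5 := lip_rad a.2.1 SZ.id h1 (a.2.1.univ.maps hz)
    rw [e4, sub_self, norm_zero, mul_zero, norm_le_zero_iff, sub_eq_zero] at e5
    rw [h2 z hz, ← e5]
  obtain ⟨γ, hγ1, hγ2⟩ := exists_param r T bot top (fun a => ⟨fun z => z, SZ.id, fun _ _ => rfl⟩)
    (by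
      rintro a b c ⟨h, h1, h2⟩ ⟨g, g1, g2⟩
      exact ⟨_, g1.comp h1, fun z hz => by rw [g2 z hz, h2 z hz]⟩)
    (fun a => ⟨a.1, a.2.1, fun _ _ => rfl⟩) (fun a => a.2.2.2)
    (fun a b h hT => ⟨fun z => z, SZ.id, fun z hz => (rig0 a b h hT z hz).symm⟩)
    (by
      rintro a b ⟨h, h1, h2⟩ hT
      have hI := a.2.1.univ.maps two_I_mem_H
      obtain ⟨p, q, hp, hq, e1, n1, n2⟩ := h1.split hI (by
        rw [← h2 _ two_I_mem_H]; exact neg_lt_neg_iff.1 hT)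
      obtain ⟨ψ, g1, g2⟩ := b.2.2.2
      have k0 : cay I (q (a.1 (2 * I))) ≠ 0 := (hq.comp a.2.1).kz_ne_zero
      set κ := cay I (q (a.1 (2 * I))) with hκ
      have k1 : ((‖κ‖ : ℝ) : ℂ) ≠ 0 := by exact_mod_cast norm_ne_zero_iff.2 k0
      have u1 : ‖(‖κ‖ : ℂ) / κ‖ = 1 := by simp [k0]
      have u2 : ‖κ / (‖κ‖ : ℂ)‖ = 1 := by simp [k0]
      have hq' := (sz_rot u1).comp hq
      have hp' := hp.comp (sz_rot u2)
      have e2 : ∀ z ∈ H, b.1 z = p (rot (κ / ‖κ‖) (rot (‖κ‖ / κ) (q (a.1 z)))) := fun z hz => by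
        rw [h2 z hz, e1 _ (a.2.1.univ.maps hz),
          rot_rot u1 (hq.univ.maps (a.2.1.univ.maps hz)) (by field_simp)]
      have e3 : kz (fun z => rot (‖κ‖ / κ) (q (a.1 z))) = ‖κ‖ := by
        rw [kz, cay_rot u1 (hq.univ.maps hI), div_mul_cancel₀ _ k0]
      have e4 : ‖kz (fun z => rot (‖κ‖ / κ) (q (a.1 z)))‖ = ‖κ‖ := by rw [e3]; simp
      refine ⟨⟨fun z => rot (‖κ‖ / κ) (q (a.1 z)), hq'.comp a.2.1, by rw [e4, e3], _, g1.comp hp',
        fun z hz => by rw [g2 z hz, e2 z hz]⟩, ⟨_, hq', fun _ _ => rfl⟩, ⟨_, hp', e2⟩, ?_, ?_⟩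
      · simp only [T, e4]
        exact neg_lt_neg n1
      · rw [← h2 _ two_I_mem_H] at n2
        simp only [T, e4]
        exact neg_lt_neg n2)
    (by
      intro 𝒰 a
      choose ψ hψ eψ using fun n => (a n).2.2.2
      obtain ⟨χ₀, c1, c3⟩ := SZ.limit 𝒰 (fun n => (a n).2.1) hρ (r := 1 / 3) (by norm_num)
        fun n => ⟨_, two_I_mem_H, nid.le, hX (a n)⟩
      have hlim : ∀ (b : ℕ → X) (c : ℕ → X), (∀ᶠ n in 𝒰, r (b n) (c n)) →
          ∃ (h : ℕ → ℂ → ℂ) (h₀ : ℂ → ℂ), SZ h₀ ∧ TendstoLocallyUniformlyOn h h₀ 𝒰 H ∧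
            ∀ᶠ n in 𝒰, ∀ z ∈ H, (c n).1 z = h n ((b n).1 z) := fun b c hbc => by
        have : ∀ n, ∃ h, SZ h ∧ ‖kz φ‖ ≤ ‖cay I (h ((b n).1 (2 * I)))‖ ∧
            (r (b n) (c n) → ∀ z ∈ H, (c n).1 z = h ((b n).1 z)) := fun n => by
          by_cases hr : r (b n) (c n)
          · obtain ⟨h, h1, h2⟩ := hr
            exact ⟨h, h1, by rw [← h2 _ two_I_mem_H]; exact hX _, fun _ => h2⟩
          · exact ⟨fun z => z, SZ.id, hX _, fun h => (hr h).elim⟩
        choose h h1 h2 h3 using this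
        obtain ⟨h₀, g1, g2⟩ := SZ.limit 𝒰 h1 hρ (r := 1 / 3) (by norm_num) fun n =>
          ⟨_, (b n).2.1.univ.maps two_I_mem_H, (b n).2.1.norm_kz_le, h2 n⟩
        exact ⟨h, h₀, g1, g2, hbc.mono h3⟩
      have up : ∀ y : X, (∀ᶠ n in 𝒰, r (a n) y) → ∃ h, SZ h ∧ ∀ z ∈ H, y.1 z = h (χ₀ z) :=
        fun y hy => by
          obtain ⟨h, h₀, g1, g2, g3⟩ := hlim a (fun _ => y) hy
          exact ⟨h₀, g1, fun z hz => tendsto_nhds_unique
            (tendsto_const_nhds.congr' (g3.mono fun n hn => hn z hz))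
            (tendsto_comp_H g1.univ.toHol g2 (c1.univ.maps hz) (c3.tendsto_at hz))⟩
      have hI : Tendsto (fun n => kz (a n).1) 𝒰 (𝓝 (kz χ₀)) :=
        ((differentiableOn_cay I_mem_H).continuousOn.continuousAt
          (H_mem_nhds (c1.univ.maps two_I_mem_H))).tendsto.comp (c3.tendsto_at two_I_mem_H)
      refine ⟨⟨χ₀, c1, ?_, up top (Eventually.of_forall fun n => (a n).2.2.2)⟩, hI.norm.neg,
        fun y hy => ?_, up⟩
      · exact tendsto_nhds_unique hI (((Complex.continuous_ofReal.tendsto _).comp hI.norm).congr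
          fun n => (a n).2.2.1.symm)
      · obtain ⟨h, h₀, g1, g2, g3⟩ := hlim (fun _ => y) a hy
        refine ⟨h₀, g1, fun z hz => tendsto_nhds_unique (c3.tendsto_at hz) ?_⟩
        exact (g2.tendsto_at (y.2.1.univ.maps hz)).congr' (g3.mono fun n hn => (hn z hz).symm))
  have hTb : T bot = -(1 / 3) := congrArg Neg.neg nid
  have hL : T top = -‖kz φ‖ := rfl
  have hL1 := hφ.norm_kz_le
  rw [hTb, hL] at hγ1 hγ2
  have hm : ∀ t ∈ Icc (0 : ℝ) 1, -(1 / 3 - t * (1 / 3 - ‖kz φ‖)) ∈ Icc (-(1 / 3)) (-‖kz φ‖) :=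
    fun t ht => ⟨by nlinarith [ht.1], by nlinarith [ht.2]⟩
  refine ⟨fun t => (γ (-(1 / 3 - t * (1 / 3 - ‖kz φ‖)))).1, fun t ht => ⟨(γ _).2.1, ?_⟩, ?_, ?_,
    fun s hs t ht hst => hγ2 _ (hm s hs) _ (hm t ht) (by nlinarith)⟩
  · rw [(γ _).2.2.1, neg_injective (hγ1 _ (hm t ht))]
  · refine rig0 bot _ ⟨_, (γ _).2.1, fun _ _ => rfl⟩ ?_
    rw [hγ1 _ (hm 0 (by simp)), hTb]
    simp
  · refine fun z hz => (rig0 _ top (γ _).2.2.2 ?_ z hz).symm
    rw [hγ1 _ (hm 1 (by simp)), hL]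
    simp

theorem exists_evH_sz {φ : ℂ → ℂ} (hφ : SZ φ) : ∃ Ψ, EvH SZ φ Ψ := by
  set θ := arg (kz φ) with hθ
  set u : ℝ → ℂ := fun t => exp (I * (t * θ : ℝ)) with hu
  have u1 : ∀ t, ‖u t‖ = 1 := fun t => norm_exp_I_mul_ofReal _
  have um : ∀ s t, u s * u t = u (s + t) := fun s t => by
    simp only [hu]
    rw [← exp_add]
    congr 1
    push_cast
    ring
  have u0 : u 0 = 1 := by simp [hu]
  have ui : ∀ t, u t * u (-t) = 1 := fun t => by rw [um, add_neg_cancel, u0]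
  have hg := (sz_rot (u1 (-1))).comp hφ
  have e0 : kz (fun z => rot (u (-1)) (φ z)) = ‖kz φ‖ := by
    have h1 : (‖kz φ‖ : ℂ) * u 1 = kz φ := by
      have := norm_mul_exp_arg_mul_I (kz φ)
      simpa [hu, mul_comm] using this
    rw [kz, cay_rot (u1 _) (hφ.univ.maps two_I_mem_H)]
    show u (-1) * kz φ = _
    linear_combination (‖kz φ‖ : ℂ) * ui 1 - u (-1) * h1
  have e1 : ‖kz (fun z => rot (u (-1)) (φ z))‖ = ‖kz φ‖ := by rw [e0]; simp
  obtain ⟨χ, h1, h2, h3, h4⟩ := exists_chain_rad hg (by rw [e1, e0])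
  rw [e1] at h1
  set ρ := ‖kz φ‖ with hρ
  have hρ0 : 0 < ρ := norm_pos_iff.2 hφ.kz_ne_zero
  have hρ1 : ρ ≤ 1 / 3 := hφ.norm_kz_le
  refine evH_of_chain (fun f hf => hf.univ) (χ := fun t z => rot (u t) (χ t z))
    (fun t ht => ((sz_rot (u1 t)).comp (h1 t ht).1).univ) (fun z hz => ?_) (fun z hz => ?_)
    (fun s hs t ht hst => ?_) fun z hz => ?_
  · rw [h2 z hz, u0, rot, one_mul, cayInv_cay I_mem_H hz]
  · rw [h3 z hz, rot_rot (u1 _) (hφ.univ.maps hz) (ui 1)]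
  · obtain ⟨h, a1, a2⟩ := h4 s hs t ht hst
    exact ⟨_, (sz_rot (u1 t)).comp (a1.comp (sz_rot (u1 (-s)))), fun z hz => by
      rw [rot_rot (u1 s) ((h1 s hs).1.univ.maps hz) (by rw [mul_comm, ui]), a2 z hz]⟩
  · have hz' : 0 < z.im := hz
    refine ⟨(‖z - conj I‖ ^ 2 / z.im) ^ 2 * (1 + (‖z‖ + 6) ^ 2 / (z.im * (2 / 9))) *
      ((1 + |θ|) / ρ), by positivity, fun s v t hs hv ht ht1 g h hg hh eg eh => ?_⟩
    have ms : s ∈ Icc (0 : ℝ) 1 := ⟨hs, by linarith⟩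
    have mv : v ∈ Icc (0 : ℝ) 1 := ⟨by linarith, by linarith⟩
    have mt : t ∈ Icc (0 : ℝ) 1 := ⟨by linarith, ht1⟩
    refine (lip_rad ((sz_rot (u1 s)).comp (h1 s ms).1) hg hh hz).trans ?_
    rw [mul_assoc _ ((1 + |θ|) / ρ)]
    refine mul_le_mul_of_nonneg_left ?_ (by positivity)
    rw [← eg _ two_I_mem_H]
    have m := (h1 v mv).1.univ.maps two_I_mem_H
    have a1 := kf_mul hh.univ.toHol I_mem_H hh.fix ((sz_rot (u1 v)).univ.maps m)
    rw [← eh _ two_I_mem_H, cay_rot (u1 v) m, cay_rot (u1 t) ((h1 t mt).1.univ.maps two_I_mem_H)]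
      at a1
    have ev : cay I (χ v (2 * I)) = _ := (h1 v mv).2
    have et : cay I (χ t (2 * I)) = _ := (h1 t mt).2
    rw [ev, et] at a1
    generalize kf h I (rot (u v) (χ v (2 * I))) = k at a1
    set ρv := 1 / 3 - v * (1 / 3 - ρ) with hρv
    set ρt := 1 / 3 - t * (1 / 3 - ρ) with hρt
    have b1 : ρ ≤ ρv := by nlinarith [mv.2]
    have b2 : ρ ≤ ρt := by nlinarith [mt.2]
    have b3 : ρt ≤ 1 := by nlinarith [mt.1]
    have a2 : (1 - k) * (u v * ρv) = u v * (((ρv - ρt : ℝ) : ℂ) - ρt * (u (t - v) - 1)) := by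
      have := um v (t - v)
      rw [add_sub_cancel] at this
      push_cast
      linear_combination a1 + (ρt : ℂ) * this
    have a3 : ‖u (t - v) - 1‖ ≤ (t - v) * |θ| := by
      refine Real.norm_exp_I_mul_ofReal_sub_one_le.trans ?_
      rw [Real.norm_eq_abs, abs_mul, abs_of_nonneg (by linarith)]
    have a4 := congrArg norm a2
    rw [norm_mul, norm_mul, norm_mul, u1, one_mul, one_mul, norm_real,
      Real.norm_of_nonneg (by linarith)] at a4
    have a5 := norm_sub_le ((ρv - ρt : ℝ) : ℂ) (ρt * (u (t - v) - 1))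
    rw [norm_mul, norm_real, norm_real, Real.norm_of_nonneg (by nlinarith),
      Real.norm_of_nonneg (by linarith)] at a5
    rw [div_mul_eq_mul_div, le_div_iff₀ hρ0]
    have a6 := mul_le_mul b3 a3 (norm_nonneg _) zero_le_one
    have a7 := mul_le_mul_of_nonneg_left b1 (norm_nonneg (1 - k))
    have a8 : ρv - ρt ≤ t - v := by nlinarith
    nlinarith

theorem exists_evH_univ {φ : ℂ → ℂ} (hφ : Univ φ) : ∃ Ψ, EvH Univ φ Ψ := by
  have ha : 0 < (φ I).im := hφ.maps I_mem_H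
  set a := (φ I).im with hadef
  set b := (φ I).re with hbdef
  have hac : (a : ℂ) ≠ 0 := by exact_mod_cast ha.ne'
  have hI : φ I = a * I + b := by
    rw [add_comm]
    exact (re_add_im _).symm
  obtain ⟨Ψ, hΨ⟩ := exists_evH_sz (φ := fun z => ((a⁻¹ : ℝ) : ℂ) * φ z + (-(a⁻¹ * b) : ℝ))
    ⟨(univ_affine (inv_pos.2 ha) _).comp hφ, by
      rw [hI]
      push_cast
      field_simp
      ring⟩
  obtain ⟨Ψ', hΨ'⟩ := evH_affine (S' := Univ) (fun f hf => hf.univ) (b := b) ha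
    (fun f ρ δ hf hρ _ => (univ_affine hρ δ).comp hf.univ) hΨ
  refine ⟨Ψ', hΨ'.congr fun z _ => ?_⟩
  push_cast
  field_simp
  ring

end Pool.Agent.MP_1a2790_an

end

section

/-! Transfer of the second question to the disc. -/

open Complex Set Filter Topology Metric Function

namespace Pool.Agent.MP_1a2790_an

lemma dn_basic {τ : ℂ} (hτ : ‖τ‖ = 1) {g : ℂ → ℂ} (hg : Univ g) :
    DifferentiableOn ℂ (dn τ g) (ball 0 1) ∧ InjOn (dn τ g) (ball 0 1) ∧
      MapsTo (dn τ g) (ball 0 1) (ball 0 1) ∧ ∀ w ∈ H, up τ (dn τ g) w = g w := by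
  have hball : ∀ {z : ℂ}, z ∈ ball (0 : ℂ) 1 → ‖z‖ < 1 := fun hz => by simpa using hz
  refine ⟨differentiableOn_yc.comp (hg.diff.comp (differentiableOn_cy hτ) (mapsTo_cy hτ))
    (hg.maps.comp (mapsTo_cy hτ)), fun a ha b hb eab => ?_,
    (mapsTo_yc hτ).comp (hg.maps.comp (mapsTo_cy hτ)), fun w hw => ?_⟩
  · have e1 : cy τ (dn τ g a) = cy τ (dn τ g b) := congrArg (cy τ) eab
    rw [dn, dn, cy_yc hτ (hg.maps (mapsTo_cy hτ ha)), cy_yc hτ (hg.maps (mapsTo_cy hτ hb))] at e1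
    have e2 := congrArg (yc τ) (hg.inj (mapsTo_cy hτ ha) (mapsTo_cy hτ hb) e1)
    rwa [yc_cy hτ (hball ha), yc_cy hτ (hball hb)] at e2
  · rw [up, dn, cy_yc hτ hw, cy_yc hτ (hg.maps hw)]

lemma transfer {τ : ℂ} (hτ : ‖τ‖ = 1) {S : (ℂ → ℂ) → Prop} {S' : Set (ℂ → ℂ)}
    (hS : ∀ g, S g → Univ g ∧ dn τ g ∈ S') {φ : ℂ → ℂ} (hm : MapsTo φ (ball 0 1) (ball 0 1))
    {Ψ : ℝ → ℝ → ℂ → ℂ} (hΨ : EvH S (up τ φ) Ψ) : ∃ ψ, IsEvolutionFamily ψ ∧
      (∀ s t, 0 ≤ s → s ≤ t → ψ s t ∈ S') ∧ EqOn (ψ 0 1) φ (ball 0 1) := by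
  have hball : ∀ {z : ℂ}, z ∈ ball (0 : ℂ) 1 → ‖z‖ < 1 := fun hz => by simpa using hz
  have hu : ∀ s t, 0 ≤ s → s ≤ t → Univ (Ψ s t) := fun s t hs ht => (hS _ (hΨ.mem s t hs ht)).1
  refine ⟨fun s t => dn τ (Ψ s t), ⟨fun s t hs ht =>
    ⟨(dn_basic hτ (hu s t hs ht)).1, (dn_basic hτ (hu s t hs ht)).2.2.1⟩,
    fun s hs z hz => ?_, fun s u t hs hu' ht z hz => ?_, fun z hz T hT => ?_⟩,
    fun s t hs ht => (hS _ (hΨ.mem s t hs ht)).2, fun z hz => ?_⟩
  · show dn τ (Ψ s s) z = z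
    rw [dn, hΨ.id s hs _ (mapsTo_cy hτ hz), yc_cy hτ (hball hz)]
  · simp only [dn, comp_apply]
    rw [hΨ.comp s u t hs hu' ht _ (mapsTo_cy hτ hz),
      cy_yc hτ ((hu s u hs hu').maps (mapsTo_cy hτ hz))]
  · obtain ⟨C, hC, h⟩ := hΨ.lip _ (mapsTo_cy hτ hz)
    refine ⟨fun _ => 2 * C, fun _ => by positivity, continuousOn_const.integrableOn_Icc,
      fun s u t hs hu' ht _ => ?_⟩
    rw [intervalIntegral.integral_const, smul_eq_mul]
    refine (norm_yc_sub_le hτ ((hu s u hs hu').maps (mapsTo_cy hτ hz))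
      ((hu s t hs (hu'.trans ht)).maps (mapsTo_cy hτ hz))).trans ?_
    linarith [h s u t hs hu' ht]
  · show dn τ (Ψ 0 1) z = φ z
    rw [dn, hΨ.fin _ (mapsTo_cy hτ hz), up, yc_cy hτ (hball hz), yc_cy hτ (hball (hm hz))]

theorem embedding_UF (F : Set ℂ) (hF : F.Finite) (hFs : F ⊆ sphere 0 1) :
    HasEmbeddingProperty (UF F) := by
  rintro φ ⟨hd, hi, hm, hb⟩ -
  have hF1 : ∀ σ ∈ F, ‖σ‖ = 1 := fun σ h => by simpa using hFs h
  rcases F.eq_empty_or_nonempty with rfl | ⟨τ, hτF⟩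
  · have hτ : ‖(1 : ℂ)‖ = 1 := norm_one
    obtain ⟨Ψ, hΨ⟩ := exists_evH_univ (univ_up hτ hd hm hi)
    exact transfer hτ (S' := UF ∅) (fun g hg => ⟨hg, (dn_basic hτ hg).1, (dn_basic hτ hg).2.1,
      (dn_basic hτ hg).2.2.1, fun _ h => h.elim⟩) hm hΨ
  · have hτ := hF1 τ hτF
    have hS : GF ((fun σ => (cy τ σ).re) '' (F \ {τ})) (up τ φ) := by
      obtain ⟨d, hd'⟩ := hb τ hτF
      refine ⟨univ_up hτ hd hm hi, cInf_pos_of_brfp hτ hd hm hd', ?_⟩
      rintro _ ⟨σ, ⟨hσ, hne⟩, rfl⟩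
      obtain ⟨e, he⟩ := hb σ hσ
      have hc := cInf_pos_of_brfp (hF1 σ hσ) hd hm he
      refine ⟨(cInf (up σ φ))⁻¹, (julia_iff_low hτ (hF1 σ hσ) hne hm (inv_pos.2 hc)).2 ?_⟩
      rw [inv_inv]
      exact (hol_up (hF1 σ hσ) hd hm).low_cInf
    obtain ⟨Ψ, hΨ⟩ := exists_evH_gf (hF.sdiff.image _) hS
    refine transfer hτ (S' := UF F) (fun g hg => ⟨hg.univ, ?_⟩) hm hΨ
    obtain ⟨gd, gi, gm, e⟩ := dn_basic hτ hg.univ
    refine ⟨gd, gi, gm, fun σ hσ => ?_⟩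
    by_cases hne : σ = τ
    · rw [hne]
      exact ⟨_, brfp_of_cInf_pos hτ gd gm (by rw [cInf_congr e]; exact hg.cpos)⟩
    · obtain ⟨Λ, hΛ⟩ := hg.jul _ ⟨σ, ⟨hσ, hne⟩, rfl⟩
      have hΛ0 := hΛ.pos hg.univ.toHol
      have := (julia_iff_low hτ (hF1 σ hσ) hne gm hΛ0).1 (hΛ.congr e)
      exact ⟨_, brfp_of_cInf_pos (hF1 σ hσ) gd gm ((inv_pos.2 hΛ0).trans_le this.le_cInf)⟩

end Pool.Agent.MP_1a2790_an

end
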