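import Mathlib
import Pool.Agent.MP_1a2790_an.Jwc
import Pool.Agent.MP_1a2790_an.Basic
import Pool.Agent.MP_1a2790_an.Normal

section

/-! Increment of the logarithm along a path. -/

open Complex Set Filter Topology Metric Function

namespace Pool.Agent.MP_1a2790_an

/-- The unit interval as a type. -/
abbrev UI : Type := unitInterval

lemma eq_of_exp_eq_one {X : Type*} [TopologicalSpace X] {S : Set X} (hS : IsPreconnected S)
    {g : X → ℂ} (hg : ContinuousOn g S) (h : ∀ x ∈ S, exp (g x) = 1) {x y : X} (hx : x ∈ S)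
    (hy : y ∈ S) : g x = g y :=
  isCoveringMap_exp.constOn_of_comp hS hg
    (fun a ha b hb => Subtype.ext ((h a ha).trans (h b hb).symm)) hx hy

lemma eq_of_exp_eq_one_of_norm_lt {a b : ℂ} (ha : exp a = 1) (hb : exp b = 1)
    (h : ‖a - b‖ < 1) : a = b := by
  obtain ⟨n, hn⟩ := exp_eq_exp_iff_exists_int.1 (ha.trans hb.symm)
  have h1 : a - b = n * (2 * Real.pi * I) := by rw [hn]; ring
  rw [h1] at h
  simp only [norm_mul, Complex.norm_intCast, Complex.norm_ofNat, Complex.norm_real, norm_I,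
    mul_one, Real.norm_eq_abs, abs_of_pos Real.pi_pos] at h
  have h2 : n = 0 := by
    by_contra hn0
    have : (1 : ℝ) ≤ |(n : ℝ)| := by exact_mod_cast Int.one_le_abs hn0
    nlinarith [Real.pi_gt_three]
  rw [hn, h2]; simp

lemma eventually_eq_of_exp_eq_one {X : Type*} [TopologicalSpace X] {g : X → ℂ} {x : X}
    (hg : ContinuousAt g x) (h : ∀ᶠ y in 𝓝 x, exp (g y) = 1) : ∀ᶠ y in 𝓝 x, g y = g x := by
  filter_upwards [h, Metric.tendsto_nhds.1 hg 1 one_pos] with y hy hy2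
  exact eq_of_exp_eq_one_of_norm_lt hy h.self_of_nhds (by rwa [dist_eq_norm] at hy2)

/-- `G` is the normalised continuous logarithm of `u / u 0`. -/
def IsLift (u G : UI → ℂ) : Prop := Continuous G ∧ G 0 = 0 ∧ ∀ t, exp (G t) * u 0 = u t

open Classical in
/-- Increment of the logarithm of `u`. -/
noncomputable def inc (u : UI → ℂ) : ℂ := if h : ∃ G, IsLift u G then h.choose 1 else 0

lemma IsLift.inc_eq {u G : UI → ℂ} (h : IsLift u G) (h0 : u 0 ≠ 0) : inc u = G 1 := by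
  have hex : ∃ G, IsLift u G := ⟨G, h⟩
  rw [inc, dif_pos hex]
  have h' := hex.choose_spec
  set G' := hex.choose
  have := eq_of_exp_eq_one isPreconnected_univ (g := fun t => G' t - G t)
    (h'.1.sub h.1).continuousOn (fun t _ => by
      have e : exp (G' t) = exp (G t) := mul_right_cancel₀ h0 ((h'.2.2 t).trans (h.2.2 t).symm)
      rw [exp_sub, e, div_self (exp_ne_zero _)]) (mem_univ 1) (mem_univ 0)
  simp only [h'.2.1, h.2.1, sub_zero] at this
  exact sub_eq_zero.1 this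

lemma exists_lift_family {A : Type*} [TopologicalSpace A] {u : A → UI → ℂ}
    (hu : Continuous (uncurry u)) (h0 : ∀ a t, u a t ≠ 0) :
    ∃ G : A → UI → ℂ, Continuous (uncurry G) ∧ ∀ a, IsLift (u a) (G a) := by
  have hc : Continuous fun p : UI × A => u p.2 p.1 / u p.2 0 := by
    apply Continuous.div
    · exact hu.comp continuous_swap
    · exact hu.comp (continuous_snd.prodMk continuous_const)
    · exact fun p => h0 _ _
  let Hm : C(UI × A, {z : ℂ // z ≠ 0}) :=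
    ⟨fun p => ⟨u p.2 p.1 / u p.2 0, div_ne_zero (h0 _ _) (h0 _ _)⟩, hc.subtype_mk _⟩
  have H0 : ∀ a, Hm (0, a) = (fun z : ℂ ↦ (⟨_, z.exp_ne_zero⟩ : {z : ℂ // z ≠ 0}))
      ((ContinuousMap.const A (0 : ℂ)) a) := fun a => by
    apply Subtype.ext
    simp [Hm, div_self (h0 a 0)]
  let G := isCoveringMap_exp.liftHomotopy Hm (ContinuousMap.const A 0) H0
  refine ⟨fun a t => G (t, a), G.continuous.comp continuous_swap, fun a => ⟨?_, ?_, fun t => ?_⟩⟩
  · exact G.continuous.comp (continuous_id.prodMk continuous_const)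
  · exact isCoveringMap_exp.liftHomotopy_zero Hm _ H0 a
  · have := congrArg Subtype.val
      (congrFun (isCoveringMap_exp.liftHomotopy_lifts Hm _ H0) (t, a))
    have e : exp (G (t, a)) = u a t / u a 0 := this
    rw [e, div_mul_cancel₀ _ (h0 a 0)]

lemma exists_isLift {u : UI → ℂ} (hu : Continuous u) (h0 : ∀ t, u t ≠ 0) : ∃ G, IsLift u G := by
  obtain ⟨G, -, hG⟩ := exists_lift_family (A := Unit) (u := fun _ => u)
    (hu.comp continuous_snd) (fun _ t => h0 t)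
  exact ⟨G (), hG ()⟩

lemma exp_inc {u : UI → ℂ} (hu : Continuous u) (h0 : ∀ t, u t ≠ 0) :
    exp (inc u) * u 0 = u 1 := by
  obtain ⟨G, hG⟩ := exists_isLift hu h0
  rw [hG.inc_eq (h0 0)]
  exact hG.2.2 1

lemma inc_mul {u v : UI → ℂ} (hu : Continuous u) (h0 : ∀ t, u t ≠ 0) (hv : Continuous v)
    (h1 : ∀ t, v t ≠ 0) : inc (fun t => u t * v t) = inc u + inc v := by
  obtain ⟨G, hG⟩ := exists_isLift hu h0
  obtain ⟨K, hK⟩ := exists_isLift hv h1
  rw [hG.inc_eq (h0 0), hK.inc_eq (h1 0)]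
  apply IsLift.inc_eq (G := fun t => G t + K t) _ (mul_ne_zero (h0 0) (h1 0))
  refine ⟨hG.1.add hK.1, by simp [hG.2.1, hK.2.1], fun t => ?_⟩
  beta_reduce
  rw [exp_add, ← hG.2.2 t, ← hK.2.2 t]
  ring

lemma inc_of_slit {u : UI → ℂ} (hu : Continuous u) {c : ℂ} (h : ∀ t, c * u t ∈ slitPlane) :
    inc u = log (c * u 1) - log (c * u 0) := by
  have hne : ∀ t, c * u t ≠ 0 := fun t => slitPlane_ne_zero (h t)
  apply IsLift.inc_eq (G := fun t => log (c * u t) - log (c * u 0)) _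
    (right_ne_zero_of_mul (hne 0))
  refine ⟨((continuous_const.mul hu).clog h).sub continuous_const, by simp, fun t => ?_⟩
  have hc : c ≠ 0 := left_ne_zero_of_mul (hne 0)
  have h0 : u 0 ≠ 0 := right_ne_zero_of_mul (hne 0)
  rw [exp_sub, exp_log (hne t), exp_log (hne 0)]
  field_simp

lemma continuousOn_inc {X : Type*} [TopologicalSpace X] {S : Set X} {u : X → UI → ℂ}
    (hu : ContinuousOn (uncurry u) (S ×ˢ univ)) (h0 : ∀ a ∈ S, ∀ t, u a t ≠ 0) :
    ContinuousOn (fun x => inc (u x)) S := by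
  rw [continuousOn_iff_continuous_domRestrict]
  obtain ⟨G, hG, hG'⟩ := exists_lift_family (A := S) (u := fun a => u a)
    (hu.comp_continuous (f := fun p : S × UI => ((p.1 : X), p.2)) (by fun_prop)
      (fun p => ⟨p.1.2, mem_univ _⟩)) (fun a t => h0 a a.2 t)
  have : S.domRestrict (fun x => inc (u x)) = fun a => G a 1 :=
    funext fun a => (hG' a).inc_eq (h0 a a.2 0)
  rw [this]
  exact hG.comp (continuous_id.prodMk continuous_const)

lemma continuousOn_inc_sub {Γ : UI → ℂ} (hΓ : Continuous Γ) :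
    ContinuousOn (fun a => inc (fun t => Γ t - a)) (range Γ)ᶜ := by
  apply continuousOn_inc (u := fun a t => Γ t - a)
  · exact Continuous.continuousOn (by unfold uncurry; fun_prop)
  · intro a ha t h
    exact ha ⟨t, sub_eq_zero.1 h⟩

lemma inc_sub_of_large {Γ : UI → ℂ} (hΓ : Continuous Γ) {a : ℂ} (h : ∀ t, ‖Γ t‖ < ‖a‖) :
    inc (fun t => Γ t - a) = log (-a⁻¹ * (Γ 1 - a)) - log (-a⁻¹ * (Γ 0 - a)) := by
  apply inc_of_slit (u := fun t => Γ t - a) (by fun_prop)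
  intro t
  have ha : a ≠ 0 := norm_pos_iff.1 ((norm_nonneg _).trans_lt (h t))
  have : -a⁻¹ * (Γ t - a) = 1 + (-(Γ t / a)) := by field_simp; ring
  rw [this]
  apply mem_slitPlane_of_norm_lt_one
  rw [norm_neg, norm_div, div_lt_one (norm_pos_iff.2 ha)]
  exact h t

open Classical in
/-- Difference quotient along a path. -/
noncomputable def Phi (f : ℂ → ℂ) (Q Γ : UI → ℂ) (z : ℂ) (t : UI) : ℂ :=
  if Q t = z then deriv f z else (Γ t - f z) / (Q t - z)

lemma Phi_eq_dslope {f : ℂ → ℂ} {Q Γ : UI → ℂ} {z : ℂ} {t : UI} (h : Γ t = f (Q t)) :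
    Phi f Q Γ z t = dslope f z (Q t) := by
  unfold Phi
  split_ifs with e
  · rw [e, dslope_same]
  · rw [dslope_of_ne _ e, slope_def_field, h]

lemma continuousOn_Phi {U : Set ℂ} (hU : IsOpen U) {f : ℂ → ℂ} (hf : DifferentiableOn ℂ f U)
    {Q Γ : UI → ℂ} (hQ : Continuous Q) (hΓ : Continuous Γ)
    (h1 : ∀ t, Q t ∈ U → Γ t = f (Q t)) : ContinuousOn (uncurry (Phi f Q Γ)) (U ×ˢ univ) := by
  rintro ⟨z, t⟩ ⟨hz, -⟩
  apply ContinuousAt.continuousWithinAt
  by_cases e : Q t = z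
  · have hm : ∀ᶠ p : ℂ × UI in 𝓝 (z, t), Q p.2 ∈ U :=
      (hQ.comp continuous_snd).continuousAt.preimage_mem_nhds (hU.mem_nhds (e ▸ hz))
    have hc : ContinuousAt (fun p : ℂ × UI => dslope f p.1 (Q p.2)) (z, t) := by
      have := (continuousOn_dslope₂ hU hf).continuousAt
        ((hU.prod hU).mem_nhds (show (z, Q t) ∈ U ×ˢ U from ⟨hz, e ▸ hz⟩))
      exact this.comp_of_eq (f := fun p : ℂ × UI => (p.1, Q p.2)) (by fun_prop) rfl
    apply hc.congr
    filter_upwards [hm] with p hp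
    exact (Phi_eq_dslope (h1 _ hp)).symm
  · have hm : ∀ᶠ p : ℂ × UI in 𝓝 (z, t), Q p.2 ≠ p.1 :=
      (isOpen_ne_fun (hQ.comp continuous_snd) continuous_fst).mem_nhds e
    have hc : ContinuousAt (fun p : ℂ × UI => (Γ p.2 - f p.1) / (Q p.2 - p.1)) (z, t) := by
      apply ContinuousAt.div
      · exact (hΓ.comp continuous_snd).continuousAt.sub
          ((hf.differentiableAt (hU.mem_nhds hz)).continuousAt.comp_of_eq
            continuous_fst.continuousAt rfl)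
      · fun_prop
      · exact sub_ne_zero.2 e
    apply hc.congr
    filter_upwards [hm] with p hp
    simp [uncurry, Phi, hp]

lemma Phi_ne_zero {U : Set ℂ} (hU : IsOpen U) {f : ℂ → ℂ} (hf : DifferentiableOn ℂ f U)
    (hi : InjOn f U) {Q Γ : UI → ℂ} (h1 : ∀ t, Q t ∈ U → Γ t = f (Q t))
    (h2 : ∀ t, Q t ∉ U → Γ t ∉ f '' U) {z : ℂ} (hz : z ∈ U) (t : UI) : Phi f Q Γ z t ≠ 0 := by
  by_cases h : Q t ∈ U
  · rw [Phi_eq_dslope (h1 t h)]
    exact dslope_ne_zero_of_injOn hU hf hi hz h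
  · have e : Q t ≠ z := fun e => h (e ▸ hz)
    simp only [Phi, if_neg e]
    exact div_ne_zero (sub_ne_zero.2 fun e' => h2 t h ⟨z, hz, e'.symm⟩) (sub_ne_zero.2 e)

lemma continuous_Phi {U : Set ℂ} (hU : IsOpen U) {f : ℂ → ℂ} (hf : DifferentiableOn ℂ f U)
    {Q Γ : UI → ℂ} (hQ : Continuous Q) (hΓ : Continuous Γ)
    (h1 : ∀ t, Q t ∈ U → Γ t = f (Q t)) {z : ℂ} (hz : z ∈ U) : Continuous (Phi f Q Γ z) :=
  (continuousOn_Phi hU hf hQ hΓ h1).comp_continuous (f := fun t => (z, t)) (by fun_prop)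
    fun _ => ⟨hz, mem_univ _⟩

lemma inc_image {U : Set ℂ} (hU : IsOpen U) {f : ℂ → ℂ} (hf : DifferentiableOn ℂ f U)
    (hi : InjOn f U) {Q Γ : UI → ℂ} (hQ : Continuous Q) (hΓ : Continuous Γ)
    (h1 : ∀ t, Q t ∈ U → Γ t = f (Q t)) (h2 : ∀ t, Q t ∉ U → Γ t ∉ f '' U) {z : ℂ} (hz : z ∈ U)
    (hzQ : z ∉ range Q) :
    inc (fun t => Γ t - f z) = inc (fun t => Q t - z) + inc (Phi f Q Γ z) := by
  have hne : ∀ t, Q t ≠ z := fun t e => hzQ ⟨t, e⟩
  rw [← inc_mul (by fun_prop) (fun t => sub_ne_zero.2 (hne t)) (continuous_Phi hU hf hQ hΓ h1 hz)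
    (Phi_ne_zero hU hf hi h1 h2 hz)]
  congr 1
  ext t
  simp only [Phi, if_neg (hne t)]
  rw [mul_div_cancel₀ _ (sub_ne_zero.2 (hne t))]

lemma continuousOn_inc_Phi {U : Set ℂ} (hU : IsOpen U) {f : ℂ → ℂ} (hf : DifferentiableOn ℂ f U)
    (hi : InjOn f U) {Q Γ : UI → ℂ} (hQ : Continuous Q) (hΓ : Continuous Γ)
    (h1 : ∀ t, Q t ∈ U → Γ t = f (Q t)) (h2 : ∀ t, Q t ∉ U → Γ t ∉ f '' U) :
    ContinuousOn (fun z => inc (Phi f Q Γ z)) U :=
  continuousOn_inc (continuousOn_Phi hU hf hQ hΓ h1) fun _ hz => Phi_ne_zero hU hf hi h1 h2 hz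

end Pool.Agent.MP_1a2790_an

end

section

/-! Riemann mapping theorem for open connected sets whose complement has no compact
relatively open part. -/

open Complex Set Filter Topology Metric Function
open scoped ComplexConjugate

namespace Pool.Agent.MP_1a2790_an

/-- The complement of `U` has no nonempty compact relatively open subset. -/
def PropC (U : Set ℂ) : Prop := ∀ B O : Set ℂ, IsCompact B → IsOpen O → O \ U = B → B = ∅

/-- Index of the cycle `γ - γ'`. -/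
noncomputable def idx (γ γ' : UI → ℂ) (z : ℂ) : ℂ :=
  inc (fun t => γ t - z) - inc (fun t => γ' t - z)

section idx
variable {γ γ' : UI → ℂ} (hγ : Continuous γ) (hγ' : Continuous γ') (h0 : γ 0 = γ' 0)
  (h1 : γ 1 = γ' 1)
include hγ hγ'

lemma continuousOn_idx : ContinuousOn (idx γ γ') (range γ ∪ range γ')ᶜ :=
  ((continuousOn_inc_sub hγ).mono (compl_subset_compl.2 subset_union_left)).sub
    ((continuousOn_inc_sub hγ').mono (compl_subset_compl.2 subset_union_right))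

lemma isOpen_compl_ranges : IsOpen (range γ ∪ range γ')ᶜ :=
  ((isCompact_range hγ).union (isCompact_range hγ')).isClosed.isOpen_compl

include h0 h1

lemma exp_idx {z : ℂ} (hz : z ∈ (range γ ∪ range γ')ᶜ) : exp (idx γ γ' z) = 1 := by
  have a1 : ∀ t, γ t - z ≠ 0 := fun t e => hz (Or.inl ⟨t, sub_eq_zero.1 e⟩)
  have a2 : ∀ t, γ' t - z ≠ 0 := fun t e => hz (Or.inr ⟨t, sub_eq_zero.1 e⟩)
  have b1 := exp_inc (u := fun t => γ t - z) (by fun_prop) a1
  have b2 := exp_inc (u := fun t => γ' t - z) (by fun_prop) a2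
  rw [h0, h1, ← b2] at b1
  rw [idx, exp_sub, mul_right_cancel₀ (a2 0) b1, div_self (exp_ne_zero _)]

lemma eventually_idx_eq {z : ℂ} (hz : z ∈ (range γ ∪ range γ')ᶜ) :
    ∀ᶠ w in 𝓝 z, w ∈ (range γ ∪ range γ')ᶜ ∧ idx γ γ' w = idx γ γ' z := by
  have hn := (isOpen_compl_ranges hγ hγ').mem_nhds hz
  exact (show ∀ᶠ w in 𝓝 z, w ∈ (range γ ∪ range γ')ᶜ from hn).and
    (eventually_eq_of_exp_eq_one ((continuousOn_idx hγ hγ').continuousAt hn)
      (mem_of_superset hn fun w hw => exp_idx hγ hγ' h0 h1 hw))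

lemma isOpen_idx (P : ℂ → Prop) : IsOpen {z | z ∈ (range γ ∪ range γ')ᶜ ∧ P (idx γ γ' z)} := by
  rw [isOpen_iff_mem_nhds]
  rintro z ⟨hz, hP⟩
  filter_upwards [eventually_idx_eq hγ hγ' h0 h1 hz] with w hw
  exact ⟨hw.1, hw.2 ▸ hP⟩

lemma exists_idx_large : ∃ R : ℝ, ∀ z, R < ‖z‖ → z ∈ (range γ ∪ range γ')ᶜ ∧ idx γ γ' z = 0 := by
  obtain ⟨R, hR⟩ := ((isCompact_range hγ).union (isCompact_range hγ')).isBounded.exists_norm_le
  refine ⟨R, fun z hz => ⟨fun h => absurd (hR z h) (not_le.2 hz), ?_⟩⟩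
  rw [idx, inc_sub_of_large hγ fun t => (hR _ (Or.inl ⟨t, rfl⟩)).trans_lt hz,
    inc_sub_of_large hγ' fun t => (hR _ (Or.inr ⟨t, rfl⟩)).trans_lt hz, h0, h1, sub_self]

end idx

lemma idx_image_eq_zero {U : Set ℂ} (hU : IsOpen U) (hc : IsPreconnected U) (hC : PropC U)
    {f : ℂ → ℂ} (hf : DifferentiableOn ℂ f U) (hi : InjOn f U) {a : ℂ} (ha : a ∉ f '' U)
    {γ γ' : UI → ℂ} (hγ : Continuous γ) (hγ' : Continuous γ') (h0 : γ 0 = γ' 0)
    (h1 : γ 1 = γ' 1) (hm : ∀ t, γ t ∈ U) (hm' : ∀ t, γ' t ∈ U) :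
    idx (fun t => f (γ t)) (fun t => f (γ' t)) a = 0 := by
  set K := range γ ∪ range γ' with hK
  have hKU : K ⊆ U := by rintro _ (⟨t, rfl⟩ | ⟨t, rfl⟩); exacts [hm t, hm' t]
  obtain ⟨R, hR⟩ := exists_idx_large hγ hγ' h0 h1
  set O := {z | z ∈ Kᶜ ∧ idx γ γ' z ≠ 0} with hO
  set O' := {z | z ∈ Kᶜ ∧ idx γ γ' z = 0} with hO'
  have hOo : IsOpen O := isOpen_idx hγ hγ' h0 h1 (· ≠ 0)
  have hO'o : IsOpen O' := isOpen_idx hγ hγ' h0 h1 (· = 0)
  have hK'c : IsCompact O'ᶜ := by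
    apply Metric.isCompact_of_isClosed_isBounded hO'o.isClosed_compl
    apply (isBounded_closedBall (x := (0 : ℂ)) (r := R)).subset
    intro z hz
    by_contra h
    simp only [mem_closedBall, dist_zero_right, not_le] at h
    exact hz (hR z h)
  have hB : O \ U = ∅ := by
    apply hC _ O _ hOo rfl
    have : O \ U = O'ᶜ ∩ Uᶜ := by
      ext z
      constructor
      · rintro ⟨⟨_, h2⟩, h3⟩
        exact ⟨fun h => h2 h.2, h3⟩
      · rintro ⟨h2, h3⟩
        have : z ∈ Kᶜ := fun h => h3 (hKU h)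
        exact ⟨⟨this, fun h => h2 ⟨this, h⟩⟩, h3⟩
    rw [this]
    exact hK'c.inter_right hU.isClosed_compl
  have hK'U : O'ᶜ ⊆ U := by
    intro z hz
    by_contra h
    have h2 : z ∈ Kᶜ := fun h' => h (hKU h')
    have : z ∈ O \ U := ⟨⟨h2, fun h' => hz ⟨h2, h'⟩⟩, h⟩
    rw [hB] at this
    exact this
  have cΓ : Continuous fun t => f (γ t) := hf.continuousOn.comp_continuous hγ hm
  have cΓ' : Continuous fun t => f (γ' t) := hf.continuousOn.comp_continuous hγ' hm'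
  have e0 : (fun t => f (γ t)) 0 = (fun t => f (γ' t)) 0 := by simp [h0]
  have e1 : (fun t => f (γ t)) 1 = (fun t => f (γ' t)) 1 := by simp [h1]
  set N := idx (fun t => f (γ t)) (fun t => f (γ' t)) with hN
  set m : ℂ → ℂ := fun z => inc (Phi f γ (fun t => f (γ t)) z) -
    inc (Phi f γ' (fun t => f (γ' t)) z) with hmdef
  have p1 : ∀ t, γ t ∈ U → (fun t => f (γ t)) t = f (γ t) := fun _ _ => rfl
  have p1' : ∀ t, γ' t ∈ U → (fun t => f (γ' t)) t = f (γ' t) := fun _ _ => rfl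
  have p2 : ∀ t, γ t ∉ U → (fun t => f (γ t)) t ∉ f '' U := fun t h => absurd (hm t) h
  have p2' : ∀ t, γ' t ∉ U → (fun t => f (γ' t)) t ∉ f '' U := fun t h => absurd (hm' t) h
  have mc : ContinuousOn m U :=
    (continuousOn_inc_Phi hU hf hi hγ cΓ p1 p2).sub (continuousOn_inc_Phi hU hf hi hγ' cΓ' p1' p2')
  have mexp : ∀ z ∈ U, exp (m z) = 1 := by
    intro z hz
    have b1 := exp_inc (continuous_Phi hU hf hγ cΓ p1 hz) (Phi_ne_zero hU hf hi p1 p2 hz)
    have b2 := exp_inc (continuous_Phi hU hf hγ' cΓ' p1' hz) (Phi_ne_zero hU hf hi p1' p2' hz)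
    rw [Phi_eq_dslope rfl, Phi_eq_dslope rfl] at b1 b2
    rw [h0, h1, ← b2] at b1
    rw [hmdef]
    simp only
    rw [exp_sub, mul_right_cancel₀ (dslope_ne_zero_of_injOn hU hf hi hz (hm' 0)) b1,
      div_self (exp_ne_zero _)]
  set m₀ := m (γ 0) with hm₀
  have hNm : ∀ z ∈ U, z ∈ O' → N (f z) = m₀ := by
    intro z hz hzO
    have a1 := inc_image hU hf hi hγ cΓ p1 p2 hz fun h => hzO.1 (Or.inl h)
    have a2 := inc_image hU hf hi hγ' cΓ' p1' p2' hz fun h => hzO.1 (Or.inr h)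
    have a3 : idx γ γ' z = 0 := hzO.2
    have a4 : m z = m₀ := eq_of_exp_eq_one hc mc mexp hz (hm 0)
    rw [← a4]
    simp only [hN, idx, hmdef] at a3 ⊢
    rw [a1, a2]
    linear_combination a3
  set W := (f '' O'ᶜ)ᶜ with hW
  have hWo : IsOpen W :=
    (hK'c.image_of_continuousOn (hf.continuousOn.mono hK'U)).isClosed.isOpen_compl
  have hWK : W ⊆ (range (fun t => f (γ t)) ∪ range (fun t => f (γ' t)))ᶜ := by
    rintro b hb (⟨t, rfl⟩ | ⟨t, rfl⟩)
    · exact hb ⟨γ t, fun h => h.1 (Or.inl ⟨t, rfl⟩), rfl⟩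
    · exact hb ⟨γ' t, fun h => h.1 (Or.inr ⟨t, rfl⟩), rfl⟩
  set A := {b | b ∈ W ∧ N b ≠ m₀} with hA
  have hAo : IsOpen A := by
    have := hWo.inter (isOpen_idx cΓ cΓ' e0 e1 (· ≠ m₀))
    convert this using 1
    ext b
    exact ⟨fun h => ⟨h.1, hWK h.1, h.2⟩, fun h => ⟨h.1, h.2.2⟩⟩
  have hAc : IsClosed A := by
    rw [← isOpen_compl_iff]
    have := (isOpen_image_of_injOn hU hf hi).union (isOpen_idx cΓ cΓ' e0 e1 (· = m₀))
    convert this using 1
    ext b
    constructor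
    · intro hb
      by_cases h : b ∈ W
      · exact Or.inr ⟨hWK h, by by_contra h'; exact hb ⟨h, h'⟩⟩
      · exact Or.inl (image_mono hK'U (not_not.1 h))
    · rintro (⟨z, hz, rfl⟩ | h) hb
      · by_cases h : z ∈ O'
        · exact hb.2 (hNm z hz h)
        · exact hb.1 ⟨z, h, rfl⟩
      · exact hb.2 h.2
  have hAe : A = ∅ := by
    rcases isClopen_iff.1 ⟨hAc, hAo⟩ with h | h
    · exact h
    · exfalso
      have : f (γ 0) ∈ A := h ▸ mem_univ _
      exact hWK this.1 (Or.inl ⟨0, rfl⟩)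
  have hall : ∀ b ∈ W, N b = m₀ := fun b hb => by
    by_contra h
    have : b ∈ A := ⟨hb, h⟩
    rw [hAe] at this
    exact this
  obtain ⟨R', hR'⟩ := exists_idx_large cΓ cΓ' e0 e1
  obtain ⟨R'', hR''⟩ :=
    (hK'c.image_of_continuousOn (hf.continuousOn.mono hK'U)).isBounded.exists_norm_le
  have hb : ∃ b : ℂ, max R' R'' < ‖b‖ := NormedSpace.exists_lt_norm ℂ ℂ _
  obtain ⟨b, hb⟩ := hb
  have hbW : b ∈ W := fun h => absurd (hR'' b h) (not_le.2 ((le_max_right _ _).trans_lt hb))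
  have hm0 : m₀ = 0 := (hall b hbW).symm.trans (hR' b ((le_max_left _ _).trans_lt hb)).2
  exact (hall a fun h => ha (image_mono hK'U h)).trans hm0

lemma exists_continuous_log {U : Set ℂ} (hU : IsOpen U) (hc : IsPreconnected U) (hC : PropC U)
    {f : ℂ → ℂ} (hf : DifferentiableOn ℂ f U) (hi : InjOn f U) {a : ℂ} (ha : a ∉ f '' U) :
    ∃ g : ℂ → ℂ, ContinuousOn g U ∧ ∀ z ∈ U, exp (g z) = f z - a := by
  rcases U.eq_empty_or_nonempty with rfl | ⟨z₀, hz₀⟩
  · exact ⟨0, continuousOn_empty _, fun _ h => h.elim⟩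
  have hpc : IsPathConnected U := hU.isConnected_iff_isPathConnected.1 ⟨⟨z₀, hz₀⟩, hc⟩
  have := isPathConnected_iff_pathConnectedSpace.1 hpc
  have := hU.locallyPathConnectedSpace
  have hne : ∀ z ∈ U, f z - a ≠ 0 := fun z hz e => ha ⟨z, hz, sub_eq_zero.1 e⟩
  have hfc : Continuous fun z : U => f z :=
    continuousOn_iff_continuous_domRestrict.1 hf.continuousOn
  let F : C(U, {z : ℂ // z ≠ 0}) :=
    ⟨fun z => ⟨f z - a, hne z z.2⟩, (hfc.sub continuous_const).subtype_mk _⟩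
  have key : ∀ (γ : C(unitInterval, U)) (Γ : C(unitInterval, ℂ)),
      (fun z : ℂ ↦ (⟨_, z.exp_ne_zero⟩ : {z : ℂ // z ≠ 0})) ∘ Γ = F.comp γ →
      Γ 1 = Γ 0 + inc (fun t => f (γ t) - a) := by
    intro γ Γ h
    have e : ∀ t, exp (Γ t) = f (γ t) - a := fun t => congrArg Subtype.val (congrFun h t)
    have : IsLift (fun t => f (γ t) - a) (fun t => Γ t - Γ 0) := by
      refine ⟨by fun_prop, by simp, fun t => ?_⟩
      beta_reduce
      rw [← e, ← e, ← exp_add]; simp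
    rw [this.inc_eq (hne _ (γ 0).2)]
    simp
  obtain ⟨G, ⟨-, hG⟩, -⟩ := isCoveringMap_exp.isLocalHomeomorph.existsUnique_continuousMap_lifts
    F ⟨z₀, hz₀⟩ (log (f z₀ - a)) (Subtype.ext (exp_log (hne z₀ hz₀)))
    (fun γ hγ => by
      obtain ⟨Γ, h1, h2⟩ := isCoveringMap_exp.exists_path_lifts (F.comp γ) (log (f z₀ - a))
        (by rw [ContinuousMap.comp_apply, hγ]; exact Subtype.ext (exp_log (hne z₀ hz₀)).symm)
      exact ⟨Γ, h2, h1⟩)
    (fun γ γ' Γ Γ' h0 h0' e0 e0' l l' h1 => by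
      rw [key γ Γ l, key γ' Γ' l', e0, e0']
      congr 1
      exact sub_eq_zero.1 (idx_image_eq_zero hU hc hC hf hi ha (γ := fun t => γ t)
        (γ' := fun t => γ' t) (by fun_prop) (by fun_prop) (by simp [h0, h0']) (by simp [h1])
        (fun t => (γ t).2) (fun t => (γ' t).2)))
  classical
  refine ⟨fun z => if h : z ∈ U then G ⟨z, h⟩ else 0, ?_, fun z hz => ?_⟩
  · rw [continuousOn_iff_continuous_domRestrict]
    convert G.continuous using 1
    ext z
    simp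
  · simp only [dif_pos hz]
    exact congrArg Subtype.val (congrFun hG ⟨z, hz⟩)

lemma differentiableOn_of_exp_eq {U : Set ℂ} (hU : IsOpen U) {g F : ℂ → ℂ} (hg : ContinuousOn g U)
    (hF : DifferentiableOn ℂ F U) (h : ∀ z ∈ U, exp (g z) = F z) : DifferentiableOn ℂ g U := by
  intro z hz
  apply DifferentiableAt.differentiableWithinAt
  have hn := hU.mem_nhds hz
  have hF0 : F z ≠ 0 := h z hz ▸ exp_ne_zero _
  have h1 : DifferentiableAt ℂ (fun w => g z + log (F w / F z)) z := by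
    apply DifferentiableAt.const_add
    apply DifferentiableAt.clog ((hF.differentiableAt hn).div_const _)
    simp [div_self hF0]
  apply h1.congr_of_eventuallyEq
  filter_upwards [hn, Metric.tendsto_nhds.1 (hg.continuousAt hn) 1 one_pos] with w hw hw2
  rw [← h w hw, ← h z hz, ← exp_sub]
  have := Complex.abs_im_le_norm (g w - g z)
  rw [dist_eq_norm] at hw2
  have h3 := abs_lt.1 (this.trans_lt hw2)
  rw [log_exp (by linarith [Real.pi_gt_three]) (by linarith [Real.pi_gt_three])]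
  ring

lemma exists_sqrt {U : Set ℂ} (hU : IsOpen U) (hc : IsPreconnected U) (hC : PropC U)
    {f : ℂ → ℂ} (hf : DifferentiableOn ℂ f U) (hi : InjOn f U) (ha : (0 : ℂ) ∉ f '' U) :
    ∃ g : ℂ → ℂ, DifferentiableOn ℂ g U ∧ ∀ z ∈ U, g z ^ 2 = f z := by
  obtain ⟨g, hg, he⟩ := exists_continuous_log hU hc hC hf hi ha
  simp only [sub_zero] at he
  have hd := differentiableOn_of_exp_eq hU hg hf he
  refine ⟨fun z => exp (g z / 2), (hd.div_const 2).cexp, fun z hz => ?_⟩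
  rw [← he z hz, sq, ← exp_add]
  simp

/-- Disc automorphism. -/
noncomputable def mo (a z : ℂ) : ℂ := (z - a) / (1 - conj a * z)

lemma mo_den_ne {a z : ℂ} (ha : ‖a‖ < 1) (hz : ‖z‖ < 1) : 1 - conj a * z ≠ 0 := by
  intro h
  have h1 : conj a * z = 1 := by linear_combination -h
  have h2 := congrArg norm h1
  rw [norm_mul, Complex.norm_conj, norm_one] at h2
  nlinarith [norm_nonneg a, norm_nonneg z]

lemma norm_mo_lt {a z : ℂ} (ha : ‖a‖ < 1) (hz : ‖z‖ < 1) : ‖mo a z‖ < 1 := by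
  rw [mo, norm_div, div_lt_one (norm_pos_iff.2 (mo_den_ne ha hz))]
  apply lt_of_pow_lt_pow_left₀ 2 (norm_nonneg _)
  have h1 : ‖1 - conj a * z‖ ^ 2 - ‖z - a‖ ^ 2 = (1 - ‖a‖ ^ 2) * (1 - ‖z‖ ^ 2) := by
    simp only [Complex.sq_norm, normSq_apply, sub_re, sub_im, mul_re, mul_im, conj_re, conj_im,
      one_re, one_im]
    ring
  have h2 : 0 < 1 - ‖a‖ ^ 2 := by nlinarith [norm_nonneg a]
  have h3 : 0 < 1 - ‖z‖ ^ 2 := by nlinarith [norm_nonneg z]
  nlinarith [mul_pos h2 h3]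

lemma mo_neg_mo {a z : ℂ} (ha : ‖a‖ < 1) (hz : ‖z‖ < 1) : mo (-a) (mo a z) = z := by
  have h1 := mo_den_ne ha hz
  have h2 := mo_den_ne (a := -a) (by simpa using ha) (norm_mo_lt ha hz)
  have h3 : mo a z * (1 - conj a * z) = z - a := div_mul_cancel₀ _ h1
  rw [mo, div_eq_iff h2]
  simp only [map_neg]
  linear_combination h3

lemma injOn_mo {a : ℂ} (ha : ‖a‖ < 1) : InjOn (mo a) (ball 0 1) := fun z hz w hw e => by
  rw [← mo_neg_mo ha (mem_ball_zero_iff.1 hz), e, mo_neg_mo ha (mem_ball_zero_iff.1 hw)]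

lemma differentiableOn_mo {a : ℂ} (ha : ‖a‖ < 1) : DifferentiableOn ℂ (mo a) (ball 0 1) := by
  unfold mo
  exact DifferentiableOn.div (by fun_prop) (by fun_prop) fun z hz =>
    mo_den_ne ha (mem_ball_zero_iff.1 hz)

lemma mapsTo_mo {a : ℂ} (ha : ‖a‖ < 1) : MapsTo (mo a) (ball 0 1) (ball 0 1) := fun _ hz =>
  mem_ball_zero_iff.2 (norm_mo_lt ha (mem_ball_zero_iff.1 hz))

lemma mo_self (a : ℂ) : mo a a = 0 := by simp [mo]

lemma mo_sq {b u : ℂ} : mo (b ^ 2) (u ^ 2) = mo b u * mo (-b) u := by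
  simp only [mo, map_neg, map_pow, div_mul_div_comm]
  congr 1 <;> ring

/-- Riemann mapping theorem. -/
theorem riemann_mapping {U : Set ℂ} (hU : IsOpen U) (hc : IsPreconnected U) (hC : PropC U)
    {z₀ : ℂ} (hz₀ : z₀ ∈ U) {f₀ : ℂ → ℂ} (hf₀ : DifferentiableOn ℂ f₀ U) (hi₀ : InjOn f₀ U)
    (hm₀ : MapsTo f₀ U (ball 0 1)) :
    ∃ f : ℂ → ℂ, DifferentiableOn ℂ f U ∧ InjOn f U ∧ f '' U = ball 0 1 := by
  obtain ⟨z₁, hz₁, hne⟩ : ∃ z₁ ∈ U, z₁ ≠ z₀ := by
    have : ∀ᶠ z in 𝓝[≠] z₀, z ∈ U := nhdsWithin_le_nhds (hU.mem_nhds hz₀)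
    obtain ⟨z, h1, h2⟩ := (this.and self_mem_nhdsWithin).exists
    exact ⟨z, h1, h2⟩
  let P : (ℂ → ℂ) → Prop := fun f =>
    DifferentiableOn ℂ f U ∧ InjOn f U ∧ MapsTo f U (ball 0 1) ∧ f z₀ = 0
  have hP : ∀ g : ℂ → ℂ, DifferentiableOn ℂ g U → InjOn g U → MapsTo g U (ball 0 1) →
      P (fun z => mo (g z₀) (g z)) := fun g h1 h2 h3 => by
    have hb : ‖g z₀‖ < 1 := mem_ball_zero_iff.1 (h3 hz₀)
    exact ⟨(differentiableOn_mo hb).comp h1 h3, (injOn_mo hb).comp h2 h3,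
      (mapsTo_mo hb).comp h3, mo_self _⟩
  let S : Set ℝ := {r | ∃ f, P f ∧ ‖f z₁‖ = r}
  have hSne : S.Nonempty := ⟨_, _, hP f₀ hf₀ hi₀ hm₀, rfl⟩
  have hSb : BddAbove S := ⟨1, by
    rintro _ ⟨f, hf, rfl⟩
    exact (mem_ball_zero_iff.1 (hf.2.2.1 hz₁)).le⟩
  obtain ⟨u, -, hu, huS⟩ := exists_seq_tendsto_sSup hSne hSb
  choose F hF hFu using huS
  let 𝒰 : Ultrafilter ℕ := Ultrafilter.of atTop
  have h𝒰 : (𝒰 : Filter ℕ) ≤ atTop := Ultrafilter.of_le _
  obtain ⟨f, hf⟩ := montel 𝒰 (U := U) (F := F) (fun i => (hF i).1) (fun z hz => by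
    obtain ⟨r, hr, hrU⟩ := Metric.isOpen_iff.1 hU z hz
    exact ⟨r, hr, 1, hrU, Eventually.of_forall fun i w hw =>
      (mem_ball_zero_iff.1 ((hF i).2.2.1 (hrU hw))).le⟩)
  have hfd : DifferentiableOn ℂ f U :=
    hf.differentiableOn (Eventually.of_forall fun i => (hF i).1) hU
  have hf0 : f z₀ = 0 := by
    have := hf.tendsto_at hz₀
    simp only [(hF _).2.2.2] at this
    exact tendsto_nhds_unique this tendsto_const_nhds
  have hf1 : ‖f z₁‖ = sSup S := by
    have := (hf.tendsto_at hz₁).norm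
    simp only [hFu] at this
    exact tendsto_nhds_unique this (hu.mono_left h𝒰)
  have hpos : 0 < sSup S := by
    obtain ⟨_, g, hg, rfl⟩ := hSne
    refine lt_of_lt_of_le (norm_pos_iff.2 fun h => hne ?_) (le_csSup hSb ⟨g, hg, rfl⟩)
    exact hg.2.1 hz₁ hz₀ (h.trans hg.2.2.2.symm)
  have hnc : ∀ z ∈ U, ¬ ∀ᶠ w in 𝓝 z, f w = f z := fun z hz =>
    not_eventually_const hU hc hfd hz₁ hz₀ (by
      rw [hf0, ← norm_pos_iff, hf1]; exact hpos) hz
  have hfi : InjOn f U := limit_injOn hU (fun i => (hF i).1) hf hnc fun i => (hF i).2.1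
  have hfm : MapsTo f U (ball 0 1) := fun z hz => by
    by_contra h
    exact limit_ne hU (fun i => (hF i).1) hf hnc (a := f z)
      (fun i w hw e => h (e ▸ (hF i).2.2.1 hw)) z hz rfl
  refine ⟨f, hfd, hfi, Subset.antisymm hfm.image_subset fun a ha => ?_⟩
  by_contra hna
  have ha' : ‖a‖ < 1 := mem_ball_zero_iff.1 ha
  obtain ⟨g, hgd, hg⟩ := exists_sqrt hU hc hC (f := fun z => mo a (f z))
    ((differentiableOn_mo ha').comp hfd hfm) ((injOn_mo ha').comp hfi hfm) (by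
      rintro ⟨z, hz, e⟩
      exact hna ⟨z, hz, injOn_mo ha' (hfm hz) ha (e.trans (mo_self a).symm)⟩)
  have hgi : InjOn g U := fun z hz w hw e =>
    hfi hz hw (injOn_mo ha' (hfm hz) (hfm hw) (by rw [← hg z hz, ← hg w hw, e]))
  have hgm : MapsTo g U (ball 0 1) := fun z hz => by
    rw [mem_ball_zero_iff]
    apply lt_of_pow_lt_pow_left₀ 2 zero_le_one
    rw [← norm_pow, hg z hz, one_pow]
    exact norm_mo_lt ha' (mem_ball_zero_iff.1 (hfm hz))
  have hle : ‖mo (g z₀) (g z₁)‖ ≤ sSup S := le_csSup hSb ⟨_, hP g hgd hgi hgm, rfl⟩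
  have hb : g z₀ ^ 2 = -a := by rw [hg z₀ hz₀, hf0]; simp [mo]
  have e : f z₁ = mo (g z₀) (g z₁) * mo (-g z₀) (g z₁) := by
    rw [← mo_sq, hb, hg z₁ hz₁, mo_neg_mo ha' (mem_ball_zero_iff.1 (hfm hz₁))]
  have h3 : ‖mo (-g z₀) (g z₁)‖ < 1 :=
    norm_mo_lt (by simpa using hgm hz₀) (mem_ball_zero_iff.1 (hgm hz₁))
  rw [e, norm_mul] at hf1
  nlinarith [norm_nonneg (mo (-g z₀) (g z₁)), norm_nonneg (mo (g z₀) (g z₁))]

end Pool.Agent.MP_1a2790_an

end

section

/-! Plane topology: the property `PropC`. -/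

open Complex Set Filter Topology Metric Function Bornology

namespace Pool.Agent.MP_1a2790_an

lemma eq_empty_of_isOpen_isCompact {B : Set ℂ} (ho : IsOpen B) (hc : IsCompact B) : B = ∅ := by
  rcases isClopen_iff.1 ⟨hc.isClosed, ho⟩ with h | h
  · exact h
  · exact absurd (h ▸ hc) NoncompactSpace.noncompact_univ

lemma exists_exhaust {K : Set ℂ} (hK : IsCompact K) (hKH : K ⊆ H) :
    ∃ L : Set ℂ, IsCompact L ∧ K ⊆ L ∧ L ⊆ H ∧ IsPreconnected (H \ L) := by
  obtain ⟨R, hR⟩ := hK.isBounded.exists_norm_le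
  obtain ⟨δ, hδ, hδK⟩ := hK.exists_forall_le' (f := Complex.im) (a := 0)
    Complex.continuous_im.continuousOn hKH
  refine ⟨{z | |z.re| ≤ R ∧ δ ≤ z.im ∧ z.im ≤ R}, ?_, fun z hz => ?_, fun z hz => ?_, ?_⟩
  · apply Metric.isCompact_of_isClosed_isBounded
    · exact (isClosed_le Complex.continuous_re.abs continuous_const).inter
        ((isClosed_le continuous_const Complex.continuous_im).inter
          (isClosed_le Complex.continuous_im continuous_const))
    · apply (isBounded_closedBall (x := (0 : ℂ)) (r := R + R)).subset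
      rintro z ⟨h1, h2, h3⟩
      rw [mem_closedBall, dist_zero_right]
      have := Complex.norm_le_abs_re_add_abs_im z
      rw [abs_of_pos (hδ.trans_le h2)] at this
      linarith
  · exact ⟨(Complex.abs_re_le_norm z).trans (hR z hz), hδK z hz,
      (Complex.im_le_norm z).trans (hR z hz)⟩
  · exact hδ.trans_le hz.2.1
  · have c1 : IsPreconnected (H ∩ {z : ℂ | z.re < -R}) :=
      (convex_H.inter (convex_halfSpace_re_lt _)).isPreconnected
    have c2 : IsPreconnected (H ∩ {z : ℂ | R < z.im}) :=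
      (convex_H.inter (convex_halfSpace_im_gt _)).isPreconnected
    have c3 : IsPreconnected (H ∩ {z : ℂ | R < z.re}) :=
      (convex_H.inter (convex_halfSpace_re_gt _)).isPreconnected
    have c4 : IsPreconnected (H ∩ {z : ℂ | z.im < δ}) :=
      (convex_H.inter (convex_halfSpace_im_lt _)).isPreconnected
    have ha := le_abs_self R
    have hb := abs_nonneg R
    have c12 := c1.union (⟨-R - 1, |R| + 1⟩ : ℂ)
      (by constructor <;> simp only [mem_H, mem_ofPred_eq] <;> linarith)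
      (by constructor <;> simp only [mem_H, mem_ofPred_eq] <;> linarith) c2
    have c123 := c12.union (⟨R + 1, |R| + 1⟩ : ℂ)
      (by right; constructor <;> simp only [mem_H, mem_ofPred_eq] <;> linarith)
      (by constructor <;> simp only [mem_H, mem_ofPred_eq] <;> linarith) c3
    have c1234 := c123.union (⟨R + 1, δ / 2⟩ : ℂ)
      (by right; constructor <;> simp only [mem_H, mem_ofPred_eq] <;> linarith)
      (by constructor <;> simp only [mem_H, mem_ofPred_eq] <;> linarith) c4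
    convert c1234 using 1
    ext z
    simp only [Set.mem_sdiff, mem_ofPred_eq, mem_union, mem_inter_iff, abs_le]
    constructor
    · rintro ⟨h1, h2⟩
      by_contra hh
      push Not at hh
      exact h2 ⟨⟨hh.1.1.1 h1, hh.1.2 h1⟩, hh.2 h1, hh.1.1.2 h1⟩
    · rintro (((⟨h1, h2⟩ | ⟨h1, h2⟩) | ⟨h1, h2⟩) | ⟨h1, h2⟩) <;>
        exact ⟨h1, fun h => by linarith [h.1.1, h.1.2, h.2.1, h.2.2]⟩

lemma propC_image {ψ : ℂ → ℂ} (hd : DifferentiableOn ℂ ψ H) (hi : InjOn ψ H) :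
    PropC (ψ '' H) := by
  intro B O hB hO hOB
  set D := ψ '' H with hD
  have hDo : IsOpen D := isOpen_image_of_injOn isOpen_H hd hi
  obtain ⟨V, hVo, hBV, hVO, hVc⟩ := exists_open_between_and_isCompact_closure hB hO
    (hOB ▸ sdiff_subset)
  have hfr : closure V \ V ⊆ D := by
    rintro z ⟨h1, h2⟩
    by_contra h
    exact h2 (hBV (hOB ▸ ⟨hVO h1, h⟩))
  have hfc : IsCompact (closure V \ V) := hVc.diff hVo
  obtain ⟨g, hg, hgψ⟩ := exists_inverse isOpen_H hd hi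
  obtain ⟨L, hLc, hKL, hLH, hA⟩ := exists_exhaust
    (hfc.image_of_continuousOn (hg.continuousOn.mono hfr)) (by
      rintro _ ⟨w, hw, rfl⟩
      obtain ⟨z, hz, rfl⟩ := hfr hw
      rwa [hgψ z hz])
  have hL'c : IsCompact (ψ '' L) := hLc.image_of_continuousOn (hd.continuousOn.mono hLH)
  have hL'D : ψ '' L ⊆ D := image_mono hLH
  have hAc : IsPreconnected (ψ '' (H \ L)) := hA.image _ (hd.continuousOn.mono sdiff_subset)
  have hsub : ψ '' (H \ L) ⊆ V ∪ (closure V)ᶜ := by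
    rintro _ ⟨z, hz, rfl⟩
    by_contra h
    simp only [mem_union, mem_compl_iff, not_or, not_not] at h
    exact hz.2 (hKL ⟨ψ z, ⟨h.2, h.1⟩, hgψ z hz.1⟩)
  have hDs : D ⊆ ψ '' (H \ L) ∪ ψ '' L := by
    rintro _ ⟨z, hz, rfl⟩
    by_cases h : z ∈ L
    · exact Or.inr ⟨z, h, rfl⟩
    · exact Or.inl ⟨z, ⟨hz, h⟩, rfl⟩
  rcases hAc.subset_or_subset hVo isClosed_closure.isOpen_compl
    (disjoint_compl_right.mono_left subset_closure) hsub with h | h
  · exfalso
    have e : D ∪ V = closure V ∪ ψ '' L := by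
      apply Subset.antisymm
      · rintro z (hz | hz)
        · rcases hDs hz with h' | h'
          · exact Or.inl (subset_closure (h h'))
          · exact Or.inr h'
        · exact Or.inl (subset_closure hz)
      · rintro z (hz | hz)
        · by_cases h' : z ∈ V
          · exact Or.inr h'
          · exact Or.inl (hfr ⟨hz, h'⟩)
        · exact Or.inl (hL'D hz)
    have := eq_empty_of_isOpen_isCompact (hDo.union hVo) (e ▸ hVc.union hL'c)
    have hI : ψ I ∈ D ∪ V := Or.inl ⟨I, I_mem_H, rfl⟩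
    rw [this] at hI
    exact hI
  · have e : B = V \ ψ '' L := by
      apply Subset.antisymm
      · intro z hz
        exact ⟨hBV hz, fun h' => (hOB ▸ hz : z ∈ O \ D).2 (hL'D h')⟩
      · rintro z ⟨h1, h2⟩
        rw [← hOB]
        refine ⟨hVO (subset_closure h1), fun h3 => ?_⟩
        rcases hDs h3 with h' | h'
        · exact h h' (subset_closure h1)
        · exact h2 h'
    exact eq_empty_of_isOpen_isCompact (e ▸ hVo.sdiff hL'c.isClosed) hB

lemma hole_subset_H {U B O : Set ℂ} (hU : U ⊆ H) (hB : IsCompact B) (hO : IsOpen O)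
    (h : O \ U = B) : B ⊆ H := by
  have hF : IsPreconnected Hᶜ := by
    have : Hᶜ = {z : ℂ | z.im ≤ 0} := by ext z; simp [mem_H]
    rw [this]
    exact (convex_halfSpace_im_le 0).isPreconnected
  intro z hz
  by_contra hzH
  obtain ⟨R, hR⟩ := hB.isBounded.exists_norm_le
  have h1 : (Hᶜ ∩ O).Nonempty := ⟨z, hzH, (h ▸ hz : z ∈ O \ U).1⟩
  have h2 : (Hᶜ ∩ Bᶜ).Nonempty := ⟨((|R| + 1 : ℝ) : ℂ), by simp [mem_H], fun hh => by
    have := hR _ hh
    rw [Complex.norm_real, Real.norm_eq_abs, abs_of_pos (by positivity)] at this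
    linarith [le_abs_self R]⟩
  obtain ⟨w, hw1, hw2, hw3⟩ := hF O Bᶜ hO hB.isClosed.isOpen_compl (fun w _ => by
    by_cases hw : w ∈ B
    · exact Or.inl (h ▸ hw : w ∈ O \ U).1
    · exact Or.inr hw) h1 h2
  exact hw3 (h ▸ ⟨hw2, fun hh => hw1 (hU hh)⟩)

lemma PropC.union {D R R₀ : Set ℂ} (hD : PropC D) (hDH : D ⊆ H) (hRH : R ⊆ H)
    (hR₀ : IsOpen R₀) (hdis : Disjoint R R₀) (hcov : H \ D ⊆ R ∪ R₀) : PropC (D ∪ R) := by
  intro B O hB hO h
  have hBH := hole_subset_H (union_subset hDH hRH) hB hO h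
  apply hD B (O ∩ R₀) hB (hO.inter hR₀)
  apply Subset.antisymm
  · rintro z ⟨⟨h1, h2⟩, h3⟩
    rw [← h]
    exact ⟨h1, fun hh => hh.elim h3 fun h4 => disjoint_left.1 hdis h4 h2⟩
  · intro z hz
    have hz' : z ∈ O \ (D ∪ R) := h ▸ hz
    have h3 : z ∉ D := fun hh => hz'.2 (Or.inl hh)
    exact ⟨⟨hz'.1, (hcov ⟨hBH hz, h3⟩).resolve_left fun hh => hz'.2 (Or.inr hh)⟩, h3⟩

lemma PropC.component {U : Set ℂ} (hU : IsOpen U) (hC : PropC U) (x : ℂ) :
    PropC (connectedComponentIn U x) := by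
  intro B O hB hO h
  have h1 : O \ U = ∅ := by
    apply hC _ O _ hO rfl
    have : O \ U = B ∩ Uᶜ := by
      rw [← h]
      ext z
      exact ⟨fun hz => ⟨⟨hz.1, fun hh => hz.2 (connectedComponentIn_subset _ _ hh)⟩, hz.2⟩,
        fun hz => ⟨hz.1.1, hz.2⟩⟩
    rw [this]
    exact hB.inter_right hU.isClosed_compl
  have h2 : O ⊆ U := sdiff_eq_empty.1 h1
  apply eq_empty_of_isOpen_isCompact _ hB
  rw [← h, isOpen_iff_mem_nhds]
  rintro y ⟨hy1, hy2⟩
  filter_upwards [hO.mem_nhds hy1, connectedComponentIn_mem_nhds (hU.mem_nhds (h2 hy1))]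
    with z hz1 hz2
  refine ⟨hz1, fun hz3 => hy2 ?_⟩
  rw [connectedComponentIn_eq hz3, ← connectedComponentIn_eq hz2]
  exact mem_connectedComponentIn (h2 hy1)

/-- A compact relatively open part of the complement. -/
def IsHole (U B : Set ℂ) : Prop := IsCompact B ∧ ∃ O, IsOpen O ∧ O \ U = B

/-- `U` together with all its holes. -/
def fill (U : Set ℂ) : Set ℂ := U ∪ ⋃₀ {B | IsHole U B}

lemma IsHole.union {U B B' : Set ℂ} (h : IsHole U B) (h' : IsHole U B') : IsHole U (B ∪ B') := by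
  obtain ⟨h1, O, h2, rfl⟩ := h
  obtain ⟨h1', O', h2', rfl⟩ := h'
  exact ⟨h1.union h1', O ∪ O', h2.union h2', union_sdiff_distrib⟩

lemma exists_hole_of_isCompact {U K : Set ℂ} (hU : IsOpen U) (hK : IsCompact K)
    (hKU : K ⊆ fill U) : ∃ B, IsHole U B ∧ K \ U ⊆ B := by
  have he : IsHole U ∅ := ⟨isCompact_empty, ∅, isOpen_empty, by simp⟩
  refine hK.induction_on (p := fun K => ∃ B, IsHole U B ∧ K \ U ⊆ B) ⟨∅, he, by simp⟩ ?_ ?_ ?_
  · rintro s t hst ⟨B, hB, h⟩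
    exact ⟨B, hB, (sdiff_subset_sdiff_left hst).trans h⟩
  · rintro s t ⟨B, hB, h⟩ ⟨B', hB', h'⟩
    exact ⟨B ∪ B', hB.union hB', by rw [union_sdiff_distrib]; exact union_subset_union h h'⟩
  · intro x hx
    rcases hKU hx with h | ⟨B, hB, h⟩
    · exact ⟨U, mem_nhdsWithin_of_mem_nhds (hU.mem_nhds h), ∅, he, by simp⟩
    · obtain ⟨O, hO, e⟩ := hB.2
      exact ⟨O, mem_nhdsWithin_of_mem_nhds (hO.mem_nhds (e ▸ h : x ∈ O \ U).1), B, hB, e.le⟩

lemma isOpen_fill {U : Set ℂ} (hU : IsOpen U) : IsOpen (fill U) := by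
  rw [isOpen_iff_mem_nhds]
  rintro x (h | ⟨B, hB, h⟩)
  · exact mem_of_superset (hU.mem_nhds h) subset_union_left
  · obtain ⟨O, hO, e⟩ := hB.2
    filter_upwards [hO.mem_nhds (e ▸ h : x ∈ O \ U).1] with y hy
    by_cases h' : y ∈ U
    · exact Or.inl h'
    · exact Or.inr ⟨B, hB, e ▸ ⟨hy, h'⟩⟩

lemma fill_subset_H {U : Set ℂ} (hU : U ⊆ H) : fill U ⊆ H := by
  rintro x (h | ⟨B, ⟨hB, O, hO, e⟩, h⟩)
  · exact hU h
  · exact hole_subset_H hU hB hO e h

lemma propC_fill {U : Set ℂ} (hU : IsOpen U) : PropC (fill U) := by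
  intro B O hB hO h
  obtain ⟨V, hVo, hBV, hVO, hVc⟩ := exists_open_between_and_isCompact_closure hB hO
    (h ▸ sdiff_subset)
  obtain ⟨B', hB', hsub⟩ := exists_hole_of_isCompact hU (hVc.diff hVo) (by
    rintro z ⟨h1, h2⟩
    by_contra h3
    exact h2 (hBV (h ▸ ⟨hVO h1, h3⟩)))
  obtain ⟨hB'c, O', hO', e⟩ := hB'
  have hh : IsHole U ((V ∪ O') \ U) := by
    refine ⟨?_, V ∪ O', hVo.union hO', rfl⟩
    have : (V ∪ O') \ U = (closure V \ U) ∪ B' := by
      apply Subset.antisymm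
      · rintro z ⟨h1 | h1, h2⟩
        · exact Or.inl ⟨subset_closure h1, h2⟩
        · exact Or.inr (e ▸ ⟨h1, h2⟩)
      · rintro z (⟨h1, h2⟩ | h1)
        · by_cases h3 : z ∈ V
          · exact ⟨Or.inl h3, h2⟩
          · exact ⟨Or.inr (e ▸ hsub ⟨⟨h1, h3⟩, h2⟩ : z ∈ O' \ U).1, h2⟩
        · have : z ∈ O' \ U := e ▸ h1
          exact ⟨Or.inr this.1, this.2⟩
    rw [this]
    exact (hVc.diff hU).union hB'c
  apply eq_empty_of_forall_notMem
  intro z hz
  have hz' : z ∈ O \ fill U := h ▸ hz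
  exact hz'.2 (Or.inr ⟨_, hh, Or.inl (hBV hz), fun h' => hz'.2 (Or.inl h')⟩)

lemma not_subset_fill {D : Set ℂ} (hDo : IsOpen D) (hD : PropC D) {a : ℂ} (ha : a ∉ D) {ε : ℝ}
    (hε : 0 < ε) : ¬ closedBall a ε ⊆ fill (D ∪ ball a ε) := by
  intro hsub
  obtain ⟨B, ⟨hBc, O, hO, e⟩, hB⟩ := exists_hole_of_isCompact (hDo.union isOpen_ball)
    (isCompact_closedBall a ε) hsub
  have : (O ∪ ball a ε) \ D = ∅ := by
    apply hD _ _ _ (hO.union isOpen_ball) rfl
    have : (O ∪ ball a ε) \ D = B ∪ (closedBall a ε \ D) := by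
      apply Subset.antisymm
      · rintro z ⟨h1, h2⟩
        by_cases h3 : z ∈ ball a ε
        · exact Or.inr ⟨ball_subset_closedBall h3, h2⟩
        · exact Or.inl (e ▸ ⟨h1.resolve_right h3, fun h => h.elim h2 h3⟩)
      · rintro z (h1 | ⟨h1, h2⟩)
        · have : z ∈ O \ (D ∪ ball a ε) := e ▸ h1
          exact ⟨Or.inl this.1, fun h => this.2 (Or.inl h)⟩
        · by_cases h3 : z ∈ ball a ε
          · exact ⟨Or.inr h3, h2⟩
          · have : z ∈ O \ (D ∪ ball a ε) := e ▸ hB ⟨h1, fun h => h.elim h2 h3⟩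
            exact ⟨Or.inl this.1, h2⟩
    rw [this]
    exact hBc.union ((isCompact_closedBall a ε).diff hDo)
  have h2 : a ∈ (O ∪ ball a ε) \ D := ⟨Or.inr (mem_ball_self hε), ha⟩
  rw [this] at h2
  exact h2

lemma mem_component_of_closure {U D : Set ℂ} (hD : IsPreconnected D) (hDU : D ⊆ U) {z₀ a : ℂ}
    (hz₀ : z₀ ∈ D) (haU : a ∈ U) (ha : a ∈ closure D) : a ∈ connectedComponentIn U z₀ := by
  have h1 : IsPreconnected (insert a D) :=
    hD.subset_closure (subset_insert _ _) (insert_subset ha subset_closure)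
  exact h1.subset_connectedComponentIn (mem_insert_of_mem _ hz₀) (insert_subset haU hDU)
    (mem_insert _ _)

/-- Riemann mapping theorem for subdomains of the half-plane. -/
theorem exists_univ_image_eq {U : Set ℂ} (hU : IsOpen U) (hc : IsPreconnected U) (hC : PropC U)
    (hUH : U ⊆ H) {z₀ : ℂ} (hz₀ : z₀ ∈ U) : ∃ ψ, Univ ψ ∧ ψ '' H = U := by
  have hci : InjOn (cay I) H := fun z hz w hw e => by
    rw [← cayInv_cay I_mem_H hz, e, cayInv_cay I_mem_H hw]
  obtain ⟨f, hf, hi, him⟩ := riemann_mapping hU hc hC hz₀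
    ((differentiableOn_cay I_mem_H).mono hUH) (hci.mono hUH) ((mapsTo_cay I_mem_H).mono_left hUH)
  obtain ⟨g, hg, hgf⟩ := exists_inverse hU hf hi
  rw [him] at hg
  have hgm : ∀ u ∈ ball (0 : ℂ) 1, g u ∈ U ∧ f (g u) = u := by
    intro u hu
    rw [← him] at hu
    obtain ⟨z, hz, rfl⟩ := hu
    rw [hgf z hz]
    exact ⟨hz, rfl⟩
  refine ⟨fun z => g (cay I z), ⟨⟨hg.comp (differentiableOn_cay I_mem_H) (mapsTo_cay I_mem_H),
    fun z hz => hUH (hgm _ (mapsTo_cay I_mem_H hz)).1⟩, fun z hz w hw e => hci hz hw ?_⟩, ?_⟩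
  · rw [← (hgm _ (mapsTo_cay I_mem_H hz)).2, ← (hgm _ (mapsTo_cay I_mem_H hw)).2]
    exact congrArg f e
  · apply Subset.antisymm
    · rintro _ ⟨z, hz, rfl⟩
      exact (hgm _ (mapsTo_cay I_mem_H hz)).1
    · intro z hz
      have h1 : f z ∈ ball (0 : ℂ) 1 := him ▸ mem_image_of_mem f hz
      refine ⟨cayInv I (f z), mapsTo_cayInv I_mem_H h1, ?_⟩
      simp only
      rw [cay_cayInv I_mem_H (mem_ball_zero_iff.1 h1), hgf z hz]

/-- A univalent map factors through any univalent map with larger image. -/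
lemma exists_factor {g ψ : ℂ → ℂ} (hg : Univ g) (hψ : Univ ψ) (h : g '' H ⊆ ψ '' H) :
    ∃ h, Univ h ∧ ∀ z ∈ H, ψ (h z) = g z := by
  obtain ⟨f, hf, hfψ⟩ := exists_inverse isOpen_H hψ.diff hψ.inj
  have key : ∀ z ∈ H, f (g z) ∈ H ∧ ψ (f (g z)) = g z := by
    intro z hz
    obtain ⟨w, hw, e⟩ := h ⟨z, hz, rfl⟩
    rw [← e, hfψ w hw]
    exact ⟨hw, rfl⟩
  refine ⟨fun z => f (g z), ⟨⟨hf.comp hg.diff fun z hz => h ⟨z, hz, rfl⟩, fun z hz => (key z hz).1⟩,
    fun z hz w hw e => hg.inj hz hw ?_⟩, fun z hz => (key z hz).2⟩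
  rw [← (key z hz).2, ← (key w hw).2]
  exact congrArg ψ e

end Pool.Agent.MP_1a2790_an

end

section

/-! The rectangle inequality. -/

open Complex Set Filter Topology Metric MeasureTheory

namespace Pool.Agent.MP_1a2790_an

lemma continuous_horizontal {p : ℂ → ℂ} (hp : ContinuousOn p H) {y : ℝ} (hy : 0 < y) :
    Continuous fun x : ℝ => p (x + y * I) :=
  hp.comp_continuous (by fun_prop) fun x => add_mul_I_mem_H x hy

lemma continuousOn_vertical {p : ℂ → ℂ} (hp : ContinuousOn p H) (x : ℝ) :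
    ContinuousOn (fun y : ℝ => p (x + y * I)) (Ioi 0) :=
  hp.comp (by fun_prop) fun _ hy => add_mul_I_mem_H x hy

lemma rect_identity {p : ℂ → ℂ} (hp : DifferentiableOn ℂ p H) (x₁ x₂ : ℝ) {ε δ : ℝ} (hε : 0 < ε)
    (hεδ : ε ≤ δ) :
    (∫ x in x₁..x₂, (p (x + δ * I)).im) - (∫ x in x₁..x₂, (p (x + ε * I)).im) =
      ∫ y in ε..δ, ((p (x₂ + y * I)).re - (p (x₁ + y * I)).re) := by
  have hδ : 0 < δ := hε.trans_le hεδ
  have key := Complex.integral_boundary_rect_eq_zero_of_differentiableOn p ⟨x₁, ε⟩ ⟨x₂, δ⟩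
    (hp.mono fun z hz => by
      have h := hz.2
      simp only [mem_preimage, uIcc_of_le hεδ] at h
      exact hε.trans_le h.1)
  have iv : ∀ x : ℝ, IntervalIntegrable (fun y : ℝ => p (x + y * I)) volume ε δ := fun x =>
    ((continuousOn_vertical hp.continuousOn x).mono (by
      rw [uIcc_of_le hεδ]; exact fun y hy => hε.trans_le hy.1)).intervalIntegrable
  have i1 := (Complex.imCLM.intervalIntegral_comp_comm
    ((continuous_horizontal hp.continuousOn hε).intervalIntegrable (μ := volume) x₁ x₂))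
  have i2 := (Complex.imCLM.intervalIntegral_comp_comm
    ((continuous_horizontal hp.continuousOn hδ).intervalIntegrable (μ := volume) x₁ x₂))
  have i3 := Complex.reCLM.intervalIntegral_comp_comm (iv x₁)
  have i4 := Complex.reCLM.intervalIntegral_comp_comm (iv x₂)
  simp only [imCLM_apply, reCLM_apply] at i1 i2 i3 i4
  have ir : ∀ x : ℝ, IntervalIntegrable (fun y : ℝ => (p (x + y * I)).re) volume ε δ := fun x =>
    (Complex.continuous_re.comp_continuousOn ((continuousOn_vertical hp.continuousOn x).mono (by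
      rw [uIcc_of_le hεδ]; exact fun y hy => hε.trans_le hy.1))).intervalIntegrable
  rw [intervalIntegral.integral_sub (ir x₂) (ir x₁), i1, i2, i3, i4]
  have := congrArg Complex.im key
  simp only [sub_im, add_im, smul_eq_mul, mul_im, I_re, zero_mul, I_im, one_mul, zero_add,
    zero_im] at this
  linarith

lemma rect_ineq {p : ℂ → ℂ} (hp : DifferentiableOn ℂ p H) {x₁ x₂ δ M η : ℝ} (hx : x₁ ≤ x₂)
    (hδ : 0 < δ) (hM : ∀ x ∈ Icc x₁ x₂, ∀ y ∈ Ioc 0 δ, |(p (x + y * I)).im| ≤ M)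
    (h0 : ∀ x ∈ Ioo x₁ x₂, Tendsto (fun y : ℝ => (p (x + y * I)).im) (𝓝[>] 0) (𝓝 0))
    (hη : ∀ y ∈ Ioc 0 δ, (p (x₂ + y * I)).re - (p (x₁ + y * I)).re ≤ η) :
    ∫ x in x₁..x₂, (p (x + δ * I)).im ≤ η * δ := by
  have hev : ∀ᶠ ε in 𝓝[>] (0 : ℝ), ε ∈ Ioc 0 δ := Ioc_mem_nhdsGT hδ
  have t1 : Tendsto (fun ε : ℝ => ∫ x in x₁..x₂, (p (x + ε * I)).im) (𝓝[>] 0)
      (𝓝 (∫ _ in x₁..x₂, (0 : ℝ))) := by
    apply intervalIntegral.tendsto_integral_filter_of_dominated_convergence (fun _ => M)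
    · filter_upwards [hev] with ε hε
      exact (Complex.continuous_im.comp
        (continuous_horizontal hp.continuousOn hε.1)).aestronglyMeasurable
    · filter_upwards [hev] with ε hε
      refine Eventually.of_forall fun x hx' => ?_
      rw [uIoc_of_le hx] at hx'
      exact hM x (Ioc_subset_Icc_self hx') ε hε
    · exact intervalIntegrable_const
    · filter_upwards [(countable_singleton x₂).ae_notMem volume] with x hx2 hx'
      rw [uIoc_of_le hx] at hx'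
      exact h0 x ⟨hx'.1, lt_of_le_of_ne hx'.2 hx2⟩
  simp only [intervalIntegral.integral_zero] at t1
  have t2 : Tendsto (fun ε : ℝ => η * (δ - ε) + ∫ x in x₁..x₂, (p (x + ε * I)).im) (𝓝[>] 0)
      (𝓝 (η * (δ - 0) + 0)) := by
    refine Tendsto.add (Tendsto.mono_left ?_ nhdsWithin_le_nhds) t1
    exact Continuous.tendsto (by fun_prop) 0
  simp only [sub_zero, add_zero] at t2
  refine ge_of_tendsto t2 (hev.mono fun ε hε => ?_)
  have h1 := rect_identity hp x₁ x₂ hε.1 hε.2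
  have ir : ∀ x : ℝ, IntervalIntegrable (fun y : ℝ => (p (x + y * I)).re) volume ε δ := fun x =>
    (Complex.continuous_re.comp_continuousOn ((continuousOn_vertical hp.continuousOn x).mono (by
      rw [uIcc_of_le hε.2]; exact fun y hy => hε.1.trans_le hy.1))).intervalIntegrable
  have h2 := intervalIntegral.integral_mono_on hε.2 ((ir x₂).sub (ir x₁))
    (intervalIntegrable_const (c := η)) fun y hy => hη y ⟨hε.1.trans_le hy.1, hy.2⟩
  simp only [intervalIntegral.integral_const, smul_eq_mul] at h2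
  linarith

end Pool.Agent.MP_1a2790_an

end
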